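import Pool.Agent.T2H60.SX.StmH

/-!
# SX: final assembly from the packages HA, HG, GCh, AH, AM
-/

set_option autoImplicit false
open Matrix Classical Finset

namespace Pool.Agent.T2H60.SX

theorem final (hHA : HA) (hHG : HG) (hGCh : GCh) (hAH : AH) (hAM : AM) :
    ¬ (∀ Δ : ℕ, 3 ≤ Δ → ∃ N : ℕ, ∀ n : ℕ, N ≤ n →
      ∀ G : SimpleGraph (Fin n),
        G.Connected → G.maxDegree = Δ → (∃ u v : Fin n, G.degree u ≠ G.degree v) →
        (∀ H : SimpleGraph (Fin n),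
          H.Connected → H.maxDegree = Δ → (∃ u v : Fin n, H.degree u ≠ H.degree v) →
          sSup {r : ℝ | ∃ x : Fin n → ℝ, x ⬝ᵥ x = 1 ∧ r = x ⬝ᵥ (H.adjMatrix ℝ *ᵥ x)} ≤
          sSup {r : ℝ | ∃ x : Fin n → ℝ, x ⬝ᵥ x = 1 ∧ r = x ⬝ᵥ (G.adjMatrix ℝ *ᵥ x)}) →
        ∃ v : Fin n,
          G.degree v = (if Odd Δ then (if Odd n then Δ - 1 else 1) else Δ - 2) ∧
          ∀ u : Fin n, u ≠ v → G.degree u = Δ) := by
  intro hconj
  -- the maximum degree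
  obtain ⟨D, hD14, hDev⟩ : ∃ D : ℕ, 10 ^ 14 ≤ D ∧ Even D := ⟨10 ^ 14, le_rfl, by decide⟩
  have hD3 : 3 ≤ D := by omega
  obtain ⟨N1, hN1⟩ := hconj D hD3
  obtain ⟨N2, hN2⟩ := hAH D hD14
  obtain ⟨N3, hN3⟩ := hAM D hD14
  -- choose NA large
  set NA : ℕ := N1 + N2 + N3 + 3 * D ^ 3 with hNA
  set n : ℕ := (NA + 1) * (D + 1) + 2 with hn
  have hnN1 : N1 ≤ n := by
    have : NA ≤ (NA + 1) * (D + 1) := by nlinarith
    omega
  have hnN2 : N2 ≤ n := by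
    have : NA ≤ (NA + 1) * (D + 1) := by nlinarith
    omega
  have hnN3 : N3 ≤ n := by
    have : NA ≤ (NA + 1) * (D + 1) := by nlinarith
    omega
  have hn3 : 3 * D ^ 3 ≤ n := by
    have : NA ≤ (NA + 1) * (D + 1) := by nlinarith
    omega
  have hmod : n % (D + 1) = 2 := by
    rw [hn, Nat.mul_comm, Nat.mul_add_mod]
    exact Nat.mod_eq_of_lt (by omega)
  have hdiv : (n - 2) / (D + 1) - 1 = NA := by
    rw [hn, Nat.add_sub_cancel, Nat.mul_div_cancel _ (by omega)]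
    omega
  obtain ⟨A, hAc, hAm, ⟨v2, hv2⟩, hAs⟩ := hHA D NA n hD14 hDev hn
  have hnpos : 0 < n := by omega
  have : Nonempty (Fin n) := ⟨⟨0, hnpos⟩⟩
  -- A is nonregular: it has a vertex of degree D
  have hAnr : ∃ u v : Fin n, A.degree u ≠ A.degree v := by
    obtain ⟨w, hw⟩ := A.exists_maximal_degree_vertex
    refine ⟨w, v2, ?_⟩
    rw [hv2, ← hw, hAm]
    omega
  -- extremal graph
  let T : Set (SimpleGraph (Fin n)) :=
    {G | G.Connected ∧ G.maxDegree = D ∧ ∃ u v : Fin n, G.degree u ≠ G.degree v}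
  have hTf : T.Finite := Set.toFinite T
  obtain ⟨H, hHT, hHmax⟩ := Set.exists_max_image T (fun G => specS G) hTf ⟨A, hAc, hAm, hAnr⟩
  have hdeg := hN1 n hnN1 H hHT.1 hHT.2.1 hHT.2.2 (fun K h1 h2 h3 => hHmax K ⟨h1, h2, h3⟩)
  have hodd : ¬ Odd D := by
    rw [Nat.not_odd_iff_even]
    exact hDev
  rw [if_neg hodd] at hdeg
  obtain ⟨hlt, hSG⟩ := hHG D n hD14 hDev H hHT.1 hdeg
  have hDr : (10 : ℝ) ^ 14 ≤ (D : ℝ) := by exact_mod_cast hD14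
  have hDpos : (0 : ℝ) < (D : ℝ) - 2 := by linarith [show (2 : ℝ) < 10 ^ 14 by norm_num]
  have hnr : (0 : ℝ) < (n : ℝ) := by exact_mod_cast hnpos
  -- the value of th
  have hfrac : 0 < ((D : ℝ) - specS H) / (2 * ((D : ℝ) - 2)) := by
    apply div_pos <;> linarith
  set th : ℝ := Real.sqrt (((D : ℝ) - specS H) / (2 * ((D : ℝ) - 2))) with hth
  have hth0 : 0 < th := Real.sqrt_pos.mpr hfrac
  have hth2 : th ^ 2 = ((D : ℝ) - specS H) / (2 * ((D : ℝ) - 2)) := Real.sq_sqrt hfrac.le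
  have hspec : specS H = (D : ℝ) - 2 * ((D : ℝ) - 2) * th ^ 2 := by
    rw [hth2]
    field_simp
    ring
  -- the comparison at 14/5/n
  have h1 : (0 : ℝ) < 14 / 5 / (n : ℝ) := by positivity
  have hn3r : 3 * (D : ℝ) ^ 3 ≤ (n : ℝ) := by exact_mod_cast hn3
  have h2 : (D : ℝ) ^ 6 * (14 / 5 / (n : ℝ)) ^ 2 ≤ 1 := by
    have h3 : (D : ℝ) ^ 3 * (14 / 5 / (n : ℝ)) ≤ 1 := by
      rw [← mul_div_assoc, div_le_one hnr]
      nlinarith [pow_pos (show (0 : ℝ) < D by linarith) 3]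
    have h4 : 0 ≤ (D : ℝ) ^ 3 * (14 / 5 / (n : ℝ)) := by positivity
    calc (D : ℝ) ^ 6 * (14 / 5 / (n : ℝ)) ^ 2 = ((D : ℝ) ^ 3 * (14 / 5 / (n : ℝ))) ^ 2 := by ring
      _ ≤ 1 := pow_le_one₀ h4 h3
  have h3 := hN2 n hnN2 hmod
  rw [hdiv] at h3
  have h4 := hAs _ h1 h2 h3
  have h5 : specS A ≤ specS H := hHmax A ⟨hAc, hAm, hAnr⟩
  have h6 : th ^ 2 ≤ (14 / 5 / (n : ℝ)) ^ 2 := by
    have : (D : ℝ) - 2 * ((D : ℝ) - 2) * (14 / 5 / (n : ℝ)) ^ 2 ≤ (D : ℝ) - 2 * ((D : ℝ) - 2) * th ^ 2 := by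
      rw [← hspec]; linarith
    have h7 : ((D : ℝ) - 2) * th ^ 2 ≤ ((D : ℝ) - 2) * (14 / 5 / (n : ℝ)) ^ 2 := by linarith
    exact le_of_mul_le_mul_left h7 hDpos
  have h7 : th ≤ 14 / 5 / (n : ℝ) := by
    exact (pow_le_pow_iff_left₀ hth0.le h1.le (by norm_num)).mp h6
  have h8 : th * n ≤ 14 / 5 := by
    rw [le_div_iff₀ hnr] at h7
    exact h7
  have h9 : (D : ℝ) ^ 6 * th ^ 2 ≤ 1 := by
    refine le_trans ?_ h2
    exact mul_le_mul_of_nonneg_left h6 (by positivity)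
  obtain ⟨e, x, hsg⟩ := hSG th hth0 h9 hspec
  have hnD : D + 1 ≤ n := by
    rw [hn]; nlinarith
  have hch := hGCh D n e x th hsg hnD
  have h10 := hN3 n hnN3 hmod th _ _ hch h8
  rw [hdiv] at h10
  have h11 := hAs th hth0 h9 h10
  rw [← hspec] at h11
  -- A is extremal too
  have hAext : ∀ K : SimpleGraph (Fin n), K.Connected → K.maxDegree = D →
      (∃ u v : Fin n, K.degree u ≠ K.degree v) → specS K ≤ specS A :=
    fun K k1 k2 k3 => (hHmax K ⟨k1, k2, k3⟩).trans h11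
  obtain ⟨v, hv, hv'⟩ := hN1 n hnN1 A hAc hAm hAnr hAext
  rw [if_neg hodd] at hv
  by_cases hc : v2 = v
  · rw [← hc, hv2] at hv
    omega
  · have := hv' v2 hc
    rw [hv2] at this
    omega

end Pool.Agent.T2H60.SX
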