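import Pool.Agent.T2H60.SX.Stm

/-!
# SX, package BL: the bulk claims
-/

set_option autoImplicit false
open Finset

namespace Pool.Agent.T2H60.SX

lemma BL_al0 {D : ℕ} (hD : 10 ^ 14 ≤ D) (τ : Ty) : 0 ≤ al D τ ∧ al D τ ≤ D := by
  have hDr : (10 : ℝ) ^ 14 ≤ (D : ℝ) := by exact_mod_cast hD
  have hD3 : (3 : ℝ) ≤ (D : ℝ) := le_trans (by norm_num) hDr
  cases τ <;> simp only [al] <;> constructor <;> linarith

/-- facts about the frames at a given `th` -/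
structure BLF0 (D : ℕ) (th CX : ℝ) : Prop where
  th0 : 0 < th
  hx1 : |chi D th / ((D : ℝ) + 1) - th| ≤ CX * th ^ 3
  hx2 : 0 < chi D th
  hx3 : chi D th < 1 / 10
  hx4 : ∀ τ : Ty, τ.is2 → 0 < bq D th τ ∧ 0 ≤ ed D th τ
  hrot : ∀ τ : Ty, τ.is2 → ∀ r ψ : ℝ, Mx D th τ (r * Real.cos ψ, r * hZ D th τ ψ)
    = (r * Real.cos (ψ + chi D th), r * hZ D th τ (ψ + chi D th))
  hdet : ∀ τ : Ty, ∀ v w : ℝ × ℝ, (Mx D th τ v).1 * (Mx D th τ w).2 - (Mx D th τ v).2 * (Mx D th τ w).1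
    = v.1 * w.2 - v.2 * w.1

lemma BL_rotate {D : ℕ} {th CX : ℝ} (hD : 10 ^ 14 ≤ D) (h : BLF0 D th CX) (τ : Ty) (h2 : τ.is2) (t' C u' Y' u Y : ℝ)
    (hM : (u, th * Y) = Mx D th τ (u', th * Y')) (hc : Cl D th τ t' C u' Y') :
    Cl D th τ (t' + ((D : ℝ) + 1)) C u Y := by
  have hDr : (10 : ℝ) ^ 14 ≤ (D : ℝ) := by exact_mod_cast hD
  have hD3 : (3 : ℝ) ≤ (D : ℝ) := le_trans (by norm_num) hDr
  unfold Cl at hc ⊢
  have hps : psi D th τ (t' + ((D : ℝ) + 1)) C = psi D th τ t' C + chi D th := by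
    unfold psi
    have : (D : ℝ) + 1 ≠ 0 := by linarith
    field_simp
    ring
  rw [hps]
  have h3 := h.hrot τ h2 1 (psi D th τ t' C)
  simp only [one_mul] at h3
  have h4 := h.hdet τ (u', th * Y') (Real.cos (psi D th τ t' C), hZ D th τ (psi D th τ t' C))
  rw [h3, ← hM] at h4
  simp only at h4
  linarith

lemma BL_trv {D : ℕ} {th CX : ℝ} (hD : 10 ^ 14 ≤ D) (h : BLF0 D th CX) (τ : Ty) (ψ u Y : ℝ) (h1 : Real.pi / 2 ≤ ψ)
    (h2 : ψ ≤ 3) (hu : 0 ≤ u) (hY : 0 ≤ Y) : th * Y * Real.cos ψ ≤ u * hZ D th τ ψ := by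
  have hpi := Real.pi_gt_three
  have hc : Real.cos ψ ≤ 0 := Real.cos_nonpos_of_pi_div_two_le_of_le h1 (by linarith)
  have hs : 0 ≤ Real.sin ψ := Real.sin_nonneg_of_nonneg_of_le_pi (by linarith) (by linarith)
  have hth := h.th0
  have hsx : 0 ≤ Real.sin (chi D th) :=
    Real.sin_nonneg_of_nonneg_of_le_pi h.hx2.le (by linarith [h.hx3])
  have hz : 0 ≤ hZ D th τ ψ := by
    have hal := (BL_al0 hD τ).1
    cases τ with
    | pl =>
      obtain ⟨hb, he⟩ := h.hx4 Ty.pl (Or.inl rfl)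
      simp only [hZ]
      apply div_nonneg _ hb.le
      have h3 := mul_nonneg hsx hs
      have h4 : ed D th Ty.pl * Real.cos ψ ≤ 0 := mul_nonpos_of_nonneg_of_nonpos he hc
      linarith
    | mi =>
      obtain ⟨hb, he⟩ := h.hx4 Ty.mi (Or.inr rfl)
      simp only [hZ]
      apply div_nonneg _ hb.le
      have h3 := mul_nonneg hsx hs
      have h4 : ed D th Ty.mi * Real.cos ψ ≤ 0 := mul_nonpos_of_nonneg_of_nonpos he hc
      linarith
    | fo =>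
      simp only [hZ]
      have h4 : th * al D Ty.fo * Real.cos ψ ≤ 0 := mul_nonpos_of_nonneg_of_nonpos (by positivity) hc
      linarith
    | ce => simpa only [hZ] using hs
  have h5 : th * Y * Real.cos ψ ≤ 0 := mul_nonpos_of_nonneg_of_nonpos (by positivity) hc
  have h6 : 0 ≤ u * hZ D th τ ψ := mul_nonneg hu hz
  linarith

/-- the step inequality for a given `th` -/
def BLS (D : ℕ) (th sg s1 : ℝ) : Prop :=
  ∀ (τ' τ : Ty) (m a c G : ℝ), 0 ≤ m → m ≤ 2 * ((D : ℝ) + 1) →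
    0 ≤ a → a ≤ 2 * (D : ℝ) → 0 ≤ c → c ≤ 3 → 0 ≤ G → G ≤ 3 * (D : ℝ) ^ 2 →
    1 / (D : ℝ) ≤ m + al D τ - al D τ' - a - c →
    ∀ ψ' ψ sg' : ℝ, 0 ≤ sg' → sg' ≤ sg → th * s1 ≤ ψ' → ψ < Real.pi / 2 →
    ψ = ψ' + chi D th / ((D : ℝ) + 1) * m + th * (al D τ - al D τ') - sg' * th ^ 3 →
    0 < hZ D th τ' ψ' ∧ 0 < hZ D th τ ψ ∧ 0 < Real.cos ψ' - th * c * hZ D th τ' ψ' ∧ 0 < Real.cos ψ' ∧
    Real.cos ψ * (hZ D th τ' ψ' + th * m * (Real.cos ψ' - th * c * hZ D th τ' ψ')) ≤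
      hZ D th τ ψ * ((1 - th ^ 2 * G) * (Real.cos ψ' - th * c * hZ D th τ' ψ') - th * a * hZ D th τ' ψ')

lemma BL_step (hFA : FA) {D : ℕ} {th CX sg s1 : ℝ} (hD : 10 ^ 14 ≤ D) (h : BLF0 D th CX) (hS : BLS D th sg s1)
    (τ' τ : Ty) (m a c G : ℝ) (hm0 : 0 ≤ m) (hm : m ≤ 2 * ((D : ℝ) + 1)) (ha0 : 0 ≤ a) (ha : a ≤ 2 * (D : ℝ))
    (hc0 : 0 ≤ c) (hc : c ≤ 3) (hG0 : 0 ≤ G) (hG : G ≤ 3 * (D : ℝ) ^ 2)
    (hl : 1 / (D : ℝ) ≤ m + al D τ - al D τ' - a - c) (t' Cs Cf u' Y' u Y : ℝ) (hCf : Cf ≤ Cs) (hCs : Cs - Cf ≤ sg)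
    (hs1 : th * s1 ≤ psi D th τ' t' Cs) (hu' : 0 ≤ u') (hu : 0 ≤ u) (hY' : 0 < Y') (hY : 0 < Y)
    (hp0 : 0 < psi D th τ (t' + m) Cf) (hp3 : psi D th τ (t' + m) Cf ≤ 3)
    (hMS1 : u' ≤ u + th ^ 2 * (a * Y + c * Y')) (hMS2 : Y ≤ Y' + m * u + th ^ 2 * G * Y)
    (hcl : Cl D th τ' t' Cs u' Y') : Cl D th τ (t' + m) Cf u Y := by
  unfold Cl at hcl ⊢
  by_cases hpi : Real.pi / 2 ≤ psi D th τ (t' + m) Cf
  · exact BL_trv hD h τ _ u Y hpi hp3 hu hY.le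
  · push Not at hpi
    have e1 : psi D th τ (t' + m) Cf = psi D th τ' t' Cs + chi D th / ((D : ℝ) + 1) * m
        + th * (al D τ - al D τ') - (Cs - Cf) * th ^ 3 := by
      unfold psi; ring
    obtain ⟨h1, h2, h3, h4, h5⟩ := hS τ' τ m a c G hm0 hm ha0 ha hc0 hc hG0 hG hl _ _ (Cs - Cf) (by linarith) hCs hs1 hpi e1
    have hU : 0 < Real.cos (psi D th τ (t' + m) Cf) :=
      Real.cos_pos_of_mem_Ioo ⟨by linarith [Real.pi_pos], hpi⟩
    exact hFA th m a c G u' Y' u Y _ _ _ _ h.th0 hm0 ha0 hc0 hG0 hu' hY' hu hY hU h2 h4 h1 h3 h5 hMS1 hMS2 hcl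

/-- one step of the chain, from the claim with constant `Cs` to the claim with constant `Cf` -/
lemma BL_chain (hFA : FA) (hNT : NT) {D N : ℕ} {th CX sg s1 : ℝ} {S : ℕ → Ty → ℝ → Prop} {Y : ℕ → ℝ}
    (hD : 10 ^ 14 ≤ D) (h : BLF0 D th CX) (hS : BLS D th sg s1) (hch : Ch D N th S Y)
    (Cs Cf : ℝ) (hCf : Cf ≤ Cs) (hCs : Cs - Cf ≤ sg) (t t' : ℕ) (τ τ' : Ty) (u u' : ℝ) (hlt : t' < t)
    (hst : S t τ u) (hst' : S t' τ' u')
    (hstep : (τ = Ty.pl ∧ τ'.is2 ∧ t = t' + (D + 1) ∧ (u, th * Y t) = M1 D th (u', th * Y t')) ∨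
     (τ = Ty.mi ∧ τ' = Ty.mi ∧ t = t' + (D + 1) ∧ (u, th * Y t) = M2 D th (u', th * Y t')) ∨
     (∃ a c G, Tr D τ' τ (t - t') a c G ∧ MS th (t - t') a c G u' (Y t') u (Y t)))
    (hid : Cf = Cs ∨ (τ = Ty.pl ∧ ¬ (τ' = Ty.pl ∧ t = t' + (D + 1))))
    (hs1 : th * s1 ≤ psi D th τ' t' Cs) (hp0' : 0 < psi D th Ty.pl t' Cf) (hp0 : 0 < psi D th τ t Cf)
    (hp3 : psi D th τ t Cf ≤ 3) (hcl : Cl D th τ' t' Cs u' (Y t')) : Cl D th τ t Cf u (Y t) := by
  have hDr : (10 : ℝ) ^ 14 ≤ (D : ℝ) := by exact_mod_cast hD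
  have hD3 : (3 : ℝ) ≤ (D : ℝ) := le_trans (by norm_num) hDr
  have hu := hch.unn t τ u hst
  have hu' := hch.unn t' τ' u' hst'
  have ht' := (hch.rng t' τ' u' hst').1
  have hY : 0 < Y t := hch.Yp t (by omega)
  have hY' : 0 < Y t' := hch.Yp t' (by omega)
  rcases hstep with ⟨h1, h2, h3, h4⟩ | ⟨h1, h2, h3, h4⟩ | ⟨a, c, G, htr, hms⟩
  · -- ideal M1
    have hcast : (t : ℝ) = (t' : ℝ) + ((D : ℝ) + 1) := by rw [h3]; push_cast; ring
    have h4' : (u, th * Y t) = Mx D th Ty.pl (u', th * Y t') := by rw [h4]; simp [Mx]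
    rcases h2 with h2 | h2
    · -- from pl
      rcases hid with hid | ⟨_, hid⟩
      · subst h1; subst h2
        rw [hid, hcast]
        exact BL_rotate hD h Ty.pl (Or.inl rfl) _ _ u' (Y t') u (Y t) h4' hcl
      · exact absurd ⟨h2, h3⟩ hid
    · -- from mi
      subst h1; subst h2
      rw [hcast]
      apply BL_rotate hD h Ty.pl (Or.inl rfl) _ _ u' (Y t') u (Y t) h4'
      have h5 : psi D th Ty.pl t' Cf ≤ 3 := by
        refine le_trans ?_ hp3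
        rw [hcast]
        unfold psi
        have : 0 ≤ chi D th / ((D : ℝ) + 1) * ((D : ℝ) + 1) := by
          have := h.hx2
          positivity
        nlinarith
      have h6 := BL_step hFA hD h hS Ty.mi Ty.pl 0 0 0 0 le_rfl (by linarith) le_rfl (by linarith) le_rfl (by norm_num)
        le_rfl (by positivity)
        (by
          have : al D Ty.pl = ((D : ℝ) - 1) / 2 := rfl
          have : al D Ty.mi = ((D : ℝ) - 3) / 2 := rfl
          rw [‹al D Ty.pl = _›, ‹al D Ty.mi = _›, div_le_iff₀ (by linarith)]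
          nlinarith)
        (t' : ℝ) Cs Cf u' (Y t') u' (Y t') hCf hCs hs1 hu' hu' hY' hY' (by rw [add_zero]; exact hp0')
        (by rw [add_zero]; exact h5) (by simp) (by simp) hcl
      rw [add_zero] at h6
      exact h6
  · -- ideal M2
    have hcast : (t : ℝ) = (t' : ℝ) + ((D : ℝ) + 1) := by rw [h3]; push_cast; ring
    have h4' : (u, th * Y t) = Mx D th Ty.mi (u', th * Y t') := by rw [h4]; simp [Mx]
    rcases hid with hid | ⟨hc, _⟩
    · subst h1; subst h2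
      rw [hid, hcast]
      exact BL_rotate hD h Ty.mi (Or.inr rfl) _ _ u' (Y t') u (Y t) h4' hcl
    · rw [h1] at hc; cases hc
  · -- a transition
    obtain ⟨⟨b1, b2, b3, b4, b5, b6, b7, b8⟩, b9, -⟩ := hNT D hD τ' τ (t - t') a c G htr
    have hcast : (t : ℝ) = (t' : ℝ) + ((t - t' : ℕ) : ℝ) := by
      rw [Nat.cast_sub hlt.le]; ring
    have hm2 : ((t - t' : ℕ) : ℝ) ≤ 2 * ((D : ℝ) + 1) := by exact_mod_cast b2.le
    rw [hcast] at hp0 hp3 ⊢
    exact BL_step hFA hD h hS τ' τ ((t - t' : ℕ) : ℝ) a c G (by positivity) hm2 b3 b4 b5 b6 b7 b8 b9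
      (t' : ℝ) Cs Cf u' (Y t') u (Y t) hCf hCs hs1 hu' hu hY' hY hp0 hp3 hms.1 hms.2 hcl

lemma BL_psi3 {D N : ℕ} {th CX : ℝ} (hD : 10 ^ 14 ≤ D) (h : BLF0 D th CX) (hCX : CX * th ^ 2 ≤ 1 / 100)
    (h1 : th * ((D : ℝ) + 3) ≤ 1 / 100) (hN : th * N ≤ 14 / 5) (C : ℝ) (hC : C * th ^ 2 ≤ 1) (τ : Ty) (t : ℕ)
    (ht : t ≤ N) : psi D th τ t C ≤ 3 := by
  have hth := h.th0
  have hDr : (10 : ℝ) ^ 14 ≤ (D : ℝ) := by exact_mod_cast hD
  obtain ⟨hal0, hal⟩ := BL_al0 hD τ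
  unfold psi
  have e1 : chi D th / ((D : ℝ) + 1) ≤ th + th / 100 := by
    have := (abs_le.mp h.hx1).2
    have h2 : CX * th ^ 3 = th * (CX * th ^ 2) := by ring
    nlinarith
  have htN : (t : ℝ) ≤ N := by exact_mod_cast ht
  have e2 : chi D th / ((D : ℝ) + 1) * (t : ℝ) ≤ (th + th / 100) * N :=
    mul_le_mul e1 htN (by positivity) (by positivity)
  have e3 : th * al D τ ≤ 1 / 100 := by
    refine le_trans (mul_le_mul_of_nonneg_left ?_ hth.le) h1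
    linarith
  have e4 : C * th ^ 3 ≤ 1 / 100 := by
    have h2 : C * th ^ 3 = th * (C * th ^ 2) := by ring
    have h3 : th * 3 ≤ 1 / 100 := by
      refine le_trans (mul_le_mul_of_nonneg_left ?_ hth.le) h1
      linarith [show (0 : ℝ) ≤ (D : ℝ) from by positivity]
    nlinarith
  nlinarith

lemma BL_psilow {D : ℕ} {th CX : ℝ} (hD : 10 ^ 14 ≤ D) (h : BLF0 D th CX) (hCX : CX * th ^ 2 ≤ 1 / 100)
    (C s : ℝ) (hC : -1 ≤ C * th ^ 2) (τ : Ty) (t : ℕ) (ht : 2 * s + 4 ≤ t) (hs : 0 ≤ s) :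
    th * s < psi D th τ t C := by
  have hth := h.th0
  obtain ⟨hal0, hal⟩ := BL_al0 hD τ
  unfold psi
  have e1 : th - th / 100 ≤ chi D th / ((D : ℝ) + 1) := by
    have := (abs_le.mp h.hx1).1
    have h2 : CX * th ^ 3 = th * (CX * th ^ 2) := by ring
    nlinarith
  have e2 : (th - th / 100) * (t : ℝ) ≤ chi D th / ((D : ℝ) + 1) * (t : ℝ) :=
    mul_le_mul_of_nonneg_right e1 (by positivity)
  have e3 : 0 ≤ th * al D τ := by positivity
  have e4 : - th ≤ C * th ^ 3 := by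
    have h2 : C * th ^ 3 = th * (C * th ^ 2) := by ring
    nlinarith
  have e5 : (th - th / 100) * (2 * s + 4) ≤ (th - th / 100) * (t : ℝ) :=
    mul_le_mul_of_nonneg_left ht (by linarith)
  nlinarith [mul_nonneg hth.le hs]

/-- thresholds -/
lemma BL_thr (A : ℝ) (t1 : ℝ) (ht1 : 0 < t1) : ∃ t0 > 0, t0 ≤ t1 ∧ ∀ th : ℝ, 0 < th → th ≤ t0 →
    ∀ X : ℝ, X ≤ A → X * th ≤ 1 ∧ X * th ^ 2 ≤ 1 := by
  refine ⟨min t1 (1 / (|A| + 1)), ?_, min_le_left _ _, ?_⟩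
  · have : 0 < 1 / (|A| + 1) := by positivity
    exact lt_min ht1 this
  · intro th hth0 hth X hX
    have h1 : th ≤ 1 / (|A| + 1) := hth.trans (min_le_right _ _)
    have h2 : (|A| + 1) * th ≤ 1 := by
      rw [le_div_iff₀ (by positivity)] at h1
      linarith
    have h3 : th ≤ 1 := by nlinarith [abs_nonneg A]
    have h4 : X ≤ |A| + 1 := by linarith [le_abs_self A]
    have h5 : X * th ≤ 1 := le_trans (mul_le_mul_of_nonneg_right h4 hth0.le) h2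
    refine ⟨h5, ?_⟩
    have : X * th ^ 2 = (X * th) * th := by ring
    rw [this]
    nlinarith

lemma BL_N0 (t0 : ℝ) (ht0 : 0 < t0) : ∃ N0 : ℕ, ∀ N : ℕ, ∀ th : ℝ, N0 ≤ N → th * N ≤ 14 / 5 → th ≤ t0 := by
  obtain ⟨N2, hN2⟩ := exists_nat_gt (14 / 5 / t0)
  refine ⟨N2 + 1, fun N th hN h => ?_⟩
  by_contra hc
  push Not at hc
  have h2 : (N2 : ℝ) ≤ (N : ℝ) := by exact_mod_cast (by omega : N2 ≤ N)
  have hNp : (0 : ℝ) < N := by exact_mod_cast (by omega : 0 < N)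
  have h1 : t0 * (N : ℝ) ≤ 14 / 5 := le_trans (mul_le_mul_of_nonneg_right hc.le hNp.le) h
  rw [div_lt_iff₀ ht0] at hN2
  nlinarith

lemma BL_facts (hFR : FR) (hFX : FX) (D : ℕ) (hD : 10 ^ 14 ≤ D) : ∃ CX > 0, ∃ t0 > 0, ∀ th : ℝ, 0 < th → th ≤ t0 →
    BLF0 D th CX := by
  obtain ⟨CX, hCX, t4, ht4, hfx⟩ := hFX D hD
  obtain ⟨t5, ht5, hfr⟩ := hFR D hD
  refine ⟨CX, hCX, min t4 t5, lt_min ht4 ht5, fun th h0 h1 => ?_⟩
  obtain ⟨a1, a2, a3, a4⟩ := hfx th h0 (h1.trans (min_le_left _ _))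
  obtain ⟨b1, b2⟩ := hfr th h0 (h1.trans (min_le_right _ _))
  exact ⟨h0, a1, a2, a3, fun τ hτ => ⟨(a4 τ hτ).1, (a4 τ hτ).2.1⟩, b1, b2⟩

theorem pBL (hTL : TL) (hFB : FB) (hFS : FS) (hFA : FA) (hFR : FR) (hFX : FX) (hNT : NT) (hNE : NE) : BL := by
  intro D hD
  have hDr : (10 : ℝ) ^ 14 ≤ (D : ℝ) := by exact_mod_cast hD
  have hD3 : (3 : ℝ) ≤ (D : ℝ) := le_trans (by norm_num) hDr
  obtain ⟨s1, hs1, t1, ht1, hfs⟩ := hFS D hD 0 le_rfl
  obtain ⟨ns, hns⟩ := exists_nat_gt s1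
  set s0 : ℕ := 2 * ns + 4 + 2 * (D + 1) with hs0
  set K : ℕ := s0 + 2 * (D + 1) with hK
  obtain ⟨C, hC, t2, ht2, htl⟩ := hTL D hD K
  obtain ⟨Cs, hCs, hfb⟩ := hFB D hD K
  obtain ⟨t3, ht3, hfb'⟩ := hfb C hC
  obtain ⟨CX, hCX, t4, ht4, hfacts⟩ := BL_facts hFR hFX D hD
  obtain ⟨t5, ht5, -, hthr⟩ := BL_thr (100 * CX + 100 * ((D : ℝ) + 3) + Cs) 1 one_pos
  obtain ⟨N0, hN0⟩ := BL_N0 (min t1 (min t2 (min t3 (min t4 t5))))
    (by simp only [lt_min_iff]; exact ⟨ht1, ht2, ht3, ht4, ht5⟩)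
  refine ⟨s0, Cs, hCs, N0, ?_⟩
  intro N th S Y hN hch hthN
  have hth0 := hch.th0
  have hth := hN0 N th hN hthN
  have l1 : th ≤ t1 := hth.trans (min_le_left _ _)
  have l2 : th ≤ t2 := hth.trans ((min_le_right _ _).trans (min_le_left _ _))
  have l3 : th ≤ t3 := hth.trans ((min_le_right _ _).trans ((min_le_right _ _).trans (min_le_left _ _)))
  have l4 : th ≤ t4 := hth.trans ((min_le_right _ _).trans ((min_le_right _ _).trans ((min_le_right _ _).trans (min_le_left _ _))))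
  have l5 : th ≤ t5 := hth.trans ((min_le_right _ _).trans ((min_le_right _ _).trans ((min_le_right _ _).trans (min_le_right _ _))))
  have hF := hfacts th hth0 l4
  have hCXs : CX * th ^ 2 ≤ 1 / 100 := by
    have := (hthr th hth0 l5 (100 * CX) (by linarith)).2
    linarith
  have hDs : th * ((D : ℝ) + 3) ≤ 1 / 100 := by
    have := (hthr th hth0 l5 (100 * ((D : ℝ) + 3)) (by linarith)).1
    linarith
  have hCss : Cs * th ^ 2 ≤ 1 := (hthr th hth0 l5 Cs (by linarith)).2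
  have hCsn : -1 ≤ Cs * th ^ 2 := le_trans (by norm_num) (show (0 : ℝ) ≤ Cs * th ^ 2 by positivity)
  have hS : BLS D th 0 s1 := fun τ' τ m a c G => hfs th hth0 l1 τ' τ m a c G
  intro t
  induction t using Nat.strong_induction_on with
  | _ t ih =>
    intro τ u hts hst
    by_cases hcase : t ≤ K
    · exact hfb' th hth0 l3 τ t u (Y t) hcase (hch.unn t τ u hst)
        (hch.Yp t (by have := (hch.rng t τ u hst).1; omega)).le (htl N th S Y hch l2 t τ u hcase hst)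
    · push Not at hcase
      have htN := (hch.rng t τ u hst).2
      rcases hch.stp t τ u hst with ⟨G, G', hend, -⟩ | ⟨t', τ', u', hlt, hst', hstep⟩
      · have := ((hNE D hD).1 τ t G G' hend).2.1
        omega
      · have hgap : t < t' + 2 * (D + 1) := by
          rcases hstep with ⟨-, -, h3, -⟩ | ⟨-, -, h3, -⟩ | ⟨a, c, G, htr, -⟩
          · omega
          · omega
          · have := (hNT D hD τ' τ (t - t') a c G htr).1.2.1
            omega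
        have hs0t' : s0 ≤ t' := by omega
        have hcl := ih t' hlt τ' u' hs0t' hst'
        have hlow : ∀ τ'' : Ty, th * s1 < psi D th τ'' t' Cs := by
          intro τ''
          refine BL_psilow hD hF hCXs Cs s1 hCsn τ'' t' ?_ hs1.le
          have : ((2 * ns + 4 : ℕ) : ℝ) ≤ (t' : ℝ) := by exact_mod_cast (by omega : 2 * ns + 4 ≤ t')
          push_cast at this
          linarith
        have hpos : ∀ τ'' : Ty, 0 < psi D th τ'' t' Cs := fun τ'' =>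
          lt_of_le_of_lt (by positivity) (hlow τ'')
        have hpos2 : 0 < psi D th τ t Cs := by
          have := BL_psilow hD hF hCXs Cs 0 hCsn τ t (by
            have : (4 : ℝ) ≤ (t : ℝ) := by exact_mod_cast (by omega : 4 ≤ t)
            linarith) le_rfl
          simpa using this
        exact BL_chain hFA hNT hD hF hS hch Cs Cs le_rfl (by linarith) t t' τ τ' u u' hlt hst hst' hstep
          (Or.inl rfl) (hlow τ').le (hpos _) hpos2 (BL_psi3 hD hF hCXs hDs hthN Cs hCss τ t htN) hcl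

theorem pBLF (hBL : BL) (hFS : FS) (hFA : FA) (hFR : FR) (hFX : FX) (hNT : NT) (hNE : NE) : BLF := by
  intro D hD C4 hC4
  have hDr : (10 : ℝ) ^ 14 ≤ (D : ℝ) := by exact_mod_cast hD
  have hD3 : (3 : ℝ) ≤ (D : ℝ) := le_trans (by norm_num) hDr
  obtain ⟨s0, Cs, hCs, N1, hbl⟩ := hBL D hD
  obtain ⟨s1, hs1, t1, ht1, hfs⟩ := hFS D hD (Cs + C4) (by linarith)
  obtain ⟨ns, hns⟩ := exists_nat_gt s1
  obtain ⟨CX, hCX, t4, ht4, hfacts⟩ := BL_facts hFR hFX D hD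
  obtain ⟨t5, ht5, -, hthr⟩ := BL_thr (100 * CX + 100 * ((D : ℝ) + 3) + Cs + C4) 1 one_pos
  obtain ⟨N0, hN0⟩ := BL_N0 (min t1 (min t4 t5))
    (by simp only [lt_min_iff]; exact ⟨ht1, ht4, ht5⟩)
  refine ⟨s0 + 2 * ns + 4 + 4 * (D + 1), N0 + N1, ?_⟩
  intro N th S Y hN hch hthN t u ht hst hno
  have hth0 := hch.th0
  have hth := hN0 N th (by omega) hthN
  have l1 : th ≤ t1 := hth.trans (min_le_left _ _)
  have l4 : th ≤ t4 := hth.trans ((min_le_right _ _).trans (min_le_left _ _))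
  have l5 : th ≤ t5 := hth.trans ((min_le_right _ _).trans (min_le_right _ _))
  have hF := hfacts th hth0 l4
  have hCXs : CX * th ^ 2 ≤ 1 / 100 := by
    have := (hthr th hth0 l5 (100 * CX) (by linarith)).2
    linarith
  have hDs : th * ((D : ℝ) + 3) ≤ 1 / 100 := by
    have := (hthr th hth0 l5 (100 * ((D : ℝ) + 3)) (by linarith)).1
    linarith
  have hCsn : -1 ≤ Cs * th ^ 2 := le_trans (by norm_num) (show (0 : ℝ) ≤ Cs * th ^ 2 by positivity)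
  have hC4n : -1 ≤ (-C4) * th ^ 2 := by
    have := (hthr th hth0 l5 C4 (by linarith)).2
    linarith
  have hC4p : (-C4) * th ^ 2 ≤ 1 := by
    have : 0 ≤ C4 * th ^ 2 := by positivity
    linarith
  have hS : BLS D th (Cs + C4) s1 := fun τ' τ m a c G => hfs th hth0 l1 τ' τ m a c G
  have htN := (hch.rng t Ty.pl u hst).2
  rcases hch.stp t Ty.pl u hst with ⟨G, G', hend, -⟩ | ⟨t', τ', u', hlt, hst', hstep⟩
  · have := ((hNE D hD).1 Ty.pl t G G' hend).2.1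
    omega
  · have hgap : t < t' + 2 * (D + 1) := by
      rcases hstep with ⟨-, -, h3, -⟩ | ⟨-, -, h3, -⟩ | ⟨a, c, G, htr, -⟩
      · omega
      · omega
      · have := (hNT D hD τ' Ty.pl (t - t') a c G htr).1.2.1
        omega
    have hs0t' : s0 ≤ t' := by omega
    have hcl := hbl N th S Y (by omega) hch hthN t' τ' u' hs0t' hst'
    have ht'4 : 2 * s1 + 4 ≤ (t' : ℝ) := by
      have : ((2 * ns + 4 : ℕ) : ℝ) ≤ (t' : ℝ) := by exact_mod_cast (by omega : 2 * ns + 4 ≤ t')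
      push_cast at this
      linarith
    have hlow : th * s1 < psi D th τ' t' Cs := BL_psilow hD hF hCXs Cs s1 hCsn τ' t' ht'4 hs1.le
    have hpos1 : 0 < psi D th Ty.pl t' (-C4) := by
      have := BL_psilow hD hF hCXs (-C4) 0 hC4n Ty.pl t' (by linarith) le_rfl
      simpa using this
    have hpos2 : 0 < psi D th Ty.pl t (-C4) := by
      have := BL_psilow hD hF hCXs (-C4) 0 hC4n Ty.pl t (by
        have : (t' : ℝ) ≤ (t : ℝ) := by exact_mod_cast hlt.le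
        linarith) le_rfl
      simpa using this
    exact BL_chain hFA hNT hD hF hS hch Cs (-C4) (by linarith) (by linarith) t t' Ty.pl τ' u u' hlt hst hst' hstep
      (Or.inr ⟨rfl, by
        rintro ⟨h1, h2⟩
        apply hno
        refine ⟨u', ?_⟩
        rw [h2, show t' + (D + 1) - (D + 1) = t' by omega, ← h1]
        exact hst'⟩) hlow.le hpos1 hpos2
      (BL_psi3 hD hF hCXs hDs hthN (-C4) hC4p Ty.pl t htN) hcl

end Pool.Agent.T2H60.SX
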