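import Pool.Agent.T2H60.SX.PAM
import Pool.Agent.T2H60.SX.PBL

/-!
# SX, package AH: the comparison graph at `th = 14/5/N`
-/

set_option autoImplicit false
open Finset

namespace Pool.Agent.T2H60.SX

theorem pAH (hVV : VV) (hVA : VA) (hFX : FX) (hFR : FR) : AH := by
  intro D hD
  have hDr : (10 : ℝ) ^ 14 ≤ (D : ℝ) := by exact_mod_cast hD
  have hD3 : (3 : ℝ) ≤ (D : ℝ) := le_trans (by norm_num) hDr
  obtain ⟨C, hC, t1, ht1, hvv⟩ := hVV D hD
  obtain ⟨C4, hC4, t2, ht2, hva⟩ := hVA D hD C hC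
  obtain ⟨CX, hCX, t4, ht4, hfacts⟩ := BL_facts hFR hFX D hD
  obtain ⟨t5, ht5, -, hthr⟩ := BL_thr (100 * CX + 100 * ((D : ℝ) + 3)) 1 one_pos
  obtain ⟨N0, hN0⟩ := BL_N0 (min t1 (min t2 (min t4 t5)))
    (by simp only [lt_min_iff]; exact ⟨ht1, ht2, ht4, ht5⟩)
  refine ⟨N0 + 2 * (D + 1), ?_⟩
  intro N hN hmod
  have hNpos : (0 : ℝ) < (N : ℝ) := by exact_mod_cast (by omega : 0 < N)
  set th : ℝ := 14 / 5 / (N : ℝ) with hthd
  have hth0 : 0 < th := by positivity
  have hthN : th * N = 14 / 5 := by rw [hthd]; field_simp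
  have hth := hN0 N th (by omega) hthN.le
  have l1 : th ≤ t1 := hth.trans (min_le_left _ _)
  have l2 : th ≤ t2 := hth.trans ((min_le_right _ _).trans (min_le_left _ _))
  have l4 : th ≤ t4 := hth.trans ((min_le_right _ _).trans ((min_le_right _ _).trans (min_le_left _ _)))
  have l5 : th ≤ t5 := hth.trans ((min_le_right _ _).trans ((min_le_right _ _).trans (min_le_right _ _)))
  have hF := hfacts th hth0 l4
  have hCXs : CX * th ^ 2 ≤ 1 / 100 := by
    have := (hthr th hth0 l5 (100 * CX) (by linarith)).2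
    linarith
  have hDs : th * ((D : ℝ) + 3) ≤ 1 / 100 := by
    have := (hthr th hth0 l5 (100 * ((D : ℝ) + 3)) (by linarith)).1
    linarith
  obtain ⟨kp, hkp, Kt, hKt1, hKt2, hgA⟩ := hvv th hth0 l1
  have hKt2' : (2 : ℝ) ≤ Kt := le_trans (by nlinarith [mul_nonneg (show (0 : ℝ) ≤ 3 / 4 * (D : ℝ) by linarith) (sq_nonneg th)]) hKt1
  obtain ⟨r, hr, ph, hph1, hph0, hph2, hvec⟩ := hva th hth0 l2 Kt hKt2' hKt2
  have hMx : Mx D th Ty.pl = M1 D th := by simp [Mx]
  have hrot' := hF.hrot Ty.pl (Or.inl rfl)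
  rw [hMx] at hrot'
  obtain ⟨n, hn⟩ : ∃ n, N = 2 + n * (D + 1) := ⟨N / (D + 1), by
    have := Nat.div_add_mod N (D + 1)
    rw [hmod] at this
    have h2 : (D + 1) * (N / (D + 1)) = N / (D + 1) * (D + 1) := Nat.mul_comm _ _
    omega⟩
  have hn1 : 1 ≤ n := by
    by_contra hc
    have : n = 0 := by omega
    rw [this] at hn
    omega
  have hNA : (N - 2) / (D + 1) - 1 + 1 = n := by
    have h1 : N - 2 = n * (D + 1) := by omega
    rw [h1, Nat.mul_div_cancel _ (by omega)]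
    omega
  rw [hgA, hNA, hvec, AM_rot hrot']
  simp only
  have hDne : (D : ℝ) + 1 ≠ 0 := by linarith
  have hqc : (n : ℝ) * chi D th = chi D th / ((D : ℝ) + 1) * ((N : ℝ) - 2) := by
    rw [hn]; push_cast; field_simp; ring
  have e1 : th - th / 100 ≤ chi D th / ((D : ℝ) + 1) := by
    have := (abs_le.mp hF.hx1).1
    have h2 : CX * th ^ 3 = th * (CX * th ^ 2) := by ring
    nlinarith
  have e1' : chi D th / ((D : ℝ) + 1) ≤ th + th / 100 := by
    have := (abs_le.mp hF.hx1).2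
    have h2 : CX * th ^ 3 = th * (CX * th ^ 2) := by ring
    nlinarith
  have hN2 : (0 : ℝ) ≤ (N : ℝ) - 2 := by
    have : (2 : ℝ) ≤ N := by exact_mod_cast (by omega : 2 ≤ N)
    linarith
  have e2 : (th - th / 100) * ((N : ℝ) - 2) ≤ chi D th / ((D : ℝ) + 1) * ((N : ℝ) - 2) :=
    mul_le_mul_of_nonneg_right e1 hN2
  have e3 : chi D th / ((D : ℝ) + 1) * ((N : ℝ) - 2) ≤ (th + th / 100) * ((N : ℝ) - 2) :=
    mul_le_mul_of_nonneg_right e1' hN2
  have hth3 : th * 3 ≤ 1 / 100 := by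
    refine le_trans (mul_le_mul_of_nonneg_left ?_ hth0.le) hDs
    linarith
  have hpi := Real.pi_gt_three
  have hpi2 := Real.pi_lt_d2
  have hcos : Real.cos (ph + n * chi D th) ≤ 0 := by
    apply Real.cos_nonpos_of_pi_div_two_le_of_le
    · rw [hqc]
      nlinarith
    · rw [hqc]
      nlinarith
  have : r * Real.cos (ph + n * chi D th) ≤ 0 := mul_nonpos_of_nonneg_of_nonpos hr.le hcos
  exact mul_nonpos_of_nonneg_of_nonpos hkp.le this

end Pool.Agent.T2H60.SX
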