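import Pool.Agent.T2H60.SX.Stm

/-! # Package FA -/

set_option autoImplicit false

namespace Pool.Agent.T2H60.SX

theorem pFA : FA := by
  intro th m a c G u' Y' u Y U Z U' Z' hth hm ha hc hG hu' hY' hu hY hU hZ hU' hZ' hD hin h1 h2 h3
  set D' := U' - th * c * Z' with hD'
  have s1 : th * Y' * D' ≤ Z' * (u + th ^ 2 * a * Y) := by
    have h4 := mul_le_mul_of_nonneg_right h1 hZ'.le
    have e : th * Y' * D' = th * Y' * U' - th ^ 2 * c * Y' * Z' := by rw [hD']; ring
    have e2 : (u + th ^ 2 * (a * Y + c * Y')) * Z' =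
        Z' * (u + th ^ 2 * a * Y) + th ^ 2 * c * Y' * Z' := by ring
    rw [e2] at h4
    rw [e]
    linarith
  have s2 : th * Y * (1 - th ^ 2 * G) * D' ≤ Z' * (u + th ^ 2 * a * Y) + th * m * u * D' := by
    have h4 : Y * (1 - th ^ 2 * G) ≤ Y' + m * u := by linarith
    have h5 := mul_le_mul_of_nonneg_left h4 (mul_nonneg hth.le hD.le)
    have e1 : th * D' * (Y * (1 - th ^ 2 * G)) = th * Y * (1 - th ^ 2 * G) * D' := by ring
    have e2 : th * D' * (Y' + m * u) = th * Y' * D' + th * m * u * D' := by ring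
    rw [e1, e2] at h5
    linarith
  have s3 : th * Y * ((1 - th ^ 2 * G) * D' - th * a * Z') ≤ u * (Z' + th * m * D') := by
    have e1 : th * Y * ((1 - th ^ 2 * G) * D' - th * a * Z') =
        th * Y * (1 - th ^ 2 * G) * D' - th ^ 2 * a * Y * Z' := by ring
    have e2 : u * (Z' + th * m * D') = u * Z' + th * m * u * D' := by ring
    have e3 : Z' * (u + th ^ 2 * a * Y) = u * Z' + th ^ 2 * a * Y * Z' := by ring
    rw [e3] at s2
    rw [e1, e2]
    linarith
  have hpos : 0 < Z' + th * m * D' := by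
    have : 0 ≤ th * m * D' := by positivity
    linarith
  have hBr : 0 < (1 - th ^ 2 * G) * D' - th * a * Z' := by
    have h5 : 0 < Z * ((1 - th ^ 2 * G) * D' - th * a * Z') := lt_of_lt_of_le (mul_pos hU hpos) hin
    exact (mul_pos_iff_of_pos_left hZ).1 h5
  have s4 : th * Y * U * ((1 - th ^ 2 * G) * D' - th * a * Z') ≤
      u * Z * ((1 - th ^ 2 * G) * D' - th * a * Z') := by
    calc th * Y * U * ((1 - th ^ 2 * G) * D' - th * a * Z')
        = U * (th * Y * ((1 - th ^ 2 * G) * D' - th * a * Z')) := by ring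
      _ ≤ U * (u * (Z' + th * m * D')) := mul_le_mul_of_nonneg_left s3 hU.le
      _ = u * (U * (Z' + th * m * D')) := by ring
      _ ≤ u * (Z * ((1 - th ^ 2 * G) * D' - th * a * Z')) := mul_le_mul_of_nonneg_left hin hu
      _ = _ := by ring
  exact le_of_mul_le_mul_right s4 hBr

end Pool.Agent.T2H60.SX
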