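import Pool.Agent.T2H60.SX.Stm

/-!
# SX, package TL: the T-level claims
-/

set_option autoImplicit false
open Finset

namespace Pool.Agent.T2H60.SX

lemma TL_al0 {D : ℕ} (hD : 10 ^ 14 ≤ D) (τ : Ty) : 0 ≤ al D τ ∧ al D τ ≤ D ∧ 0 ≤ Rc D τ ∧ Rc D τ ≤ (D : ℝ) + 1 := by
  have hDr : (10 : ℝ) ^ 14 ≤ (D : ℝ) := by exact_mod_cast hD
  have hD3 : (3 : ℝ) ≤ (D : ℝ) := le_trans (by norm_num) hDr
  cases τ <;> simp only [al, Rc] <;> refine ⟨?_, ?_, ?_, ?_⟩ <;> linarith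

lemma TL_q {D K : ℕ} (hD : 10 ^ 14 ≤ D) (τ : Ty) (t : ℕ) (ht : t ≤ K) :
    |q D τ t + Rc D τ| ≤ (K : ℝ) ^ 3 + (D : ℝ) * (K : ℝ) ^ 2 + ((D : ℝ) + 1) ^ 2 * K + ((D : ℝ) + 1) := by
  have hDr : (10 : ℝ) ^ 14 ≤ (D : ℝ) := by exact_mod_cast hD
  have hD3 : (10 : ℝ) ≤ (D : ℝ) := le_trans (by norm_num) hDr
  obtain ⟨h1, h2, h3, h4⟩ := TL_al0 hD τ
  have hb0 : 0 ≤ ((D : ℝ) + 1) ^ 2 / 6 - 4 + 6 / ((D : ℝ) + 1) := by
    have : 0 ≤ 6 / ((D : ℝ) + 1) := by positivity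
    nlinarith
  have hb1 : ((D : ℝ) + 1) ^ 2 / 6 - 4 + 6 / ((D : ℝ) + 1) ≤ ((D : ℝ) + 1) ^ 2 := by
    have : 6 / ((D : ℝ) + 1) ≤ 1 := by
      rw [div_le_one (by linarith)]
      linarith
    nlinarith
  have htK : (t : ℝ) ≤ K := by exact_mod_cast ht
  have ht0 : (0 : ℝ) ≤ t := by positivity
  have e0 : 0 ≤ q D τ t + Rc D τ := by
    unfold q
    have : 0 ≤ (((D : ℝ) + 1) ^ 2 / 6 - 4 + 6 / ((D : ℝ) + 1)) * (t : ℝ) := mul_nonneg hb0 ht0
    positivity
  rw [abs_of_nonneg e0]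
  unfold q
  have e1 : (t : ℝ) ^ 3 / 3 ≤ (K : ℝ) ^ 3 := by
    have : (t : ℝ) ^ 3 ≤ (K : ℝ) ^ 3 := pow_le_pow_left₀ ht0 htK 3
    have : 0 ≤ (t : ℝ) ^ 3 := by positivity
    linarith
  have e2 : al D τ * (t : ℝ) ^ 2 ≤ (D : ℝ) * (K : ℝ) ^ 2 := by
    apply mul_le_mul h2 (pow_le_pow_left₀ ht0 htK 2) (by positivity) (by positivity)
  have e3 : (((D : ℝ) + 1) ^ 2 / 6 - 4 + 6 / ((D : ℝ) + 1)) * (t : ℝ) ≤ ((D : ℝ) + 1) ^ 2 * K :=
    mul_le_mul hb1 htK ht0 (by positivity)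
  linarith

lemma TL_up {Y u X X' C C' th : ℝ} (hu : 0 ≤ u) (hY : Y ≤ u * (X + C * th ^ 4)) (hX : X ≤ X') (hC : C ≤ C') :
    Y ≤ u * (X' + C' * th ^ 4) := by
  refine hY.trans (mul_le_mul_of_nonneg_left ?_ hu)
  have : C * th ^ 4 ≤ C' * th ^ 4 := mul_le_mul_of_nonneg_right hC (by positivity)
  linarith

lemma TL_one (hTS : TS) (hTE : TE) (hTI : TI) (hNT : NT) (hNE : NE) {D : ℕ} (hD : 10 ^ 14 ≤ D) (K : ℕ)
    (C1 : ℝ) (hC1 : 0 < C1) : ∃ C > 0, ∃ th0 > 0,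
    ∀ N th S Y, Ch D N th S Y → th ≤ th0 →
      (∀ t' τ' u', t' ≤ K → S t' τ' u' →
        Y t' ≤ u' * ((t' : ℝ) + th ^ 2 * (q D τ' t' + Rc D τ') + C1 * th ^ 4)) →
      ∀ t τ u, t ≤ K + 1 → S t τ u →
        Y t ≤ u * ((t : ℝ) + th ^ 2 * (q D τ t + Rc D τ) + C * th ^ 4) ∧
        (τ = Ty.pl → t % (D + 1) = 2 → (¬ ∃ u', S (t - (D + 1)) Ty.pl u') →
          Y t ≤ u * ((t : ℝ) + th ^ 2 * (q D τ t + tgt D) + C * th ^ 4)) := by
  have hDr : (10 : ℝ) ^ 14 ≤ (D : ℝ) := by exact_mod_cast hD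
  have hD3 : (3 : ℝ) ≤ (D : ℝ) := le_trans (by norm_num) hDr
  set BQ : ℝ := (K : ℝ) ^ 3 + (D : ℝ) * (K : ℝ) ^ 2 + ((D : ℝ) + 1) ^ 2 * K + ((D : ℝ) + 1) with hBQ
  have hBQ0 : 0 < BQ := by positivity
  set B : ℝ := BQ + K + 1 + 3 * (D : ℝ) + 3 + 3 * (D : ℝ) ^ 2 + C1 with hB
  have hK0 : (0 : ℝ) ≤ K := by positivity
  have hDD : 0 ≤ 3 * (D : ℝ) ^ 2 := by positivity
  have hBpos : 0 < B := by linarith
  obtain ⟨Ca, hCa, ta, hta, h1⟩ := hTS B hBpos
  obtain ⟨Cb, hCb, tb, htb, h2⟩ := hTE B hBpos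
  obtain ⟨Cc, hCc, tc, htc, h3⟩ := hTI D hD B hBpos
  obtain ⟨nE1, nE2, nE3, nE4, nE5, nE6⟩ := hNE D hD
  refine ⟨Ca + Cb + Cc, by positivity, min ta (min tb tc), by simp only [gt_iff_lt, lt_min_iff]; exact ⟨hta, htb, htc⟩, ?_⟩
  intro N th S Y hch hth hprev t τ u htK hst
  have hth0 := hch.th0
  have la : th ≤ ta := hth.trans (min_le_left _ _)
  have lb : th ≤ tb := hth.trans ((min_le_right _ _).trans (min_le_left _ _))
  have lc : th ≤ tc := hth.trans ((min_le_right _ _).trans (min_le_right _ _))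
  have hu := hch.unn t τ u hst
  have htD := (hch.rng t τ u hst).1
  have hY := (hch.Yp t (by omega)).le
  have htK' : (t : ℝ) ≤ K + 1 := by exact_mod_cast htK
  have hsq : 0 ≤ th ^ 2 := by positivity
  rcases hch.stp t τ u hst with ⟨G, G', hend, hE⟩ | ⟨t', τ', u', hlt, hst', hstep⟩
  · -- end
    obtain ⟨b1, b2, b3, b4, b5, b6, b7, b8⟩ := nE1 τ t G G' hend
    have h4 := h2 th hth0 lb (t : ℝ) G G' u (Y t) (by positivity) (by linarith) b3 (by linarith) b5 (by linarith)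
      hu hY (by linarith)
    constructor
    · refine TL_up hu h4 ?_ (by linarith)
      have := mul_le_mul_of_nonneg_left b7 hsq
      linarith
    · intro hp hm _
      refine TL_up hu h4 ?_ (by linarith)
      have := mul_le_mul_of_nonneg_left (b8 hp hm) hsq
      linarith
  · have ht'K : t' ≤ K := by omega
    have hu' := hch.unn t' τ' u' hst'
    have ht'D := (hch.rng t' τ' u' hst').1
    have hY' := (hch.Yp t' (by omega)).le
    have hQ := TL_q hD τ' t' ht'K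
    have hpr := hprev t' τ' u' ht'K hst'
    have hpr' : Y t' ≤ u' * ((t' : ℝ) + th ^ 2 * (q D τ' t' + Rc D τ') + B * th ^ 4) :=
      TL_up hu' hpr le_rfl (by linarith)
    have hs1 : (1 : ℝ) ≤ t' := by exact_mod_cast (by omega : 1 ≤ t')
    have ht'K' : (t' : ℝ) ≤ K := by exact_mod_cast ht'K
    have hsB : (t' : ℝ) ≤ B := by linarith
    have hQB : |q D τ' t' + Rc D τ'| ≤ B := by linarith
    rcases hstep with ⟨a1, a2, a3, a4⟩ | ⟨a1, a2, a3, a4⟩ | ⟨a, c, G, htr, hms⟩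
    · -- ideal M1
      have hcast : (t : ℝ) = (t' : ℝ) + ((D : ℝ) + 1) := by rw [a3]; push_cast; ring
      have h4 := (h3 th hth0 lc (t' : ℝ) _ u' (Y t') u (Y t) hs1 hsB hQB hu' hY' hpr').1 a4
      rw [← hcast] at h4
      rcases a2 with a2 | a2
      · subst a2; subst a1
        have hR : Rc D Ty.pl = 0 := rfl
        constructor
        · refine TL_up hu h4 ?_ (by linarith)
          have h5 := nE2 (t' : ℝ)
          rw [← hcast] at h5
          rw [h5, hR]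
          linarith
        · intro _ _ hno
          exact absurd ⟨u', by
            rw [a3, show t' + (D + 1) - (D + 1) = t' by omega]
            exact hst'⟩ hno
      · subst a2; subst a1
        have hR : Rc D Ty.pl = 0 := rfl
        have h5 := nE4 (t' : ℝ) (by exact_mod_cast ht'D)
        rw [← hcast] at h5
        constructor
        · refine TL_up hu h4 ?_ (by linarith)
          have h6 : q D Ty.mi t' + Rc D Ty.mi + (((D : ℝ) - 2) * (t : ℝ) ^ 2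
              + ((t' : ℝ) + 2) ^ 2 + 2 * ((t' : ℝ) + (D : ℝ)) ^ 2) ≤ q D Ty.pl t + Rc D Ty.pl := by
            rw [hR]; linarith
          have := mul_le_mul_of_nonneg_left h6 hsq
          linarith
        · intro _ _ _
          refine TL_up hu h4 ?_ (by linarith)
          have := mul_le_mul_of_nonneg_left h5 hsq
          linarith
    · -- ideal M2
      have hcast : (t : ℝ) = (t' : ℝ) + ((D : ℝ) + 1) := by rw [a3]; push_cast; ring
      have h4 := (h3 th hth0 lc (t' : ℝ) _ u' (Y t') u (Y t) hs1 hsB hQB hu' hY' hpr').2 a4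
      rw [← hcast] at h4
      subst a2; subst a1
      constructor
      · refine TL_up hu h4 ?_ (by linarith)
        have h5 := nE3 (t' : ℝ)
        rw [← hcast] at h5
        rw [h5]
        linarith
      · intro hc
        cases hc
    · -- transition
      obtain ⟨⟨b1, b2, b3, b4, b5, b6, b7, b8⟩, -, b9⟩ := hNT D hD τ' τ (t - t') a c G htr
      have hcast : (t : ℝ) = (t' : ℝ) + ((t - t' : ℕ) : ℝ) := by
        rw [Nat.cast_sub hlt.le]; ring
      obtain ⟨c1, c2⟩ := b9 (t' : ℝ) (by exact_mod_cast ht'D)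
      have hmB : ((t - t' : ℕ) : ℝ) ≤ B := by
        have : ((t - t' : ℕ) : ℝ) ≤ t := by exact_mod_cast Nat.sub_le t t'
        linarith
      have h4 := h1 th hth0 la (t' : ℝ) ((t - t' : ℕ) : ℝ) _ a c G u' (Y t') u (Y t) hs1 hsB (by positivity) hmB hQB
        b3 (by linarith) b5 (by linarith) b7 (by linarith) hu' hY' hu hY hpr' hms.1 hms.2
      rw [← hcast] at h4 c1 c2
      constructor
      · refine TL_up hu h4 ?_ (by linarith)
        have := mul_le_mul_of_nonneg_left c1 hsq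
        linarith
      · intro hp _ _
        refine TL_up hu h4 ?_ (by linarith)
        have := mul_le_mul_of_nonneg_left (c2 hp) hsq
        linarith

theorem pTL (hTS : TS) (hTE : TE) (hTI : TI) (hNT : NT) (hNE : NE) : TL := by
  intro D hD K
  induction K with
  | zero =>
    refine ⟨1, one_pos, 1, one_pos, ?_⟩
    intro N th S Y hch _ t τ u ht hst
    have := (hch.rng t τ u hst).1
    omega
  | succ K ih =>
    obtain ⟨C1, hC1, t1, ht1, h1⟩ := ih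
    obtain ⟨C2, hC2, t2, ht2, h2⟩ := TL_one hTS hTE hTI hNT hNE hD K C1 hC1
    refine ⟨C2, hC2, min t1 t2, lt_min ht1 ht2, ?_⟩
    intro N th S Y hch hth t τ u ht hst
    exact (h2 N th S Y hch (hth.trans (min_le_right _ _))
      (fun t' τ' u' ht' hst' => h1 N th S Y hch (hth.trans (min_le_left _ _)) t' τ' u' ht' hst') t τ u ht hst).1

theorem pTLF (hTL : TL) (hTS : TS) (hTE : TE) (hTI : TI) (hNT : NT) (hNE : NE) : TLF := by
  intro D hD K
  obtain ⟨C1, hC1, t1, ht1, h1⟩ := hTL D hD K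
  obtain ⟨C2, hC2, t2, ht2, h2⟩ := TL_one hTS hTE hTI hNT hNE hD K C1 hC1
  refine ⟨C2, hC2, min t1 t2, lt_min ht1 ht2, ?_⟩
  intro N th S Y hch hth t u ht hst hm hno
  exact (h2 N th S Y hch (hth.trans (min_le_right _ _))
    (fun t' τ' u' ht' hst' => h1 N th S Y hch (hth.trans (min_le_left _ _)) t' τ' u' ht' hst')
    t Ty.pl u (by omega) hst).2 rfl hm hno

end Pool.Agent.T2H60.SX
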