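import Pool.Agent.T2H60.SX.Stm
import Pool.Agent.T2H60.SX.PTL
import Pool.Agent.T2H60.SX.PBL

/-!
# SX, package FB: from the T-level to the bulk
-/

set_option autoImplicit false
open Finset

namespace Pool.Agent.T2H60.SX

/-- the frame, bounded below, for all types, at a small angle -/
lemma FB_hZ {D : ℕ} {th CX : ℝ} (hD : 10 ^ 14 ≤ D) (hCX : 0 ≤ CX) (hth0 : 0 < th) (hs1 : CX * th ^ 2 ≤ 1)
    (hx : ∀ τ : Ty, τ.is2 → 0 < bq D th τ ∧ 0 ≤ ed D th τ ∧ |Real.sin (chi D th) / bq D th τ - 1| ≤ CX * th ^ 2 ∧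
      |ed D th τ / bq D th τ - th * al D τ| ≤ CX * th ^ 3) (τ : Ty) (ψ : ℝ) (h0 : 0 ≤ ψ) (h1 : ψ < Real.pi / 2) :
    Real.cos ψ * ((1 - CX * th ^ 2) * ψ - th * al D τ - CX * th ^ 3) ≤ hZ D th τ ψ := by
  have hc : 0 < Real.cos ψ := Real.cos_pos_of_mem_Ioo ⟨by linarith [Real.pi_pos], h1⟩
  have hs0 : 0 ≤ Real.sin ψ := Real.sin_nonneg_of_nonneg_of_le_pi h0 (by linarith [Real.pi_pos])
  have htan : Real.cos ψ * ψ ≤ Real.sin ψ := by
    rcases h0.eq_or_lt with h | h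
    · rw [← h]; simp
    · have := Real.lt_tan h h1
      rw [Real.tan_eq_sin_div_cos, lt_div_iff₀ hc] at this
      linarith
  have hCs : 0 ≤ CX * th ^ 2 := by positivity
  have hC3 : 0 ≤ CX * th ^ 3 := by positivity
  have hmain : ∀ τ : Ty, τ.is2 → Real.cos ψ * ((1 - CX * th ^ 2) * ψ - th * al D τ - CX * th ^ 3)
      ≤ (Real.sin (chi D th) * Real.sin ψ - ed D th τ * Real.cos ψ) / bq D th τ := by
    intro τ hτ
    obtain ⟨a1, a2, a3, a4⟩ := hx τ hτ
    have e : (Real.sin (chi D th) * Real.sin ψ - ed D th τ * Real.cos ψ) / bq D th τ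
        = Real.sin (chi D th) / bq D th τ * Real.sin ψ - ed D th τ / bq D th τ * Real.cos ψ := by
      field_simp
    rw [e]
    have e1 : 1 - CX * th ^ 2 ≤ Real.sin (chi D th) / bq D th τ := by linarith [(abs_le.mp a3).1]
    have e2 : ed D th τ / bq D th τ ≤ th * al D τ + CX * th ^ 3 := by linarith [(abs_le.mp a4).2]
    have e3 : (1 - CX * th ^ 2) * Real.sin ψ ≤ Real.sin (chi D th) / bq D th τ * Real.sin ψ :=
      mul_le_mul_of_nonneg_right e1 hs0
    have e4 : ed D th τ / bq D th τ * Real.cos ψ ≤ (th * al D τ + CX * th ^ 3) * Real.cos ψ :=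
      mul_le_mul_of_nonneg_right e2 hc.le
    have e5 : (1 - CX * th ^ 2) * (Real.cos ψ * ψ) ≤ (1 - CX * th ^ 2) * Real.sin ψ :=
      mul_le_mul_of_nonneg_left htan (by linarith)
    linarith
  have hal := (TL_al0 hD τ).1
  cases τ with
  | pl => exact hmain Ty.pl (Or.inl rfl)
  | mi => exact hmain Ty.mi (Or.inr rfl)
  | fo =>
    simp only [hZ]
    nlinarith [mul_nonneg hc.le h0, mul_nonneg hCs (mul_nonneg hc.le h0), mul_nonneg hC3 hc.le]
  | ce =>
    simp only [hZ]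
    have : al D Ty.ce = 0 := rfl
    rw [this]
    nlinarith [mul_nonneg hc.le h0, mul_nonneg hCs (mul_nonneg hc.le h0), mul_nonneg hC3 hc.le]

theorem pFB (hFX : FX) : FB := by
  intro D hD K
  have hDr : (10 : ℝ) ^ 14 ≤ (D : ℝ) := by exact_mod_cast hD
  have hD3 : (3 : ℝ) ≤ (D : ℝ) := le_trans (by norm_num) hDr
  obtain ⟨CX, hCX, t1, ht1, hfx⟩ := hFX D hD
  set BQ : ℝ := (K : ℝ) ^ 3 + (D : ℝ) * (K : ℝ) ^ 2 + ((D : ℝ) + 1) ^ 2 * K + ((D : ℝ) + 1) with hBQ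
  have hBQ0 : 0 < BQ := by positivity
  have hK0 : (0 : ℝ) ≤ K := by positivity
  -- the constant
  set Cs : ℝ := 2 * (BQ + 1 + CX + CX * K + CX * (K + D) + 1) with hCs
  refine ⟨Cs, by positivity, fun C hC => ?_⟩
  obtain ⟨t5, ht5, -, hthr⟩ := BL_thr (4 * CX + 10 * Cs + 10 * (2 * K + D + 1) + C) 1 one_pos
  refine ⟨min t1 t5, lt_min ht1 ht5, ?_⟩
  intro th hth0 hth τ t u Y htK hu hY hT
  obtain ⟨a1, a2, a3, a4⟩ := hfx th hth0 (hth.trans (min_le_left _ _))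
  have hthr' := hthr th hth0 (hth.trans (min_le_right _ _))
  have hCXp : 0 ≤ CX := hCX.le
  have hCsp : 0 ≤ Cs := by positivity
  have b1 : CX * th ^ 2 ≤ 1 / 4 := by
    have := (hthr' (4 * CX) (by linarith)).2
    linarith
  have b2 : Cs * th ^ 2 ≤ 1 / 10 := by
    have := (hthr' (10 * Cs) (by linarith)).2
    linarith
  have b3 : (2 * (K : ℝ) + D + 1) * th ≤ 1 / 10 := by
    have := (hthr' (10 * (2 * K + D + 1)) (by linarith)).1
    linarith
  have b4 : C * th ^ 2 ≤ 1 := (hthr' C (by linarith)).2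
  obtain ⟨hal0, hal1, -, -⟩ := TL_al0 hD τ
  have htK' : (t : ℝ) ≤ K := by exact_mod_cast htK
  have ht0 : (0 : ℝ) ≤ t := by positivity
  have hth1 : th ≤ 1 := by nlinarith
  have hth3 : 0 ≤ th ^ 3 := by positivity
  -- bounds of psi
  have c1 : th - CX * th ^ 3 ≤ chi D th / ((D : ℝ) + 1) := by linarith [(abs_le.mp a1).1]
  have c2 : chi D th / ((D : ℝ) + 1) ≤ th + CX * th ^ 3 := by linarith [(abs_le.mp a1).2]
  have c3 : CX * th ^ 3 ≤ th / 4 := by
    have : CX * th ^ 3 = th * (CX * th ^ 2) := by ring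
    rw [this]
    nlinarith
  set ψ := psi D th τ t Cs with hψ
  have d1 : th * (t + al D τ) + (Cs - CX * K) * th ^ 3 ≤ ψ := by
    rw [hψ]
    unfold psi
    have : (th - CX * th ^ 3) * (t : ℝ) ≤ chi D th / ((D : ℝ) + 1) * (t : ℝ) := mul_le_mul_of_nonneg_right c1 ht0
    have h2 : CX * th ^ 3 * (t : ℝ) ≤ CX * th ^ 3 * K := mul_le_mul_of_nonneg_left htK' (by positivity)
    nlinarith
  have hCsK : 0 ≤ Cs - CX * K := by
    rw [hCs]
    have h1 : 0 ≤ CX * K := by positivity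
    have h2 : 0 ≤ CX * (K + D) := by positivity
    linarith
  have d0 : 0 ≤ ψ := le_trans (by positivity) d1
  have d2 : ψ ≤ 1 := by
    rw [hψ]
    unfold psi
    have h1 : chi D th / ((D : ℝ) + 1) * (t : ℝ) ≤ (th + th / 4) * K := by
      apply mul_le_mul (by linarith) htK' ht0 (by positivity)
    have h2 : th * al D τ ≤ th * D := mul_le_mul_of_nonneg_left hal1 hth0.le
    have h3 : Cs * th ^ 3 ≤ 1 / 10 := by
      have : Cs * th ^ 3 = th * (Cs * th ^ 2) := by ring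
      rw [this]
      nlinarith
    nlinarith
  have hpi := Real.pi_gt_three
  have hz := FB_hZ hD hCX.le hth0 (by linarith) a4 τ ψ d0 (by linarith)
  have hc : 0 < Real.cos ψ := Real.cos_pos_of_mem_Ioo ⟨by linarith, by linarith⟩
  have hQ := TL_q hD τ t htK
  rw [← hBQ] at hQ
  have hQ' : q D τ t + Rc D τ ≤ BQ := (le_abs_self _).trans hQ
  -- the key inequality
  have key : th * ((t : ℝ) + th ^ 2 * (q D τ t + Rc D τ) + C * th ^ 4)
      ≤ (1 - CX * th ^ 2) * ψ - th * al D τ - CX * th ^ 3 := by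
    have h1 : (1 - CX * th ^ 2) * (th * (t + al D τ) + (Cs - CX * K) * th ^ 3) ≤ (1 - CX * th ^ 2) * ψ :=
      mul_le_mul_of_nonneg_left d1 (by linarith)
    have h2 : th ^ 3 * (q D τ t + Rc D τ) ≤ th ^ 3 * BQ := mul_le_mul_of_nonneg_left hQ' hth3
    have h3 : C * th ^ 5 ≤ th ^ 3 := by
      have : C * th ^ 5 = th ^ 3 * (C * th ^ 2) := by ring
      rw [this]
      nlinarith
    -- (1 - CX th^2)(th (t+al)) = th(t+al) - CX th^3 (t+al)
    have h4 : CX * th ^ 3 * (t + al D τ) ≤ CX * th ^ 3 * (K + D) :=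
      mul_le_mul_of_nonneg_left (by linarith) (by positivity)
    have h5 : 1 / 2 * (Cs - CX * K) * th ^ 3 ≤ (1 - CX * th ^ 2) * ((Cs - CX * K) * th ^ 3) := by
      have : 0 ≤ (Cs - CX * K) * th ^ 3 := by positivity
      nlinarith
    have h6 : th ^ 3 * BQ + th ^ 3 + CX * th ^ 3 * (K + D) + CX * th ^ 3 ≤ 1 / 2 * (Cs - CX * K) * th ^ 3 := by
      rw [hCs]
      have h1 : 0 ≤ CX * K * th ^ 3 := by positivity
      nlinarith
    nlinarith
  unfold Cl
  rw [← hψ]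
  have g1 : th * Y ≤ u * ((1 - CX * th ^ 2) * ψ - th * al D τ - CX * th ^ 3) := by
    have h1 : th * Y ≤ th * (u * ((t : ℝ) + th ^ 2 * (q D τ t + Rc D τ) + C * th ^ 4)) :=
      mul_le_mul_of_nonneg_left hT hth0.le
    have h2 := mul_le_mul_of_nonneg_left key hu
    nlinarith
  calc th * Y * Real.cos ψ ≤ u * ((1 - CX * th ^ 2) * ψ - th * al D τ - CX * th ^ 3) * Real.cos ψ :=
        mul_le_mul_of_nonneg_right g1 hc.le
    _ = u * (Real.cos ψ * ((1 - CX * th ^ 2) * ψ - th * al D τ - CX * th ^ 3)) := by ring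
    _ ≤ u * hZ D th τ ψ := mul_le_mul_of_nonneg_left hz hu

end Pool.Agent.T2H60.SX
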