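import Pool.Agent.T2H60.SX.PFX

/-!
# SX: package FR
-/

set_option autoImplicit false
open Finset

namespace Pool.Agent.T2H60.SX

lemma fr_lin (D : ℕ) (th : ℝ) (τ : Ty) (U Z : ℝ) : Mx D th τ (U, Z) =
    ((Mx D th τ (1, 0)).1 * U + (Mx D th τ (0, 1)).1 * Z,
     (Mx D th τ (1, 0)).2 * U + (Mx D th τ (0, 1)).2 * Z) := by
  unfold Mx
  split_ifs
  · refine Prod.ext ?_ ?_ <;> simp only [M1, mst, ast] <;> ring
  · refine Prod.ext ?_ ?_ <;> simp only [M2, mst, ast] <;> ring

lemma fr_det (D : ℕ) (th : ℝ) (τ : Ty) (v w : ℝ × ℝ) :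
    (Mx D th τ v).1 * (Mx D th τ w).2 - (Mx D th τ v).2 * (Mx D th τ w).1
      = v.1 * w.2 - v.2 * w.1 := by
  unfold Mx
  split_ifs <;> simp only [M1, M2, mst, ast] <;> ring

lemma fr_tr {D : ℕ} {th : ℝ} (hD : 10 ^ 14 ≤ D) (h : Fsm D th) (τ : Ty) :
    ((Mx D th τ (0, 1)).2 + (Mx D th τ (1, 0)).1) / 2 = Real.cos (chi D th) := by
  rw [fx_cos hD h]
  unfold Mx
  split_ifs
  · exact fx_tr1 D th
  · exact fx_tr2 D th

/-- the definition of `hZ` for the states of size two -/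
lemma fr_hZ {D : ℕ} {th : ℝ} (τ : Ty) (hτ : τ.is2) (ψ : ℝ) :
    hZ D th τ ψ = (Real.sin (chi D th) * Real.sin ψ - ed D th τ * Real.cos ψ) / bq D th τ := by
  rcases hτ with rfl | rfl <;> rfl

lemma fr_rot {D : ℕ} {th : ℝ} (hD : 10 ^ 14 ≤ D) (h : Fsm D th) (τ : Ty) (hτ : τ.is2) (r ψ : ℝ) :
    Mx D th τ (r * Real.cos ψ, r * hZ D th τ ψ)
      = (r * Real.cos (ψ + chi D th), r * hZ D th τ (ψ + chi D th)) := by
  have hb : 0 < bq D th τ := ((fx_main hD h).2.2.2 τ hτ).1
  have ht := fr_tr hD h τ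
  have hdet := fr_det D th τ (1, 0) (0, 1)
  rw [fr_lin, fr_hZ τ hτ ψ, fr_hZ τ hτ (ψ + chi D th), Real.cos_add, Real.sin_add]
  have hbq : bq D th τ = - (Mx D th τ (0, 1)).1 := rfl
  have hed : ed D th τ = ((Mx D th τ (0, 1)).2 - (Mx D th τ (1, 0)).1) / 2 := rfl
  have hsc := Real.sin_sq_add_cos_sq (chi D th)
  generalize Real.sin (chi D th) = sc at *
  generalize Real.cos (chi D th) = cc at *
  generalize Real.sin ψ = sp at *
  generalize Real.cos ψ = cp at *
  generalize bq D th τ = b at *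
  generalize ed D th τ = e at *
  generalize (Mx D th τ (1, 0)).1 = A at *
  generalize (Mx D th τ (1, 0)).2 = c at *
  generalize (Mx D th τ (0, 1)).1 = nb at *
  generalize (Mx D th τ (0, 1)).2 = E at *
  simp only [mul_one, mul_zero, sub_zero] at hdet
  obtain rfl : nb = - b := by linarith
  obtain rfl : E = cc + e := by linarith
  obtain rfl : A = cc - e := by linarith
  refine Prod.ext ?_ ?_
  · show (cc - e) * (r * cp) + - b * (r * ((sc * sp - e * cp) / b)) = r * (cp * cc - sp * sc)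
    have : b * (r * ((sc * sp - e * cp) / b)) = r * (sc * sp - e * cp) := by
      field_simp
    linear_combination - this
  · show c * (r * cp) + (cc + e) * (r * ((sc * sp - e * cp) / b))
      = r * ((sc * (sp * cc + cp * sc) - e * (cp * cc - sp * sc)) / b)
    have hb' := hb.ne'
    have e1 : c * (r * cp) = r * ((c * b * cp) / b) := by field_simp
    rw [e1]
    have e2 : c * b = 1 - (cc - e) * (cc + e) := by linarith
    rw [e2]
    have e3 : (cc + e) * (r * ((sc * sp - e * cp) / b)) = r * (((cc + e) * (sc * sp - e * cp)) / b) := by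
      ring
    rw [e3, ← mul_add, ← add_div]
    have e4 : (1 - (cc - e) * (cc + e)) * cp + (cc + e) * (sc * sp - e * cp)
        = sc * (sp * cc + cp * sc) - e * (cp * cc - sp * sc) := by
      linear_combination - cp * hsc
    rw [e4]

theorem pFR : FR := by
  intro D hD
  have hP : 0 < (D : ℝ) + 1 := by positivity
  refine ⟨1 / (100 * ((D : ℝ) + 1) ^ 2), by positivity, ?_⟩
  intro th h0 h1
  exact ⟨fun τ hτ r ψ => fr_rot hD (fsm_of h0 h1) τ hτ r ψ, fun τ v w => fr_det D th τ v w⟩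

end Pool.Agent.T2H60.SX
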