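import Pool.Agent.T2H60.SX.PFSb

/-!
# SX: package FS (the step inequality), main theorem
-/

set_option autoImplicit false
open Finset

namespace Pool.Agent.T2H60.SX

lemma fs_pos (P th S C Z α : ℝ) (hP1 : 1 ≤ P) (ht : 0 < th) (htP2 : th * P ^ 2 ≤ 1 / 100)
    (ht1 : th ≤ 1 / 100) (hS : 0 ≤ S) (hC : 0 ≤ C) (hC1 : C ≤ 1) (_hα : 0 ≤ α) (hα2 : α ≤ P / 2)
    (hSl : th * (50 * P ^ 3) ≤ S)
    (hZ : |Z - (S - th * α * C)| ≤ 2 * P ^ 2 * (th ^ 2 * S + th ^ 3)) : 0 < Z := by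
  have hP : 0 < P := by linarith
  have hZ1 := (abs_le.mp hZ).1
  have hq : 0 ≤ th * P ^ 2 := by positivity
  have hq2 : (th * P ^ 2) * th ≤ 1 / 100 * (1 / 100) := mul_le_mul htP2 ht1 ht.le (by norm_num)
  have h1 : th * α * C ≤ th * (P / 2) * 1 :=
    mul_le_mul (mul_le_mul_of_nonneg_left hα2 ht.le) hC1 hC (by positivity)
  have h2 : 2 * P ^ 2 * (th ^ 2 * S) ≤ 1 / 2 * S := by
    have e : 2 * P ^ 2 * (th ^ 2 * S) = 2 * ((th * P ^ 2) * th) * S := by ring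
    rw [e]
    exact mul_le_mul_of_nonneg_right (by linarith) hS
  have h3 : 2 * P ^ 2 * th ^ 3 ≤ th := by
    have e : 2 * P ^ 2 * th ^ 3 = 2 * ((th * P ^ 2) * th) * th := by ring
    rw [e]
    have := mul_le_mul_of_nonneg_right (by linarith : 2 * ((th * P ^ 2) * th) ≤ 1) ht.le
    linarith
  have h4 : P ≤ P ^ 3 := by
    calc P = P ^ 1 := (pow_one P).symm
      _ ≤ P ^ 3 := pow_le_pow_right₀ hP1 (by norm_num)
  have h5 : th * P ≤ th * P ^ 3 := mul_le_mul_of_nonneg_left h4 ht.le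
  have h6 : th * 1 ≤ th * P := mul_le_mul_of_nonneg_left hP1 ht.le
  have h7 : 0 < th * P ^ 3 := by positivity
  linarith

theorem pFS : FS := by
  intro D hD sg hsg
  have hD' : (10 : ℝ) ^ 14 ≤ D := by exact_mod_cast hD
  have hP : 0 < (D : ℝ) + 1 := by positivity
  refine ⟨100 * (((D : ℝ) + 1) ^ 3 * (1 + sg)), by positivity,
    1 / (100 * (((D : ℝ) + 1) ^ 2 * (1 + sg))), by positivity, ?_⟩
  intro th ht hth τ' τ m a c G hm hm2 ha ha2 hc hc3 hG hG2 hM ψ' ψ sg' hsg' hsg2 hψ' hψ hψe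
  -- smallness
  have htP : 100 * (((D : ℝ) + 1) ^ 2 * (1 + sg)) * th ≤ 1 := by
    rw [le_div_iff₀ (by positivity)] at hth
    linarith
  have hF : Fsm D th := by
    refine ⟨ht, ?_⟩
    have h1 : ((D : ℝ) + 1) ^ 2 * 1 ≤ ((D : ℝ) + 1) ^ 2 * (1 + sg) :=
      mul_le_mul_of_nonneg_left (by linarith) (by positivity)
    have h2 := mul_le_mul_of_nonneg_right h1 ht.le
    linarith
  have hchi := (fx_main hD hF).1
  set P : ℝ := (D : ℝ) + 1 with hPdef
  set X : ℝ := chi D th / P with hX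
  set α := al D τ with hα
  set α' := al D τ' with hα'
  have hα0 : 0 ≤ α ∧ α ≤ P / 2 := fs_al_nonneg hD τ
  have hα'0 : 0 ≤ α' ∧ α' ≤ P / 2 := fs_al_nonneg hD τ'
  have hP14 : (10 : ℝ) ^ 14 + 1 ≤ P := by rw [hPdef]; linarith
  have hP1 : 1 ≤ P := by linarith
  have hinv : 1 / P ≤ 1 / (D : ℝ) := one_div_le_one_div_of_le (by linarith) (by linarith)
  have hM' : 1 / P ≤ m + α - α' - a - c := le_trans hinv hM
  have hinv0 : 0 < 1 / P := by positivity
  set M := m + α - α' with hMdef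
  have hM0 : 1 / P ≤ M := by linarith
  have hM3 : M ≤ 3 * P := by linarith [hα0.2, hα'0.1]
  have ht3 : 0 < th ^ 3 := by positivity
  have htP2 : th * P ^ 2 ≤ 1 / 100 := by
    have := hF.2
    linarith
  have htP2s : th * (P ^ 2 * (1 + sg)) ≤ 1 / 100 := by linarith
  have htP1 : th * P ≤ 1 / 100 := by
    have h0 : P ≤ P ^ 2 := by
      calc P = P ^ 1 := (pow_one P).symm
        _ ≤ P ^ 2 := pow_le_pow_right₀ hP1 (by norm_num)
    have : th * P ≤ th * P ^ 2 := mul_le_mul_of_nonneg_left h0 ht.le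
    linarith
  have ht1 : th ≤ 1 / 100 := by
    have : th * 1 ≤ th * P := mul_le_mul_of_nonneg_left hP1 ht.le
    linarith
  -- the difference of the angles
  set Δ := ψ - ψ' with hΔ
  have hΔe : Δ = X * m + th * (α - α') - sg' * th ^ 3 := by rw [hΔ, hψe]; ring
  rw [abs_le] at hchi
  obtain ⟨x1, x2⟩ := hchi
  have hΔlo : th * M - (4 * P ^ 3 + sg) * th ^ 3 ≤ Δ := by
    have h1 : (th - 2 * P ^ 2 * th ^ 3) * m ≤ X * m := mul_le_mul_of_nonneg_right (by linarith) hm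
    have h2 : 2 * P ^ 2 * th ^ 3 * m ≤ 2 * P ^ 2 * th ^ 3 * (2 * P) :=
      mul_le_mul_of_nonneg_left hm2 (by positivity)
    have h3 : sg' * th ^ 3 ≤ sg * th ^ 3 := mul_le_mul_of_nonneg_right hsg2 ht3.le
    rw [hΔe, hMdef]
    linarith
  have hΔup : Δ ≤ th * M + 4 * P ^ 3 * th ^ 3 := by
    have h1 : X * m ≤ (th + 2 * P ^ 2 * th ^ 3) * m := mul_le_mul_of_nonneg_right (by linarith) hm
    have h2 : 2 * P ^ 2 * th ^ 3 * m ≤ 2 * P ^ 2 * th ^ 3 * (2 * P) :=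
      mul_le_mul_of_nonneg_left hm2 (by positivity)
    have h3 : 0 ≤ sg' * th ^ 3 := by positivity
    rw [hΔe, hMdef]
    linarith
  -- the cubic error is small against th / P
  have hsmall : (27 * P ^ 3 + sg) * th ^ 3 ≤ th * (1 / P) / 2 := by
    have e1 : (27 * P ^ 3 + sg) * th ^ 3 * P ≤ 27 * (th * P ^ 2) * (th * (P ^ 2 * (1 + sg))) * th := by
      have q1 : (27 * P ^ 3 + sg) * P ≤ 27 * P ^ 4 * (1 + sg) := by
        have a1 : P * 1 ≤ P * P ^ 3 := mul_le_mul_of_nonneg_left (one_le_pow₀ hP1) hP.le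
        have a2 := mul_le_mul_of_nonneg_left a1 hsg
        have a3 : 0 ≤ sg * P ^ 4 := by positivity
        linarith
      have q2 := mul_le_mul_of_nonneg_right q1 ht3.le
      calc (27 * P ^ 3 + sg) * th ^ 3 * P = (27 * P ^ 3 + sg) * P * th ^ 3 := by ring
        _ ≤ 27 * P ^ 4 * (1 + sg) * th ^ 3 := q2
        _ = _ := by ring
    have e2 : (th * P ^ 2) * (th * (P ^ 2 * (1 + sg))) ≤ 1 / 100 * (1 / 100) :=
      mul_le_mul htP2 htP2s (by positivity) (by norm_num)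
    have e3 := mul_le_mul_of_nonneg_right e2 ht.le
    have e4 : (27 * P ^ 3 + sg) * th ^ 3 * P ≤ th / 2 := by linarith
    have e5 : th * (1 / P) / 2 = (th / 2) / P := by ring
    rw [e5, le_div_iff₀ hP]
    exact e4
  have hcub : 0 ≤ P ^ 3 * th ^ 3 := by positivity
  have hsgc : 0 ≤ sg * th ^ 3 := by positivity
  have hthM : th * (1 / P) ≤ th * M := mul_le_mul_of_nonneg_left hM0 ht.le
  have hthP : 0 < th * (1 / P) := by positivity
  have hΔ0 : 0 < Δ := by linarith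
  have hΔ4 : Δ ≤ 4 * P * th := by
    have h1 : th * M ≤ th * (3 * P) := mul_le_mul_of_nonneg_left hM3 ht.le
    have h2 : 4 * P ^ 3 * th ^ 3 ≤ P * th := by
      have : 4 * P ^ 3 * th ^ 3 = 4 * (th * P ^ 2) * th * (P * th) := by ring
      rw [this]
      have hq2 : (th * P ^ 2) * th ≤ 1 / 100 * (1 / 100) := mul_le_mul htP2 ht1 ht.le (by norm_num)
      have h6 : 4 * (th * P ^ 2) * th ≤ 1 := by linarith
      have h7 : 0 ≤ P * th := by positivity
      have := mul_le_mul_of_nonneg_right h6 h7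
      linarith
    linarith
  -- the angles
  have hψ'0 : 0 < ψ' := lt_of_lt_of_le (by positivity) hψ'
  have hψψ : ψ' < ψ := by linarith
  have hpi := Real.pi_pos
  have hpi2 := Real.pi_lt_d2
  have hS' : 0 < Real.sin ψ' := Real.sin_pos_of_pos_of_lt_pi hψ'0 (by linarith)
  have hC0 : 0 < Real.cos ψ := Real.cos_pos_of_mem_Ioo ⟨by linarith, hψ⟩
  have hC'0 : 0 < Real.cos ψ' := Real.cos_pos_of_mem_Ioo ⟨by linarith, by linarith⟩
  have hCC : Real.cos ψ ≤ Real.cos ψ' := Real.cos_le_cos_of_nonneg_of_le_pi hψ'0.le (by linarith) hψψ.le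
  have hSS : Real.sin ψ' ≤ Real.sin ψ := Real.sin_le_sin_of_le_of_le_pi_div_two (by linarith) hψ.le hψψ.le
  have hS0 : 0 < Real.sin ψ := lt_of_lt_of_le hS' hSS
  have hsl : th * (100 * (P ^ 3 * (1 + sg))) / 2 ≤ Real.sin ψ' := by
    have h1 : 2 / Real.pi * ψ' ≤ Real.sin ψ' := Real.mul_le_sin hψ'0.le (by linarith)
    have h2 : 1 / 2 ≤ 2 / Real.pi := by
      rw [div_le_div_iff₀ (by norm_num) hpi]
      linarith
    have h3 : 1 / 2 * ψ' ≤ 2 / Real.pi * ψ' := mul_le_mul_of_nonneg_right h2 hψ'0.le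
    linarith
  have kZ := fs_hZ hD hF τ ψ hS0.le hC0.le
  have kZ' := fs_hZ hD hF τ' ψ' hS'.le hC'0.le
  rw [← hPdef, ← hα] at kZ
  rw [← hPdef, ← hα'] at kZ'
  -- positivity of the frames
  have hs1 : th * (50 * P ^ 3) ≤ Real.sin ψ' := by
    have h1 : 50 * P ^ 3 * 1 ≤ 50 * P ^ 3 * (1 + sg) :=
      mul_le_mul_of_nonneg_left (by linarith) (by positivity)
    have h2 := mul_le_mul_of_nonneg_left h1 ht.le
    linarith
  have hs2 : th * (50 * P ^ 3) ≤ Real.sin ψ := le_trans hs1 hSS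
  have hpos : ∀ (S C Z α : ℝ), 0 ≤ S → 0 ≤ C → C ≤ 1 → 0 ≤ α → α ≤ P / 2 → th * (50 * P ^ 3) ≤ S →
      |Z - (S - th * α * C)| ≤ 2 * P ^ 2 * (th ^ 2 * S + th ^ 3) → 0 < Z := fun S C Z α =>
    fs_pos P th S C Z α hP1 ht htP2 ht1
  have hZpos : 0 < hZ D th τ ψ := hpos _ _ _ α hS0.le hC0.le (Real.cos_le_one _) hα0.1 hα0.2 hs2 kZ
  have hZ'pos : 0 < hZ D th τ' ψ' :=
    hpos _ _ _ α' hS'.le hC'0.le (Real.cos_le_one _) hα'0.1 hα'0.2 hs1 kZ'
  -- sin Δ
  have hsinΔ : Real.sin Δ = Real.sin ψ * Real.cos ψ' - Real.cos ψ * Real.sin ψ' := by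
    rw [hΔ, Real.sin_sub]
  have hsinlo : th * M - (15 * P ^ 3 + sg) * th ^ 3 ≤ Real.sin Δ := by
    have h1 := Real.sin_gt_sub_cube hΔ0
    have h2 : Δ ^ 3 ≤ (4 * P * th) ^ 3 := pow_le_pow_left₀ hΔ0.le hΔ4 3
    have e : (4 * P * th) ^ 3 = 64 * (P ^ 3 * th ^ 3) := by ring
    rw [e] at h2
    linarith
  -- cos ψ' - th c Z' > 0
  have hD'pos : 0 < Real.cos ψ' - th * c * hZ D th τ' ψ' := by
    have h1 : Real.sin Δ ≤ Real.cos ψ' := by
      have : Real.sin Δ = Real.cos (Real.pi / 2 - Δ) := by rw [Real.cos_pi_div_two_sub]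
      rw [this]
      apply Real.cos_le_cos_of_nonneg_of_le_pi hψ'0.le (by linarith)
      linarith
    have h2 : hZ D th τ' ψ' ≤ 1 + 4 * P ^ 2 * th ^ 2 := by
      have h3 := (abs_le.mp kZ').2
      have h4 : 0 ≤ th * α' * Real.cos ψ' := by
        have := hα'0.1
        positivity
      have h5 := Real.sin_le_one ψ'
      have h6 : 2 * P ^ 2 * (th ^ 2 * Real.sin ψ' + th ^ 3) ≤ 2 * P ^ 2 * (th ^ 2 * 1 + th ^ 2 * 1) := by
        apply mul_le_mul_of_nonneg_left _ (by positivity)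
        have e : th ^ 3 = th ^ 2 * th := by ring
        rw [e]
        apply add_le_add
        · exact mul_le_mul_of_nonneg_left h5 (by positivity)
        · exact mul_le_mul_of_nonneg_left (by linarith) (by positivity)
      linarith
    have h3 : th * c * hZ D th τ' ψ' ≤ th * c * (1 + 4 * P ^ 2 * th ^ 2) :=
      mul_le_mul_of_nonneg_left h2 (by positivity)
    have h4 : th * c * (4 * P ^ 2 * th ^ 2) ≤ 12 * P ^ 3 * th ^ 3 := by
      have e : th * c * (4 * P ^ 2 * th ^ 2) = c * (4 * P ^ 2 * th ^ 3) := by ring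
      rw [e]
      have h6 : c * (4 * P ^ 2 * th ^ 3) ≤ 3 * (4 * P ^ 2 * th ^ 3) :=
        mul_le_mul_of_nonneg_right hc3 (by positivity)
      have h7 : P ^ 2 ≤ P ^ 3 := pow_le_pow_right₀ hP1 (by norm_num)
      have h8 := mul_le_mul_of_nonneg_right h7 ht3.le
      linarith
    have h5 : th * (1 / P) ≤ th * (M - c) := mul_le_mul_of_nonneg_left (by linarith) ht.le
    linarith
  refine ⟨hZ'pos, hZpos, hD'pos, hC'0, ?_⟩
  have hcos : Real.cos ψ * Real.cos ψ' + Real.sin ψ * Real.sin ψ' ≤ 1 := by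
    rw [← Real.cos_sub]
    exact Real.cos_le_one _
  exact fs_core P th (Real.sin ψ) (Real.cos ψ) (Real.sin ψ') (Real.cos ψ') (hZ D th τ ψ)
    (hZ D th τ' ψ') α α' m a c G sg (Real.sin Δ) hP14 hsg ht htP hS'.le hSS (Real.sin_le_one _)
    hC0.le hCC (Real.cos_le_one _) hα0.1 hα'0.1 hm ha (by linarith) hc hc3 hG
    (le_trans hG2 (by
      have : (D : ℝ) ^ 2 ≤ P ^ 2 := pow_le_pow_left₀ (by positivity) (by linarith) 2
      linarith)) hM' hsl kZ kZ' hZpos.le hZ'pos.le hD'pos.le hsinlo hsinΔ hcos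

end Pool.Agent.T2H60.SX
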