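import Pool.Agent.T2H60.SX.PFXb

/-!
# SX: package FX
-/

set_option autoImplicit false
open Finset

namespace Pool.Agent.T2H60.SX

/-- the explicit version of `FX` -/
lemma fx_main {D : ℕ} {th : ℝ} (hD : 10 ^ 14 ≤ D) (h : Fsm D th) :
    |chi D th / ((D : ℝ) + 1) - th| ≤ (2 * ((D : ℝ) + 1) ^ 2) * th ^ 3 ∧ 0 < chi D th ∧ chi D th < 1 / 10 ∧
    ∀ τ : Ty, τ.is2 → 0 < bq D th τ ∧ 0 ≤ ed D th τ ∧
      |Real.sin (chi D th) / bq D th τ - 1| ≤ (2 * ((D : ℝ) + 1) ^ 2) * th ^ 2 ∧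
      |ed D th τ / bq D th τ - th * al D τ| ≤ (2 * ((D : ℝ) + 1) ^ 2) * th ^ 3 := by
  have hD' : (10 : ℝ) ^ 14 ≤ D := by exact_mod_cast hD
  obtain ⟨h1, h2, h3, h4⟩ := fsm_s hD h
  obtain ⟨c1, c2, c3⟩ := fx_chi_bd hD h
  have ht := h.1
  have hP : 0 < (D : ℝ) + 1 := by linarith
  have hd2 : 0 < (D : ℝ) - 2 := by linarith
  have hdt := fsm_dt hD h
  have ht3 : 0 < th ^ 3 := by positivity
  have ht2 : 0 < th ^ 2 := by positivity
  set s := fxs D th with hs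
  have hsdef : 2 * s = th * ((D : ℝ) + 1) - 2 * ((D : ℝ) - 2) * th ^ 3 := by
    rw [hs, fxs]; ring
  have hs2 : s ^ 2 ≤ ((D : ℝ) + 1) ^ 2 * th ^ 2 / 4 := by
    have := pow_le_pow_left₀ h1.le h2 2
    calc s ^ 2 ≤ (th * ((D : ℝ) + 1) / 2) ^ 2 := this
      _ = _ := by ring
  have hs3 : s ^ 3 ≤ ((D : ℝ) + 1) ^ 3 * th ^ 3 / 8 := by
    have := pow_le_pow_left₀ h1.le h2 3
    calc s ^ 3 ≤ (th * ((D : ℝ) + 1) / 2) ^ 3 := this
      _ = _ := by ring
  have hq1 : 1 - s ^ 2 ≤ Real.sqrt (1 - s ^ 2) := by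
    have hle : (1 - s ^ 2) ^ 2 ≤ 1 - s ^ 2 := by nlinarith [sq_nonneg s]
    exact Real.le_sqrt_of_sq_le hle
  have hq2 : Real.sqrt (1 - s ^ 2) ≤ 1 := by
    rw [Real.sqrt_le_one]
    nlinarith [sq_nonneg s]
  have hq0 : 0 ≤ Real.sqrt (1 - s ^ 2) := Real.sqrt_nonneg _
  refine ⟨?_, by linarith, c3, ?_⟩
  · rw [abs_le]
    have e : chi D th / ((D : ℝ) + 1) - th = (chi D th - th * ((D : ℝ) + 1)) / ((D : ℝ) + 1) := by
      field_simp
    rw [e]
    constructor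
    · rw [le_div_iff₀ hP]
      nlinarith [mul_pos hP ht3, mul_pos (mul_pos hP hP) ht3]
    · rw [div_le_iff₀ hP]
      have : 0 ≤ 2 * ((D : ℝ) - 2) * th ^ 3 := by positivity
      nlinarith [mul_pos hP ht3, mul_pos (mul_pos hP hP) ht3]
  · -- a common computation
    have key : ∀ k : ℝ, 1 ≤ k → k ≤ 2 →
        |Real.sin (chi D th) / (2 * s * (1 - k * ((D : ℝ) - 2) * th ^ 2)) - 1|
          ≤ (2 * ((D : ℝ) + 1) ^ 2) * th ^ 2 := by
      intro k hk1 hk2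
      have hk3 : k * ((D : ℝ) - 2) * th ^ 2 ≤ 1 / 50 := by
        have : k * ((D : ℝ) - 2) ≤ 2 * (D + 1) := by nlinarith
        have := mul_le_mul_of_nonneg_right this ht2.le
        nlinarith
      have hk4 : 0 ≤ k * ((D : ℝ) - 2) * th ^ 2 := by positivity
      have hk5 : k * ((D : ℝ) - 2) * th ^ 2 ≤ 1 / 2 * ((D : ℝ) + 1) ^ 2 * th ^ 2 := by
        have : k * ((D : ℝ) - 2) ≤ 1 / 2 * ((D : ℝ) + 1) ^ 2 := by nlinarith
        exact mul_le_mul_of_nonneg_right this ht2.le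
      rw [fx_sin hD h, ← hs, mul_div_mul_left _ _ (by positivity : (2 * s) ≠ 0)]
      have hpos : 0 < 1 - k * ((D : ℝ) - 2) * th ^ 2 := by linarith
      have e : Real.sqrt (1 - s ^ 2) / (1 - k * ((D : ℝ) - 2) * th ^ 2) - 1
          = (Real.sqrt (1 - s ^ 2) - (1 - k * ((D : ℝ) - 2) * th ^ 2))
            / (1 - k * ((D : ℝ) - 2) * th ^ 2) := by
        field_simp
      rw [e, abs_le]
      constructor
      · rw [le_div_iff₀ hpos]
        nlinarith [mul_pos (mul_pos hP hP) ht2]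
      · rw [div_le_iff₀ hpos]
        nlinarith [mul_pos (mul_pos hP hP) ht2]
    have key2 : ∀ k c : ℝ, 1 ≤ k → k ≤ 2 → |k * (c * ((D : ℝ) - 2)) - 2 * ((D : ℝ) - 2)|
        ≤ 2 * ((D : ℝ) + 1) ^ 2 →
        |th * s * (c - 2 * ((D : ℝ) - 2) * th ^ 2) / (2 * s * (1 - k * ((D : ℝ) - 2) * th ^ 2)) - th * (c / 2)|
          ≤ (2 * ((D : ℝ) + 1) ^ 2) * th ^ 3 := by
      intro k c hk1 hk2 hc
      have hk3 : k * ((D : ℝ) - 2) * th ^ 2 ≤ 1 / 50 := by
        have : k * ((D : ℝ) - 2) ≤ 2 * (D + 1) := by nlinarith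
        have := mul_le_mul_of_nonneg_right this ht2.le
        nlinarith
      have hpos : 0 < 1 - k * ((D : ℝ) - 2) * th ^ 2 := by linarith
      have e : th * s * (c - 2 * ((D : ℝ) - 2) * th ^ 2) / (2 * s * (1 - k * ((D : ℝ) - 2) * th ^ 2))
          - th * (c / 2)
          = th ^ 3 * (k * (c * ((D : ℝ) - 2)) - 2 * ((D : ℝ) - 2)) / (2 * (1 - k * ((D : ℝ) - 2) * th ^ 2)) := by
        have n1 : 2 * s * (1 - k * ((D : ℝ) - 2) * th ^ 2) ≠ 0 := by positivity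
        have n2 : 2 * (1 - k * ((D : ℝ) - 2) * th ^ 2) ≠ 0 := by positivity
        rw [div_sub' n1, div_eq_div_iff n1 n2]
        ring
      rw [e, abs_div, abs_mul, abs_of_pos ht3, abs_of_pos (by linarith : 0 < 2 * (1 - k * ((D : ℝ) - 2) * th ^ 2)),
        div_le_iff₀ (by linarith)]
      calc th ^ 3 * |k * (c * ((D : ℝ) - 2)) - 2 * ((D : ℝ) - 2)|
          ≤ th ^ 3 * (2 * ((D : ℝ) + 1) ^ 2) := mul_le_mul_of_nonneg_left hc ht3.le
        _ = (2 * ((D : ℝ) + 1) ^ 2) * th ^ 3 * 1 := by ring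
        _ ≤ (2 * ((D : ℝ) + 1) ^ 2) * th ^ 3 * (2 * (1 - k * ((D : ℝ) - 2) * th ^ 2)) := by
            apply mul_le_mul_of_nonneg_left
            · linarith
            · positivity
    have hk3 : ((D : ℝ) - 2) * th ^ 2 ≤ 1 / 100 := by
      nlinarith
    intro τ hτ
    rcases hτ with rfl | rfl
    · rw [fx_bq_pl, fx_ed_pl, ← hs]
      refine ⟨?_, ?_, ?_, ?_⟩
      · have : 0 < 1 - ((D : ℝ) - 2) * th ^ 2 := by linarith
        positivity
      · have : 0 ≤ (D : ℝ) - 1 - 2 * ((D : ℝ) - 2) * th ^ 2 := by linarith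
        positivity
      · have := key 1 le_rfl (by norm_num)
        rwa [one_mul] at this
      · have := key2 1 ((D : ℝ) - 1) le_rfl (by norm_num) (by
          rw [abs_le]; constructor <;> nlinarith)
        rw [one_mul] at this
        exact this
    · rw [fx_bq_mi, fx_ed_mi, ← hs]
      refine ⟨?_, ?_, ?_, ?_⟩
      · have : 0 < 1 - 2 * ((D : ℝ) - 2) * th ^ 2 := by linarith
        positivity
      · have : 0 ≤ (D : ℝ) - 3 - 2 * ((D : ℝ) - 2) * th ^ 2 := by linarith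
        positivity
      · exact key 2 (by norm_num) le_rfl
      · exact key2 2 ((D : ℝ) - 3) (by norm_num) le_rfl (by
          rw [abs_le]; constructor <;> nlinarith)

lemma fsm_of {D : ℕ} {th : ℝ} (h0 : 0 < th) (h1 : th ≤ 1 / (100 * ((D : ℝ) + 1) ^ 2)) : Fsm D th := by
  refine ⟨h0, ?_⟩
  have hP : 0 < (D : ℝ) + 1 := by positivity
  rw [le_div_iff₀ (by positivity)] at h1
  linarith

theorem pFX : FX := by
  intro D hD
  have hP : 0 < (D : ℝ) + 1 := by positivity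
  refine ⟨2 * ((D : ℝ) + 1) ^ 2, by positivity, 1 / (100 * ((D : ℝ) + 1) ^ 2), by positivity, ?_⟩
  intro th h0 h1
  exact fx_main hD (fsm_of h0 h1)

end Pool.Agent.T2H60.SX
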