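import Pool.Agent.T2H60.SX.Stm

/-!
# SX package G01: parity and connectivity of cuts (G01), two cuts at a small distance (G05)
-/

set_option autoImplicit false
open Finset

namespace Pool.Agent.T2H60.SX

private lemma G01_even_double (e : ℕ → ℕ → ℕ) (hs : ∀ i k, e i k = e k i) (h0 : ∀ i, e i i = 0)
    (t : ℕ) : Even (∑ i ∈ range t, ∑ k ∈ range t, e i k) := by
  induction t with
  | zero => simp
  | succ t ih =>
    have h1 : ∑ i ∈ range (t + 1), ∑ k ∈ range (t + 1), e i k
        = (∑ i ∈ range t, ∑ k ∈ range t, e i k) + 2 * ∑ i ∈ range t, e i t := by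
      rw [Finset.sum_range_succ, Finset.sum_range_succ, h0 t]
      have h2 : ∑ i ∈ range t, ∑ k ∈ range (t + 1), e i k
          = (∑ i ∈ range t, ∑ k ∈ range t, e i k) + ∑ i ∈ range t, e i t := by
        rw [← Finset.sum_add_distrib]
        exact Finset.sum_congr rfl (fun i _ => Finset.sum_range_succ _ _)
      have h3 : ∑ k ∈ range t, e t k = ∑ i ∈ range t, e i t :=
        Finset.sum_congr rfl (fun i _ => hs _ _)
      rw [h2, h3]; ring
    rw [h1]
    exact ih.add (even_two_mul _)

private lemma G01_split (e : ℕ → ℕ → ℕ) (N t i : ℕ) (ht : t ≤ N) :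
    ∑ k ∈ range (N + 2), e i k = ∑ k ∈ range t, e i k + ∑ k ∈ Ico t (N + 2), e i k :=
  (Finset.sum_range_add_sum_Ico (fun k => e i k) (by omega)).symm

theorem pG01 : G01 := by
  intro D N e x th h t ht1 htN
  have hdeg : t * D = (∑ i ∈ range t, ∑ k ∈ range t, e i k) + cut N e t := by
    have h1 : ∑ i ∈ range t, ∑ k ∈ range (N + 2), e i k = t * D := by
      rw [Finset.sum_congr rfl (fun i hi => h.deg i (lt_of_lt_of_le (Finset.mem_range.1 hi) htN))]
      simp
    rw [← h1, cut, ← Finset.sum_add_distrib]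
    exact Finset.sum_congr rfl (fun i _ => G01_split e N t i htN)
  have he : Even (cut N e t) := by
    have h1 : Even (t * D) := h.ev.mul_left t
    rw [hdeg] at h1
    exact (Nat.even_add.1 h1).1 (G01_even_double e h.symm h.irr t)
  refine ⟨he, ?_⟩
  have hpos : 1 ≤ cut N e t := by
    obtain ⟨i, hi, k, hk, hik⟩ := h.conn (range t) (Finset.range_subset_range.2 htN)
      ⟨0, Finset.mem_range.2 (by omega)⟩
    have hk' : k ∈ Ico t (N + 2) := by
      simp only [Finset.mem_sdiff, Finset.mem_range, not_lt] at hk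
      exact Finset.mem_Ico.2 ⟨hk.2, hk.1⟩
    calc 1 = e i k := hik.symm
      _ ≤ ∑ k ∈ Ico t (N + 2), e i k :=
          Finset.single_le_sum (f := fun k => e i k) (fun _ _ => Nat.zero_le _) hk'
      _ ≤ cut N e t :=
          Finset.single_le_sum (f := fun i => ∑ k ∈ Ico t (N + 2), e i k)
            (fun _ _ => Nat.zero_le _) hi
  obtain ⟨r, hr⟩ := he
  omega

theorem pG05 : G05 := by
  intro D N e x th h i d hd hid
  -- each vertex of the block
  have hv : ∀ v ∈ Ico i (i + d), D + 1 - d ≤ ∑ k ∈ range i, e v k + ∑ k ∈ Ico (i + d) (N + 2), e v k := by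
    intro v hv
    have hv' := Finset.mem_Ico.1 hv
    have h1 := h.deg v (by omega)
    have h2 : ∑ k ∈ range (N + 2), e v k = ∑ k ∈ range i, e v k
        + (∑ k ∈ Ico i (i + d), e v k + ∑ k ∈ Ico (i + d) (N + 2), e v k) := by
      rw [Finset.sum_Ico_consecutive _ (by omega) (by omega)]
      exact G01_split e N i v (by omega)
    have h3 : ∑ k ∈ Ico i (i + d), e v k ≤ d - 1 := by
      rw [← Finset.add_sum_erase _ _ hv, h.irr v, zero_add]
      calc ∑ k ∈ (Ico i (i + d)).erase v, e v k ≤ ∑ k ∈ (Ico i (i + d)).erase v, 1 :=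
            Finset.sum_le_sum (fun k _ => h.le1 v k)
        _ = d - 1 := by
            rw [Finset.sum_const, Finset.card_erase_of_mem hv, Nat.card_Ico]
            simp
    omega
  have h1 : d * (D + 1 - d) ≤ ∑ v ∈ Ico i (i + d),
      (∑ k ∈ range i, e v k + ∑ k ∈ Ico (i + d) (N + 2), e v k) := by
    calc d * (D + 1 - d) = ∑ v ∈ Ico i (i + d), (D + 1 - d) := by simp
      _ ≤ _ := Finset.sum_le_sum hv
  rw [Finset.sum_add_distrib] at h1
  have h2 : ∑ v ∈ Ico i (i + d), ∑ k ∈ range i, e v k ≤ cut N e i := by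
    rw [Finset.sum_comm, cut]
    refine Finset.sum_le_sum (fun k _ => ?_)
    rw [Finset.sum_congr rfl (fun v _ => h.symm v k)]
    exact Finset.sum_le_sum_of_subset (Finset.Ico_subset_Ico le_rfl (by omega))
  have h3 : ∑ v ∈ Ico i (i + d), ∑ k ∈ Ico (i + d) (N + 2), e v k ≤ cut N e (i + d) := by
    rw [cut]
    refine Finset.sum_le_sum_of_subset (fun v hv => ?_)
    exact Finset.mem_range.2 (Finset.mem_Ico.1 hv).2
  omega

end Pool.Agent.T2H60.SX
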