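import Pool.Agent.T2H60.SX.Stm

/-!
# SX: packages G02, G03, G04, G06
-/

set_option autoImplicit false
open Finset

namespace Pool.Agent.T2H60.SX

theorem pG02 : G02 := by
  intro D N e x th h A hA
  classical
  have h1 : ∑ i ∈ A, ∑ k ∈ range (N + 2), (e i k : ℝ) * (x i - x k) =
      2 * ((D : ℝ) - 2) * th ^ 2 * ∑ i ∈ A, x i := by
    rw [mul_sum]
    exact sum_congr rfl fun i hi => h.eig i (mem_range.1 (hA hi))
  have hA2 : A ⊆ range (N + 2) := hA.trans (range_subset_range.2 (by omega))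
  have h2 : ∀ i, ∑ k ∈ range (N + 2), (e i k : ℝ) * (x i - x k) =
      ∑ k ∈ range (N + 2) \ A, (e i k : ℝ) * (x i - x k) + ∑ k ∈ A, (e i k : ℝ) * (x i - x k) :=
    fun i => (sum_sdiff hA2).symm
  have h3 : ∑ i ∈ A, ∑ k ∈ A, (e i k : ℝ) * (x i - x k) = 0 := by
    have h4 : ∑ i ∈ A, ∑ k ∈ A, (e i k : ℝ) * (x i - x k) =
        ∑ i ∈ A, ∑ k ∈ A, (e k i : ℝ) * (x k - x i) := sum_comm
    have h5 : ∑ i ∈ A, ∑ k ∈ A, (e k i : ℝ) * (x k - x i) =
        -∑ i ∈ A, ∑ k ∈ A, (e i k : ℝ) * (x i - x k) := by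
      rw [← sum_neg_distrib]
      refine sum_congr rfl fun i _ => ?_
      rw [← sum_neg_distrib]
      refine sum_congr rfl fun k _ => ?_
      rw [h.symm k i]
      ring
    linarith
  rw [← h1]
  simp only [h2, sum_add_distrib, h3, add_zero]

theorem g02_range {N t : ℕ} : range (N + 2) \ range t = Ico t (N + 2) := by
  ext k
  simp only [mem_sdiff, mem_range, mem_Ico]
  omega

theorem g02_flow {D N : ℕ} {e : ℕ → ℕ → ℕ} {x : ℕ → ℝ} {th : ℝ} (h : SG D N e x th) {t : ℕ}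
    (ht : t ≤ N) : ∑ i ∈ range t, ∑ k ∈ Ico t (N + 2), (e i k : ℝ) * (x i - x k) =
      2 * ((D : ℝ) - 2) * th ^ 2 * Ys x t := by
  rw [← g02_range]
  exact pG02 D N e x th h (range t) (range_subset_range.2 ht)

theorem pG03 : G03 := by
  intro D N e x th h t ht
  have h1 := g02_flow h ht
  have h2 : ∑ i ∈ range t, ∑ k ∈ Ico t (N + 2), (e i k : ℝ) * (x i - x k) =
      2 * Wh N e x t - 2 * Uh N e x t := by
    unfold Wh Uh
    simp only [mul_sub, sum_sub_distrib]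
    ring
  linarith

theorem g02_nonneg {D N : ℕ} {e : ℕ → ℕ → ℕ} {x : ℕ → ℝ} {th : ℝ} (h : SG D N e x th) (i : ℕ) :
    0 ≤ x i := by
  rcases lt_or_ge i N with hi | hi
  · exact (h.pos i hi).le
  · exact (h.zero i hi).ge

theorem g02_cast (N : ℕ) (e : ℕ → ℕ → ℕ) (t : ℕ) :
    (cut N e t : ℝ) = ∑ i ∈ range t, ∑ k ∈ Ico t (N + 2), (e i k : ℝ) := by
  unfold cut
  push_cast
  rfl

theorem pG04 : G04 := by
  intro D N e x th h t ht1 ht
  rw [← g02_flow h ht, g02_cast, mul_sum]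
  refine sum_le_sum fun i hi => ?_
  rw [mul_sum]
  refine sum_le_sum fun k hk => ?_
  have h1 : x (t - 1) ≤ x i := h.anti (by
    have := mem_range.1 hi
    omega)
  have h2 : x k ≤ x t := h.anti (mem_Ico.1 hk).1
  rw [mul_comm]
  apply mul_le_mul_of_nonneg_left _ (Nat.cast_nonneg _)
  linarith

theorem pG06 : G06 := by
  intro D N e x th h t ht1 ht hc
  have hc' := g02_cast N e t
  rw [hc] at hc'
  push_cast at hc'
  refine ⟨?_, ?_, ?_⟩
  · unfold Uh
    have : 0 ≤ ∑ i ∈ range t, ∑ k ∈ Ico t (N + 2), (e i k : ℝ) * x k :=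
      sum_nonneg fun i _ => sum_nonneg fun k _ => mul_nonneg (Nat.cast_nonneg _) (g02_nonneg h k)
    linarith
  · unfold Uh
    have : ∑ i ∈ range t, ∑ k ∈ Ico t (N + 2), (e i k : ℝ) * x k ≤
        ∑ i ∈ range t, ∑ k ∈ Ico t (N + 2), (e i k : ℝ) * x t :=
      sum_le_sum fun i _ => sum_le_sum fun k hk =>
        mul_le_mul_of_nonneg_left (h.anti (mem_Ico.1 hk).1) (Nat.cast_nonneg _)
    simp only [← sum_mul] at this
    rw [← hc'] at this
    linarith
  · unfold Wh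
    have : ∑ i ∈ range t, ∑ k ∈ Ico t (N + 2), (e i k : ℝ) * x (t - 1) ≤
        ∑ i ∈ range t, ∑ k ∈ Ico t (N + 2), (e i k : ℝ) * x i :=
      sum_le_sum fun i hi => sum_le_sum fun k _ =>
        mul_le_mul_of_nonneg_left (h.anti (by
          have := mem_range.1 hi
          omega)) (Nat.cast_nonneg _)
    simp only [← sum_mul] at this
    rw [← hc'] at this
    simp only [← sum_mul]
    linarith

end Pool.Agent.T2H60.SX
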