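import Pool.Agent.T2H60.SX.Stm

/-!
# SX, package GC: classification of the blocks of `D + 1` vertices
-/

set_option autoImplicit false
open Finset

namespace Pool.Agent.T2H60.SX

/-- sum two -/
theorem GC_sum2 (B : Finset ℕ) (f : ℕ → ℕ) (h : ∑ y ∈ B, f y = 2) :
    (∃ v ∈ B, f v = 2 ∧ ∀ y ∈ B, y ≠ v → f y = 0) ∨
    (∃ a ∈ B, ∃ b ∈ B, a ≠ b ∧ f a = 1 ∧ f b = 1 ∧ ∀ y ∈ B, y ≠ a → y ≠ b → f y = 0) := by
  have h1 : ∃ a ∈ B, f a ≠ 0 := by
    by_contra hne
    push Not at hne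
    rw [Finset.sum_eq_zero hne] at h
    omega
  obtain ⟨a, ha, hfa⟩ := h1
  have h2 := Finset.add_sum_erase B f ha
  by_cases h3 : f a = 2
  · left
    refine ⟨a, ha, h3, ?_⟩
    have h4 : ∑ x ∈ B.erase a, f x = 0 := by omega
    intro y hy hya
    exact (Finset.sum_eq_zero_iff.1 h4) y (Finset.mem_erase.2 ⟨hya, hy⟩)
  · right
    have h4 : f a = 1 ∧ ∑ x ∈ B.erase a, f x = 1 := by omega
    obtain ⟨h4, h5⟩ := h4
    have h6 : ∃ b ∈ B.erase a, f b ≠ 0 := by
      by_contra hne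
      push Not at hne
      rw [Finset.sum_eq_zero hne] at h5
      omega
    obtain ⟨b, hb, hfb⟩ := h6
    have h7 := Finset.add_sum_erase (B.erase a) f hb
    have h8 : f b = 1 ∧ ∑ x ∈ (B.erase a).erase b, f x = 0 := by omega
    refine ⟨a, ha, b, (Finset.mem_erase.1 hb).2, fun h => (Finset.mem_erase.1 hb).1 h.symm, h4, h8.1, ?_⟩
    intro y hy hya hyb
    exact (Finset.sum_eq_zero_iff.1 h8.2) y (Finset.mem_erase.2 ⟨hyb, Finset.mem_erase.2 ⟨hya, hy⟩⟩)

/-- the non-neighbours -/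
def GCcn (B : Finset ℕ) (e : ℕ → ℕ → ℕ) (y : ℕ) : Finset ℕ := (B.erase y).filter (fun z => e y z = 0)

theorem GC_mem (B : Finset ℕ) (e : ℕ → ℕ → ℕ) (y z : ℕ) :
    z ∈ GCcn B e y ↔ (z ≠ y ∧ z ∈ B) ∧ e y z = 0 := by
  unfold GCcn
  rw [Finset.mem_filter, Finset.mem_erase]

/-- combinatorial facts about the non-neighbours -/
theorem GC_facts (B : Finset ℕ) (e : ℕ → ℕ → ℕ) (f : ℕ → ℕ) (hs : ∀ i k, e i k = e k i)
    (hc : ∀ y ∈ B, (GCcn B e y).card = f y) :
    -- value zero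
    (∀ y ∈ B, f y = 0 → ∀ z ∈ B, y ≠ z → e y z ≠ 0) ∧
    -- positive
    (∀ y ∈ B, ∀ z ∈ B, y ≠ z → e y z = 0 → f z ≠ 0) ∧
    -- value one
    (∀ y ∈ B, f y = 1 → ∃ z ∈ B, z ≠ y ∧ e y z = 0 ∧ ∀ w ∈ B, w ≠ y → e y w = 0 → w = z) ∧
    -- value at least two
    (∀ y ∈ B, 2 ≤ f y → ∀ b, ¬ (∀ z ∈ B, z ≠ y → e y z = 0 → z = b)) ∧
    -- value two
    (∀ y ∈ B, f y = 2 → ∀ a b, (∀ z ∈ B, z ≠ y → e y z = 0 → z = a ∨ z = b) → e y a = 0 ∧ e y b = 0) := by
  have h0 : ∀ y ∈ B, f y = 0 → ∀ z ∈ B, y ≠ z → e y z ≠ 0 := by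
    intro y hy h0 z hz hyz he
    have := hc y hy
    rw [h0, Finset.card_eq_zero] at this
    have h1 : z ∈ GCcn B e y := (GC_mem B e y z).2 ⟨⟨hyz.symm, hz⟩, he⟩
    rw [this] at h1
    simp at h1
  refine ⟨h0, ?_, ?_, ?_, ?_⟩
  · intro y hy z hz hyz he hf
    exact h0 z hz hf y hy hyz.symm (by rw [hs]; exact he)
  · intro y hy h1
    have h2 := hc y hy
    rw [h1, Finset.card_eq_one] at h2
    obtain ⟨z, hz⟩ := h2
    have h3 : z ∈ GCcn B e y := by rw [hz]; simp
    have h4 := (GC_mem B e y z).1 h3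
    refine ⟨z, h4.1.2, h4.1.1, h4.2, ?_⟩
    intro w hw hwy hew
    have h5 : w ∈ GCcn B e y := (GC_mem B e y w).2 ⟨⟨hwy, hw⟩, hew⟩
    rw [hz] at h5
    simpa using h5
  · intro y hy h2 b hb
    have h3 := hc y hy
    have h4 : GCcn B e y ⊆ {b} := by
      intro z hz
      have h5 := (GC_mem B e y z).1 hz
      simpa using hb z h5.1.2 h5.1.1 h5.2
    have h6 := Finset.card_le_card h4
    rw [Finset.card_singleton] at h6
    omega
  · intro y hy h2 a b hab
    have h3 := hc y hy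
    have h4 : GCcn B e y ⊆ {a, b} := by
      intro z hz
      have h5 := (GC_mem B e y z).1 hz
      simpa using hab z h5.1.2 h5.1.1 h5.2
    have h6 : GCcn B e y = {a, b} := by
      apply Finset.eq_of_subset_of_card_le h4
      have := Finset.card_le_two (a := a) (b := b)
      omega
    constructor
    · have h7 : a ∈ GCcn B e y := by rw [h6]; simp
      exact ((GC_mem B e y a).1 h7).2
    · have h7 : b ∈ GCcn B e y := by rw [h6]; simp
      exact ((GC_mem B e y b).1 h7).2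

/-- the case `V` -/
theorem GC_V (B : Finset ℕ) (e : ℕ → ℕ → ℕ) (f : ℕ → ℕ) (hs : ∀ i k, e i k = e k i)
    (hc : ∀ y ∈ B, (GCcn B e y).card = f y) (c b w : ℕ) (hcB : c ∈ B) (hbB : b ∈ B) (hwB : w ∈ B)
    (hcb : c ≠ b) (hcw : c ≠ w) (hbw : b ≠ w) (fc : f c = 2) (fb : f b = 1) (fw : f w = 1)
    (f0 : ∀ y ∈ B, y ≠ c → y ≠ b → y ≠ w → f y = 0) :
    ∀ y ∈ B, ∀ z ∈ B, y ≠ z →
      (e y z = 0 ↔ (y = c ∧ (z = b ∨ z = w)) ∨ (z = c ∧ (y = b ∨ y = w))) := by
  obtain ⟨F0, F1, F2, F3, F4⟩ := GC_facts B e f hs hc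
  have hcc : ∀ z ∈ B, z ≠ c → e c z = 0 → z = b ∨ z = w := by
    intro z hz hzc he
    by_contra hne
    push Not at hne
    exact F1 c hcB z hz hzc.symm he (f0 z hz hzc hne.1 hne.2)
  obtain ⟨ecb, ecw⟩ := F4 c hcB fc b w hcc
  have hb1 : ∀ z ∈ B, z ≠ b → e b z = 0 → z = c := by
    obtain ⟨z0, _, _, _, hz0⟩ := F2 b hbB fb
    intro z hz hzb he
    rw [hz0 z hz hzb he, hz0 c hcB hcb (by rw [hs]; exact ecb)]
  have hw1 : ∀ z ∈ B, z ≠ w → e w z = 0 → z = c := by
    obtain ⟨z0, _, _, _, hz0⟩ := F2 w hwB fw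
    intro z hz hzb he
    rw [hz0 z hz hzb he, hz0 c hcB hcw (by rw [hs]; exact ecw)]
  intro y hy z hz hyz
  constructor
  · intro he
    by_cases h1 : y = c
    · subst h1
      left
      exact ⟨rfl, hcc z hz hyz.symm he⟩
    · by_cases h2 : y = b
      · subst h2
        right
        exact ⟨hb1 z hz hyz.symm he, Or.inl rfl⟩
      · by_cases h3 : y = w
        · subst h3
          right
          exact ⟨hw1 z hz hyz.symm he, Or.inr rfl⟩
        · exact absurd he (F0 y hy (f0 y hy h1 h2 h3) z hz hyz)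
  · rintro (⟨rfl, rfl | rfl⟩ | ⟨rfl, rfl | rfl⟩)
    · exact ecb
    · exact ecw
    · rw [hs]; exact ecb
    · rw [hs]; exact ecw

/-- the cases `III` and `IV` -/
theorem GC_match (B : Finset ℕ) (e : ℕ → ℕ → ℕ) (f : ℕ → ℕ) (hs : ∀ i k, e i k = e k i)
    (hc : ∀ y ∈ B, (GCcn B e y).card = f y) (a b w w' : ℕ) (haB : a ∈ B) (hbB : b ∈ B) (hwB : w ∈ B)
    (hwB' : w' ∈ B) (hab : a ≠ b) (hww : w ≠ w') (haw : a ≠ w) (haw' : a ≠ w') (hbw : b ≠ w) (hbw' : b ≠ w')
    (fa : f a = 1) (fb : f b = 1) (fw : f w = 1) (fw' : f w' = 1) (heab : e a b = 0)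
    (f0 : ∀ y ∈ B, y ≠ a → y ≠ b → y ≠ w → y ≠ w' → f y = 0) :
    ∀ y ∈ B, ∀ z ∈ B, y ≠ z →
      (e y z = 0 ↔ (y = a ∧ z = b) ∨ (y = b ∧ z = a) ∨ (y = w ∧ z = w') ∨ (y = w' ∧ z = w)) := by
  obtain ⟨F0, F1, F2, F3, F4⟩ := GC_facts B e f hs hc
  have ha1 : ∀ z ∈ B, z ≠ a → e a z = 0 → z = b := by
    obtain ⟨z0, _, _, _, hz0⟩ := F2 a haB fa
    intro z hz hzb he
    rw [hz0 z hz hzb he, hz0 b hbB hab.symm heab]
  have hb1 : ∀ z ∈ B, z ≠ b → e b z = 0 → z = a := by
    obtain ⟨z0, _, _, _, hz0⟩ := F2 b hbB fb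
    intro z hz hzb he
    rw [hz0 z hz hzb he, hz0 a haB hab (by rw [hs]; exact heab)]
  have heww : e w w' = 0 ∧ ∀ z ∈ B, z ≠ w → e w z = 0 → z = w' := by
    obtain ⟨z0, hz0B, hz0w, hez0, hz0⟩ := F2 w hwB fw
    have h1 : z0 = w' := by
      by_contra hne
      have h2 : z0 ≠ a := by
        rintro rfl
        exact hbw.symm (ha1 w hwB haw.symm (by rw [hs]; exact hez0))
      have h3 : z0 ≠ b := by
        rintro rfl
        exact haw.symm (hb1 w hwB hbw.symm (by rw [hs]; exact hez0))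
      exact F1 w hwB z0 hz0B hz0w.symm hez0 (f0 z0 hz0B h2 h3 hz0w hne)
    subst h1
    exact ⟨hez0, hz0⟩
  obtain ⟨heww, hw1⟩ := heww
  have hw1' : ∀ z ∈ B, z ≠ w' → e w' z = 0 → z = w := by
    obtain ⟨z0, _, _, _, hz0⟩ := F2 w' hwB' fw'
    intro z hz hzb he
    rw [hz0 z hz hzb he, hz0 w hwB hww (by rw [hs]; exact heww)]
  intro y hy z hz hyz
  constructor
  · intro he
    by_cases h1 : y = a
    · subst h1
      left
      exact ⟨rfl, ha1 z hz hyz.symm he⟩
    · by_cases h2 : y = b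
      · subst h2
        right; left
        exact ⟨rfl, hb1 z hz hyz.symm he⟩
      · by_cases h3 : y = w
        · subst h3
          right; right; left
          exact ⟨rfl, hw1 z hz hyz.symm he⟩
        · by_cases h4 : y = w'
          · subst h4
            right; right; right
            exact ⟨rfl, hw1' z hz hyz.symm he⟩
          · exact absurd he (F0 y hy (f0 y hy h1 h2 h3 h4) z hz hyz)
  · rintro (⟨rfl, rfl⟩ | ⟨rfl, rfl⟩ | ⟨rfl, rfl⟩ | ⟨rfl, rfl⟩)
    · exact heab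
    · rw [hs]; exact heab
    · exact heww
    · rw [hs]; exact heww

/-- the counts for a block -/
theorem GC_counts (D N : ℕ) (e : ℕ → ℕ → ℕ) (x : ℕ → ℝ) (th : ℝ) (h : SG D N e x th) (t' : ℕ)
    (htN : t' + (D + 1) ≤ N) (hc1 : cut N e t' = 2) (hc2 : cut N e (t' + (D + 1)) = 2)
    (hb : byp N e t' (t' + (D + 1)) = 0) :
    (∀ y ∈ Ico t' (t' + (D + 1)), (GCcn (Ico t' (t' + (D + 1))) e y).card
        = up e t' y + dn N e (t' + (D + 1)) y) ∧
    ∑ y ∈ Ico t' (t' + (D + 1)), up e t' y = 2 ∧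
    ∑ y ∈ Ico t' (t' + (D + 1)), dn N e (t' + (D + 1)) y = 2 := by
  refine ⟨?_, ?_, ?_⟩
  · intro y hy
    have hyN : y < N := by
      have := Finset.mem_Ico.1 hy
      omega
    have h1 := h.deg y hyN
    have h2 : ∑ k ∈ range (N + 2), e y k = ∑ k ∈ range t', e y k
        + ∑ k ∈ Ico t' (t' + (D + 1)), e y k + ∑ k ∈ Ico (t' + (D + 1)) (N + 2), e y k := by
      rw [Finset.range_eq_Ico, Finset.range_eq_Ico,
        ← Finset.sum_Ico_consecutive (fun k => e y k) (Nat.zero_le t') (show t' ≤ N + 2 by omega),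
        ← Finset.sum_Ico_consecutive (fun k => e y k) (show t' ≤ t' + (D + 1) by omega)
          (show t' + (D + 1) ≤ N + 2 by omega)]
      ring
    have h3 : up e t' y = ∑ k ∈ range t', e y k := by
      unfold up
      exact Finset.sum_congr rfl (fun i _ => h.symm i y)
    have h4 : dn N e (t' + (D + 1)) y = ∑ k ∈ Ico (t' + (D + 1)) (N + 2), e y k := rfl
    have h5 := Finset.add_sum_erase (Ico t' (t' + (D + 1))) (fun k => e y k) hy
    have h6 : ((Ico t' (t' + (D + 1))).erase y).card = D := by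
      rw [Finset.card_erase_of_mem hy, Nat.card_Ico]
      omega
    have h7 : (GCcn (Ico t' (t' + (D + 1))) e y).card
        + ∑ k ∈ (Ico t' (t' + (D + 1))).erase y, e y k = D := by
      unfold GCcn
      rw [Finset.card_filter, ← Finset.sum_add_distrib]
      rw [Finset.sum_congr rfl (g := fun _ => 1)]
      · rw [Finset.sum_const, smul_eq_mul, mul_one, h6]
      · intro k _
        have := h.le1 y k
        split_ifs with h8 <;> omega
    have h8 := h.irr y
    omega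
  · unfold up
    rw [Finset.sum_comm]
    unfold byp at hb
    unfold cut at hc1
    have h1 : ∑ i ∈ range t', ∑ k ∈ Ico t' (N + 2), e i k
        = ∑ i ∈ range t', ∑ k ∈ Ico t' (t' + (D + 1)), e i k
          + ∑ i ∈ range t', ∑ k ∈ Ico (t' + (D + 1)) (N + 2), e i k := by
      rw [← Finset.sum_add_distrib]
      apply Finset.sum_congr rfl
      intro i _
      rw [Finset.sum_Ico_consecutive (fun k => e i k) (show t' ≤ t' + (D + 1) by omega)
          (show t' + (D + 1) ≤ N + 2 by omega)]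
    omega
  · unfold byp at hb
    unfold cut at hc2
    unfold dn
    have h1 : ∑ i ∈ range (t' + (D + 1)), ∑ k ∈ Ico (t' + (D + 1)) (N + 2), e i k
        = ∑ i ∈ range t', ∑ k ∈ Ico (t' + (D + 1)) (N + 2), e i k
          + ∑ i ∈ Ico t' (t' + (D + 1)), ∑ k ∈ Ico (t' + (D + 1)) (N + 2), e i k := by
      rw [Finset.sum_range_add_sum_Ico _ (show t' ≤ t' + (D + 1) by omega)]
    omega

/-- the package `GC` -/
theorem pGC : GC := by
  intro D N e x th h t' _ htN hc1 hc2 hb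
  obtain ⟨hc, hU, hW⟩ := GC_counts D N e x th h t' htN hc1 hc2 hb
  have hs := h.symm
  set B := Ico t' (t' + (D + 1)) with hB
  obtain ⟨F0, F1, F2, F3, F4⟩ := GC_facts B e (fun y => up e t' y + dn N e (t' + (D + 1)) y) hs hc
  unfold Cls
  rw [← hB]
  rcases GC_sum2 B _ hU with ⟨c, hcB, fc, fc0⟩ | ⟨a, haB, b, hbB, hab, fa, fb, fab0⟩
  · rcases GC_sum2 B _ hW with ⟨v, hvB, fv, fv0⟩ | ⟨w, hwB, w', hwB', hww, fw, fw', fww0⟩
    · exfalso
      by_cases hvc : v = c
      · subst hvc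
        refine F3 v hvB (by omega) v ?_
        intro z hz hzv he
        exact absurd (by rw [fc0 z hz hzv, fv0 z hz hzv]) (F1 v hvB z hz hzv.symm he)
      · refine F3 v hvB (by omega) c ?_
        intro z hz hzv he
        by_contra hzc
        exact absurd (by rw [fc0 z hz hzc, fv0 z hz hzv]) (F1 v hvB z hz hzv.symm he)
    · by_cases hcw : c = w
      · exfalso
        subst hcw
        refine F3 c hcB (by omega) w' ?_
        intro z hz hzv he
        by_contra hzc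
        exact absurd (by rw [fc0 z hz hzv, fww0 z hz hzv hzc]) (F1 c hcB z hz hzv.symm he)
      by_cases hcw' : c = w'
      · exfalso
        subst hcw'
        refine F3 c hcB (by omega) w ?_
        intro z hz hzv he
        by_contra hzc
        exact absurd (by rw [fc0 z hz hzv, fww0 z hz hzc hzv]) (F1 c hcB z hz hzv.symm he)
      right; left
      refine ⟨c, hcB, w, hwB, w', hwB', hcw, hcw', hww, fc, fw, fw', fc0, fww0, ?_⟩
      refine GC_V B e _ hs hc c w w' hcB hwB hwB' hcw hcw' hww ?_ ?_ ?_ ?_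
      · simp only [fc, fww0 c hcB hcw hcw']
      · simp only [fc0 w hwB (Ne.symm hcw), fw]
      · simp only [fc0 w' hwB' (Ne.symm hcw'), fw']
      · intro y hy h1 h2 h3
        simp only [fc0 y hy h1, fww0 y hy h2 h3]
  · rcases GC_sum2 B _ hW with ⟨v, hvB, fv, fv0⟩ | ⟨w, hwB, w', hwB', hww, fw, fw', fww0⟩
    · by_cases hva : v = a
      · exfalso
        subst hva
        refine F3 v hvB (by omega) b ?_
        intro z hz hzv he
        by_contra hzc
        exact absurd (by rw [fab0 z hz hzv hzc, fv0 z hz hzv]) (F1 v hvB z hz hzv.symm he)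
      by_cases hvb : v = b
      · exfalso
        subst hvb
        refine F3 v hvB (by omega) a ?_
        intro z hz hzv he
        by_contra hzc
        exact absurd (by rw [fab0 z hz hzc hzv, fv0 z hz hzv]) (F1 v hvB z hz hzv.symm he)
      left
      refine ⟨v, hvB, a, haB, b, hbB, hva, hvb, hab, fv, fa, fb, fv0, fab0, ?_⟩
      refine GC_V B e _ hs hc v a b hvB haB hbB hva hvb hab ?_ ?_ ?_ ?_
      · simp only [fv, fab0 v hvB hva hvb]
      · simp only [fv0 a haB (Ne.symm hva), fa]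
      · simp only [fv0 b hbB (Ne.symm hvb), fb]
      · intro y hy h1 h2 h3
        simp only [fv0 y hy h1, fab0 y hy h2 h3]
    · -- the shared case
      have key : ∀ c b w : ℕ, c ∈ B → b ∈ B → w ∈ B → c ≠ b → c ≠ w → up e t' c = 1 → up e t' b = 1 →
          dn N e (t' + (D + 1)) c = 1 → dn N e (t' + (D + 1)) w = 1 →
          (∀ y ∈ B, y ≠ c → y ≠ b → up e t' y = 0) →
          (∀ y ∈ B, y ≠ c → y ≠ w → dn N e (t' + (D + 1)) y = 0) →
          (∃ c ∈ B, ∃ b ∈ B, ∃ w ∈ B,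
            c ≠ b ∧ c ≠ w ∧ b ≠ w ∧ up e t' c = 1 ∧ up e t' b = 1 ∧
            dn N e (t' + (D + 1)) c = 1 ∧ dn N e (t' + (D + 1)) w = 1 ∧
            (∀ y ∈ B, y ≠ c → y ≠ b → up e t' y = 0) ∧
            (∀ y ∈ B, y ≠ c → y ≠ w → dn N e (t' + (D + 1)) y = 0) ∧
            (∀ y ∈ B, ∀ z ∈ B, y ≠ z →
              (e y z = 0 ↔ (y = c ∧ (z = b ∨ z = w)) ∨ (z = c ∧ (y = b ∨ y = w))))) := by
        intro c b w hcB hbB hwB hcb hcw u1 u2 d1 d2 u0 d0
        have hbw : b ≠ w := by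
          rintro rfl
          refine F3 c hcB (by omega) b ?_
          intro z hz hzv he
          by_contra hzc
          exact absurd (by rw [u0 z hz hzv hzc, d0 z hz hzv hzc]) (F1 c hcB z hz hzv.symm he)
        refine ⟨c, hcB, b, hbB, w, hwB, hcb, hcw, hbw, u1, u2, d1, d2, u0, d0, ?_⟩
        refine GC_V B e _ hs hc c b w hcB hbB hwB hcb hcw hbw ?_ ?_ ?_ ?_
        · simp only [u1, d1]
        · simp only [u2, d0 b hbB (Ne.symm hcb) hbw]
        · simp only [u0 w hwB (Ne.symm hcw) (Ne.symm hbw), d2]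
        · intro y hy h1 h2 h3
          simp only [u0 y hy h1 h2, d0 y hy h1 h3]
      by_cases haw : a = w
      · subst haw
        right; right; right
        exact key a b w' haB hbB hwB' hab hww fa fb fw fw' fab0 fww0
      by_cases haw' : a = w'
      · subst haw'
        right; right; right
        exact key a b w haB hbB hwB hab haw fa fb fw' fw fab0 (fun y hy h1 h2 => fww0 y hy h2 h1)
      by_cases hbw : b = w
      · subst hbw
        right; right; right
        exact key b a w' hbB haB hwB' hab.symm hww fb fa fw fw' (fun y hy h1 h2 => fab0 y hy h2 h1) fww0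
      by_cases hbw' : b = w'
      · subst hbw'
        right; right; right
        exact key b a w hbB haB hwB hab.symm hbw fb fa fw' fw (fun y hy h1 h2 => fab0 y hy h2 h1)
          (fun y hy h1 h2 => fww0 y hy h2 h1)
      right; right; left
      have Fa : up e t' a + dn N e (t' + (D + 1)) a = 1 := by rw [fa, fww0 a haB haw haw']
      have Fb : up e t' b + dn N e (t' + (D + 1)) b = 1 := by rw [fb, fww0 b hbB hbw hbw']
      have Fw : up e t' w + dn N e (t' + (D + 1)) w = 1 := by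
        rw [fw, fab0 w hwB (Ne.symm haw) (Ne.symm hbw)]
      have Fw' : up e t' w' + dn N e (t' + (D + 1)) w' = 1 := by
        rw [fw', fab0 w' hwB' (Ne.symm haw') (Ne.symm hbw')]
      obtain ⟨z0, hz0B, hz0a, hez0, _⟩ := F2 a haB Fa
      have hz0 : z0 = b ∨ z0 = w ∨ z0 = w' := by
        by_contra hne
        push Not at hne
        exact absurd (by rw [fab0 z0 hz0B hz0a hne.1, fww0 z0 hz0B hne.2.1 hne.2.2])
          (F1 a haB z0 hz0B hz0a.symm hez0)
      rcases hz0 with rfl | rfl | rfl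
      · refine ⟨a, haB, z0, hbB, w, hwB, w', hwB', hab, hww, haw, haw', hbw, hbw', fa, fb, fw, fw',
          fab0, fww0, Or.inl ?_⟩
        exact GC_match B e _ hs hc a z0 w w' haB hbB hwB hwB' hab hww haw haw' hbw hbw' Fa Fb Fw Fw' hez0
          (fun y hy h1 h2 h3 h4 => by simp only [fab0 y hy h1 h2, fww0 y hy h3 h4])
      · refine ⟨a, haB, b, hbB, z0, hwB, w', hwB', hab, hww, haw, haw', hbw, hbw', fa, fb, fw, fw',
          fab0, fww0, Or.inr ?_⟩
        exact GC_match B e _ hs hc a z0 b w' haB hwB hbB hwB' haw hbw' hab haw' (Ne.symm hbw) hww Fa Fw Fb Fw' hez0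
          (fun y hy h1 h2 h3 h4 => by simp only [fab0 y hy h1 h3, fww0 y hy h2 h4])
      · refine ⟨a, haB, b, hbB, z0, hwB', w, hwB, hab, hww.symm, haw', haw, hbw', hbw, fa, fb, fw', fw,
          fab0, (fun y hy h1 h2 => fww0 y hy h2 h1), Or.inr ?_⟩
        exact GC_match B e _ hs hc a z0 b w haB hwB' hbB hwB haw' hbw hab haw (Ne.symm hbw') hww.symm Fa Fw' Fb Fw hez0
          (fun y hy h1 h2 h3 h4 => by simp only [fab0 y hy h1 h3, fww0 y hy h4 h2])

end Pool.Agent.T2H60.SX
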