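import Pool.Agent.T2H60.SX.Stm

/-!
# SX, package GCh: assembly of the graph side
-/

set_option autoImplicit false
open Finset

namespace Pool.Agent.T2H60.SX

lemma GCh_xnn {D N : ℕ} {e : ℕ → ℕ → ℕ} {x : ℕ → ℝ} {th : ℝ} (h : SG D N e x th) (i : ℕ) : 0 ≤ x i := by
  rcases Nat.lt_or_ge i N with h1 | h1
  · exact (h.pos i h1).le
  · rw [h.zero i h1]

/-- the cut at `N` -/
lemma GCh_cutN {D N : ℕ} {e : ℕ → ℕ → ℕ} {x : ℕ → ℝ} {th : ℝ} (h : SG D N e x th) :
    cut N e N = 2 ∧ dn N e N (N - 1) = 2 := by
  have hN := h.hN
  have h1 : ∀ i, ∑ k ∈ Ico N (N + 2), e i k = e i N + e i (N + 1) := by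
    intro i
    rw [Finset.sum_Ico_eq_sum_range]
    simp [Finset.sum_range_succ]
  have h2 : ∀ i < N, e i N + e i (N + 1) = if i = N - 1 then 2 else 0 := by
    intro i hi
    rw [h.grN i hi, h.grN1 i hi]
    split_ifs <;> rfl
  constructor
  · unfold cut
    rw [Finset.sum_congr rfl (fun i hi => by
      rw [h1 i, h2 i (Finset.mem_range.mp hi)])]
    rw [Finset.sum_ite_eq' (range N) (N - 1) (fun _ => 2)]
    rw [if_pos (Finset.mem_range.mpr (by omega))]
  · unfold dn
    rw [h1, h2 _ (by omega), if_pos rfl]

/-- small positions are far from each other -/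
lemma GCh_space {D N : ℕ} {e : ℕ → ℕ → ℕ} {x : ℕ → ℝ} {th : ℝ} (h : SG D N e x th) (h5 : G05)
    (i i' : ℕ) (hlt : i < i') (hN : i' ≤ N) (h1 : 2 * cut N e i < D) (h2 : 2 * cut N e i' < D) :
    i + (D + 1) ≤ i' := by
  by_contra hc
  push Not at hc
  have hD := h.hD
  have h3 := h5 D N e x th h i (i' - i) (by omega) (by omega)
  rw [show i + (i' - i) = i' by omega] at h3
  set d := i' - i with hd
  have hd1 : 1 ≤ d := by omega
  have hd2 : d ≤ D := by omega
  have h4 : D ≤ d * (D + 1 - d) := by
    obtain ⟨k, hk⟩ : ∃ k, D = d + k := ⟨D - d, by omega⟩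
    rw [hk, show d + k + 1 - d = k + 1 by omega]
    nlinarith [Nat.mul_le_mul hd1 (Nat.zero_le k), Nat.mul_le_mul hd1 (le_refl k)]
  omega

lemma GCh_cut0 (N : ℕ) (e : ℕ → ℕ → ℕ) : cut N e 0 = 0 := by simp [cut]

theorem pGCh (h1 : G01) (h3 : G03) (h5 : G05) (h6 : G06) (hS : GS) (hDT : GDT) (hNT : GNT) (hNE : GNE)
    (hP0 : GP0) (hK : GK) (hE2 : GE2) : GCh := by
  intro D N e x th h hDN
  have hD := h.hD
  have hxnn := GCh_xnn h
  refine ⟨h.th0, h.th1, ?_, ?_, ?_, ?_, ?_, ?_⟩
  · intro t τ u hst
    exact ⟨hst.1, hst.2.1⟩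
  · intro t τ u hst
    exact (hS D N e x th h t τ u hst).1
  · intro t ht
    have h01 : (0 : ℕ) ∈ range t := Finset.mem_range.mpr (by omega)
    calc (0 : ℝ) < x 0 := h.pos 0 h.hN
      _ ≤ Ys x t := Finset.single_le_sum (f := x) (fun i _ => hxnn i) h01
  · -- steps
    intro t τ u hst
    have htD : D + 1 ≤ t := hst.1
    have htN : t ≤ N := hst.2.1
    -- the largest small position below t
    have hex : ∃ p, p < t ∧ 2 * cut N e p < D ∧ ∀ i, p < i → i < t → D ≤ 2 * cut N e i := by
      have hne : ((range t).filter (fun p => 2 * cut N e p < D)).Nonempty :=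
        ⟨0, by
          rw [Finset.mem_filter, Finset.mem_range, GCh_cut0]
          omega⟩
      obtain ⟨p, hp, hmax⟩ := Finset.exists_max_image _ (fun p => p) hne
      rw [Finset.mem_filter, Finset.mem_range] at hp
      refine ⟨p, hp.1, hp.2, fun i hi1 hi2 => ?_⟩
      by_contra hc
      have := hmax i (by
        rw [Finset.mem_filter, Finset.mem_range]
        exact ⟨hi2, by omega⟩)
      omega
    obtain ⟨p, hpt, hps, hpm⟩ := hex
    -- distance
    have hdist : p + (D + 1) ≤ t := by
      cases τ with
      | pl =>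
        have : cut N e t = 2 := hst.2.2.1
        exact GCh_space h h5 p t hpt htN hps (by omega)
      | mi =>
        have : cut N e t = 2 := hst.2.2.1
        exact GCh_space h h5 p t hpt htN hps (by omega)
      | fo =>
        have : 2 * cut N e t < D := hst.2.2.2.1
        exact GCh_space h h5 p t hpt htN hps this
      | ce =>
        have hce : ∀ i ∈ Ioc (t - (D + 1)) t, D ≤ 2 * cut N e i := hst.2.2.1
        by_contra hc
        have := hce p (Finset.mem_Ioc.mpr ⟨by omega, by omega⟩)
        omega
    by_cases hp0 : 0 < p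
    · have hpD : D + 1 ≤ p := by
        have := GCh_space h h5 0 p hp0 (by omega) (by rw [GCh_cut0]; omega) hps
        omega
      by_cases hlt : t < p + 2 * (D + 1)
      · -- case (a)
        have hpe := h1 D N e x th h p (by omega) (by omega)
        -- the type of p
        have hty : ∃ τ' u', St D N e x p τ' u' := by
          by_cases hc2 : cut N e p = 2
          · by_cases hd2 : ∃ i ∈ range p, dn N e p i = 2
            · exact ⟨Ty.pl, Uh N e x p, hpD, by omega, hc2, hd2, rfl⟩
            · exact ⟨Ty.mi, Uh N e x p, hpD, by omega, hc2, hd2, rfl⟩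
          · refine ⟨Ty.fo, x p, hpD, by omega, ?_, hps, rfl⟩
            obtain ⟨⟨r, hr⟩, hr2⟩ := hpe
            omega
        obtain ⟨τ', u', hst'⟩ := hty
        right
        by_cases hnear : τ'.is2 ∧ τ.is2 ∧ 1000 * (t - p - (D + 1)) ≤ D
        · obtain ⟨h2', h2, hj⟩ := hnear
          obtain ⟨j, hj'⟩ : ∃ j, t = p + (D + 1 + j) := ⟨t - p - (D + 1), by omega⟩
          have hjj : t - p - (D + 1) = j := by omega
          rw [hjj] at hj
          subst hj'
          have htp : p + (D + 1 + j) - p = D + 1 + j := by omega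
          refine ⟨p, τ', u', hpt, hst', ?_⟩
          rw [htp]
          rcases hNT D N e x th h p j τ' τ u' u hj hst' hst h2' h2 with ⟨hb0, cR, hcR, hms⟩ | ⟨hb1, hmi, hms⟩
          · rcases Nat.eq_zero_or_pos j with hj0 | hj0
            · subst hj0
              have e1 : p + (D + 1 + 0) = p + (D + 1) := by omega
              rw [e1] at hb0 hst hms
              rcases hP0 D N e x th h p τ' τ u' u hst' hst h2' h2 hb0 with ⟨ht, hM⟩ | ⟨ht, ht', hM⟩ | ⟨ht, hM⟩
              · left
                exact ⟨ht, h2', by omega, by rw [e1]; exact hM⟩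
              · right; left
                exact ⟨ht, ht', by omega, by rw [e1]; exact hM⟩
              · right; right
                subst ht
                rw [show D + 1 + 0 = D + 1 by omega, show p + (D + 1) = p + (D + 1) from rfl]
                rcases hM with hM | hM
                · exact ⟨_, _, _, Tr.m1 τ' h2', hM⟩
                · exact ⟨_, _, _, Tr.m3 τ' h2', hM⟩
            · right; right
              exact ⟨_, _, _, Tr.nc τ' τ j cR h2' h2 hj0 hj hcR, hms⟩
          · right; right
            subst hmi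
            exact ⟨_, _, _, Tr.bp τ' j h2' hj, hms⟩
        · refine ⟨p, τ', u', hpt, hst', Or.inr (Or.inr ?_)⟩
          have hms := (hDT D N e x th h t τ u hst).1 p τ' u' hst' hpt hlt hpm
          refine ⟨_, _, _, Tr.de τ' τ (t - p) (by omega) (by omega) ?_, hms⟩
          intro ha hb
          by_contra hc
          exact hnear ⟨ha, hb, by omega⟩
      · -- case (b)
        right
        have hst' : St D N e x (t - (D + 1)) Ty.ce (x (t - (D + 1))) := by
          refine ⟨by omega, by omega, ?_, rfl⟩
          intro i hi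
          rw [Finset.mem_Ioc] at hi
          exact hpm i (by omega) (by omega)
        refine ⟨t - (D + 1), Ty.ce, _, by omega, hst', Or.inr (Or.inr ?_)⟩
        have hms := (hDT D N e x th h t τ u hst).1 (t - (D + 1)) Ty.ce _ hst' (by omega) (by omega)
          (fun i hi1 hi2 => hpm i (by omega) hi2)
        refine ⟨_, _, _, Tr.de Ty.ce τ (t - (t - (D + 1))) (by omega) (by omega) ?_, hms⟩
        rintro (ha | ha) <;> cases ha
    · have hp0' : p = 0 := by omega
      subst hp0'
      by_cases hlt : t < 2 * (D + 1)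
      · -- case (c)
        left
        by_cases hnear : τ.is2 ∧ 1000 * (t - (D + 1)) ≤ D
        · obtain ⟨h2, hj⟩ := hnear
          obtain ⟨j, hj'⟩ : ∃ j, t = D + 1 + j := ⟨t - (D + 1), by omega⟩
          have hjj : t - (D + 1) = j := by omega
          rw [hjj] at hj
          subst hj'
          by_cases hj0 : j = 0
          · subst hj0
            obtain ⟨hmi, hY⟩ := hK D N e x th h τ u (by simpa using hst) h2
            subst hmi
            refine ⟨_, _, EndP.k, ?_⟩
            have : D + 1 + 0 = D + 1 := by omega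
            rw [this]
            push_cast
            linarith
          · by_cases hpl : τ = Ty.pl ∧ j = 2
            · obtain ⟨ht, hj2⟩ := hpl
              subst ht
              subst hj2
              have e1 : D + 1 + 2 = D + 3 := by omega
              rw [e1] at hst ⊢
              have hY := hE2 D N e x th h u hst
              refine ⟨_, _, EndP.e2, ?_⟩
              push_cast
              linarith
            · have hY := hNE D N e x th h j τ u hj hst h2
              refine ⟨_, _, EndP.nc τ j h2 (by omega) hj hpl, ?_⟩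
              push_cast
              linarith
        · have hY := (hDT D N e x th h t τ u hst).2 hlt (fun i hi1 hi2 => hpm i hi1 hi2)
          refine ⟨_, _, EndP.de τ t htD hlt ?_, ?_⟩
          · intro hb
            by_contra hc
            exact hnear ⟨hb, by omega⟩
          · linarith
      · -- case (b) with p = 0
        right
        have hst' : St D N e x (t - (D + 1)) Ty.ce (x (t - (D + 1))) := by
          refine ⟨by omega, by omega, ?_, rfl⟩
          intro i hi
          rw [Finset.mem_Ioc] at hi
          exact hpm i (by omega) (by omega)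
        refine ⟨t - (D + 1), Ty.ce, _, by omega, hst', Or.inr (Or.inr ?_)⟩
        have hms := (hDT D N e x th h t τ u hst).1 (t - (D + 1)) Ty.ce _ hst' (by omega) (by omega)
          (fun i hi1 hi2 => hpm i (by omega) hi2)
        refine ⟨_, _, _, Tr.de Ty.ce τ (t - (t - (D + 1))) (by omega) (by omega) ?_, hms⟩
        rintro (ha | ha) <;> cases ha
  · -- idl
    intro t u u' hst hst'
    have hb := hst'.1
    obtain ⟨t', ht'⟩ : ∃ t', t = t' + (D + 1) := ⟨t - (D + 1), by omega⟩
    subst ht'
    rw [show t' + (D + 1) - (D + 1) = t' by omega] at hst' ⊢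
    have hpl2 : Ty.pl.is2 := Or.inl rfl
    rcases hNT D N e x th h t' 0 Ty.pl Ty.pl u' u (by omega) hst' (by simpa using hst) hpl2 hpl2 with
      ⟨hb0, _⟩ | ⟨_, hmi, _⟩
    · rcases hP0 D N e x th h t' Ty.pl Ty.pl u' u hst' hst hpl2 hpl2 (by simpa using hb0) with
        ⟨_, hM⟩ | ⟨hc, _⟩ | ⟨hc, _⟩
      · exact hM
      · cases hc
      · cases hc
    · cases hmi
  · -- lst
    obtain ⟨hc, hd⟩ := GCh_cutN h
    have hN := h.hN
    refine ⟨hDN, le_rfl, hc, ⟨N - 1, Finset.mem_range.mpr (by omega), hd⟩, ?_⟩
    unfold Uh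
    symm
    rw [div_eq_zero_iff]
    left
    apply Finset.sum_eq_zero
    intro i _
    apply Finset.sum_eq_zero
    intro k hk
    rw [Finset.mem_Ico] at hk
    rw [h.zero k hk.1, mul_zero]

end Pool.Agent.T2H60.SX
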