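import Pool.Agent.T2H60.SX.Stm

/-!
# SX: package GD (the sum of the reciprocals of the cuts in a dense window)
-/

set_option autoImplicit false
open Finset

namespace Pool.Agent.T2H60.SX

/-- a short set of positions -/
theorem GD_J (h5 : G05) {D N : ℕ} {e : ℕ → ℕ → ℕ} {x : ℕ → ℝ} {th : ℝ} (hs : SG D N e x th)
    (J : Finset ℕ) (hJN : ∀ i ∈ J, i ≤ N) (hJ2 : ∀ i ∈ J, D ≤ 2 * cut N e i)
    (hJ3 : ∀ i ∈ J, ∀ j ∈ J, i ≤ j + D / 2) :
    ∑ i ∈ J, 1 / (cut N e i : ℝ) ≤ (2 * 10 ^ 6 : ℝ) * (2 / (D : ℝ)) + ((D : ℝ) + 1) * (4 / (10 ^ 6 * (D : ℝ))) := by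
  have hDn := hs.hD
  have hD : (10 : ℝ) ^ 14 ≤ (D : ℝ) := by exact_mod_cast hs.hD
  have hD0 : (0 : ℝ) < D := lt_of_lt_of_le (by norm_num) hD
  rcases J.eq_empty_or_nonempty with rfl | hne
  · rw [sum_empty]; positivity
  obtain ⟨i0, hi0, hmin⟩ := J.exists_min_image (fun i => cut N e i) hne
  have hev : D / 2 * 2 = D := Nat.div_mul_cancel hs.ev.two_dvd
  have key : ∀ i ∈ J, 1 / (cut N e i : ℝ) ≤
      (if i0 < i + 10 ^ 6 ∧ i < i0 + 10 ^ 6 then 2 / (D : ℝ) else 0) + 4 / (10 ^ 6 * (D : ℝ)) := by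
    intro i hi
    have hc2 : (D : ℝ) ≤ 2 * (cut N e i : ℝ) := by exact_mod_cast hJ2 i hi
    have hc0 : (0 : ℝ) < (cut N e i : ℝ) := by linarith
    split_ifs with hn
    · have h1 : 1 / (cut N e i : ℝ) ≤ 2 / (D : ℝ) := by
        rw [div_le_div_iff₀ hc0 hD0]; linarith
      have h2 : 0 ≤ 4 / (10 ^ 6 * (D : ℝ)) := by positivity
      linarith
    · rw [zero_add, div_le_div_iff₀ hc0 (by positivity)]
      -- a distance d with 10^6 ≤ d ≤ D/2
      have hd : ∃ d : ℕ, 10 ^ 6 ≤ d ∧ d ≤ D / 2 ∧ d * (D + 1 - d) ≤ 2 * cut N e i := by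
        have hm := hmin i hi
        have ha := hJ3 i hi i0 hi0
        have hb := hJ3 i0 hi0 i hi
        rcases lt_or_ge i i0 with hlt | hge
        · refine ⟨i0 - i, ?_, by omega, ?_⟩
          · by_contra hcon
            exact hn ⟨by omega, by omega⟩
          · have := h5 D N e x th hs i (i0 - i) (by omega) (by have := hJN i0 hi0; omega)
            rw [show i + (i0 - i) = i0 by omega] at this
            omega
        · refine ⟨i - i0, ?_, by omega, ?_⟩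
          · by_contra hcon
            exact hn ⟨by omega, by omega⟩
          · have := h5 D N e x th hs i0 (i - i0) (by omega) (by have := hJN i hi; omega)
            rw [show i0 + (i - i0) = i by omega] at this
            omega
      obtain ⟨d, hd1, hd2, hd3⟩ := hd
      have h3 : 10 ^ 6 * (D / 2) ≤ 2 * cut N e i := by
        have : 10 ^ 6 * (D / 2) ≤ d * (D + 1 - d) := Nat.mul_le_mul hd1 (by omega)
        omega
      have h4 : 10 ^ 6 * D ≤ 4 * cut N e i := by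
        calc 10 ^ 6 * D = (10 ^ 6 * (D / 2)) * 2 := by rw [mul_assoc, hev]
          _ ≤ (2 * cut N e i) * 2 := Nat.mul_le_mul_right 2 h3
          _ = 4 * cut N e i := by ring
      have h4' : (10 : ℝ) ^ 6 * (D : ℝ) ≤ 4 * (cut N e i : ℝ) := by exact_mod_cast h4
      linarith
  refine (sum_le_sum key).trans ?_
  rw [sum_add_distrib]
  have hfil : ∑ i ∈ J, (if i0 < i + 10 ^ 6 ∧ i < i0 + 10 ^ 6 then 2 / (D : ℝ) else 0)
      ≤ (2 * 10 ^ 6 : ℝ) * (2 / (D : ℝ)) := by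
    rw [← sum_filter, sum_const, nsmul_eq_mul]
    apply mul_le_mul_of_nonneg_right _ (by positivity)
    have hsub : (J.filter (fun i => i0 < i + 10 ^ 6 ∧ i < i0 + 10 ^ 6)) ⊆ Ico (i0 + 1 - 10 ^ 6) (i0 + 10 ^ 6) := by
      intro i hi
      rw [mem_filter] at hi
      rw [mem_Ico]
      omega
    have hcard := card_le_card hsub
    rw [Nat.card_Ico] at hcard
    have : (J.filter (fun i => i0 < i + 10 ^ 6 ∧ i < i0 + 10 ^ 6)).card ≤ 2 * 10 ^ 6 := by omega
    exact_mod_cast this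
  have hall : ∑ _i ∈ J, 4 / (10 ^ 6 * (D : ℝ)) ≤ ((D : ℝ) + 1) * (4 / (10 ^ 6 * (D : ℝ))) := by
    rw [sum_const, nsmul_eq_mul]
    apply mul_le_mul_of_nonneg_right _ (by positivity)
    have hsub : J ⊆ Icc (i0 - D / 2) (i0 + D / 2) := by
      intro i hi
      rw [mem_Icc]
      have ha := hJ3 i hi i0 hi0
      have hb := hJ3 i0 hi0 i hi
      omega
    have hcard := card_le_card hsub
    rw [Nat.card_Icc] at hcard
    have : J.card ≤ D + 1 := by omega
    exact_mod_cast this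
  linarith

theorem pGD (h5 : G05) : GD := by
  intro D N e x th hs t' t htN ht2 hd
  have hDn := hs.hD
  have hD : (10 : ℝ) ^ 14 ≤ (D : ℝ) := by exact_mod_cast hs.hD
  have hD0 : (0 : ℝ) < D := lt_of_lt_of_le (by norm_num) hD
  have hmaps : ∀ i ∈ Ioo t' t, (i - t' - 1) / (D / 2 + 1) ∈ range 4 := by
    intro i hi
    rw [mem_Ioo] at hi
    rw [mem_range, Nat.div_lt_iff_lt_mul (by omega)]
    omega
  have hsum : ∑ i ∈ Ioo t' t, 1 / (cut N e i : ℝ)
      ≤ 4 * ((2 * 10 ^ 6 : ℝ) * (2 / (D : ℝ)) + ((D : ℝ) + 1) * (4 / (10 ^ 6 * (D : ℝ)))) := by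
    rw [← sum_fiberwise_of_maps_to hmaps]
    have := sum_le_card_nsmul (range 4)
      (fun k => ∑ i ∈ Ioo t' t with (i - t' - 1) / (D / 2 + 1) = k, 1 / (cut N e i : ℝ))
      ((2 * 10 ^ 6 : ℝ) * (2 / (D : ℝ)) + ((D : ℝ) + 1) * (4 / (10 ^ 6 * (D : ℝ)))) ?_
    · rwa [card_range, nsmul_eq_mul] at this
    · intro k _
      apply GD_J h5 hs
      · intro i hi
        rw [mem_filter, mem_Ioo] at hi
        omega
      · intro i hi
        rw [mem_filter, mem_Ioo] at hi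
        exact hd i hi.1.1 hi.1.2
      · intro i hi j hj
        rw [mem_filter, mem_Ioo] at hi hj
        have h1 := Nat.div_add_mod (i - t' - 1) (D / 2 + 1)
        have h2 := Nat.div_add_mod (j - t' - 1) (D / 2 + 1)
        have h3 := Nat.mod_lt (i - t' - 1) (show 0 < D / 2 + 1 by omega)
        have h4 := Nat.mod_lt (j - t' - 1) (show 0 < D / 2 + 1 by omega)
        rw [hi.2] at h1
        rw [hj.2] at h2
        omega
  have h1 : 2 * ((D : ℝ) - 2) * ∑ i ∈ Ioo t' t, 1 / (cut N e i : ℝ) ≤ 2 * (D : ℝ) *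
      (4 * ((2 * 10 ^ 6 : ℝ) * (2 / (D : ℝ)) + ((D : ℝ) + 1) * (4 / (10 ^ 6 * (D : ℝ))))) := by
    have hnn : 0 ≤ ∑ i ∈ Ioo t' t, 1 / (cut N e i : ℝ) := sum_nonneg (fun i _ => by positivity)
    have : (2 : ℝ) ≤ 10 ^ 14 := by norm_num
    apply mul_le_mul _ hsum hnn (by positivity)
    linarith
  refine h1.trans ?_
  have e1 : 2 * (D : ℝ) * (4 * ((2 * 10 ^ 6 : ℝ) * (2 / (D : ℝ)) + ((D : ℝ) + 1) * (4 / (10 ^ 6 * (D : ℝ)))))
      = 32 * 10 ^ 6 + 32 * ((D : ℝ) + 1) / 10 ^ 6 := by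
    field_simp
    ring
  rw [e1]
  have hD2 : (100000000000000 : ℝ) ≤ (D : ℝ) := le_trans (by norm_num) hD
  have e2 : (10 : ℝ) ^ 6 = 1000000 := by norm_num
  rw [e2]
  linarith

end Pool.Agent.T2H60.SX
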