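import Pool.Agent.T2H60.SX.Stm

/-!
# SX: package GDT (states; dense transitions and dense ends)
-/

set_option autoImplicit false
open Finset

namespace Pool.Agent.T2H60.SX

theorem GDT_x_nonneg {D N : ℕ} {e : ℕ → ℕ → ℕ} {x : ℕ → ℝ} {th : ℝ} (h : SG D N e x th) (i : ℕ) :
    0 ≤ x i := by
  rcases lt_or_ge i N with hi | hi
  · exact (h.pos i hi).le
  · exact (h.zero i hi).ge

theorem GDT_Ys_mono {D N : ℕ} {e : ℕ → ℕ → ℕ} {x : ℕ → ℝ} {th : ℝ} (h : SG D N e x th) {i t : ℕ}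
    (hit : i ≤ t) : Ys x i ≤ Ys x t := by
  unfold Ys
  exact sum_le_sum_of_subset_of_nonneg (range_mono hit) (fun j _ _ => GDT_x_nonneg h j)

theorem GDT_Ys_nonneg {D N : ℕ} {e : ℕ → ℕ → ℕ} {x : ℕ → ℝ} {th : ℝ} (h : SG D N e x th) (t : ℕ) :
    0 ≤ Ys x t := sum_nonneg (fun j _ => GDT_x_nonneg h j)

theorem pGS (_h1 : G01) (h3 : G03) (h4 : G04) (h6 : G06) : GS := by
  intro D N e x th hs t τ u hst
  obtain ⟨ht1, htN, hm⟩ := hst
  have hD : (10 : ℝ) ^ 14 ≤ (D : ℝ) := by exact_mod_cast hs.hD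
  have hD' : (0 : ℝ) < D := lt_of_lt_of_le (by norm_num) hD
  have hD2 : (0 : ℝ) < (D : ℝ) - 2 := by
    have : (2 : ℝ) < 10 ^ 14 := by norm_num
    linarith
  have hY := GDT_Ys_nonneg hs t
  have hxt := GDT_x_nonneg hs t
  have h1t : 1 ≤ t := by omega
  have hanti : x t ≤ x (t - 1) := hs.anti (by omega)
  have h4t := h4 D N e x th hs t h1t htN
  have hth2 : 0 ≤ th ^ 2 * Ys x t := mul_nonneg (sq_nonneg _) hY
  cases τ with
  | pl =>
    obtain ⟨hc, _, rfl⟩ := hm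
    obtain ⟨a, b, c⟩ := h6 D N e x th hs t h1t htN hc
    refine ⟨a, b, ?_⟩
    have := h3 D N e x th hs t htN
    simp only [cutc]
    linarith
  | mi =>
    obtain ⟨hc, _, rfl⟩ := hm
    obtain ⟨a, b, c⟩ := h6 D N e x th hs t h1t htN hc
    refine ⟨a, b, ?_⟩
    have := h3 D N e x th hs t htN
    simp only [cutc]
    linarith
  | fo =>
    obtain ⟨hc, _, rfl⟩ := hm
    refine ⟨hxt, le_rfl, ?_⟩
    have hc' : (4 : ℝ) ≤ (cut N e t : ℝ) := by exact_mod_cast hc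
    have : (x (t - 1) - x t) * 4 ≤ (x (t - 1) - x t) * (cut N e t : ℝ) :=
      mul_le_mul_of_nonneg_left hc' (by linarith)
    simp only [cutc]
    nlinarith
  | ce =>
    obtain ⟨hc, rfl⟩ := hm
    refine ⟨hxt, le_rfl, ?_⟩
    have hc1 := hc t (by rw [mem_Ioc]; omega)
    have hc' : (D : ℝ) ≤ 2 * (cut N e t : ℝ) := by exact_mod_cast hc1
    have h5 : (x (t - 1) - x t) * D ≤ (x (t - 1) - x t) * (2 * (cut N e t : ℝ)) :=
      mul_le_mul_of_nonneg_left hc' (by linarith)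
    have h6' : (x (t - 1) - x t) * D ≤ (4 * (th ^ 2 * Ys x t)) * D := by nlinarith
    have h7 := le_of_mul_le_mul_right h6' hD'
    simp only [cutc]
    linarith

theorem GDT_tele_sum (x : ℕ → ℝ) (t' n : ℕ) :
    ∑ i ∈ Ioo t' (t' + n + 1), (x (i - 1) - x i) = x t' - x (t' + n) := by
  induction n with
  | zero =>
    have : Ioo t' (t' + 0 + 1) = (∅ : Finset ℕ) := by
      ext i; simp only [mem_Ioo, notMem_empty, iff_false]; omega
    rw [this]; simp
  | succ n ih =>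
    have : Ioo t' (t' + (n + 1) + 1) = insert (t' + n + 1) (Ioo t' (t' + n + 1)) := by
      ext i; simp only [mem_Ioo, mem_insert]; omega
    rw [this, sum_insert (by simp), ih]
    have e1 : t' + n + 1 - 1 = t' + n := by omega
    have e2 : t' + (n + 1) = t' + n + 1 := by omega
    rw [e1, e2]; ring

theorem GDT_tele (h1 : G01) (h4 : G04) (hGD : GD) {D N : ℕ} {e : ℕ → ℕ → ℕ} {x : ℕ → ℝ} {th : ℝ}
    (hs : SG D N e x th) {t' t : ℕ} (ht' : t' < t) (htN : t ≤ N) (ht2 : t < t' + 2 * (D + 1))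
    (hd : ∀ i, t' < i → i < t → D ≤ 2 * cut N e i) :
    x t' ≤ x (t - 1) + th ^ 2 * (((D : ℝ) / 20000) * Ys x t) := by
  have hD : (10 : ℝ) ^ 14 ≤ (D : ℝ) := by exact_mod_cast hs.hD
  have hD2 : (0 : ℝ) < (D : ℝ) - 2 := by
    have : (2 : ℝ) < 10 ^ 14 := by norm_num
    linarith
  have hg := hGD D N e x th hs t' t htN ht2 hd
  have hY := GDT_Ys_nonneg hs t
  obtain ⟨n, rfl⟩ : ∃ n, t = t' + n + 1 := ⟨t - t' - 1, by omega⟩
  have hts := GDT_tele_sum x t' n
  have hle : ∑ i ∈ Ioo t' (t' + n + 1), (x (i - 1) - x i)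
      ≤ ∑ i ∈ Ioo t' (t' + n + 1), (2 * ((D : ℝ) - 2) * th ^ 2 * Ys x (t' + n + 1)) * (1 / (cut N e i : ℝ)) := by
    apply sum_le_sum
    intro i hi
    rw [mem_Ioo] at hi
    have hc := (h1 D N e x th hs i (by omega) (by omega)).2
    have hc' : (0 : ℝ) < (cut N e i : ℝ) := by
      have : 0 < cut N e i := by omega
      exact_mod_cast this
    have h4i := h4 D N e x th hs i (by omega) (by omega)
    have hm : Ys x i ≤ Ys x (t' + n + 1) := GDT_Ys_mono hs (by omega)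
    rw [mul_one_div, le_div_iff₀ hc']
    refine h4i.trans ?_
    apply mul_le_mul_of_nonneg_left hm
    have := sq_nonneg th
    positivity
  rw [hts, ← mul_sum] at hle
  have e1 : t' + n + 1 - 1 = t' + n := by omega
  rw [e1]
  have h9 : (2 * ((D : ℝ) - 2) * th ^ 2 * Ys x (t' + n + 1)) * ∑ i ∈ Ioo t' (t' + n + 1), (1 / (cut N e i : ℝ))
      ≤ th ^ 2 * (((D : ℝ) / 20000) * Ys x (t' + n + 1)) := by
    have := mul_le_mul_of_nonneg_left hg (mul_nonneg (sq_nonneg th) hY)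
    nlinarith
  linarith

theorem pGDT (h1 : G01) (h3 : G03) (h4 : G04) (h6 : G06) (hGD : GD) : GDT := by
  intro D N e x th hs t τ u hst
  have hgs := pGS h1 h3 h4 h6
  obtain ⟨hu0, hux, hx1⟩ := hgs D N e x th hs t τ u hst
  have ht1 : D + 1 ≤ t := hst.1
  have htN : t ≤ N := hst.2.1
  have hY := GDT_Ys_nonneg hs t
  refine ⟨?_, ?_⟩
  · intro t' τ' u' hst' htt ht2 hd
    obtain ⟨hu0', hux', hx1'⟩ := hgs D N e x th hs t' τ' u' hst'
    have htel := GDT_tele h1 h4 hGD hs htt htN ht2 hd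
    have hxt' : x t' ≤ u + th ^ 2 * ((cutc D τ + (D : ℝ) / 20000) * Ys x t) := by
      have : u + th ^ 2 * ((cutc D τ + (D : ℝ) / 20000) * Ys x t)
        = (u + cutc D τ * th ^ 2 * Ys x t) + th ^ 2 * (((D : ℝ) / 20000) * Ys x t) := by ring
      rw [this]; linarith
    refine ⟨?_, ?_⟩
    · linarith
    · have hsum : Ys x t ≤ Ys x t' + ((t - t' : ℕ) : ℝ) * x t' := by
        have e1 : Ys x t = Ys x t' + ∑ i ∈ Ico t' t, x i := by
          unfold Ys
          rw [sum_range_add_sum_Ico _ htt.le]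
        rw [e1]
        have : ∑ i ∈ Ico t' t, x i ≤ ((t - t' : ℕ) : ℝ) * x t' := by
          have := sum_le_card_nsmul (Ico t' t) x (x t') (fun i hi => hs.anti (mem_Ico.1 hi).1)
          rwa [Nat.card_Ico, nsmul_eq_mul] at this
        linarith
      have hm : ((t - t' : ℕ) : ℝ) * x t' ≤ ((t - t' : ℕ) : ℝ)
          * (u + th ^ 2 * ((cutc D τ + (D : ℝ) / 20000) * Ys x t)) :=
        mul_le_mul_of_nonneg_left hxt' (Nat.cast_nonneg _)
      calc Ys x t ≤ Ys x t' + ((t - t' : ℕ) : ℝ)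
          * (u + th ^ 2 * ((cutc D τ + (D : ℝ) / 20000) * Ys x t)) := by linarith
        _ = _ := by ring
  · intro ht2 hd
    have htel := GDT_tele h1 h4 hGD hs (t' := 0) (t := t) (by omega) htN (by omega) hd
    have hx0 : x 0 ≤ u + th ^ 2 * ((cutc D τ + (D : ℝ) / 20000) * Ys x t) := by
      have : u + th ^ 2 * ((cutc D τ + (D : ℝ) / 20000) * Ys x t)
        = (u + cutc D τ * th ^ 2 * Ys x t) + th ^ 2 * (((D : ℝ) / 20000) * Ys x t) := by ring
      rw [this]; linarith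
    have hsum : Ys x t ≤ (t : ℝ) * x 0 := by
      unfold Ys
      have := sum_le_card_nsmul (range t) x (x 0) (fun i _ => hs.anti (Nat.zero_le i))
      rwa [card_range, nsmul_eq_mul] at this
    have hm : (t : ℝ) * x 0 ≤ (t : ℝ) * (u + th ^ 2 * ((cutc D τ + (D : ℝ) / 20000) * Ys x t)) :=
      mul_le_mul_of_nonneg_left hx0 (Nat.cast_nonneg _)
    calc Ys x t ≤ (t : ℝ) * (u + th ^ 2 * ((cutc D τ + (D : ℝ) / 20000) * Ys x t)) := by linarith
      _ = _ := by ring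

end Pool.Agent.T2H60.SX
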