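import Pool.Agent.T2H60.SX.PGC
import Pool.Agent.T2H60.SX.PG02

/-!
# SX, package GK: the end block of exactly `D + 1` vertices
-/

set_option autoImplicit false
open Finset

namespace Pool.Agent.T2H60.SX

/-- a sum over a set on which only two terms do not vanish -/
theorem GK_two (B : Finset ℕ) (g : ℕ → ℝ) (a b : ℕ) (ha : a ∈ B) (hb : b ∈ B) (hab : a ≠ b)
    (h0 : ∀ y ∈ B, y ≠ a → y ≠ b → g y = 0) : ∑ y ∈ B, g y = g a + g b := by
  have h1 : ({a, b} : Finset ℕ) ⊆ B := by
    intro z hz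
    rw [Finset.mem_insert, Finset.mem_singleton] at hz
    rcases hz with rfl | rfl
    · exact ha
    · exact hb
  rw [← Finset.sum_subset h1, Finset.sum_pair hab]
  intro y hy hy2
  rw [Finset.mem_insert, Finset.mem_singleton] at hy2
  push Not at hy2
  exact h0 y hy hy2.1 hy2.2

/-- the counts for the end block -/
theorem GK_counts (D N : ℕ) (e : ℕ → ℕ → ℕ) (x : ℕ → ℝ) (th : ℝ) (h : SG D N e x th)
    (htN : D + 1 ≤ N) :
    ∀ y ∈ range (D + 1), (GCcn (range (D + 1)) e y).card = dn N e (D + 1) y := by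
  intro y hy
  have hyN : y < N := by
    have := Finset.mem_range.1 hy
    omega
  have h1 := h.deg y hyN
  have h2 : ∑ k ∈ range (N + 2), e y k = ∑ k ∈ range (D + 1), e y k
      + ∑ k ∈ Ico (D + 1) (N + 2), e y k := by
    rw [Finset.sum_range_add_sum_Ico _ (show D + 1 ≤ N + 2 by omega)]
  have h4 : dn N e (D + 1) y = ∑ k ∈ Ico (D + 1) (N + 2), e y k := rfl
  have h5 := Finset.add_sum_erase (range (D + 1)) (fun k => e y k) hy
  have h6 : ((range (D + 1)).erase y).card = D := by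
    rw [Finset.card_erase_of_mem hy, Finset.card_range]
    omega
  have h7 : (GCcn (range (D + 1)) e y).card
      + ∑ k ∈ (range (D + 1)).erase y, e y k = D := by
    unfold GCcn
    rw [Finset.card_filter, ← Finset.sum_add_distrib]
    rw [Finset.sum_congr rfl (g := fun _ => 1)]
    · rw [Finset.sum_const, smul_eq_mul, mul_one, h6]
    · intro k _
      have := h.le1 y k
      split_ifs with h8 <;> omega
  have h8 := h.irr y
  omega

/-- the eigenvalue equation at a vertex with one non-neighbour -/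
theorem GK_eig (D N : ℕ) (e : ℕ → ℕ → ℕ) (x : ℕ → ℝ) (th : ℝ) (h : SG D N e x th)
    (htN : D + 1 ≤ N) (a b : ℕ) (ha : a ∈ range (D + 1)) (hb : b ∈ range (D + 1)) (hab : a ≠ b)
    (he : e a b = 0) (hne : ∀ w ∈ range (D + 1), w ≠ a → w ≠ b → e a w ≠ 0) :
    (D : ℝ) * x a - (Ys x (D + 1) - x a - x b) - ∑ k ∈ Ico (D + 1) (N + 2), (e a k : ℝ) * x k =
      2 * ((D : ℝ) - 2) * th ^ 2 * x a := by
  have haN : a < N := by
    have := Finset.mem_range.1 ha
    omega
  have h1 := h.eig a haN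
  have h2 : ∑ k ∈ range (N + 2), (e a k : ℝ) * (x a - x k) =
      (∑ k ∈ range (N + 2), (e a k : ℝ)) * x a - ∑ k ∈ range (N + 2), (e a k : ℝ) * x k := by
    rw [Finset.sum_mul, ← Finset.sum_sub_distrib]
    exact Finset.sum_congr rfl fun k _ => by ring
  have h3 : (∑ k ∈ range (N + 2), (e a k : ℝ)) = D := by
    have := h.deg a haN
    exact_mod_cast this
  have h4 : ∑ k ∈ range (N + 2), (e a k : ℝ) * x k = ∑ k ∈ range (D + 1), (e a k : ℝ) * x k +
      ∑ k ∈ Ico (D + 1) (N + 2), (e a k : ℝ) * x k := by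
    rw [Finset.sum_range_add_sum_Ico _ (show D + 1 ≤ N + 2 by omega)]
  have h5 : ∑ k ∈ range (D + 1), (e a k : ℝ) * x k = Ys x (D + 1) - (x a + x b) := by
    have h6 : ∑ k ∈ range (D + 1), (x k - (e a k : ℝ) * x k) = x a + x b := by
      rw [GK_two (range (D + 1)) (fun k => x k - (e a k : ℝ) * x k) a b ha hb hab]
      · simp only [h.irr a, he]
        simp
      · intro y hy hya hyb
        have h7 : e a y = 1 := by
          have h8 := h.le1 a y
          have h9 := hne y hy hya hyb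
          omega
        simp [h7]
    rw [Finset.sum_sub_distrib] at h6
    unfold Ys
    linarith
  rw [h2, h3, h4, h5] at h1
  linarith

/-- the package `GK` -/
theorem pGK (_h2 : G02) (h3 : G03) : GK := by
  intro D N e x th h τ u hSt hτ
  have htN : D + 1 ≤ N := hSt.2.1
  have hcut : cut N e (D + 1) = 2 ∧ u = Uh N e x (D + 1) := by
    rcases hτ with rfl | rfl
    · exact ⟨hSt.2.2.1, hSt.2.2.2.2⟩
    · exact ⟨hSt.2.2.1, hSt.2.2.2.2⟩
  obtain ⟨hcut, hu⟩ := hcut
  have hc := GK_counts D N e x th h htN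
  have hs := h.symm
  obtain ⟨F0, F1, F2, F3, F4⟩ := GC_facts (range (D + 1)) e (fun y => dn N e (D + 1) y) hs hc
  have hW : ∑ y ∈ range (D + 1), dn N e (D + 1) y = 2 := hcut
  rcases GC_sum2 (range (D + 1)) _ hW with ⟨v, hvB, fv, fv0⟩ | ⟨a, haB, b, hbB, hab, fa, fb, fab0⟩
  · exfalso
    have h5 := hc v hvB
    rw [fv] at h5
    have h6 : (GCcn (range (D + 1)) e v).Nonempty := by
      rw [← Finset.card_pos, h5]
      norm_num
    obtain ⟨z, hz⟩ := h6
    have h7 := (GC_mem (range (D + 1)) e v z).1 hz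
    exact F1 v hvB z h7.1.2 (Ne.symm h7.1.1) h7.2 (fv0 z h7.1.2 h7.1.1)
  · have hτm : τ = Ty.mi := by
      rcases hτ with rfl | rfl
      · exfalso
        obtain ⟨i, hi, hi2⟩ := hSt.2.2.2.1
        by_cases hia : i = a
        · rw [hia] at hi2
          omega
        · by_cases hib : i = b
          · rw [hib] at hi2
            omega
          · have := fab0 i hi hia hib
            omega
      · rfl
    refine ⟨hτm, ?_⟩
    -- the only non-neighbour of `a` is `b`
    obtain ⟨z, hzB, hza, hez, hzu⟩ := F2 a haB fa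
    have hzb : z = b := by
      by_contra hzb
      exact F1 a haB z hzB (Ne.symm hza) hez (fab0 z hzB hza hzb)
    rw [hzb] at hez hzu
    have ea := GK_eig D N e x th h htN a b haB hbB hab hez (fun w hw hwa hwb hew =>
      hwb (hzu w hw hwa hew))
    have eb := GK_eig D N e x th h htN b a hbB haB (Ne.symm hab) (by rw [hs]; exact hez)
      (fun w hw hwb hwa hew => by
        obtain ⟨z', hzB', hza', hez', hzu'⟩ := F2 b hbB fb
        have h8 := hzu' w hw hwb hew
        have h9 := hzu' a haB hab (by rw [hs]; exact hez)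
        exact hwa (h8.trans h9.symm))
    -- `Uh` and `Wh`
    have hU : Uh N e x (D + 1) = (∑ k ∈ Ico (D + 1) (N + 2), (e a k : ℝ) * x k +
        ∑ k ∈ Ico (D + 1) (N + 2), (e b k : ℝ) * x k) / 2 := by
      unfold Uh
      rw [GK_two (range (D + 1)) (fun i => ∑ k ∈ Ico (D + 1) (N + 2), (e i k : ℝ) * x k) a b
        haB hbB hab]
      intro y hy hya hyb
      refine Finset.sum_eq_zero fun k hk => ?_
      have h8 : ∑ k ∈ Ico (D + 1) (N + 2), e y k = 0 := fab0 y hy hya hyb
      have h9 := (Finset.sum_eq_zero_iff.1 h8) k hk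
      rw [h9]
      simp
    have hWh : Wh N e x (D + 1) = (x a + x b) / 2 := by
      have h8 : ∀ i, ∑ k ∈ Ico (D + 1) (N + 2), (e i k : ℝ) * x i = (dn N e (D + 1) i : ℝ) * x i := by
        intro i
        unfold dn
        push_cast
        rw [Finset.sum_mul]
      unfold Wh
      rw [Finset.sum_congr rfl fun i _ => h8 i,
        GK_two (range (D + 1)) (fun i => (dn N e (D + 1) i : ℝ) * x i) a b haB hbB hab]
      · simp only [fa, fb]
        simp
      · intro y hy hya hyb
        have h9 : dn N e (D + 1) y = 0 := fab0 y hy hya hyb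
        simp [h9]
    have hG3 := h3 D N e x th h (D + 1) htN
    rw [hWh, ← hu] at hG3
    have hxnn : ∀ i, 0 ≤ x i := g02_nonneg h
    have hu0 : 0 ≤ u := by
      rw [hu, hU]
      have h8 : 0 ≤ ∑ k ∈ Ico (D + 1) (N + 2), (e a k : ℝ) * x k :=
        Finset.sum_nonneg fun k _ => mul_nonneg (Nat.cast_nonneg _) (hxnn k)
      have h9 : 0 ≤ ∑ k ∈ Ico (D + 1) (N + 2), (e b k : ℝ) * x k :=
        Finset.sum_nonneg fun k _ => mul_nonneg (Nat.cast_nonneg _) (hxnn k)
      positivity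
    have hY0 : 0 ≤ Ys x (D + 1) := Finset.sum_nonneg fun k _ => hxnn k
    have hD14 : (10 : ℝ) ^ 14 ≤ D := by exact_mod_cast h.hD
    have hD2 : (0 : ℝ) ≤ (D : ℝ) - 2 := by linarith [show (2 : ℝ) < 10 ^ 14 by norm_num]
    have hth2 : 0 ≤ th ^ 2 := by positivity
    -- `Y = (D + 2 - Λ) w - u`
    have hUu : ∑ k ∈ Ico (D + 1) (N + 2), (e a k : ℝ) * x k +
        ∑ k ∈ Ico (D + 1) (N + 2), (e b k : ℝ) * x k = 2 * u := by
      rw [hu, hU]
      ring
    obtain ⟨w, hw⟩ : ∃ w : ℝ, w = (x a + x b) / 2 := ⟨_, rfl⟩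
    rw [← hw] at hG3
    obtain ⟨Y, hYd⟩ : ∃ Y : ℝ, Y = Ys x (D + 1) := ⟨_, rfl⟩
    rw [← hYd] at hG3 hY0 ea eb ⊢
    have hY : Y = ((D : ℝ) + 2 - 2 * ((D : ℝ) - 2) * th ^ 2) * w - u := by
      rw [hw]
      linarith
    have hΛ : 0 ≤ 2 * ((D : ℝ) - 2) * th ^ 2 := by positivity
    have hw0 : 0 ≤ w := by
      rw [hw]
      have h8 := hxnn a
      have h9 := hxnn b
      positivity
    have h10 : 0 ≤ 2 * ((D : ℝ) - 2) * th ^ 2 * w := mul_nonneg hΛ hw0
    have h11 : Y ≤ ((D : ℝ) + 2) * w - u := by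
      rw [hY]
      linarith
    rw [hG3] at h11
    calc Y ≤ ((D : ℝ) + 2) * (u + ((D : ℝ) - 2) * th ^ 2 * Y) - u := h11
      _ = _ := by ring

end Pool.Agent.T2H60.SX
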