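import Pool.Agent.T2H60.SX.Stm

/-!
# Package GN: values in a nearly complete block
-/

set_option autoImplicit false
open Finset

namespace Pool.Agent.T2H60.SX

lemma GN_nonneg {D N : ℕ} {e : ℕ → ℕ → ℕ} {x : ℕ → ℝ} {th : ℝ} (h : SG D N e x th) (i : ℕ) :
    0 ≤ x i := by
  rw [← h.zero (max i N) (le_max_right _ _)]
  exact h.anti (le_max_left _ _)

lemma GN_split {N a b : ℕ} (h1 : a ≤ b) (h2 : b ≤ N + 2) (f : ℕ → ℝ) :
    ∑ k ∈ range (N + 2), f k = ∑ k ∈ range a, f k + ∑ k ∈ Ico a b, f k + ∑ k ∈ Ico b (N + 2), f k := by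
  rw [range_eq_Ico, range_eq_Ico, sum_Ico_consecutive _ (Nat.zero_le _) h1,
    sum_Ico_consecutive _ (Nat.zero_le _) h2]

lemma GN_splitN {N a b : ℕ} (h1 : a ≤ b) (h2 : b ≤ N + 2) (f : ℕ → ℕ) :
    ∑ k ∈ range (N + 2), f k = ∑ k ∈ range a, f k + ∑ k ∈ Ico a b, f k + ∑ k ∈ Ico b (N + 2), f k := by
  rw [range_eq_Ico, range_eq_Ico, sum_Ico_consecutive _ (Nat.zero_le _) h1,
    sum_Ico_consecutive _ (Nat.zero_le _) h2]

/-- the flow over a cut -/
lemma GN_flow (h3 : G03) {D N : ℕ} {e : ℕ → ℕ → ℕ} {x : ℕ → ℝ} {th : ℝ} (h : SG D N e x th)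
    (s : ℕ) (hs : s ≤ N) :
    ∑ i ∈ range s, ∑ k ∈ Ico s (N + 2), (e i k : ℝ) * (x i - x k) =
      2 * ((D : ℝ) - 2) * th ^ 2 * Ys x s := by
  have h1 := h3 D N e x th h s hs
  unfold Wh Uh at h1
  have h2 : ∑ i ∈ range s, ∑ k ∈ Ico s (N + 2), (e i k : ℝ) * (x i - x k) =
      (∑ i ∈ range s, ∑ k ∈ Ico s (N + 2), (e i k : ℝ) * x i) -
      ∑ i ∈ range s, ∑ k ∈ Ico s (N + 2), (e i k : ℝ) * x k := by
    rw [← sum_sub_distrib]
    apply sum_congr rfl
    intro i _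
    rw [← sum_sub_distrib]
    apply sum_congr rfl
    intro k _
    ring
  rw [h2]
  linarith

/-- the flow out of one vertex over a cut is at most the whole flow -/
lemma GN_flow_high (h3 : G03) {D N : ℕ} {e : ℕ → ℕ → ℕ} {x : ℕ → ℝ} {th : ℝ} (h : SG D N e x th)
    (s : ℕ) (hs : s ≤ N) (i : ℕ) (hi : i < s) :
    0 ≤ ∑ k ∈ Ico s (N + 2), (e i k : ℝ) * (x i - x k) ∧
    ∑ k ∈ Ico s (N + 2), (e i k : ℝ) * (x i - x k) ≤ 2 * ((D : ℝ) - 2) * th ^ 2 * Ys x s := by
  have hpos : ∀ i' ∈ range s, 0 ≤ ∑ k ∈ Ico s (N + 2), (e i' k : ℝ) * (x i' - x k) := by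
    intro i' hi'
    apply sum_nonneg
    intro k hk
    rw [mem_range] at hi'
    rw [mem_Ico] at hk
    have := h.anti (show i' ≤ k by omega)
    exact mul_nonneg (Nat.cast_nonneg _) (by linarith)
  refine ⟨hpos i (mem_range.2 hi), ?_⟩
  rw [← GN_flow h3 h s hs]
  exact single_le_sum (f := fun i' => ∑ k ∈ Ico s (N + 2), (e i' k : ℝ) * (x i' - x k)) hpos (mem_range.2 hi)

lemma GN_flow_low (h3 : G03) {D N : ℕ} {e : ℕ → ℕ → ℕ} {x : ℕ → ℝ} {th : ℝ} (h : SG D N e x th)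
    (s : ℕ) (hs : s ≤ N) (l : ℕ) (hl : s ≤ l) (hlN : l < N + 2) :
    0 ≤ ∑ z ∈ range s, (e z l : ℝ) * (x z - x l) ∧
    ∑ z ∈ range s, (e z l : ℝ) * (x z - x l) ≤ 2 * ((D : ℝ) - 2) * th ^ 2 * Ys x s := by
  have hpos : ∀ z ∈ range s, ∀ k ∈ Ico s (N + 2), 0 ≤ (e z k : ℝ) * (x z - x k) := by
    intro z hz k hk
    rw [mem_range] at hz
    rw [mem_Ico] at hk
    have := h.anti (show z ≤ k by omega)
    exact mul_nonneg (Nat.cast_nonneg _) (by linarith)
  refine ⟨sum_nonneg fun z hz => hpos z hz l (mem_Ico.2 ⟨hl, hlN⟩), ?_⟩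
  rw [← GN_flow h3 h s hs]
  apply sum_le_sum
  intro z hz
  exact single_le_sum (f := fun k => (e z k : ℝ) * (x z - x k)) (hpos z hz) (mem_Ico.2 ⟨hl, hlN⟩)

/-- the data of a block -/
lemma GN_block (h3 : G03) {D N : ℕ} {e : ℕ → ℕ → ℕ} {x : ℕ → ℝ} {th : ℝ} (h : SG D N e x th)
    (t' j : ℕ) (hjD : 1000 * j ≤ D) (htN : t' + (D + 1 + j) ≤ N)
    (ht' : t' = 0 ∨ (D + 1 ≤ t' ∧ cut N e t' = 2)) (hcut : cut N e (t' + (D + 1 + j)) = 2)
    (v : ℕ) (hv1 : t' ≤ v) (hv2 : v < t' + (D + 1 + j)) :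
    ∃ n A : ℝ, (D : ℝ) - 4 ≤ n ∧ n ≤ D ∧
      A = (∑ k ∈ Ico t' (t' + (D + 1 + j)), (e v k : ℝ) * (x k - x (t' + (D + 1 + j) - 1))) ∧
      n * (x v - x (t' + (D + 1 + j) - 1)) = A + (∑ z ∈ range t', (e z v : ℝ) * (x z - x v))
        - (∑ k ∈ Ico (t' + (D + 1 + j)) (N + 2), (e v k : ℝ) * (x v - x k))
        + 2 * ((D : ℝ) - 2) * th ^ 2 * x v ∧
      0 ≤ A ∧ A ≤ D * (x t' - x (t' + (D + 1 + j) - 1)) ∧
      A ≤ (∑ k ∈ Ico t' (t' + (D + 1 + j)), (x k - x (t' + (D + 1 + j) - 1))) ∧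
      (∑ k ∈ Ico t' (t' + (D + 1 + j)), (x k - x (t' + (D + 1 + j) - 1))) -
        ((j : ℝ) + 5) * (x t' - x (t' + (D + 1 + j) - 1)) ≤ A := by
  set t := t' + (D + 1 + j) with ht
  set a := x (t - 1) with ha
  set b := x t' with hb
  have hmin : ∀ k ∈ Ico t' t, 0 ≤ x k - a := by
    intro k hk
    rw [mem_Ico] at hk
    have := h.anti (show k ≤ t - 1 by omega)
    rw [ha]; linarith
  have hmax : ∀ k ∈ Ico t' t, x k - a ≤ b - a := by
    intro k hk
    rw [mem_Ico] at hk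
    have := h.anti hk.1
    rw [hb]; linarith
  have hba : 0 ≤ b - a := by
    have := hmin t' (mem_Ico.2 ⟨le_rfl, by omega⟩)
    exact this
  have hvN : v < N := by omega
  -- counts
  have hdeg := h.deg v hvN
  rw [GN_splitN (show t' ≤ t by omega) (show t ≤ N + 2 by omega)] at hdeg
  have hdn : ∑ k ∈ Ico t (N + 2), e v k ≤ 2 := by
    have h1 : ∑ k ∈ Ico t (N + 2), e v k ≤ cut N e t := by
      unfold cut
      exact single_le_sum (f := fun i => ∑ k ∈ Ico t (N + 2), e i k) (fun i _ => Nat.zero_le _)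
        (mem_range.2 hv2)
    omega
  have hup : ∑ k ∈ range t', e v k ≤ 2 := by
    rcases ht' with h0 | ⟨-, h0⟩
    · subst h0; simp
    · have h1 : ∑ k ∈ range t', e v k ≤ cut N e t' := by
        unfold cut
        apply sum_le_sum
        intro z hz
        rw [h.symm v z]
        exact single_le_sum (f := fun k => e z k) (fun i _ => Nat.zero_le _)
          (mem_Ico.2 ⟨hv1, by omega⟩)
      omega
  set nn : ℕ := ∑ k ∈ Ico t' t, e v k with hnn
  have hn1 : D ≤ nn + 4 := by omega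
  have hn2 : nn ≤ D := by omega
  -- the number of non-neighbours
  have hcard : (∑ k ∈ Ico t' t, (1 - e v k)) + nn = D + 1 + j := by
    rw [hnn, ← sum_add_distrib]
    have : ∀ k ∈ Ico t' t, 1 - e v k + e v k = 1 := by
      intro k _
      have := h.le1 v k
      omega
    rw [sum_congr rfl this, sum_const, Nat.card_Ico, smul_eq_mul, mul_one]
    omega
  set A : ℝ := ∑ k ∈ Ico t' t, (e v k : ℝ) * (x k - a) with hA
  have hnnR : (nn : ℝ) = ∑ k ∈ Ico t' t, (e v k : ℝ) := by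
    rw [hnn]; push_cast; rfl
  refine ⟨nn, A, ?_, ?_, rfl, ?_, ?_, ?_, ?_, ?_⟩
  · have : (D : ℝ) ≤ nn + 4 := by exact_mod_cast hn1
    linarith
  · exact_mod_cast hn2
  · -- the eigen-equation
    have heig := h.eig v hvN
    rw [GN_split (show t' ≤ t by omega) (show t ≤ N + 2 by omega)] at heig
    have e1 : ∑ k ∈ range t', (e v k : ℝ) * (x v - x k) =
        - ∑ z ∈ range t', (e z v : ℝ) * (x z - x v) := by
      rw [← sum_neg_distrib]
      apply sum_congr rfl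
      intro z _
      rw [h.symm v z]
      ring
    have e2 : ∑ k ∈ Ico t' t, (e v k : ℝ) * (x v - x k) = (nn : ℝ) * (x v - a) - A := by
      rw [hnnR, hA, sum_mul, ← sum_sub_distrib]
      apply sum_congr rfl
      intro k _
      ring
    rw [e1, e2] at heig
    linarith
  · rw [hA]
    exact sum_nonneg fun k hk => mul_nonneg (Nat.cast_nonneg _) (hmin k hk)
  · calc A ≤ ∑ k ∈ Ico t' t, (e v k : ℝ) * (b - a) := by
          rw [hA]
          exact sum_le_sum fun k hk => mul_le_mul_of_nonneg_left (hmax k hk) (Nat.cast_nonneg _)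
      _ = nn * (b - a) := by rw [hnnR, sum_mul]
      _ ≤ D * (b - a) := by
          apply mul_le_mul_of_nonneg_right _ hba
          exact_mod_cast hn2
  · rw [hA]
    apply sum_le_sum
    intro k hk
    have h1 : (e v k : ℝ) ≤ 1 := by exact_mod_cast h.le1 v k
    have := mul_le_mul_of_nonneg_right h1 (hmin k hk)
    linarith
  · have h1 : (∑ k ∈ Ico t' t, (x k - a)) - A = ∑ k ∈ Ico t' t, ((1 - e v k : ℕ) : ℝ) * (x k - a) := by
      rw [hA, ← sum_sub_distrib]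
      apply sum_congr rfl
      intro k _
      rw [Nat.cast_sub (h.le1 v k)]
      push_cast
      ring
    have h2 : ∑ k ∈ Ico t' t, ((1 - e v k : ℕ) : ℝ) * (x k - a) ≤ ((j : ℝ) + 5) * (b - a) := by
      calc ∑ k ∈ Ico t' t, ((1 - e v k : ℕ) : ℝ) * (x k - a)
          ≤ ∑ k ∈ Ico t' t, ((1 - e v k : ℕ) : ℝ) * (b - a) :=
            sum_le_sum fun k hk => mul_le_mul_of_nonneg_left (hmax k hk) (Nat.cast_nonneg _)
        _ = ((∑ k ∈ Ico t' t, (1 - e v k) : ℕ) : ℝ) * (b - a) := by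
            rw [← sum_mul]; push_cast; rfl
        _ ≤ ((j : ℝ) + 5) * (b - a) := by
            apply mul_le_mul_of_nonneg_right _ hba
            have : ∑ k ∈ Ico t' t, (1 - e v k) ≤ j + 5 := by omega
            exact_mod_cast this
    linarith


/-- comparison of two values of a block -/
lemma GN_two {D j n n' A A' p d p' d' L L' y y' T o : ℝ} (hD : 100 ≤ D) (hj : 0 ≤ j) (ho : 0 ≤ o)
    (hn1 : D - 4 ≤ n) (hn1' : D - 4 ≤ n') (hn2' : n' ≤ D)
    (h1 : n * y = A + p - d + L) (h2 : n' * y' = A' + p' - d' + L')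
    (hp : 0 ≤ p) (hd : 0 ≤ d) (hp' : 0 ≤ p') (hd' : 0 ≤ d') (hL : 0 ≤ L) (hL' : 0 ≤ L')
    (hA : 0 ≤ A) (hA' : 0 ≤ A') (hAo : A ≤ D * o) (hAT : A ≤ T) (hAT' : T - (j + 5) * o ≤ A')
    (hy : 0 ≤ y) :
    (D - 4) * (y - y') ≤ (j + 9) * o + p + L + d' := by
  have hD4 : 0 < D - 4 := by linarith
  have hD0 : 0 < D := by linarith
  have e1 : (D - 4) * y ≤ A + p + L := by nlinarith
  have hn' : 0 < n' := by linarith
  -- lower bound of y'
  have e2 : A' / D - d' / (D - 4) ≤ y' := by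
    have h3 : y' = A' / n' + (p' + L') / n' - d' / n' := by
      field_simp
      linarith
    have h4 : A' / D ≤ A' / n' := div_le_div_of_nonneg_left hA' hn' hn2'
    have h5 : d' / n' ≤ d' / (D - 4) := div_le_div_of_nonneg_left hd' hD4 hn1'
    have h6 : 0 ≤ (p' + L') / n' := by positivity
    linarith
  have e3 : (D - 4) * y' ≥ (D - 4) / D * A' - d' := by
    have h3 := mul_le_mul_of_nonneg_left e2 hD4.le
    have h4 : (D - 4) * (A' / D - d' / (D - 4)) = (D - 4) / D * A' - d' := by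
      field_simp
    linarith
  have e4 : (D - 4) / D * A' ≥ (D - 4) / D * (A - (j + 5) * o) := by
    apply mul_le_mul_of_nonneg_left _ (by positivity)
    linarith
  have e5 : (D - 4) / D * (A - (j + 5) * o) ≥ A - 4 * o - (j + 5) * o := by
    have h3 : (D - 4) / D = 1 - 4 / D := by field_simp
    rw [h3]
    have h4 : 4 / D * A ≤ 4 * o := by
      calc 4 / D * A ≤ 4 / D * (D * o) := by gcongr
        _ = 4 * o := by field_simp
    have h5 : 0 ≤ 4 / D * ((j + 5) * o) := by positivity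
    linarith
  nlinarith

theorem pGN (_h2 : G02) (h3 : G03) : GN := by
  intro D N e x th h t' j hjD htN ht' hcut
  set t := t' + (D + 1 + j) with ht
  set Y := Ys x t with hY
  have hx := GN_nonneg h
  have hDn := h.hD
  have hD : (10 : ℝ) ^ 14 ≤ D := by exact_mod_cast hDn
  have hj0 : (0 : ℝ) ≤ j := Nat.cast_nonneg _
  have hjR : 1000 * (j : ℝ) ≤ D := by exact_mod_cast hjD
  have hY0 : 0 ≤ Y := sum_nonneg fun i _ => hx i
  set Λ : ℝ := 2 * ((D : ℝ) - 2) * th ^ 2 with hΛ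
  have hΛ0 : 0 ≤ Λ := by
    rw [hΛ]
    have : (0 : ℝ) ≤ (D : ℝ) - 2 := by linarith
    positivity
  set a := x (t - 1) with ha
  set b := x t' with hb
  set T : ℝ := ∑ k ∈ Ico t' t, (x k - a) with hT
  have hba : 0 ≤ b - a := by
    have := h.anti (show t' ≤ t - 1 by omega)
    rw [ha, hb]; linarith
  have hT0 : 0 ≤ T := by
    apply sum_nonneg
    intro k hk
    rw [mem_Ico] at hk
    have := h.anti (show k ≤ t - 1 by omega)
    rw [ha]; linarith
  have hYmono : Ys x t' ≤ Y := by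
    rw [hY]
    unfold Ys
    apply sum_le_sum_of_subset_of_nonneg
    · intro i hi
      rw [mem_range] at hi ⊢
      omega
    · intro i _ _
      exact hx i
  -- flows
  have hdh : ∀ v, t' ≤ v → v < t → 0 ≤ ∑ k ∈ Ico t (N + 2), (e v k : ℝ) * (x v - x k) ∧
      ∑ k ∈ Ico t (N + 2), (e v k : ℝ) * (x v - x k) ≤ Λ * Y := fun v hv1 hv2 =>
    GN_flow_high h3 h t htN v hv2
  have hpl : ∀ v, t' ≤ v → v < t → 0 ≤ ∑ z ∈ range t', (e z v : ℝ) * (x z - x v) ∧
      ∑ z ∈ range t', (e z v : ℝ) * (x z - x v) ≤ Λ * Y := by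
    intro v hv1 hv2
    obtain ⟨h4, h5⟩ := GN_flow_low h3 h t' (by omega) v hv1 (by omega)
    exact ⟨h4, h5.trans (mul_le_mul_of_nonneg_left hYmono hΛ0)⟩
  -- the comparison of two values
  have hcmp : ∀ l h', t' ≤ l → l < t → t' ≤ h' → h' < t →
      ((D : ℝ) - 4) * (x l - x h') ≤ ((j : ℝ) + 9) * (b - a) +
        (∑ z ∈ range t', (e z l : ℝ) * (x z - x l)) + Λ * x l +
        ∑ k ∈ Ico t (N + 2), (e h' k : ℝ) * (x h' - x k) := by
    intro l h' hl1 hl2 hh1 hh2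
    obtain ⟨n, A, g1, g2, g3, g4, g5, g6, g7, g8⟩ :=
      GN_block h3 h t' j hjD htN ht' hcut l hl1 hl2
    obtain ⟨n', A', k1, k2, k3, k4, k5, k6, k7, k8⟩ :=
      GN_block h3 h t' j hjD htN ht' hcut h' hh1 hh2
    have h4 := GN_two (D := D) (j := j) (o := b - a) (T := T) (by linarith) hj0 hba g1 k1 k2 g4 k4
      (hpl l hl1 hl2).1 (hdh l hl1 hl2).1 (hpl h' hh1 hh2).1 (hdh h' hh1 hh2).1
      (mul_nonneg hΛ0 (hx l)) (mul_nonneg hΛ0 (hx h')) g5 k5 g6 g7 k8
      (by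
        have := h.anti (show l ≤ t - 1 by omega)
        linarith)
    have e1 : x l - x h' = (x l - x (t - 1)) - (x h' - x (t - 1)) := by ring
    rw [e1]
    exact h4
  -- oscillation
  have hbY : b ≤ Y := by
    rw [hY, hb]
    unfold Ys
    exact single_le_sum (f := fun i => x i) (fun i _ => hx i) (mem_range.2 (by omega))
  have hosc : ((D : ℝ) - 13 - j) * (b - a) ≤ 3 * Λ * Y := by
    have h4 := hcmp t' (t - 1) le_rfl (by omega) (by omega) (by omega)
    have h5 := (hpl t' le_rfl (by omega)).2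
    have h6 := (hdh (t - 1) (by omega) (by omega)).2
    have h7 : Λ * x t' ≤ Λ * Y := mul_le_mul_of_nonneg_left hbY hΛ0
    have e1 : x t' - x (t - 1) = b - a := rfl
    rw [e1] at h4
    linarith
  have hth : 0 ≤ th ^ 2 * Y := by positivity
  have hosc2 : b - a ≤ 61 / 10 * (th ^ 2 * Y) := by
    have h4 : (D : ℝ) - 2 ≤ 61 / 60 * ((D : ℝ) - 13 - j) := by linarith
    have h5 : 0 < (D : ℝ) - 13 - j := by linarith
    have h6 : ((D : ℝ) - 13 - j) * (b - a) ≤ ((D : ℝ) - 13 - j) * (61 / 10 * (th ^ 2 * Y)) := by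
      calc ((D : ℝ) - 13 - j) * (b - a) ≤ 3 * Λ * Y := hosc
        _ = 6 * ((D : ℝ) - 2) * (th ^ 2 * Y) := by rw [hΛ]; ring
        _ ≤ 6 * (61 / 60 * ((D : ℝ) - 13 - j)) * (th ^ 2 * Y) := by gcongr
        _ = _ := by ring
    exact le_of_mul_le_mul_left h6 h5
  have hD0 : (0 : ℝ) < D := by linarith
  have hD4 : (0 : ℝ) < (D : ℝ) - 4 := by linarith
  refine ⟨?_, ?_⟩
  · intro ht1 l h' hl1 hl2 hh1 hh2
    have h4 := hcmp l h' hl1 hl2 hh1 hh2
    set p := ∑ z ∈ range t', (e z l : ℝ) * (x z - x l) with hp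
    set d := ∑ k ∈ Ico t (N + 2), (e h' k : ℝ) * (x h' - x k) with hd
    -- `x l ≤ Y / (D + 2)`
    have h5 : ((D : ℝ) + 2) * x l ≤ Y := by
      have h6 : x l ≤ x t' := h.anti hl1
      have h7 : ((t' : ℝ) + 1) * x t' ≤ Y := by
        have h8 : ∑ i ∈ range (t' + 1), x t' ≤ ∑ i ∈ range (t' + 1), x i := by
          apply sum_le_sum
          intro i hi
          rw [mem_range] at hi
          exact h.anti (by omega)
        rw [sum_const, card_range, nsmul_eq_mul] at h8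
        have h9 : ∑ i ∈ range (t' + 1), x i ≤ Y := by
          rw [hY]
          unfold Ys
          apply sum_le_sum_of_subset_of_nonneg
          · intro i hi
            rw [mem_range] at hi ⊢
            omega
          · intro i _ _
            exact hx i
        push_cast at h8
        linarith
      have h8 : ((D : ℝ) + 2) ≤ (t' : ℝ) + 1 := by
        have : ((D + 1 : ℕ) : ℝ) ≤ (t' : ℝ) := by exact_mod_cast ht1
        push_cast at this
        linarith
      calc ((D : ℝ) + 2) * x l ≤ ((t' : ℝ) + 1) * x t' :=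
            mul_le_mul h8 h6 (hx l) (by positivity)
        _ ≤ Y := h7
    have h6 : Λ * x l ≤ 2 * (th ^ 2 * Y) := by
      have h7 : ((D : ℝ) - 2) * x l ≤ Y := by
        have := hx l
        linarith
      calc Λ * x l = 2 * th ^ 2 * (((D : ℝ) - 2) * x l) := by rw [hΛ]; ring
        _ ≤ 2 * th ^ 2 * Y := mul_le_mul_of_nonneg_left h7 (by positivity)
        _ = _ := by ring
    have h7 : ((j : ℝ) + 9) * (b - a) ≤ ((j : ℝ) + 9) * (61 / 10 * (th ^ 2 * Y)) :=
      mul_le_mul_of_nonneg_left hosc2 (by linarith)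
    have h8 : ((D : ℝ) - 4) * (x l - x h') ≤ p + d + (61 / 10 * (j : ℝ) + 57) * (th ^ 2 * Y) := by
      linarith
    have h9 : (61 / 10 * (j : ℝ) + 57) ≤ ((D : ℝ) - 4) * ((7 * (j : ℝ) + 60) / (D : ℝ)) := by
      rw [mul_div_assoc', le_div_iff₀ hD0]
      nlinarith
    have h10 : (61 / 10 * (j : ℝ) + 57) * (th ^ 2 * Y) ≤
        ((D : ℝ) - 4) * ((7 * (j : ℝ) + 60) / (D : ℝ)) * (th ^ 2 * Y) :=
      mul_le_mul_of_nonneg_right h9 hth
    have h11 : ((D : ℝ) - 4) * ((p + d) / ((D : ℝ) - 4)) = p + d := by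
      field_simp
    apply le_of_mul_le_mul_left _ hD4
    calc ((D : ℝ) - 4) * (x l - x h') ≤ p + d + (61 / 10 * (j : ℝ) + 57) * (th ^ 2 * Y) := h8
      _ ≤ p + d + ((D : ℝ) - 4) * ((7 * (j : ℝ) + 60) / (D : ℝ)) * (th ^ 2 * Y) := by linarith
      _ = ((D : ℝ) - 4) * ((p + d) / ((D : ℝ) - 4) + th ^ 2 * Y * ((7 * (j : ℝ) + 60) / (D : ℝ))) := by
          rw [mul_add, h11]
          ring
  · intro h' hh1 hh2
    obtain ⟨n', A', k1, k2, k3, k4, k5, k6, k7, k8⟩ :=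
      GN_block h3 h t' j hjD htN ht' hcut h' hh1 hh2
    have hd0 := (hdh h' hh1 hh2).1
    have hp0 := (hpl h' hh1 hh2).1
    have hL0 := mul_nonneg hΛ0 (hx h')
    set p := ∑ z ∈ range t', (e z h' : ℝ) * (x z - x h') with hp
    set d := ∑ k ∈ Ico t (N + 2), (e h' k : ℝ) * (x h' - x k) with hd
    have hn' : 0 < n' := by linarith
    have h4 : A' / D ≤ (x h' - a) + d / ((D : ℝ) - 4) := by
      have h5 : x h' - a = A' / n' + (p + Λ * x h') / n' - d / n' := by
        field_simp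
        linarith
      have h6 : A' / D ≤ A' / n' := div_le_div_of_nonneg_left k5 hn' k2
      have h7 : d / n' ≤ d / ((D : ℝ) - 4) := div_le_div_of_nonneg_left hd0 hD4 k1
      have h8 : 0 ≤ (p + Λ * x h') / n' := by positivity
      linarith
    have h5 : ∑ i ∈ Ico t' t, x i = T + ((D : ℝ) + 1 + j) * a := by
      rw [hT, sum_sub_distrib, sum_const, Nat.card_Ico, nsmul_eq_mul]
      have : ((t - t' : ℕ) : ℝ) = (D : ℝ) + 1 + j := by
        rw [ht, Nat.add_sub_cancel_left]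
        push_cast
        ring
      rw [this]
      ring
    rw [h5]
    have hm0 : (0 : ℝ) < (D : ℝ) + 1 + j := by positivity
    have h6 : T ≤ ((D : ℝ) + 1 + j) * (T / D) := by
      have h7 : T = D * (T / D) := by field_simp
      have h8 : (D : ℝ) * (T / D) ≤ ((D : ℝ) + 1 + j) * (T / D) :=
        mul_le_mul_of_nonneg_right (by linarith) (by positivity)
      linarith
    have h7 : T / D ≤ A' / D + ((j : ℝ) + 5) * (b - a) / D := by
      rw [← add_div]
      apply div_le_div_of_nonneg_right _ hD0.le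
      linarith
    have h8 : ((j : ℝ) + 5) * (b - a) / D ≤ th ^ 2 * Y * ((7 * (j : ℝ) + 60) / D) := by
      rw [mul_div_assoc']
      apply div_le_div_of_nonneg_right _ hD0.le
      have h9 : ((j : ℝ) + 5) * (b - a) ≤ ((j : ℝ) + 5) * (61 / 10 * (th ^ 2 * Y)) :=
        mul_le_mul_of_nonneg_left hosc2 (by linarith)
      nlinarith
    have h9 : T / D ≤ (x h' - a) + d / ((D : ℝ) - 4) + th ^ 2 * Y * ((7 * (j : ℝ) + 60) / D) := by
      linarith
    have h10 := mul_le_mul_of_nonneg_left h9 hm0.le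
    calc T + ((D : ℝ) + 1 + j) * a ≤ ((D : ℝ) + 1 + j) * (T / D) + ((D : ℝ) + 1 + j) * a := by linarith
      _ ≤ ((D : ℝ) + 1 + j) * ((x h' - a) + d / ((D : ℝ) - 4) +
            th ^ 2 * Y * ((7 * (j : ℝ) + 60) / D)) + ((D : ℝ) + 1 + j) * a := by linarith
      _ = _ := by ring

end Pool.Agent.T2H60.SX
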