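import Pool.Agent.T2H60.SX.Stm

/-!
# SX: package GNT (near-complete transitions and ends)
-/

set_option autoImplicit false
open Finset

namespace Pool.Agent.T2H60.SX

theorem GNT_avg (B : Finset ℕ) (a b p d x : ℕ → ℝ) (K R : ℝ)
    (ha : ∀ l ∈ B, 0 ≤ a l) (hb : ∀ l ∈ B, 0 ≤ b l) (ha2 : ∑ l ∈ B, a l = 2) (hb2 : ∑ l ∈ B, b l = 2)
    (h : ∀ l ∈ B, ∀ k ∈ B, x l - x k ≤ (p l + d k) / K + R) :
    ∑ l ∈ B, a l * x l - ∑ l ∈ B, b l * x l ≤ (∑ l ∈ B, a l * p l + ∑ l ∈ B, b l * d l) / K + 2 * R := by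
  have h1 : ∀ k ∈ B, ∑ l ∈ B, a l * x l - 2 * x k ≤ (∑ l ∈ B, a l * p l + 2 * d k) / K + 2 * R := by
    intro k hk
    have := sum_le_sum (fun l hl => mul_le_mul_of_nonneg_left (h l hl k hk) (ha l hl))
    have e1 : ∑ l ∈ B, a l * (x l - x k) = ∑ l ∈ B, a l * x l - (∑ l ∈ B, a l) * x k := by
      rw [sum_mul, ← sum_sub_distrib]; exact sum_congr rfl (fun l _ => by ring)
    have e2 : ∑ l ∈ B, a l * ((p l + d k) / K + R)
        = (∑ l ∈ B, a l * p l + (∑ l ∈ B, a l) * d k) / K + (∑ l ∈ B, a l) * R := by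
      rw [sum_mul, sum_mul, ← sum_add_distrib, sum_div, ← sum_add_distrib]
      exact sum_congr rfl (fun l _ => by ring)
    rw [e1, e2, ha2] at this
    exact this
  have h2 := sum_le_sum (fun k hk => mul_le_mul_of_nonneg_left (h1 k hk) (hb k hk))
  have e1 : ∑ k ∈ B, b k * (∑ l ∈ B, a l * x l - 2 * x k)
      = (∑ k ∈ B, b k) * (∑ l ∈ B, a l * x l) - 2 * ∑ l ∈ B, b l * x l := by
    rw [sum_mul, mul_sum, ← sum_sub_distrib]; exact sum_congr rfl (fun l _ => by ring)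
  have e2 : ∑ k ∈ B, b k * ((∑ l ∈ B, a l * p l + 2 * d k) / K + 2 * R)
      = ((∑ k ∈ B, b k) * (∑ l ∈ B, a l * p l) + 2 * ∑ l ∈ B, b l * d l) / K + (∑ k ∈ B, b k) * (2 * R) := by
    rw [sum_mul, sum_mul, mul_sum, ← sum_add_distrib, sum_div, ← sum_add_distrib]
    exact sum_congr rfl (fun l _ => by ring)
  rw [e1, e2, hb2] at h2
  have e3 : (2 * ∑ l ∈ B, a l * p l + 2 * ∑ l ∈ B, b l * d l) / K
      = 2 * ((∑ l ∈ B, a l * p l + ∑ l ∈ B, b l * d l) / K) := by ring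
  rw [e3] at h2
  linarith

theorem GNT_avg2 (B : Finset ℕ) (b d x : ℕ → ℝ) (K R m S s : ℝ)
    (hb : ∀ l ∈ B, 0 ≤ b l) (hbs : ∑ l ∈ B, b l = s)
    (h : ∀ k ∈ B, S ≤ m * (x k + d k / K + R)) :
    s * S ≤ m * (∑ l ∈ B, b l * x l + (∑ l ∈ B, b l * d l) / K + s * R) := by
  have h2 := sum_le_sum (fun k hk => mul_le_mul_of_nonneg_left (h k hk) (hb k hk))
  have e1 : ∑ k ∈ B, b k * S = s * S := by rw [← sum_mul, hbs]
  have e2 : ∑ k ∈ B, b k * (m * (x k + d k / K + R))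
      = m * (∑ l ∈ B, b l * x l + (∑ l ∈ B, b l * d l) / K + s * R) := by
    rw [← hbs, sum_mul, sum_div, ← sum_add_distrib, ← sum_add_distrib, mul_sum]
    exact sum_congr rfl (fun l _ => by ring)
  rw [e1, e2] at h2
  exact h2

section

variable {D N : ℕ} {e : ℕ → ℕ → ℕ} {x : ℕ → ℝ} {th : ℝ}

theorem GNT_xnn (h : SG D N e x th) (i : ℕ) : 0 ≤ x i := by
  rcases lt_or_ge i N with hi | hi
  · exact (h.pos i hi).le
  · exact (h.zero i hi).ge

theorem GNT_Wh (t : ℕ) : 2 * Wh N e x t = ∑ i ∈ range t, (dn N e t i : ℝ) * x i := by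
  unfold Wh dn
  rw [mul_div_cancel₀ _ (by norm_num : (2 : ℝ) ≠ 0)]
  refine sum_congr rfl (fun i _ => ?_)
  rw [← sum_mul]
  push_cast
  rfl

theorem GNT_Uh (t : ℕ) : 2 * Uh N e x t = ∑ k ∈ Ico t (N + 2), (up e t k : ℝ) * x k := by
  unfold Uh up
  rw [mul_div_cancel₀ _ (by norm_num : (2 : ℝ) ≠ 0), sum_comm]
  refine sum_congr rfl (fun i _ => ?_)
  rw [← sum_mul]
  push_cast
  rfl

theorem GNT_F (t : ℕ) : ∑ i ∈ range t, ∑ k ∈ Ico t (N + 2), (e i k : ℝ) * (x i - x k)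
    = 2 * Wh N e x t - 2 * Uh N e x t := by
  unfold Wh Uh
  rw [mul_div_cancel₀ _ (by norm_num : (2 : ℝ) ≠ 0), mul_div_cancel₀ _ (by norm_num : (2 : ℝ) ≠ 0),
    ← sum_sub_distrib]
  refine sum_congr rfl (fun i _ => ?_)
  rw [← sum_sub_distrib]
  exact sum_congr rfl (fun k _ => by ring)

theorem GNT_cut_up (t : ℕ) : cut N e t = ∑ k ∈ Ico t (N + 2), up e t k := by
  unfold cut up
  rw [sum_comm]

/-- the flow out of a position is nonnegative -/
theorem GNT_d_nn (hs : SG D N e x th) {t h : ℕ} (hh : h < t) :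
    0 ≤ ∑ k ∈ Ico t (N + 2), (e h k : ℝ) * (x h - x k) := by
  refine sum_nonneg (fun k hk => mul_nonneg (Nat.cast_nonneg _) ?_)
  have := hs.anti (show h ≤ k by rw [mem_Ico] at hk; omega)
  linarith

theorem GNT_p_nn (hs : SG D N e x th) {t l : ℕ} (hl : t ≤ l) :
    0 ≤ ∑ z ∈ range t, (e z l : ℝ) * (x z - x l) := by
  refine sum_nonneg (fun k hk => mul_nonneg (Nat.cast_nonneg _) ?_)
  have := hs.anti (show k ≤ l by rw [mem_range] at hk; omega)
  linarith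

theorem GNT_sum_d (hs : SG D N e x th) {t' t : ℕ} :
    ∑ h ∈ Ico t' t, ∑ k ∈ Ico t (N + 2), (e h k : ℝ) * (x h - x k)
      ≤ 2 * Wh N e x t - 2 * Uh N e x t := by
  rw [← GNT_F]
  apply sum_le_sum_of_subset_of_nonneg
  · intro i hi; rw [mem_Ico] at hi; rw [mem_range]; exact hi.2
  · intro i hi _; exact GNT_d_nn hs (mem_range.1 hi)

theorem GNT_sum_p (hs : SG D N e x th) {t' t : ℕ} (htN : t ≤ N) :
    ∑ l ∈ Ico t' t, ∑ z ∈ range t', (e z l : ℝ) * (x z - x l)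
      ≤ 2 * Wh N e x t' - 2 * Uh N e x t' := by
  rw [← GNT_F, sum_comm (s := range t')]
  apply sum_le_sum_of_subset_of_nonneg
  · intro i hi; rw [mem_Ico] at hi ⊢; omega
  · intro i hi _; exact GNT_p_nn hs (mem_Ico.1 hi).1

theorem GNT_num {Dr c : ℝ} (hD : (10 : ℝ) ^ 14 ≤ Dr) (_h0 : 0 ≤ c) (h2 : c ≤ 2) :
    c * ((Dr - 2) / (Dr - 4)) ≤ c + 5 / Dr := by
  have hD' : (100 : ℝ) ≤ Dr := le_trans (by norm_num) hD
  have h4 : 0 < Dr - 4 := by linarith
  have h5 : 0 < Dr := by linarith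
  have e1 : (Dr - 2) / (Dr - 4) = 1 + 2 / (Dr - 4) := by field_simp; ring
  rw [e1]
  have h6 : c * (2 / (Dr - 4)) ≤ 5 / Dr := by
    rw [mul_div_assoc', div_le_div_iff₀ h4 h5]
    nlinarith
  linarith

/-- bound of a weighted sum of flows -/
theorem GNT_wsum (B : Finset ℕ) (b : ℕ → ℕ) (d : ℕ → ℝ) (c F : ℝ) (hc : 0 ≤ c)
    (hb : ∀ l ∈ B, (b l : ℝ) ≤ c) (hd : ∀ l ∈ B, 0 ≤ d l) (hF : ∑ l ∈ B, d l ≤ F) :
    ∑ l ∈ B, (b l : ℝ) * d l ≤ c * F := by
  calc ∑ l ∈ B, (b l : ℝ) * d l ≤ ∑ l ∈ B, c * d l :=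
        sum_le_sum (fun l hl => mul_le_mul_of_nonneg_right (hb l hl) (hd l hl))
    _ = c * ∑ l ∈ B, d l := by rw [mul_sum]
    _ ≤ c * F := mul_le_mul_of_nonneg_left hF hc

/-- high ends bounded by `cL` -/
theorem GNT_cL {t : ℕ} {τ : Ty} {u : ℝ} (hst : St D N e x t τ u) (h2 : τ.is2) :
    cut N e t = 2 ∧ u = Uh N e x t ∧ (∀ i ∈ range t, (dn N e t i : ℝ) ≤ cL τ) ∧ 0 ≤ cL τ ∧ cL τ ≤ 2 := by
  have hle : ∀ i ∈ range t, dn N e t i ≤ cut N e t := by
    intro i hi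
    exact single_le_sum (f := fun i => dn N e t i) (fun _ _ => Nat.zero_le _) hi
  rcases h2 with rfl | rfl
  · obtain ⟨_, _, hc, _, hu⟩ := hst
    refine ⟨hc, hu, ?_, by norm_num [cL], by norm_num [cL]⟩
    intro i hi
    have := hle i hi
    rw [hc] at this
    simp only [cL]
    exact_mod_cast this
  · obtain ⟨_, _, hc, hn, hu⟩ := hst
    refine ⟨hc, hu, ?_, by norm_num [cL], by norm_num [cL]⟩
    intro i hi
    have h3 := hle i hi
    rw [hc] at h3
    have h4 : dn N e t i ≠ 2 := fun h => hn ⟨i, hi, h⟩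
    have h5 : dn N e t i ≤ 1 := by omega
    simp only [cL]
    exact_mod_cast h5

/-- the sum over the block -/
theorem GNT_Y (hGN : GN) (h3 : G03) (hs : SG D N e x th) {t' j : ℕ} (hj : 1000 * j ≤ D)
    (htN : t' + (D + 1 + j) ≤ N) (ht' : t' = 0 ∨ (D + 1 ≤ t' ∧ cut N e t' = 2))
    {τ : Ty} {u : ℝ} (hst : St D N e x (t' + (D + 1 + j)) τ u) (h2 : τ.is2)
    (h0 : ∑ i ∈ range t', dn N e (t' + (D + 1 + j)) i = 0) :
    ∑ i ∈ Ico t' (t' + (D + 1 + j)), x i ≤ ((D : ℝ) + 1 + j) * u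
      + th ^ 2 * ((((D : ℝ) + 1 + j) * ((D : ℝ) - 2 + cL τ + eta D j) + 5) * Ys x (t' + (D + 1 + j))) := by
  have hD : (10 : ℝ) ^ 14 ≤ (D : ℝ) := by exact_mod_cast hs.hD
  have hD' : (100 : ℝ) ≤ (D : ℝ) := le_trans (by norm_num) hD
  have hD0 : (0 : ℝ) < D := by linarith
  obtain ⟨hc, hu, hb, hcL0, hcL2⟩ := GNT_cL hst h2
  obtain ⟨_, hgn2⟩ := hGN D N e x th hs t' j hj htN ht' hc
  set t := t' + (D + 1 + j) with htdef
  have hY : 0 ≤ Ys x t := sum_nonneg (fun j _ => GNT_xnn hs j)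
  have hbs : ∑ i ∈ Ico t' t, dn N e t i = 2 := by
    have := sum_range_add_sum_Ico (fun i => dn N e t i) (show t' ≤ t by omega)
    rw [h0, zero_add] at this
    rw [this]; exact hc
  have hbs' : ∑ i ∈ Ico t' t, (dn N e t i : ℝ) = 2 := by exact_mod_cast hbs
  have hw : ∑ i ∈ Ico t' t, (dn N e t i : ℝ) * x i = 2 * Wh N e x t := by
    rw [GNT_Wh, ← sum_range_add_sum_Ico _ (show t' ≤ t by omega)]
    rw [sum_eq_zero (s := range t'), zero_add]
    intro i hi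
    have := (sum_eq_zero_iff.1 h0) i hi
    rw [this]; simp
  have hg3 := h3 D N e x th hs t htN
  have havg := GNT_avg2 (Ico t' t) (fun i => (dn N e t i : ℝ))
    (fun h => ∑ k ∈ Ico t (N + 2), (e h k : ℝ) * (x h - x k)) x ((D : ℝ) - 4)
    (th ^ 2 * Ys x t * ((7 * (j : ℝ) + 60) / (D : ℝ))) ((D : ℝ) + 1 + j) (∑ i ∈ Ico t' t, x i) 2
    (fun l _ => Nat.cast_nonneg _) hbs' (fun k hk => hgn2 k (mem_Ico.1 hk).1 (mem_Ico.1 hk).2)
  have hws := GNT_wsum (Ico t' t) (fun i => dn N e t i)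
    (fun h => ∑ k ∈ Ico t (N + 2), (e h k : ℝ) * (x h - x k)) (cL τ)
    (2 * Wh N e x t - 2 * Uh N e x t) hcL0
    (fun l hl => hb l (by rw [mem_range]; exact (mem_Ico.1 hl).2))
    (fun l hl => GNT_d_nn hs (mem_Ico.1 hl).2) (GNT_sum_d hs)
  beta_reduce at havg hws
  rw [hw] at havg
  rw [hg3] at hws havg
  have hK : 0 < (D : ℝ) - 4 := by linarith
  have hws2 := div_le_div_of_nonneg_right hws hK.le
  have hnum := GNT_num hD hcL0 hcL2
  have hT : 0 ≤ th ^ 2 * Ys x t := mul_nonneg (sq_nonneg _) hY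
  have e4 : cL τ * (2 * (Uh N e x t + ((D : ℝ) - 2) * th ^ 2 * Ys x t) - 2 * Uh N e x t) / ((D : ℝ) - 4)
      = 2 * ((cL τ * (((D : ℝ) - 2) / ((D : ℝ) - 4))) * (th ^ 2 * Ys x t)) := by ring
  rw [e4] at hws2
  have hnum2 := mul_le_mul_of_nonneg_right hnum hT
  rw [← hu] at havg
  have hm0 : 0 ≤ (D : ℝ) + 1 + j := by positivity
  -- the bound of the bracket
  have hbr : 2 * (u + ((D : ℝ) - 2) * th ^ 2 * Ys x t)
      + (∑ l ∈ Ico t' t, (dn N e t l : ℝ) * ∑ k ∈ Ico t (N + 2), (e l k : ℝ) * (x l - x k)) / ((D : ℝ) - 4)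
      + 2 * (th ^ 2 * Ys x t * ((7 * (j : ℝ) + 60) / (D : ℝ)))
      ≤ 2 * (u + ((D : ℝ) - 2 + cL τ + eta D j) * (th ^ 2 * Ys x t)) := by
    have he : (7 * (j : ℝ) + 60) / (D : ℝ) + 5 / (D : ℝ) ≤ eta D j := by
      unfold eta
      rw [← add_div]
      apply div_le_div_of_nonneg_right _ hD0.le
      have : (0 : ℝ) ≤ j := Nat.cast_nonneg _
      linarith
    have he2 := mul_le_mul_of_nonneg_right he hT
    nlinarith
  have hfin := mul_le_mul_of_nonneg_left hbr hm0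
  have h5 : 0 ≤ 5 * (th ^ 2 * Ys x t) := by positivity
  nlinarith

theorem pGNE (hGN : GN) (_h1 : G01) (_h2 : G02) (h3 : G03) (_h6 : G06) : GNE := by
  intro D N e x th hs j τ u hj hst h2
  have hst' : St D N e x (0 + (D + 1 + j)) τ u := by rw [zero_add]; exact hst
  have hN : 0 + (D + 1 + j) ≤ N := by have := hst.2.1; omega
  have := GNT_Y hGN h3 hs hj hN (Or.inl rfl) hst' h2 (by simp)
  rw [zero_add] at this
  have e1 : ∑ i ∈ Ico 0 (D + 1 + j), x i = Ys x (D + 1 + j) := by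
    unfold Ys; rw [Nat.Ico_zero_eq_range]
  rw [e1] at this
  exact this

theorem GNT_wle (B : Finset ℕ) (b : ℕ → ℕ) (x : ℕ → ℝ) (c : ℝ) (h : ∀ l ∈ B, x l ≤ c)
    (hb : ∑ l ∈ B, b l = 1) : ∑ l ∈ B, (b l : ℝ) * x l ≤ c := by
  calc ∑ l ∈ B, (b l : ℝ) * x l ≤ ∑ l ∈ B, (b l : ℝ) * c :=
        sum_le_sum (fun l hl => mul_le_mul_of_nonneg_left (h l hl) (Nat.cast_nonneg _))
    _ = (∑ l ∈ B, (b l : ℝ)) * c := by rw [sum_mul]
    _ = c := by
      have : ∑ l ∈ B, (b l : ℝ) = 1 := by exact_mod_cast hb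
      rw [this, one_mul]

theorem GNT_wge (B : Finset ℕ) (b : ℕ → ℕ) (x : ℕ → ℝ) (c : ℝ) (h : ∀ l ∈ B, c ≤ x l)
    (hb : ∑ l ∈ B, b l = 1) : c ≤ ∑ l ∈ B, (b l : ℝ) * x l := by
  calc c = (∑ l ∈ B, (b l : ℝ)) * c := by
        have : ∑ l ∈ B, (b l : ℝ) = 1 := by exact_mod_cast hb
        rw [this, one_mul]
    _ = ∑ l ∈ B, (b l : ℝ) * c := by rw [sum_mul]
    _ ≤ ∑ l ∈ B, (b l : ℝ) * x l :=
        sum_le_sum (fun l hl => mul_le_mul_of_nonneg_left (h l hl) (Nat.cast_nonneg _))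

/-- some low end has two edges to above: then the high ends differ -/
theorem GNT_cR (hs : SG D N e x th) {t' : ℕ} {τ' : Ty} {u' : ℝ} (hst' : St D N e x t' τ' u')
    (h2' : τ'.is2) {l : ℕ} (hl : t' ≤ l) (hlN : l < N + 2) (h : 2 ≤ up e t' l) : τ' = Ty.mi := by
  rcases h2' with rfl | rfl
  · exfalso
    obtain ⟨_, _, hc, ⟨i, hi, hdi⟩, _⟩ := hst'
    have h1 : ∑ z ∈ (range t').erase i, dn N e t' z = 0 := by
      have := add_sum_erase (range t') (fun z => dn N e t' z) hi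
      have hc2 : ∑ z ∈ range t', dn N e t' z = 2 := hc
      rw [hc2] at this
      simp only [hdi] at this
      omega
    have h2 : ∑ z ∈ (range t').erase i, e z l = 0 := by
      rw [sum_eq_zero_iff] at h1 ⊢
      intro z hz
      have h3 := h1 z hz
      unfold dn at h3
      rw [sum_eq_zero_iff] at h3
      exact h3 l (by rw [mem_Ico]; omega)
    have h4 := add_sum_erase (range t') (fun z => e z l) hi
    rw [h2] at h4
    have h5 : up e t' l = ∑ z ∈ range t', e z l := rfl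
    have h6 := hs.le1 i l
    simp only [add_zero] at h4
    omega
  · rfl

theorem pGNT (hGN : GN) (_h1 : G01) (_h2 : G02) (h3 : G03) (_h6 : G06) : GNT := by
  intro D N e x th hs t' j τ' τ u' u hj hst' hst h2' h2
  have hD : (10 : ℝ) ^ 14 ≤ (D : ℝ) := by exact_mod_cast hs.hD
  have hD' : (100 : ℝ) ≤ (D : ℝ) := le_trans (by norm_num) hD
  have hD0 : (0 : ℝ) < D := by linarith
  have hK : 0 < (D : ℝ) - 4 := by linarith
  obtain ⟨hc', hu', hb', hcL0', hcL2'⟩ := GNT_cL hst' h2'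
  obtain ⟨hc, hu, hb, hcL0, hcL2⟩ := GNT_cL hst h2
  have hD1 : D + 1 ≤ t' := hst'.1
  have htN : t' + (D + 1 + j) ≤ N := hst.2.1
  obtain ⟨hgn1, hgn2⟩ := hGN D N e x th hs t' j hj htN (Or.inr ⟨hD1, hc'⟩) hc
  replace hgn1 := hgn1 hD1
  have hYpart := fun h0 => GNT_Y hGN h3 hs hj htN (Or.inr ⟨hD1, hc'⟩) hst h2 h0
  have hmcast : ((D + 1 + j : ℕ) : ℝ) = (D : ℝ) + 1 + j := by push_cast; ring
  set t := t' + (D + 1 + j) with htdef
  have htt : t' ≤ t := by omega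
  have hY : 0 ≤ Ys x t := sum_nonneg (fun j _ => GNT_xnn hs j)
  have hY' : 0 ≤ Ys x t' := sum_nonneg (fun j _ => GNT_xnn hs j)
  have hYY : Ys x t = Ys x t' + ∑ i ∈ Ico t' t, x i := by
    unfold Ys
    rw [sum_range_add_sum_Ico _ htt]
  have hdn : byp N e t' t + ∑ i ∈ Ico t' t, dn N e t i = 2 := by
    have := sum_range_add_sum_Ico (fun i => dn N e t i) htt
    rw [← hc]; exact this
  have hup0 : byp N e t' t = ∑ k ∈ Ico t (N + 2), up e t' k := by
    unfold byp up; rw [sum_comm]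
  have hup : ∑ k ∈ Ico t' t, up e t' k + byp N e t' t = 2 := by
    rw [hup0, sum_Ico_consecutive (fun k => up e t' k) htt (by omega)]
    exact (GNT_cut_up t').symm.trans hc'
  have hg3 := h3 D N e x th hs t htN
  have hg3' := h3 D N e x th hs t' (by omega)
  have hwsplit : 2 * Wh N e x t = ∑ i ∈ range t', (dn N e t i : ℝ) * x i
      + ∑ i ∈ Ico t' t, (dn N e t i : ℝ) * x i := by
    rw [GNT_Wh, ← sum_range_add_sum_Ico (fun i => (dn N e t i : ℝ) * x i) htt]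
  have husplit : 2 * Uh N e x t' = ∑ k ∈ Ico t' t, (up e t' k : ℝ) * x k
      + ∑ k ∈ Ico t (N + 2), (up e t' k : ℝ) * x k := by
    rw [GNT_Uh, sum_Ico_consecutive (fun k => (up e t' k : ℝ) * x k) htt (by omega)]
  have hT0 : 0 ≤ th ^ 2 := sq_nonneg th
  have hT : 0 ≤ th ^ 2 * Ys x t := mul_nonneg hT0 hY
  have hT' : 0 ≤ th ^ 2 * Ys x t' := mul_nonneg hT0 hY'
  have he : (7 * (j : ℝ) + 60) / (D : ℝ) + 5 / (D : ℝ) ≤ eta D j := by
    unfold eta
    rw [← add_div]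
    apply div_le_div_of_nonneg_right _ hD0.le
    have : (0 : ℝ) ≤ j := Nat.cast_nonneg _
    linarith
  have hj0 : 0 ≤ (7 * (j : ℝ) + 60) / (D : ℝ) := by positivity
  have hby : byp N e t' t = 0 ∨ byp N e t' t = 1 ∨ byp N e t' t = 2 := by omega
  rcases hby with hby | hby | hby
  · -- no bypass edge
    left
    refine ⟨hby, ?_⟩
    have hd0 : ∑ i ∈ range t', dn N e t i = 0 := hby
    have hu0 : ∑ k ∈ Ico t (N + 2), up e t' k = 0 := by rw [← hup0]; exact hby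
    have hw : ∑ i ∈ Ico t' t, (dn N e t i : ℝ) * x i = 2 * Wh N e x t := by
      rw [hwsplit, sum_eq_zero (s := range t'), zero_add]
      intro i hi
      have := (sum_eq_zero_iff.1 hd0) i hi
      rw [this]; simp
    have hU : ∑ k ∈ Ico t' t, (up e t' k : ℝ) * x k = 2 * Uh N e x t' := by
      rw [husplit, sum_eq_zero (s := Ico t (N + 2)), add_zero]
      intro i hi
      have := (sum_eq_zero_iff.1 hu0) i hi
      rw [this]; simp
    have hbs : ∑ i ∈ Ico t' t, (dn N e t i : ℝ) = 2 := by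
      have : ∑ i ∈ Ico t' t, dn N e t i = 2 := by omega
      exact_mod_cast this
    have has : ∑ i ∈ Ico t' t, (up e t' i : ℝ) = 2 := by
      have : ∑ i ∈ Ico t' t, up e t' i = 2 := by omega
      exact_mod_cast this
    have hcR : ∃ cR : ℝ, (cR = 1 ∨ (cR = 2 ∧ τ' = Ty.mi)) ∧ ∀ l ∈ Ico t' t, (up e t' l : ℝ) ≤ cR := by
      by_cases H : ∃ l ∈ Ico t' t, 2 ≤ up e t' l
      · obtain ⟨l, hl, hl2⟩ := H
        rw [mem_Ico] at hl
        refine ⟨2, Or.inr ⟨rfl, GNT_cR hs hst' h2' hl.1 (by omega) hl2⟩, ?_⟩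
        intro k hk
        have h7 := single_le_sum (f := fun k => up e t' k) (fun _ _ => Nat.zero_le _) hk
        have h8 : up e t' k ≤ 2 := by
          have : ∑ i ∈ Ico t' t, up e t' i = 2 := by omega
          beta_reduce at h7
          omega
        exact_mod_cast h8
      · refine ⟨1, Or.inl rfl, ?_⟩
        intro k hk
        have h8 : up e t' k ≤ 1 := by
          by_contra hcon
          exact H ⟨k, hk, by omega⟩
        exact_mod_cast h8
    obtain ⟨cR, hcR1, hcR2⟩ := hcR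
    have hcR0 : 0 ≤ cR ∧ cR ≤ 2 := by
      rcases hcR1 with h | ⟨h, _⟩ <;> rw [h] <;> norm_num
    refine ⟨cR, hcR1, ?_, ?_⟩
    · -- the drop
      have havg := GNT_avg (Ico t' t) (fun l => (up e t' l : ℝ)) (fun i => (dn N e t i : ℝ))
        (fun l => ∑ z ∈ range t', (e z l : ℝ) * (x z - x l))
        (fun h => ∑ k ∈ Ico t (N + 2), (e h k : ℝ) * (x h - x k)) x ((D : ℝ) - 4)
        (th ^ 2 * Ys x t * ((7 * (j : ℝ) + 60) / (D : ℝ)))
        (fun l _ => Nat.cast_nonneg _) (fun l _ => Nat.cast_nonneg _) has hbs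
        (fun l hl k hk => hgn1 l k (mem_Ico.1 hl).1 (mem_Ico.1 hl).2 (mem_Ico.1 hk).1 (mem_Ico.1 hk).2)
      have hws := GNT_wsum (Ico t' t) (fun i => dn N e t i)
        (fun h => ∑ k ∈ Ico t (N + 2), (e h k : ℝ) * (x h - x k)) (cL τ)
        (2 * Wh N e x t - 2 * Uh N e x t) hcL0
        (fun l hl => hb l (by rw [mem_range]; exact (mem_Ico.1 hl).2))
        (fun l hl => GNT_d_nn hs (mem_Ico.1 hl).2) (GNT_sum_d hs)
      have hws' := GNT_wsum (Ico t' t) (fun l => up e t' l)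
        (fun l => ∑ z ∈ range t', (e z l : ℝ) * (x z - x l)) cR
        (2 * Wh N e x t' - 2 * Uh N e x t') hcR0.1 hcR2
        (fun l hl => GNT_p_nn hs (mem_Ico.1 hl).1) (GNT_sum_p hs htN)
      beta_reduce at havg hws hws'
      rw [hw, hU] at havg
      rw [hg3] at hws havg
      rw [hg3'] at hws'
      have hws2 := div_le_div_of_nonneg_right hws hK.le
      have hws2' := div_le_div_of_nonneg_right hws' hK.le
      have hnum2 := mul_le_mul_of_nonneg_right (GNT_num hD hcL0 hcL2) hT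
      have hnum2' := mul_le_mul_of_nonneg_right (GNT_num hD hcR0.1 hcR0.2) hT'
      have e4 : cL τ * (2 * (Uh N e x t + ((D : ℝ) - 2) * th ^ 2 * Ys x t) - 2 * Uh N e x t) / ((D : ℝ) - 4)
          = 2 * ((cL τ * (((D : ℝ) - 2) / ((D : ℝ) - 4))) * (th ^ 2 * Ys x t)) := by ring
      have e4' : cR * (2 * (Uh N e x t' + ((D : ℝ) - 2) * th ^ 2 * Ys x t') - 2 * Uh N e x t') / ((D : ℝ) - 4)
          = 2 * ((cR * (((D : ℝ) - 2) / ((D : ℝ) - 4))) * (th ^ 2 * Ys x t')) := by ring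
      rw [e4] at hws2
      rw [e4'] at hws2'
      rw [add_div] at havg
      rw [← hu, ← hu'] at havg
      have he2 := mul_le_mul_of_nonneg_right he hT
      have h5e : 5 / (D : ℝ) ≤ eta D j := by linarith
      have he3 := mul_le_mul_of_nonneg_right h5e hT'
      have e5 : u + th ^ 2 * (((D : ℝ) - 2 + cL τ + eta D j) * Ys x t + (cR + eta D j) * Ys x t')
        = u + ((D : ℝ) - 2) * (th ^ 2 * Ys x t) + cL τ * (th ^ 2 * Ys x t) + eta D j * (th ^ 2 * Ys x t)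
          + cR * (th ^ 2 * Ys x t') + eta D j * (th ^ 2 * Ys x t') := by ring
      rw [e5]
      have e6 : ((D : ℝ) - 2) * th ^ 2 * Ys x t = ((D : ℝ) - 2) * (th ^ 2 * Ys x t) := by ring
      rw [e6] at havg
      have e7 : th ^ 2 * Ys x t * ((7 * (j : ℝ) + 60) / (D : ℝ))
        = ((7 * (j : ℝ) + 60) / (D : ℝ)) * (th ^ 2 * Ys x t) := by ring
      rw [e7] at havg
      rw [add_mul] at hnum2 hnum2' he2
      linarith
    · have := hYpart hd0
      rw [hmcast, hYY]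
      rw [hYY] at this
      linarith
  · -- one bypass edge
    right
    have hb1 : ∑ i ∈ Ico t' t, dn N e t i = 1 := by omega
    have hb2 : ∑ i ∈ range t', dn N e t i = 1 := hby
    have ha1 : ∑ k ∈ Ico t' t, up e t' k = 1 := by omega
    have ha2 : ∑ k ∈ Ico t (N + 2), up e t' k = 1 := by rw [← hup0]; exact hby
    have hτ : τ = Ty.mi := by
      rcases h2 with rfl | rfl
      · exfalso
        obtain ⟨_, _, _, ⟨i, hi, hdi⟩, _⟩ := hst
        rw [mem_range] at hi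
        rcases lt_or_ge i t' with hlt | hge
        · have := single_le_sum (f := fun i => dn N e t i) (fun _ _ => Nat.zero_le _) (mem_range.2 hlt)
          simp only [hb2, hdi] at this
          omega
        · have := single_le_sum (f := fun i => dn N e t i) (fun _ _ => Nat.zero_le _)
            (mem_Ico.2 ⟨hge, hi⟩)
          simp only [hb1, hdi] at this
          omega
      · rfl
    have hbd : ∀ l ∈ Ico t' t, ((dn N e t l : ℕ) : ℝ) ≤ 1 := by
      intro l hl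
      have := single_le_sum (f := fun i => dn N e t i) (fun _ _ => Nat.zero_le _) hl
      simp only [hb1] at this
      exact_mod_cast this
    have A1 : ∑ k ∈ Ico t' t, (up e t' k : ℝ) * x k ≤ x t' :=
      GNT_wle _ _ _ _ (fun l hl => hs.anti (mem_Ico.1 hl).1) ha1
    have A2 : x t' ≤ ∑ i ∈ range t', (dn N e t i : ℝ) * x i :=
      GNT_wge _ _ _ _ (fun l hl => hs.anti (mem_range.1 hl).le) hb2
    have A3 : ∑ k ∈ Ico t (N + 2), (up e t' k : ℝ) * x k ≤ x t :=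
      GNT_wle _ _ _ _ (fun l hl => hs.anti (mem_Ico.1 hl).1) ha2
    have A4 : x t ≤ ∑ i ∈ Ico t' t, (dn N e t i : ℝ) * x i :=
      GNT_wge _ _ _ _ (fun l hl => hs.anti (mem_Ico.1 hl).2.le) hb1
    have A5 : ∑ i ∈ Ico t' t, (dn N e t i : ℝ) * x i ≤ x t' :=
      GNT_wle _ _ _ _ (fun l hl => hs.anti (mem_Ico.1 hl).1) hb1
    refine ⟨hby, hτ, ?_, ?_⟩
    · have e5 : u + th ^ 2 * (((D : ℝ) - 2) * Ys x t + 0 * Ys x t')
        = u + ((D : ℝ) - 2) * th ^ 2 * Ys x t := by ring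
      rw [e5, hu, hu', ← hg3]
      linarith
    · have hbs' : ∑ i ∈ Ico t' t, (dn N e t i : ℝ) = 1 := by exact_mod_cast hb1
      have havg := GNT_avg2 (Ico t' t) (fun i => (dn N e t i : ℝ))
        (fun h => ∑ k ∈ Ico t (N + 2), (e h k : ℝ) * (x h - x k)) x ((D : ℝ) - 4)
        (th ^ 2 * Ys x t * ((7 * (j : ℝ) + 60) / (D : ℝ))) ((D : ℝ) + 1 + j) (∑ i ∈ Ico t' t, x i) 1
        (fun l _ => Nat.cast_nonneg _) hbs' (fun k hk => hgn2 k (mem_Ico.1 hk).1 (mem_Ico.1 hk).2)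
      have hws := GNT_wsum (Ico t' t) (fun i => dn N e t i)
        (fun h => ∑ k ∈ Ico t (N + 2), (e h k : ℝ) * (x h - x k)) 1
        (2 * Wh N e x t - 2 * Uh N e x t) zero_le_one hbd
        (fun l hl => GNT_d_nn hs (mem_Ico.1 hl).2) (GNT_sum_d hs)
      beta_reduce at havg hws
      have hws2 := div_le_div_of_nonneg_right hws hK.le
      rw [hg3] at hws2
      have e4 : 1 * (2 * (Uh N e x t + ((D : ℝ) - 2) * th ^ 2 * Ys x t) - 2 * Uh N e x t) / ((D : ℝ) - 4)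
          = (2 * (((D : ℝ) - 2) / ((D : ℝ) - 4))) * (th ^ 2 * Ys x t) := by ring
      rw [e4] at hws2
      have hnum2 := mul_le_mul_of_nonneg_right (GNT_num hD (c := 2) (by norm_num) le_rfl) hT
      have hwb : ∑ i ∈ Ico t' t, (dn N e t i : ℝ) * x i ≤ u + ((D : ℝ) - 2) * (th ^ 2 * Ys x t) := by
        have : Wh N e x t = u + ((D : ℝ) - 2) * (th ^ 2 * Ys x t) := by rw [hg3, hu]; ring
        linarith
      have he2 := mul_le_mul_of_nonneg_right he hT
      rw [add_mul] at hnum2 he2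
      have hbr : ∑ i ∈ Ico t' t, (dn N e t i : ℝ) * x i
          + (∑ l ∈ Ico t' t, (dn N e t l : ℝ) * ∑ k ∈ Ico t (N + 2), (e l k : ℝ) * (x l - x k)) / ((D : ℝ) - 4)
          + 1 * (th ^ 2 * Ys x t * ((7 * (j : ℝ) + 60) / (D : ℝ)))
          ≤ u + ((D : ℝ) + eta D j) * (th ^ 2 * Ys x t) := by
        have e7 : th ^ 2 * Ys x t * ((7 * (j : ℝ) + 60) / (D : ℝ))
          = ((7 * (j : ℝ) + 60) / (D : ℝ)) * (th ^ 2 * Ys x t) := by ring
        rw [e7, add_mul]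
        linarith
      have hm0 : 0 ≤ (D : ℝ) + 1 + j := by positivity
      have hfin := mul_le_mul_of_nonneg_left hbr hm0
      have h5 : 0 ≤ 5 * (th ^ 2 * Ys x t) := by positivity
      rw [hmcast]
      have e8 : Ys x t' + ((D : ℝ) + 1 + j) * u + th ^ 2 * (((D : ℝ) + 1 + j) * ((D : ℝ) + eta D j) + 5) * Ys x t
        = Ys x t' + ((D : ℝ) + 1 + j) * (u + ((D : ℝ) + eta D j) * (th ^ 2 * Ys x t))
          + 5 * (th ^ 2 * Ys x t) := by ring
      rw [e8]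
      linarith
  · -- two bypass edges: impossible
    exfalso
    have hb0 : ∑ i ∈ Ico t' t, dn N e t i = 0 := by omega
    have ha0 : ∑ k ∈ Ico t' t, up e t' k = 0 := by omega
    obtain ⟨i, hi, k, hk, hik⟩ := hs.conn (Ico t' t)
      (fun i hi => by rw [mem_Ico] at hi; rw [mem_range]; omega)
      ⟨t', by rw [mem_Ico]; omega⟩
    rw [mem_sdiff, mem_range, mem_Ico] at hk
    have hi' := mem_Ico.1 hi
    rcases lt_or_ge k t' with hlt | hge
    · have h7 := (sum_eq_zero_iff.1 ha0) i hi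
      unfold up at h7
      have h8 := (sum_eq_zero_iff.1 h7) k (mem_range.2 hlt)
      rw [hs.symm k i] at h8
      omega
    · have h7 := (sum_eq_zero_iff.1 hb0) i hi
      unfold dn at h7
      have h8 := (sum_eq_zero_iff.1 h7) k (by rw [mem_Ico]; omega)
      omega

end

end Pool.Agent.T2H60.SX
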