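import Pool.Agent.T2H60.SX.Stm

/-!
# SX, package GP0: blocks of exactly `D + 1` vertices without bypass edges
-/

set_option autoImplicit false
open Finset

namespace Pool.Agent.T2H60.SX

lemma GP0_xnn {D N : ℕ} {e : ℕ → ℕ → ℕ} {x : ℕ → ℝ} {th : ℝ} (h : SG D N e x th) (i : ℕ) : 0 ≤ x i := by
  rcases Nat.lt_or_ge i N with h1 | h1
  · exact (h.pos i h1).le
  · rw [h.zero i h1]

/-- row sums over the block -/
lemma GP0_row {D N : ℕ} {e : ℕ → ℕ → ℕ} {x : ℕ → ℝ} {th : ℝ} (h : SG D N e x th) (B S : Finset ℕ)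
    (y : ℕ) (hy : y ∈ B) (hS : S ⊆ B) (hyS : y ∉ S)
    (hz : ∀ z ∈ B, z ≠ y → (e y z = 0 ↔ z ∈ S)) :
    ∑ z ∈ B, (e y z : ℝ) * x z = ∑ z ∈ B, x z - x y - ∑ z ∈ S, x z := by
  have h1 : ∀ z ∈ B, (e y z : ℝ) * x z = x z - (if z ∈ insert y S then x z else 0) := by
    intro z hzB
    by_cases hzy : z = y
    · subst hzy
      rw [h.irr z, if_pos (Finset.mem_insert_self _ _)]
      simp
    · by_cases hzS : z ∈ S
      · rw [(hz z hzB hzy).mpr hzS, if_pos (Finset.mem_insert_of_mem hzS)]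
        simp
      · have h0 : e y z ≠ 0 := fun h0 => hzS ((hz z hzB hzy).mp h0)
        have h01 : e y z = 1 := by
          have := h.le1 y z
          omega
        rw [h01, if_neg (by
          rw [Finset.mem_insert]
          rintro (h2 | h2)
          · exact hzy h2
          · exact hzS h2)]
        simp
  rw [Finset.sum_congr rfl h1, Finset.sum_sub_distrib, Finset.sum_ite_mem]
  have h2 : B ∩ insert y S = insert y S := by
    apply Finset.inter_eq_right.mpr
    intro z hz'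
    rcases Finset.mem_insert.mp hz' with h3 | h3
    · rw [h3]; exact hy
    · exact hS h3
  rw [h2, Finset.sum_insert hyS]
  ring

/-- the data of a block without bypass edges -/
lemma GP0_data {D N : ℕ} {e : ℕ → ℕ → ℕ} {x : ℕ → ℝ} {th : ℝ} (h : SG D N e x th) (t' t : ℕ)
    (ht : t' ≤ t) (htN : t ≤ N) (hb : byp N e t' t = 0) :
    (∀ z < t', ∀ k ∈ Ico t (N + 2), e z k = 0) ∧
    2 * Wh N e x t' = ∑ y ∈ Ico t' t, ∑ z ∈ range t', (e z y : ℝ) * x z ∧
    2 * Uh N e x t' = ∑ y ∈ Ico t' t, (up e t' y : ℝ) * x y ∧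
    2 * Wh N e x t = ∑ y ∈ Ico t' t, (dn N e t y : ℝ) * x y ∧
    2 * Uh N e x t = ∑ y ∈ Ico t' t, ∑ k ∈ Ico t (N + 2), (e y k : ℝ) * x k ∧
    (∀ y ∈ Ico t' t, ((D : ℝ) - 2 * ((D : ℝ) - 2) * th ^ 2) * x y =
      ∑ z ∈ Ico t' t, (e y z : ℝ) * x z + ∑ z ∈ range t', (e z y : ℝ) * x z
        + ∑ k ∈ Ico t (N + 2), (e y k : ℝ) * x k) ∧
    (∀ y ∈ Ico t' t, (up e t' y : ℝ) * x y ≤ ∑ z ∈ range t', (e z y : ℝ) * x z) ∧
    (∀ y ∈ Ico t' t, ∑ k ∈ Ico t (N + 2), (e y k : ℝ) * x k ≤ (dn N e t y : ℝ) * x y) ∧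
    Ys x t = Ys x t' + ∑ y ∈ Ico t' t, x y := by
  have hb0 : ∀ z < t', ∀ k ∈ Ico t (N + 2), e z k = 0 := by
    intro z hz k hk
    have h1 : ∑ i ∈ range t', ∑ k ∈ Ico t (N + 2), e i k = 0 := hb
    have h2 := (Finset.sum_eq_zero_iff.mp h1) z (Finset.mem_range.mpr hz)
    exact (Finset.sum_eq_zero_iff.mp h2) k hk
  have hsp : ∀ f : ℕ → ℝ, ∑ k ∈ Ico t' (N + 2), f k
      = ∑ k ∈ Ico t' t, f k + ∑ k ∈ Ico t (N + 2), f k := by
    intro f
    exact (Finset.sum_Ico_consecutive f ht (by omega)).symm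
  have hsr : ∀ f : ℕ → ℝ, ∑ k ∈ range (N + 2), f k
      = ∑ k ∈ range t', f k + ∑ k ∈ Ico t' t, f k + ∑ k ∈ Ico t (N + 2), f k := by
    intro f
    rw [add_assoc, ← hsp f, Finset.sum_range_add_sum_Ico f (by omega)]
  have hst : ∀ f : ℕ → ℝ, ∑ k ∈ range t, f k = ∑ k ∈ range t', f k + ∑ k ∈ Ico t' t, f k := by
    intro f
    rw [Finset.sum_range_add_sum_Ico f ht]
  refine ⟨hb0, ?_, ?_, ?_, ?_, ?_, ?_, ?_, ?_⟩
  · unfold Wh
    rw [mul_div_cancel₀ _ (two_ne_zero)]
    rw [Finset.sum_comm (s := Ico t' t)]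
    refine Finset.sum_congr rfl (fun z hz => ?_)
    rw [hsp, Finset.sum_eq_zero (s := Ico t (N + 2)), add_zero]
    intro k hk
    rw [hb0 z (Finset.mem_range.mp hz) k hk]
    simp
  · unfold Uh
    rw [mul_div_cancel₀ _ (two_ne_zero)]
    have : ∀ y ∈ Ico t' t, (up e t' y : ℝ) * x y = ∑ z ∈ range t', (e z y : ℝ) * x y := by
      intro y hy
      unfold up
      push_cast
      rw [Finset.sum_mul]
    rw [Finset.sum_congr rfl this, Finset.sum_comm (s := Ico t' t)]
    refine Finset.sum_congr rfl (fun z hz => ?_)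
    rw [hsp, Finset.sum_eq_zero (s := Ico t (N + 2)), add_zero]
    intro k hk
    rw [hb0 z (Finset.mem_range.mp hz) k hk]
    simp
  · unfold Wh
    rw [mul_div_cancel₀ _ (two_ne_zero)]
    rw [hst, Finset.sum_eq_zero (s := range t'), zero_add]
    · refine Finset.sum_congr rfl (fun y hy => ?_)
      unfold dn
      push_cast
      rw [Finset.sum_mul]
    · intro z hz
      apply Finset.sum_eq_zero
      intro k hk
      rw [hb0 z (Finset.mem_range.mp hz) k hk]
      simp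
  · unfold Uh
    rw [mul_div_cancel₀ _ (two_ne_zero)]
    rw [hst, Finset.sum_eq_zero (s := range t'), zero_add]
    intro z hz
    apply Finset.sum_eq_zero
    intro k hk
    rw [hb0 z (Finset.mem_range.mp hz) k hk]
    simp
  · intro y hy
    rw [Finset.mem_Ico] at hy
    have h1 := h.eig y (by omega)
    have h2 : ∑ k ∈ range (N + 2), (e y k : ℝ) * (x y - x k)
        = (D : ℝ) * x y - ∑ k ∈ range (N + 2), (e y k : ℝ) * x k := by
      have h3 := h.deg y (by omega)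
      have h4 : (D : ℝ) = ∑ k ∈ range (N + 2), (e y k : ℝ) := by
        rw [← h3]
        push_cast
        rfl
      rw [h4, Finset.sum_mul, ← Finset.sum_sub_distrib]
      exact Finset.sum_congr rfl (fun k _ => by ring)
    rw [h2, hsr] at h1
    have h5 : ∑ z ∈ range t', (e z y : ℝ) * x z = ∑ z ∈ range t', (e y z : ℝ) * x z :=
      Finset.sum_congr rfl (fun z _ => by rw [h.symm z y])
    rw [h5]
    linarith
  · intro y hy
    unfold up
    push_cast
    rw [Finset.sum_mul]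
    refine Finset.sum_le_sum (fun z hz => ?_)
    rw [Finset.mem_Ico] at hy
    rw [Finset.mem_range] at hz
    exact mul_le_mul_of_nonneg_left (h.anti (by omega)) (by positivity)
  · intro y hy
    unfold dn
    push_cast
    rw [Finset.sum_mul]
    refine Finset.sum_le_sum (fun z hz => ?_)
    rw [Finset.mem_Ico] at hy hz
    exact mul_le_mul_of_nonneg_left (h.anti (by omega)) (by positivity)
  · unfold Ys
    exact hst x

/-- sums of functions supported at two points -/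
lemma GP0_two {B : Finset ℕ} {a b : ℕ} (ha : a ∈ B) (hb : b ∈ B) (hab : a ≠ b) (f : ℕ → ℝ)
    (h0 : ∀ y ∈ B, y ≠ a → y ≠ b → f y = 0) : ∑ y ∈ B, f y = f a + f b := by
  rw [← Finset.sum_subset (s₁ := {a, b}) (s₂ := B)]
  · rw [Finset.sum_pair hab]
  · intro y hy
    rcases Finset.mem_insert.mp hy with h1 | h1
    · rw [h1]; exact ha
    · rw [Finset.mem_singleton.mp h1]; exact hb
  · intro y hy hn
    apply h0 y hy
    · intro h1; exact hn (by rw [h1]; simp)
    · intro h1; exact hn (by rw [h1]; simp)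

lemma GP0_one {B : Finset ℕ} {a : ℕ} (ha : a ∈ B) (f : ℕ → ℝ)
    (h0 : ∀ y ∈ B, y ≠ a → f y = 0) : ∑ y ∈ B, f y = f a :=
  Finset.sum_eq_single_of_mem a ha h0

/-- the small numbers -/
lemma GP0_small {D N : ℕ} {e : ℕ → ℕ → ℕ} {x : ℕ → ℝ} {th : ℝ} (h : SG D N e x th) :
    (10 : ℝ) ^ 14 ≤ (D : ℝ) ∧ 0 < th ^ 2 ∧ 2 * ((D : ℝ) - 2) * th ^ 2 ≤ 2 / (D : ℝ) ^ 5 ∧
    2 / (D : ℝ) ^ 5 ≤ 1 := by
  have hD : (10 : ℝ) ^ 14 ≤ (D : ℝ) := by exact_mod_cast h.hD
  have hDp : (0 : ℝ) < D := lt_of_lt_of_le (by norm_num) hD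
  have h1 := h.th1
  have hth := h.th0
  have hth2 : 0 < th ^ 2 := by positivity
  refine ⟨hD, hth2, ?_, ?_⟩
  · rw [le_div_iff₀ (by positivity)]
    have h2 : 2 * ((D : ℝ) - 2) * th ^ 2 * (D : ℝ) ^ 5 ≤ 2 * ((D : ℝ) ^ 6 * th ^ 2) := by
      have : 0 ≤ 4 * (th ^ 2 * (D : ℝ) ^ 5) := by positivity
      nlinarith
    linarith
  · rw [div_le_one (by positivity)]
    have : (10 : ℝ) ^ 14 ≤ (D : ℝ) ^ 5 := by
      calc (10 : ℝ) ^ 14 ≤ (D : ℝ) := hD
        _ = (D : ℝ) ^ 1 := by ring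
        _ ≤ (D : ℝ) ^ 5 := pow_le_pow_right₀ (by linarith [show (1 : ℝ) ≤ 10 ^ 14 by norm_num]) (by norm_num)
    linarith [show (2 : ℝ) ≤ 10 ^ 14 by norm_num]

/-- algebra of case I -/
lemma GP0_algI (D : ℕ) (th Y' u' R xv Y u S : ℝ) (hδ : (D : ℝ) - 2 ≠ 0)
    (h1 : ((D : ℝ) - 2 * ((D : ℝ) - 2) * th ^ 2) * u' = S - xv + ((D : ℝ) - 2) * th ^ 2 * Y')
    (h2 : ((D : ℝ) + 1 - 2 * ((D : ℝ) - 2) * th ^ 2) * R = S)
    (h3 : S = 2 * u' + xv + ((D : ℝ) - 2) * R) (h4 : Y = Y' + S)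
    (h5 : xv = u + ((D : ℝ) - 2) * th ^ 2 * Y) :
    (u, th * Y) = M1 D th (u', th * Y') := by
  have hR : R = u' - th ^ 2 * (Y' + 2 * u') := by
    have : ((D : ℝ) - 2) * (R - (u' - th ^ 2 * (Y' + 2 * u'))) = 0 := by
      linear_combination (-1 : ℝ) * h1 - h3
    rcases mul_eq_zero.mp this with h6 | h6
    · exact absurd h6 hδ
    · linarith
  have hxv : xv = R - 2 * th ^ 2 * (Y' + 2 * u' + ((D : ℝ) - 2) * R) := by
    linear_combination (-1 : ℝ) * h2 - h3 + 2 * hR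
  have hY : Y = Y' + 2 * u' + ((D : ℝ) - 2) * R + xv := by rw [h4, h3]; ring
  unfold M1 mst ast
  ext
  · simp only
    have e1 : u' - th * 1 * (th * Y' + th * 2 * u') = R := by rw [hR]; ring
    rw [e1]
    have e2 : R - th * 2 * (th * Y' + th * 2 * u' + th * ((D : ℝ) - 2) * R) = xv := by rw [hxv]; ring
    rw [e2]
    have e3 : th * Y' + th * 2 * u' + th * ((D : ℝ) - 2) * R + th * 1 * xv = th * Y := by rw [hY]; ring
    rw [e3]
    linear_combination (-1 : ℝ) * h5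
  · simp only
    have e1 : u' - th * 1 * (th * Y' + th * 2 * u') = R := by rw [hR]; ring
    rw [e1]
    have e2 : R - th * 2 * (th * Y' + th * 2 * u' + th * ((D : ℝ) - 2) * R) = xv := by rw [hxv]; ring
    rw [e2]
    rw [hY]; ring

/-- algebra of case II -/
lemma GP0_algII (D : ℕ) (th Y' u' R w Y u S : ℝ) (hδ : (D : ℝ) - 2 ≠ 0)
    (h1 : ((D : ℝ) + 1 - 2 * ((D : ℝ) - 2) * th ^ 2) * u' = S - 2 * w + 2 * (u' + ((D : ℝ) - 2) * th ^ 2 * Y'))
    (h2 : ((D : ℝ) + 1 - 2 * ((D : ℝ) - 2) * th ^ 2) * R = S)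
    (h3 : S = u' + 2 * w + ((D : ℝ) - 2) * R) (h4 : Y = Y' + S)
    (h5 : w = u + ((D : ℝ) - 2) * th ^ 2 * Y) :
    (u, th * Y) = M2 D th (u', th * Y') := by
  have hR : R = u' - 2 * th ^ 2 * (Y' + u') := by
    have : ((D : ℝ) - 2) * (R - (u' - 2 * th ^ 2 * (Y' + u'))) = 0 := by
      linear_combination (-1 : ℝ) * h1 - h3
    rcases mul_eq_zero.mp this with h6 | h6
    · exact absurd h6 hδ
    · linarith
  have hw : w = R - th ^ 2 * (Y' + u' + ((D : ℝ) - 2) * R) := by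
    linear_combination (-1 / 2 : ℝ) * h2 - (1 / 2 : ℝ) * h3 + (1 / 2 : ℝ) * hR
  have hY : Y = Y' + u' + ((D : ℝ) - 2) * R + 2 * w := by rw [h4, h3]; ring
  unfold M2 mst ast
  ext
  · simp only
    have e1 : u' - th * 2 * (th * Y' + th * 1 * u') = R := by rw [hR]; ring
    rw [e1]
    have e2 : R - th * 1 * (th * Y' + th * 1 * u' + th * ((D : ℝ) - 2) * R) = w := by rw [hw]; ring
    rw [e2]
    have e3 : th * Y' + th * 1 * u' + th * ((D : ℝ) - 2) * R + th * 2 * w = th * Y := by rw [hY]; ring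
    rw [e3]
    linear_combination (-1 : ℝ) * h5
  · simp only
    have e1 : u' - th * 2 * (th * Y' + th * 1 * u') = R := by rw [hR]; ring
    rw [e1]
    have e2 : R - th * 1 * (th * Y' + th * 1 * u' + th * ((D : ℝ) - 2) * R) = w := by rw [hw]; ring
    rw [e2]
    rw [hY]; ring

/-- the number `κ` -/
lemma GP0_kap (D L b : ℝ) (hD : (10 : ℝ) ^ 14 ≤ D) (hL0 : 0 ≤ L) (hL : L ≤ 2 / D ^ 5)
    (hb : D - 1 ≤ b) (hb2 : b ≤ D) :
    0 ≤ (D - 2) / b + 1 / D ^ 4 ∧ (D - 2) / b + 1 / D ^ 4 ≤ 1 ∧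
    D - 2 ≤ b * ((D - 2) / b + 1 / D ^ 4) ∧ D - 2 ≤ ((D - 2) / b + 1 / D ^ 4) * (b - L) := by
  have hDb : (100 : ℝ) ≤ D := by linarith [show (100 : ℝ) ≤ 10 ^ 14 by norm_num]
  have hD0 : (0 : ℝ) < D := by linarith
  have hb0 : 0 < b := by linarith
  have h4 : D ≤ D ^ 4 := by
    calc D = D ^ 1 := by ring
      _ ≤ D ^ 4 := pow_le_pow_right₀ (by linarith) (by norm_num)
  have k0 : 0 ≤ (D - 2) / b + 1 / D ^ 4 := by
    have : 0 ≤ (D - 2) / b := div_nonneg (by linarith) hb0.le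
    positivity
  have k1 : (D - 2) / b + 1 / D ^ 4 ≤ 1 := by
    rw [div_add_div _ _ hb0.ne' (by positivity), div_le_one (by positivity)]
    have h5 : 0 ≤ (b - D + 1) * D ^ 4 := mul_nonneg (by linarith) (by positivity)
    nlinarith
  have k2 : b * ((D - 2) / b + 1 / D ^ 4) = D - 2 + b / D ^ 4 := by
    field_simp
  refine ⟨k0, k1, ?_, ?_⟩
  · rw [k2]
    have : 0 ≤ b / D ^ 4 := by positivity
    linarith
  · have k3 : ((D - 2) / b + 1 / D ^ 4) * (b - L) = D - 2 + b / D ^ 4 - ((D - 2) / b + 1 / D ^ 4) * L := by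
      rw [mul_sub, mul_comm _ b, k2]
    rw [k3]
    have k4 : ((D - 2) / b + 1 / D ^ 4) * L ≤ 1 * (2 / D ^ 5) :=
      mul_le_mul k1 hL hL0 (by norm_num)
    have k5 : 1 * (2 / D ^ 5) ≤ b / D ^ 4 := by
      rw [one_mul, div_le_div_iff₀ (by positivity) (by positivity)]
      have : 2 * D ^ 4 ≤ b * D * D ^ 4 := by
        apply mul_le_mul_of_nonneg_right _ (by positivity)
        nlinarith
      nlinarith
    linarith

/-- cases III and IV -/
lemma GP0_MS1 (D : ℕ) (hD : (10 : ℝ) ^ 14 ≤ (D : ℝ)) (th Y' u' W Y u S : ℝ) (hth : 0 < th ^ 2)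
    (hL : 2 * ((D : ℝ) - 2) * th ^ 2 ≤ 2 / (D : ℝ) ^ 5)
    (hY0 : 0 ≤ Y') (hYY : Y' ≤ Y) (hW : W = u + ((D : ℝ) - 2) * th ^ 2 * Y) (hY : Y = Y' + S)
    (hq : ((D : ℝ) - 1 - 2 * ((D : ℝ) - 2) * th ^ 2) * (u' - W) ≤ ((D : ℝ) - 2) * th ^ 2 * (Y + Y'))
    (hS : S ≤ ((D : ℝ) + 1) * W + (u' - W) + ((D : ℝ) - 2) * th ^ 2 * Y) :
    MS th (D + 1) ((D : ℝ) - 2 + (((D : ℝ) - 2) / ((D : ℝ) - 1) + 1 / (D : ℝ) ^ 4))
        (((D : ℝ) - 2) / ((D : ℝ) - 1) + 1 / (D : ℝ) ^ 4)
        (((D : ℝ) + 1) * ((D : ℝ) - 2 + (((D : ℝ) - 2) / ((D : ℝ) - 1) + 1 / (D : ℝ) ^ 4)))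
        u' Y' u Y := by
  have hDb : (100 : ℝ) ≤ (D : ℝ) := by linarith [show (100 : ℝ) ≤ 10 ^ 14 by norm_num]
  have hL0 : 0 ≤ 2 * ((D : ℝ) - 2) * th ^ 2 := mul_nonneg (by linarith) hth.le
  have hL1 : 2 / (D : ℝ) ^ 5 ≤ 1 := by
    rw [div_le_one (by positivity)]
    calc (2 : ℝ) ≤ (D : ℝ) ^ 1 := by rw [pow_one]; linarith
      _ ≤ (D : ℝ) ^ 5 := pow_le_pow_right₀ (by linarith) (by norm_num)
  obtain ⟨k0, k1, k2, k3⟩ := GP0_kap (D : ℝ) _ ((D : ℝ) - 1) hD hL0 hL le_rfl (by linarith)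
  set κ := ((D : ℝ) - 2) / ((D : ℝ) - 1) + 1 / (D : ℝ) ^ 4 with hκ
  set L := 2 * ((D : ℝ) - 2) * th ^ 2 with hLd
  have hYn : 0 ≤ Y := le_trans hY0 hYY
  have hbL : 0 < (D : ℝ) - 1 - L := by linarith
  have hyy : 0 ≤ th ^ 2 * (Y + Y') := mul_nonneg hth.le (by linarith)
  have hd : u' - W ≤ κ * (th ^ 2 * (Y + Y')) := by
    by_contra hc
    push Not at hc
    have h1 : ((D : ℝ) - 1 - L) * (κ * (th ^ 2 * (Y + Y'))) < ((D : ℝ) - 1 - L) * (u' - W) :=
      mul_lt_mul_of_pos_left hc hbL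
    have h2 : ((D : ℝ) - 2) * (th ^ 2 * (Y + Y')) ≤ (κ * ((D : ℝ) - 1 - L)) * (th ^ 2 * (Y + Y')) :=
      mul_le_mul_of_nonneg_right k3 hyy
    nlinarith
  have hty : 0 ≤ th ^ 2 * Y := mul_nonneg hth.le hYn
  refine ⟨?_, ?_⟩
  · rw [hW] at hd
    linarith
  · push_cast
    have h3 : κ * (th ^ 2 * (Y + Y')) ≤ 2 * (κ * (th ^ 2 * Y)) := by
      have : κ * (th ^ 2 * Y') ≤ κ * (th ^ 2 * Y) :=
        mul_le_mul_of_nonneg_left (mul_le_mul_of_nonneg_left hYY hth.le) k0
      linarith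
    have h4 : ((D : ℝ) - 2) * (th ^ 2 * Y) ≤ (((D : ℝ) - 1) * κ) * (th ^ 2 * Y) :=
      mul_le_mul_of_nonneg_right k2 hty
    rw [hW] at hS hd
    nlinarith

/-- case V -/
lemma GP0_MS2 (D : ℕ) (hD : (10 : ℝ) ^ 14 ≤ (D : ℝ)) (th Y' u' W Y u S q : ℝ) (hth : 0 < th ^ 2)
    (hL : 2 * ((D : ℝ) - 2) * th ^ 2 ≤ 2 / (D : ℝ) ^ 5)
    (hY0 : 0 ≤ Y') (hYY : Y' ≤ Y) (hW0 : 0 ≤ W) (hW : W = u + ((D : ℝ) - 2) * th ^ 2 * Y) (hY : Y = Y' + S)
    (hq : ((D : ℝ) - 2 * ((D : ℝ) - 2) * th ^ 2) * (u' - W) ≤ ((D : ℝ) - 2) * th ^ 2 * (Y + Y'))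
    (hq2 : ((D : ℝ) - 2 - 2 * ((D : ℝ) - 2) * th ^ 2) * q ≤ 4 * ((D : ℝ) - 2) * th ^ 2 * Y)
    (hS : 2 * S ≤ ((D : ℝ) + 1 - 2 * ((D : ℝ) - 2) * th ^ 2) * (2 * W) + q
      + 2 * ((D : ℝ) - 2) * th ^ 2 * Y) :
    MS th (D + 1) ((D : ℝ) - 2 + (((D : ℝ) - 2) / (D : ℝ) + 1 / (D : ℝ) ^ 4))
        (((D : ℝ) - 2) / (D : ℝ) + 1 / (D : ℝ) ^ 4)
        (((D : ℝ) + 1) * ((D : ℝ) - 2) + (D : ℝ) + 2)
        u' Y' u Y := by
  have hDb : (100 : ℝ) ≤ (D : ℝ) := by linarith [show (100 : ℝ) ≤ 10 ^ 14 by norm_num]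
  have hL0 : 0 ≤ 2 * ((D : ℝ) - 2) * th ^ 2 := mul_nonneg (by linarith) hth.le
  have hL1 : 2 / (D : ℝ) ^ 5 ≤ 1 := by
    rw [div_le_one (by positivity)]
    calc (2 : ℝ) ≤ (D : ℝ) ^ 1 := by rw [pow_one]; linarith
      _ ≤ (D : ℝ) ^ 5 := pow_le_pow_right₀ (by linarith) (by norm_num)
  obtain ⟨k0, k1, k2, k3⟩ := GP0_kap (D : ℝ) _ (D : ℝ) hD hL0 hL (by linarith) le_rfl
  set κ := ((D : ℝ) - 2) / (D : ℝ) + 1 / (D : ℝ) ^ 4 with hκ
  set L := 2 * ((D : ℝ) - 2) * th ^ 2 with hLd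
  have hYn : 0 ≤ Y := le_trans hY0 hYY
  have hbL : 0 < (D : ℝ) - L := by linarith
  have hyy : 0 ≤ th ^ 2 * (Y + Y') := mul_nonneg hth.le (by linarith)
  have hty : 0 ≤ th ^ 2 * Y := mul_nonneg hth.le hYn
  have hd : u' - W ≤ κ * (th ^ 2 * (Y + Y')) := by
    by_contra hc
    push Not at hc
    have h1 : ((D : ℝ) - L) * (κ * (th ^ 2 * (Y + Y'))) < ((D : ℝ) - L) * (u' - W) :=
      mul_lt_mul_of_pos_left hc hbL
    have h2 : ((D : ℝ) - 2) * (th ^ 2 * (Y + Y')) ≤ (κ * ((D : ℝ) - L)) * (th ^ 2 * (Y + Y')) :=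
      mul_le_mul_of_nonneg_right k3 hyy
    nlinarith
  have hq3 : q ≤ 5 * (th ^ 2 * Y) := by
    by_contra hc
    push Not at hc
    have h1 : ((D : ℝ) - 2 - L) * (5 * (th ^ 2 * Y)) < ((D : ℝ) - 2 - L) * q :=
      mul_lt_mul_of_pos_left hc (by linarith)
    have h2 : 0 ≤ ((D : ℝ) - 2 - 5 * L) * (th ^ 2 * Y) := mul_nonneg (by linarith) hty
    nlinarith
  refine ⟨?_, ?_⟩
  · rw [hW] at hd
    linarith
  · push_cast
    have h5 : 0 ≤ L * W := mul_nonneg hL0 hW0
    have h6 : 2 * S ≤ ((D : ℝ) + 1) * (2 * W) + 5 * (th ^ 2 * Y) + 2 * ((D : ℝ) - 2) * th ^ 2 * Y := by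
      rw [hLd] at h5
      nlinarith
    rw [hW] at h6
    nlinarith

lemma GP0_st {D N : ℕ} {e : ℕ → ℕ → ℕ} {x : ℕ → ℝ} {t : ℕ} {τ : Ty} {u : ℝ}
    (hst : St D N e x t τ u) (h2 : τ.is2) :
    D + 1 ≤ t ∧ t ≤ N ∧ cut N e t = 2 ∧ u = Uh N e x t ∧
    ((∃ i ∈ range t, dn N e t i = 2) → τ = Ty.pl) ∧
    ((¬ ∃ i ∈ range t, dn N e t i = 2) → τ = Ty.mi) := by
  obtain ⟨h1, h3, h4⟩ := hst
  rcases h2 with rfl | rfl
  · exact ⟨h1, h3, h4.1, h4.2.2, fun _ => rfl, fun hc => absurd h4.2.1 hc⟩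
  · exact ⟨h1, h3, h4.1, h4.2.2, fun hc => absurd hc h4.2.1, fun _ => rfl⟩

lemma GP0_mids (D : ℕ) (B T : Finset ℕ) (x : ℕ → ℝ) (R : ℝ) (hB : B.card = D + 1) (hD : 2 ≤ D)
    (hT : T ⊆ B) (hT3 : T.card = 3) (h : ∀ y ∈ B, y ∉ T → x y = R) :
    ∑ y ∈ B, x y = ∑ y ∈ T, x y + ((D : ℝ) - 2) * R := by
  rw [← Finset.sum_sdiff hT]
  have h1 : ∑ y ∈ B \ T, x y = ∑ y ∈ B \ T, R :=
    Finset.sum_congr rfl (fun y hy => h y (Finset.mem_sdiff.mp hy).1 (Finset.mem_sdiff.mp hy).2)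
  rw [h1, Finset.sum_const, Finset.card_sdiff_of_subset hT, hB, hT3, nsmul_eq_mul,
    Nat.cast_sub (by omega)]
  push_cast
  ring

theorem pGP0 (hC : GC) (_h2 : G02) (h3 : G03) : GP0 := by
  intro D N e x th h t' τ' τ u' u hst' hst hi' hi hb
  obtain ⟨s1', s2', s3', s4', s5', s6'⟩ := GP0_st hst' hi'
  obtain ⟨s1, s2, s3, s4, s5, s6⟩ := GP0_st hst hi
  obtain ⟨hD, hth, hL, hL1⟩ := GP0_small h
  have hDb : (100 : ℝ) ≤ (D : ℝ) := by linarith [show (100 : ℝ) ≤ 10 ^ 14 by norm_num]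
  have hDn : 2 ≤ D := by
    have := h.hD
    omega
  have hcl := hC D N e x th h t' (by omega) s2 s3' s3 hb
  obtain ⟨d0, dW', dU', dW, dU, dE, dX, dZ, dY⟩ := GP0_data h t' (t' + (D + 1)) (by omega) s2 hb
  have g' := h3 D N e x th h t' s2'
  have g := h3 D N e x th h (t' + (D + 1)) s2
  rw [← s4'] at g' dU'
  rw [← s4] at g dU
  unfold Cls at hcl
  set t := t' + (D + 1) with ht
  set B := Ico t' t with hB
  have hBc : B.card = D + 1 := by rw [hB, Nat.card_Ico]; omega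
  set L := 2 * ((D : ℝ) - 2) * th ^ 2 with hLd
  set S := ∑ y ∈ B, x y with hS
  -- abbreviations for the flows
  set X : ℕ → ℝ := fun y => ∑ z ∈ range t', (e z y : ℝ) * x z with hX
  set Z : ℕ → ℝ := fun y => ∑ k ∈ Ico t (N + 2), (e y k : ℝ) * x k with hZ
  have dW'' : 2 * Wh N e x t' = ∑ y ∈ B, X y := dW'
  have dU'' : 2 * u = ∑ y ∈ B, Z y := dU
  have dE' : ∀ y ∈ B, ((D : ℝ) - L) * x y = ∑ z ∈ B, (e y z : ℝ) * x z + X y + Z y := dE
  have dX' : ∀ y ∈ B, (up e t' y : ℝ) * x y ≤ X y := dX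
  have dZ' : ∀ y ∈ B, Z y ≤ (dn N e t y : ℝ) * x y := dZ
  have hX0 : ∀ y, up e t' y = 0 → X y = 0 := by
    intro y hy
    apply Finset.sum_eq_zero
    intro z hz
    rw [(Finset.sum_eq_zero_iff.mp hy) z hz]
    simp
  have hZ0 : ∀ y, dn N e t y = 0 → Z y = 0 := by
    intro y hy
    apply Finset.sum_eq_zero
    intro z hz
    rw [(Finset.sum_eq_zero_iff.mp hy) z hz]
    simp
  -- rows
  have hrow : ∀ y ∈ B, ∀ T : Finset ℕ, T ⊆ B → y ∉ T → (∀ z ∈ B, z ≠ y → (e y z = 0 ↔ z ∈ T)) →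
      ((D : ℝ) + 1 - L) * x y = S - ∑ z ∈ T, x z + X y + Z y := by
    intro y hy T hT hyT hz
    have h1 := dE' y hy
    rw [GP0_row h B T y hy hT hyT hz] at h1
    linarith
  have hY0 : 0 ≤ Ys x t' := Finset.sum_nonneg (fun i _ => GP0_xnn h i)
  have hS0 : 0 ≤ S := Finset.sum_nonneg (fun i _ => GP0_xnn h i)
  have hPL : (0 : ℝ) < (D : ℝ) + 1 - L := by linarith
  have hlt' : ∀ i < t', dn N e t i = 0 := fun i hi => Finset.sum_eq_zero (fun k hk => d0 i hi k hk)
  have hnopl : (∀ y ∈ B, dn N e t y ≤ 1) → τ = Ty.mi := by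
    intro hy
    apply s6
    rintro ⟨i, hi, hi2⟩
    rw [Finset.mem_range] at hi
    rcases Nat.lt_or_ge i t' with h1 | h1
    · rw [hlt' i h1] at hi2
      omega
    · have := hy i (Finset.mem_Ico.mpr ⟨h1, hi⟩)
      omega
  rcases hcl with hI | hII | hIII | hV
  · -- case I
    obtain ⟨v, hv, a, ha, b, hb', hva, hvb, hab, hdv, hua, hub, hd0, hu0, hz⟩ := hI
    left
    have hτ : τ = Ty.pl := s5 ⟨v, Finset.mem_range.mpr (Finset.mem_Ico.mp hv).2, hdv⟩
    refine ⟨hτ, ?_⟩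
    have huv : up e t' v = 0 := hu0 v hv hva hvb
    have e1 : 2 * Wh N e x t' = X a + X b := by
      rw [dW'']
      exact GP0_two ha hb' hab X (fun y hy h1 h2 => hX0 y (hu0 y hy h1 h2))
    have e2 : 2 * u' = x a + x b := by
      rw [dU', GP0_two ha hb' hab _ (fun y hy h1 h2 => by rw [hu0 y hy h1 h2]; simp), hua, hub]
      simp
    have e3 : 2 * Wh N e x t = 2 * x v := by
      rw [dW, GP0_one hv _ (fun y hy h1 => by rw [hd0 y hy h1]; simp), hdv]
      simp
    have e4 : 2 * u = Z v := by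
      rw [dU'']
      exact GP0_one hv Z (fun y hy h1 => hZ0 y (hd0 y hy h1))
    have r1 := hrow a ha {v} (by simpa using hv) (by simp [hva.symm]) (fun z hzB hza => by
      rw [hz a ha z hzB (Ne.symm hza)]
      simp only [Finset.mem_singleton]
      constructor
      · rintro (⟨h1, _⟩ | ⟨h1, _⟩)
        · exact absurd h1.symm hva
        · exact h1
      · intro h1; exact Or.inr ⟨h1, by simp⟩)
    have r2 := hrow b hb' {v} (by simpa using hv) (by simp [hvb.symm]) (fun z hzB hza => by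
      rw [hz b hb' z hzB (Ne.symm hza)]
      simp only [Finset.mem_singleton]
      constructor
      · rintro (⟨h1, _⟩ | ⟨h1, _⟩)
        · exact absurd h1.symm hvb
        · exact h1
      · intro h1; exact Or.inr ⟨h1, by simp⟩)
    rw [Finset.sum_singleton, hZ0 a (hd0 a ha (Ne.symm hva))] at r1
    rw [Finset.sum_singleton, hZ0 b (hd0 b hb' (Ne.symm hvb))] at r2
    have hT : ({v, a, b} : Finset ℕ) ⊆ B := by
      intro y hy
      simp only [Finset.mem_insert, Finset.mem_singleton] at hy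
      rcases hy with rfl | rfl | rfl
      · exact hv
      · exact ha
      · exact hb'
    have hT3 : ({v, a, b} : Finset ℕ).card = 3 := by
      rw [Finset.card_insert_of_notMem (by simp [hva, hvb]), Finset.card_pair hab]
    have hmid : ∀ y ∈ B, y ∉ ({v, a, b} : Finset ℕ) → x y = S / ((D : ℝ) + 1 - L) := by
      intro y hy hyT
      simp only [Finset.mem_insert, Finset.mem_singleton, not_or] at hyT
      have r := hrow y hy ∅ (by simp) (by simp) (fun z hzB hza => by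
        rw [hz y hy z hzB (Ne.symm hza)]
        simp only [Finset.notMem_empty, iff_false, not_or, not_and]
        exact ⟨fun h1 => absurd h1 hyT.1, fun h1 => ⟨hyT.2.1, hyT.2.2⟩⟩)
      rw [hX0 y (hu0 y hy hyT.2.1 hyT.2.2), hZ0 y (hd0 y hy hyT.1), Finset.sum_empty] at r
      rw [eq_div_iff hPL.ne']
      linarith
    have hsum := GP0_mids D B {v, a, b} x _ hBc hDn hT hT3 hmid
    rw [Finset.sum_insert (by simp [hva, hvb]), Finset.sum_pair hab] at hsum
    have hRR : ((D : ℝ) + 1 - L) * (S / ((D : ℝ) + 1 - L)) = S := mul_div_cancel₀ _ hPL.ne'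
    refine GP0_algI D th (Ys x t') u' (S / ((D : ℝ) + 1 - L)) (x v) (Ys x t) u S (by linarith)
      ?_ hRR ?_ dY ?_
    · rw [← hLd]
      linear_combination (1 / 2 : ℝ) * r1 + (1 / 2 : ℝ) * r2 + (((D : ℝ) + 1 - L) / 2) * e2
        - (1 / 2 : ℝ) * e1 + g'
    · have hsum' : S = _ := hsum
      linarith
    · linarith
  · -- case II
    obtain ⟨c, hc, w, hw, w', hw', hcw, hcw', hww, huc, hdw, hdw', hu0, hd0, hz⟩ := hII
    right; left
    have hdc : dn N e t c = 0 := hd0 c hc hcw hcw'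
    refine ⟨hnopl (fun y hy => ?_), ?_, ?_⟩
    · by_cases h1 : y = w
      · rw [h1, hdw]
      · by_cases h2 : y = w'
        · rw [h2, hdw']
        · rw [hd0 y hy h1 h2]; omega
    · apply s6'
      rintro ⟨i, hi1, hi2⟩
      rw [Finset.mem_range] at hi1
      have h1 : dn N e t' i = e i c := by
        unfold dn
        rw [← Finset.sum_Ico_consecutive _ (show t' ≤ t by omega) (show t ≤ N + 2 by omega)]
        rw [Finset.sum_eq_zero (s := Ico t (N + 2)) (fun k hk => d0 i hi1 k hk), add_zero]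
        refine Finset.sum_eq_single_of_mem c hc (fun y hy hyc => ?_)
        exact (Finset.sum_eq_zero_iff.mp (hu0 y hy hyc)) i (Finset.mem_range.mpr hi1)
      have h2 := h.le1 i c
      omega
    have e1 : 2 * Wh N e x t' = X c := by
      rw [dW'']
      exact GP0_one hc X (fun y hy h1 => hX0 y (hu0 y hy h1))
    have e2 : 2 * u' = 2 * x c := by
      rw [dU', GP0_one hc _ (fun y hy h1 => by rw [hu0 y hy h1]; simp), huc]
      simp
    have e3 : 2 * Wh N e x t = x w + x w' := by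
      rw [dW, GP0_two hw hw' hww _ (fun y hy h1 h2 => by rw [hd0 y hy h1 h2]; simp), hdw, hdw']
      simp
    have e4 : 2 * u = Z w + Z w' := by
      rw [dU'']
      exact GP0_two hw hw' hww Z (fun y hy h1 h2 => hZ0 y (hd0 y hy h1 h2))
    have r0 := hrow c hc {w, w'} (by
        intro y hy
        simp only [Finset.mem_insert, Finset.mem_singleton] at hy
        rcases hy with rfl | rfl
        · exact hw
        · exact hw') (by simp [hcw, hcw']) (fun z hzB hza => by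
      rw [hz c hc z hzB (Ne.symm hza)]
      simp only [Finset.mem_insert, Finset.mem_singleton]
      constructor
      · rintro (⟨_, h1⟩ | ⟨h1, _⟩)
        · exact h1
        · exact absurd h1 hza
      · intro h1; exact Or.inl ⟨trivial, h1⟩)
    have r1 := hrow w hw {c} (by simpa using hc) (by simp [hcw.symm]) (fun z hzB hza => by
      rw [hz w hw z hzB (Ne.symm hza)]
      simp only [Finset.mem_singleton]
      constructor
      · rintro (⟨h1, _⟩ | ⟨h1, _⟩)
        · exact absurd h1.symm hcw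
        · exact h1
      · intro h1; exact Or.inr ⟨h1, by simp⟩)
    have r2 := hrow w' hw' {c} (by simpa using hc) (by simp [hcw'.symm]) (fun z hzB hza => by
      rw [hz w' hw' z hzB (Ne.symm hza)]
      simp only [Finset.mem_singleton]
      constructor
      · rintro (⟨h1, _⟩ | ⟨h1, _⟩)
        · exact absurd h1.symm hcw'
        · exact h1
      · intro h1; exact Or.inr ⟨h1, by simp⟩)
    rw [Finset.sum_pair hww, hZ0 c hdc] at r0
    rw [Finset.sum_singleton, hX0 w (hu0 w hw hcw.symm)] at r1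
    rw [Finset.sum_singleton, hX0 w' (hu0 w' hw' hcw'.symm)] at r2
    have hT : ({c, w, w'} : Finset ℕ) ⊆ B := by
      intro y hy
      simp only [Finset.mem_insert, Finset.mem_singleton] at hy
      rcases hy with rfl | rfl | rfl
      · exact hc
      · exact hw
      · exact hw'
    have hT3 : ({c, w, w'} : Finset ℕ).card = 3 := by
      rw [Finset.card_insert_of_notMem (by simp [hcw, hcw']), Finset.card_pair hww]
    have hmid : ∀ y ∈ B, y ∉ ({c, w, w'} : Finset ℕ) → x y = S / ((D : ℝ) + 1 - L) := by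
      intro y hy hyT
      simp only [Finset.mem_insert, Finset.mem_singleton, not_or] at hyT
      have r := hrow y hy ∅ (by simp) (by simp) (fun z hzB hza => by
        rw [hz y hy z hzB (Ne.symm hza)]
        simp only [Finset.notMem_empty, iff_false, not_or, not_and]
        exact ⟨fun h1 => absurd h1 hyT.1, fun h1 => ⟨hyT.2.1, hyT.2.2⟩⟩)
      rw [hX0 y (hu0 y hy hyT.1), hZ0 y (hd0 y hy hyT.2.1 hyT.2.2), Finset.sum_empty] at r
      rw [eq_div_iff hPL.ne']
      linarith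
    have hsum := GP0_mids D B {c, w, w'} x _ hBc hDn hT hT3 hmid
    rw [Finset.sum_insert (by simp [hcw, hcw']), Finset.sum_pair hww] at hsum
    have hRR : ((D : ℝ) + 1 - L) * (S / ((D : ℝ) + 1 - L)) = S := mul_div_cancel₀ _ hPL.ne'
    refine GP0_algII D th (Ys x t') u' (S / ((D : ℝ) + 1 - L)) (Wh N e x t) (Ys x t) u S (by linarith)
      ?_ hRR ?_ dY g
    · rw [← hLd]
      have : u' = x c := by linarith
      rw [this]
      rw [this] at g'
      linarith
    · have hsum' : S = _ := hsum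
      linarith
  · -- cases III and IV
    obtain ⟨a, ha, b, hb', w, hw, w', hw', hab, hww, haw, haw', hbw, hbw', hua, hub, hdw, hdw', hu0,
      hd0, hz⟩ := hIII
    right; right
    refine ⟨hnopl (fun y hy => ?_), Or.inl ?_⟩
    · by_cases h1 : y = w
      · rw [h1, hdw]
      · by_cases h2 : y = w'
        · rw [h2, hdw']
        · rw [hd0 y hy h1 h2]; omega
    have e1 : 2 * Wh N e x t' = X a + X b := by
      rw [dW'']
      exact GP0_two ha hb' hab X (fun y hy h1 h2 => hX0 y (hu0 y hy h1 h2))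
    have e2 : 2 * u' = x a + x b := by
      rw [dU', GP0_two ha hb' hab _ (fun y hy h1 h2 => by rw [hu0 y hy h1 h2]; simp), hua, hub]
      simp
    have e3 : 2 * Wh N e x t = x w + x w' := by
      rw [dW, GP0_two hw hw' hww _ (fun y hy h1 h2 => by rw [hd0 y hy h1 h2]; simp), hdw, hdw']
      simp
    have e4 : 2 * u = Z w + Z w' := by
      rw [dU'']
      exact GP0_two hw hw' hww Z (fun y hy h1 h2 => hZ0 y (hd0 y hy h1 h2))
    have za := hZ0 a (hd0 a ha haw haw')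
    have zb := hZ0 b (hd0 b hb' hbw hbw')
    have xw := hX0 w (hu0 w hw haw.symm hbw.symm)
    have xw' := hX0 w' (hu0 w' hw' haw'.symm hbw'.symm)
    have hYY : Ys x t' ≤ Ys x t := by linarith
    have hYn : 0 ≤ Ys x t := le_trans hY0 hYY
    have hq0 : 0 ≤ ((D : ℝ) - 2) * th ^ 2 * (Ys x t + Ys x t') :=
      mul_nonneg (mul_nonneg (by linarith) hth.le) (by linarith)
    rcases hz with hz | hz
    · -- III
      have r1 := hrow a ha {b} (by simpa using hb') (by simp [hab]) (fun z hzB hza => by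
        rw [hz a ha z hzB (Ne.symm hza)]
        simp only [Finset.mem_singleton]
        constructor
        · rintro (⟨_, h1⟩ | ⟨h1, _⟩ | ⟨h1, _⟩ | ⟨h1, _⟩)
          · exact h1
          · exact absurd h1 hab
          · exact absurd h1 haw
          · exact absurd h1 haw'
        · intro h1; exact Or.inl ⟨trivial, h1⟩)
      have r2 := hrow b hb' {a} (by simpa using ha) (by simp [hab.symm]) (fun z hzB hza => by
        rw [hz b hb' z hzB (Ne.symm hza)]
        simp only [Finset.mem_singleton]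
        constructor
        · rintro (⟨h1, _⟩ | ⟨_, h1⟩ | ⟨h1, _⟩ | ⟨h1, _⟩)
          · exact absurd h1.symm hab
          · exact h1
          · exact absurd h1 hbw
          · exact absurd h1 hbw'
        · intro h1; exact Or.inr (Or.inl ⟨trivial, h1⟩))
      have r3 := hrow w hw {w'} (by simpa using hw') (by simp [hww]) (fun z hzB hza => by
        rw [hz w hw z hzB (Ne.symm hza)]
        simp only [Finset.mem_singleton]
        constructor
        · rintro (⟨h1, _⟩ | ⟨h1, _⟩ | ⟨_, h1⟩ | ⟨h1, _⟩)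
          · exact absurd h1.symm haw
          · exact absurd h1.symm hbw
          · exact h1
          · exact absurd h1 hww
        · intro h1; exact Or.inr (Or.inr (Or.inl ⟨trivial, h1⟩)))
      have r4 := hrow w' hw' {w} (by simpa using hw) (by simp [hww.symm]) (fun z hzB hza => by
        rw [hz w' hw' z hzB (Ne.symm hza)]
        simp only [Finset.mem_singleton]
        constructor
        · rintro (⟨h1, _⟩ | ⟨h1, _⟩ | ⟨h1, _⟩ | ⟨_, h1⟩)
          · exact absurd h1.symm haw'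
          · exact absurd h1.symm hbw'
          · exact absurd h1.symm hww
          · exact h1
        · intro h1; exact Or.inr (Or.inr (Or.inr ⟨trivial, h1⟩)))
      rw [Finset.sum_singleton, za] at r1
      rw [Finset.sum_singleton, zb] at r2
      rw [Finset.sum_singleton, xw] at r3
      rw [Finset.sum_singleton, xw'] at r4
      have q1 : ((D : ℝ) + 1 - L) * u' = S + ((D : ℝ) - 2) * th ^ 2 * Ys x t' := by
        linear_combination (1 / 2 : ℝ) * r1 + (1 / 2 : ℝ) * r2 + (((D : ℝ) + 1 - L) / 2) * e2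
          - (1 / 2 : ℝ) * e1 + g' + (1 / 2 : ℝ) * e2
      have q2 : ((D : ℝ) + 1 - L) * Wh N e x t = S - ((D : ℝ) - 2) * th ^ 2 * Ys x t := by
        linear_combination (1 / 2 : ℝ) * r3 + (1 / 2 : ℝ) * r4 + (((D : ℝ) + 1 - L) / 2) * e3
          + (1 / 2 : ℝ) * e3 - (1 / 2 : ℝ) * e4 - g
      have q3 : ((D : ℝ) + 1 - L) * (u' - Wh N e x t) = ((D : ℝ) - 2) * th ^ 2 * (Ys x t + Ys x t') := by
        linarith
      have q4 : 0 ≤ u' - Wh N e x t := by
        by_contra hc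
        push Not at hc
        have := mul_neg_of_pos_of_neg hPL hc
        linarith
      have hW0 : 0 ≤ Wh N e x t := by
        have := GP0_xnn h w
        have := GP0_xnn h w'
        linarith
      have hL0 : 0 ≤ L := by
        rw [hLd]
        exact mul_nonneg (by linarith) hth.le
      refine GP0_MS1 D hD th (Ys x t') u' (Wh N e x t) (Ys x t) u S hth hL hY0 hYY g dY ?_ ?_
      · rw [← hLd]
        nlinarith
      · have : 0 ≤ L * Wh N e x t := mul_nonneg hL0 hW0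
        nlinarith
    · -- IV
      have r1 := hrow a ha {w} (by simpa using hw) (by simp [haw]) (fun z hzB hza => by
        rw [hz a ha z hzB (Ne.symm hza)]
        simp only [Finset.mem_singleton]
        constructor
        · rintro (⟨_, h1⟩ | ⟨h1, _⟩ | ⟨h1, _⟩ | ⟨h1, _⟩)
          · exact h1
          · exact absurd h1 haw
          · exact absurd h1 hab
          · exact absurd h1 haw'
        · intro h1; exact Or.inl ⟨trivial, h1⟩)
      have r2 := hrow b hb' {w'} (by simpa using hw') (by simp [hbw']) (fun z hzB hza => by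
        rw [hz b hb' z hzB (Ne.symm hza)]
        simp only [Finset.mem_singleton]
        constructor
        · rintro (⟨h1, _⟩ | ⟨h1, _⟩ | ⟨_, h1⟩ | ⟨h1, _⟩)
          · exact absurd h1.symm hab
          · exact absurd h1 hbw
          · exact h1
          · exact absurd h1 hbw'
        · intro h1; exact Or.inr (Or.inr (Or.inl ⟨trivial, h1⟩)))
      have r3 := hrow w hw {a} (by simpa using ha) (by simp [haw.symm]) (fun z hzB hza => by
        rw [hz w hw z hzB (Ne.symm hza)]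
        simp only [Finset.mem_singleton]
        constructor
        · rintro (⟨h1, _⟩ | ⟨_, h1⟩ | ⟨h1, _⟩ | ⟨h1, _⟩)
          · exact absurd h1.symm haw
          · exact h1
          · exact absurd h1.symm hbw
          · exact absurd h1 hww
        · intro h1; exact Or.inr (Or.inl ⟨trivial, h1⟩))
      have r4 := hrow w' hw' {b} (by simpa using hb') (by simp [hbw'.symm]) (fun z hzB hza => by
        rw [hz w' hw' z hzB (Ne.symm hza)]
        simp only [Finset.mem_singleton]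
        constructor
        · rintro (⟨h1, _⟩ | ⟨h1, _⟩ | ⟨h1, _⟩ | ⟨_, h1⟩)
          · exact absurd h1.symm haw'
          · exact absurd h1.symm hww
          · exact absurd h1.symm hbw'
          · exact h1
        · intro h1; exact Or.inr (Or.inr (Or.inr ⟨trivial, h1⟩)))
      rw [Finset.sum_singleton, za] at r1
      rw [Finset.sum_singleton, zb] at r2
      rw [Finset.sum_singleton, xw] at r3
      rw [Finset.sum_singleton, xw'] at r4
      have q1 : ((D : ℝ) - L) * u' = S - Wh N e x t + ((D : ℝ) - 2) * th ^ 2 * Ys x t' := by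
        linear_combination (1 / 2 : ℝ) * r1 + (1 / 2 : ℝ) * r2 + (((D : ℝ) + 1 - L) / 2) * e2
          - (1 / 2 : ℝ) * e1 + g' + (1 / 2 : ℝ) * e3
      have q2 : ((D : ℝ) - L) * Wh N e x t = S - u' - ((D : ℝ) - 2) * th ^ 2 * Ys x t := by
        linear_combination (1 / 2 : ℝ) * r3 + (1 / 2 : ℝ) * r4 + (((D : ℝ) + 1 - L) / 2) * e3
          + (1 / 2 : ℝ) * e2 - (1 / 2 : ℝ) * e4 - g
      have q3 : ((D : ℝ) - 1 - L) * (u' - Wh N e x t) = ((D : ℝ) - 2) * th ^ 2 * (Ys x t + Ys x t') := by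
        linarith
      have hW0 : 0 ≤ Wh N e x t := by
        have := GP0_xnn h w
        have := GP0_xnn h w'
        linarith
      have hL0 : 0 ≤ L := by
        rw [hLd]
        exact mul_nonneg (by linarith) hth.le
      refine GP0_MS1 D hD th (Ys x t') u' (Wh N e x t) (Ys x t) u S hth hL hY0 hYY g dY ?_ ?_
      · rw [← hLd]
        linarith
      · have : 0 ≤ L * Wh N e x t := mul_nonneg hL0 hW0
        nlinarith
  · -- case V
    obtain ⟨c, hc, b, hb', w, hw, hcb, hcw, hbw, huc, hub, hdc, hdw, hu0, hd0, hz⟩ := hV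
    right; right
    refine ⟨hnopl (fun y hy => ?_), Or.inr ?_⟩
    · by_cases h1 : y = c
      · rw [h1, hdc]
      · by_cases h2 : y = w
        · rw [h2, hdw]
        · rw [hd0 y hy h1 h2]; omega
    have e1 : 2 * Wh N e x t' = X c + X b := by
      rw [dW'']
      exact GP0_two hc hb' hcb X (fun y hy h1 h2 => hX0 y (hu0 y hy h1 h2))
    have e2 : 2 * u' = x c + x b := by
      rw [dU', GP0_two hc hb' hcb _ (fun y hy h1 h2 => by rw [hu0 y hy h1 h2]; simp), huc, hub]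
      simp
    have e3 : 2 * Wh N e x t = x c + x w := by
      rw [dW, GP0_two hc hw hcw _ (fun y hy h1 h2 => by rw [hd0 y hy h1 h2]; simp), hdc, hdw]
      simp
    have e4 : 2 * u = Z c + Z w := by
      rw [dU'']
      exact GP0_two hc hw hcw Z (fun y hy h1 h2 => hZ0 y (hd0 y hy h1 h2))
    have zb := hZ0 b (hd0 b hb' hcb.symm hbw)
    have xw := hX0 w (hu0 w hw hcw.symm hbw.symm)
    have hYY : Ys x t' ≤ Ys x t := by linarith
    have hYn : 0 ≤ Ys x t := le_trans hY0 hYY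
    have r1 := hrow c hc {b, w} (by
        intro y hy
        simp only [Finset.mem_insert, Finset.mem_singleton] at hy
        rcases hy with rfl | rfl
        · exact hb'
        · exact hw) (by simp [hcb, hcw]) (fun z hzB hza => by
      rw [hz c hc z hzB (Ne.symm hza)]
      simp only [Finset.mem_insert, Finset.mem_singleton]
      constructor
      · rintro (⟨_, h1⟩ | ⟨h1, _⟩)
        · exact h1
        · exact absurd h1 hza
      · intro h1; exact Or.inl ⟨trivial, h1⟩)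
    have r2 := hrow b hb' {c} (by simpa using hc) (by simp [hcb.symm]) (fun z hzB hza => by
      rw [hz b hb' z hzB (Ne.symm hza)]
      simp only [Finset.mem_singleton]
      constructor
      · rintro (⟨h1, _⟩ | ⟨h1, _⟩)
        · exact absurd h1.symm hcb
        · exact h1
      · intro h1; exact Or.inr ⟨h1, by simp⟩)
    have r3 := hrow w hw {c} (by simpa using hc) (by simp [hcw.symm]) (fun z hzB hza => by
      rw [hz w hw z hzB (Ne.symm hza)]
      simp only [Finset.mem_singleton]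
      constructor
      · rintro (⟨h1, _⟩ | ⟨h1, _⟩)
        · exact absurd h1.symm hcw
        · exact h1
      · intro h1; exact Or.inr ⟨h1, by simp⟩)
    rw [Finset.sum_pair hbw] at r1
    rw [Finset.sum_singleton, zb] at r2
    rw [Finset.sum_singleton, xw] at r3
    have p1 := dX' c hc
    have p2 := dX' b hb'
    have d1 := dZ' c hc
    have d2 := dZ' w hw
    rw [huc] at p1
    rw [hub] at p2
    rw [hdc] at d1
    rw [hdw] at d2
    simp only [Nat.cast_one, one_mul] at p1 p2 d1 d2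
    have hW0 : 0 ≤ Wh N e x t := by
      have := GP0_xnn h c
      have := GP0_xnn h w
      linarith
    have f1 : (X c - x c) + (X b - x b) = L * Ys x t' := by
      rw [hLd]
      linarith
    have f2 : (x c - Z c) + (x w - Z w) = L * Ys x t := by
      rw [hLd]
      linarith
    have m1 : ((D : ℝ) - L) * (x b - x w) = (X b - x b) + (x w - Z w) := by linarith
    have m1' : 0 ≤ x b - x w := by
      by_contra hcc
      push Not at hcc
      have := mul_neg_of_pos_of_neg (show (0 : ℝ) < (D : ℝ) - L by linarith) hcc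
      linarith
    have m2 : ((D : ℝ) - 2 - L) * (x b - x c) = (x w - x b) + (X b - x b) - (X c - x c) + (x c - Z c) := by
      linarith
    have hL0 : 0 ≤ L := by
      rw [hLd]
      exact mul_nonneg (by linarith) hth.le
    have hLY : L * Ys x t' ≤ L * Ys x t := mul_le_mul_of_nonneg_left hYY hL0
    refine GP0_MS2 D hD th (Ys x t') u' (Wh N e x t) (Ys x t) u S (x b - x c) hth hL hY0 hYY hW0 g dY
      ?_ ?_ ?_
    · rw [← hLd]
      have h5 : u' - Wh N e x t = (x b - x w) / 2 := by linarith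
      rw [h5]
      have h6 : ((D : ℝ) - 2) * th ^ 2 * (Ys x t + Ys x t') = (L * Ys x t + L * Ys x t') / 2 := by
        rw [hLd]; ring
      rw [h6]
      linarith
    · rw [← hLd]
      have h6 : 4 * ((D : ℝ) - 2) * th ^ 2 * Ys x t = 2 * (L * Ys x t) := by
        rw [hLd]; ring
      rw [h6]
      linarith
    · rw [← hLd]
      have h6 : 2 * S = ((D : ℝ) + 1 - L) * (2 * Wh N e x t) + x b - X c
          + 2 * ((D : ℝ) - 2) * th ^ 2 * Ys x t := by
        linear_combination (-1 : ℝ) * r1 - r3 - ((D : ℝ) + 1 - L) * e3 + e4 + 2 * g - e3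
      have h7 : L * Ys x t = 2 * ((D : ℝ) - 2) * th ^ 2 * Ys x t := by rw [hLd]
      linarith

end Pool.Agent.T2H60.SX
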