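import Pool.Agent.T2H60.SX.StmH

/-!
# SX, package HA: the comparison graph
-/

set_option autoImplicit false
open Matrix Classical Finset

namespace Pool.Agent.T2H60.SX

/-! ### the graph -/

abbrev HA_V (NA k : ℕ) : Type :=
  Fin (NA + 1) ⊕ ((Fin NA × (Bool ⊕ Fin (2 * k))) ⊕ (Bool ⊕ (Bool ⊕ (Fin k × Bool))))

def HA_adj (NA k : ℕ) : HA_V NA k → HA_V NA k → Prop
  | .inl _, .inl _ => False
  | .inl i, .inr (.inl (j, .inl _)) => i = j.castSucc
  | .inl i, .inr (.inl (j, .inr _)) => i = j.succ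
  | .inl i, .inr (.inr (.inl _)) => i = Fin.last NA
  | .inl _, .inr (.inr (.inr _)) => False
  | .inr (.inl (j, .inl _)), .inl i => i = j.castSucc
  | .inr (.inl (j, .inr _)), .inl i => i = j.succ
  | .inr (.inl (j, .inl s)), .inr (.inl (j', .inl s')) => j = j' ∧ s ≠ s'
  | .inr (.inl (j, .inl _)), .inr (.inl (j', .inr _)) => j = j'
  | .inr (.inl (j, .inr _)), .inr (.inl (j', .inl _)) => j = j'
  | .inr (.inl (j, .inr m)), .inr (.inl (j', .inr m')) => j = j' ∧ m ≠ m'
  | .inr (.inl _), .inr (.inr _) => False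
  | .inr (.inr _), .inr (.inl _) => False
  | .inr (.inr (.inl _)), .inl i => i = Fin.last NA
  | .inr (.inr (.inr _)), .inl _ => False
  | .inr (.inr (.inl _)), .inr (.inr (.inl _)) => False
  | .inr (.inr (.inl s)), .inr (.inr (.inr (.inl s'))) => s ≠ s'
  | .inr (.inr (.inr (.inl s))), .inr (.inr (.inl s')) => s ≠ s'
  | .inr (.inr (.inl _)), .inr (.inr (.inr (.inr _))) => True
  | .inr (.inr (.inr (.inr _))), .inr (.inr (.inl _)) => True
  | .inr (.inr (.inr (.inl s))), .inr (.inr (.inr (.inl s'))) => s ≠ s'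
  | .inr (.inr (.inr (.inl _))), .inr (.inr (.inr (.inr _))) => True
  | .inr (.inr (.inr (.inr _))), .inr (.inr (.inr (.inl _))) => True
  | .inr (.inr (.inr (.inr (m, _)))), .inr (.inr (.inr (.inr (m', _)))) => m ≠ m'

def HA_G (NA k : ℕ) : SimpleGraph (HA_V NA k) where
  Adj := HA_adj NA k
  symm := ⟨by
    rintro (i | ⟨j, s | m⟩ | s | s | ⟨m, s⟩) (i' | ⟨j', s' | m'⟩ | s' | s' | ⟨m', s'⟩) h <;>
      simp only [HA_adj] at h ⊢ <;> first | exact h | exact h.symm | exact ⟨h.1.symm, h.2.symm⟩⟩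
  loopless := ⟨by
    rintro (i | ⟨j, s | m⟩ | s | s | ⟨m, s⟩) h <;> simp [HA_adj] at h⟩

lemma HA_G_adj {NA k : ℕ} (u v : HA_V NA k) : (HA_G NA k).Adj u v ↔ HA_adj NA k u v := Iff.rfl

/-- indicator -/
noncomputable def HA_i (p : Prop) (x : ℝ) : ℝ := if p then x else 0

lemma HA_i_true (x : ℝ) : HA_i True x = x := by simp [HA_i]
lemma HA_i_false (x : ℝ) : HA_i False x = 0 := by simp [HA_i]
lemma HA_i_pos {p : Prop} (h : p) (x : ℝ) : HA_i p x = x := by simp [HA_i, h]
lemma HA_i_neg {p : Prop} (h : ¬ p) (x : ℝ) : HA_i p x = 0 := by simp [HA_i, h]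

/-- neighbour sum -/
noncomputable def HA_S (NA k : ℕ) (f : HA_V NA k → ℝ) (v : HA_V NA k) : ℝ :=
  ∑ u, HA_i (HA_adj NA k v u) (f u)

variable {NA k : ℕ}

lemma HA_S_expand (f : HA_V NA k → ℝ) (v : HA_V NA k) :
    HA_S NA k f v =
      (∑ i, HA_i (HA_adj NA k v (.inl i)) (f (.inl i))) +
      ((∑ j, ((∑ s, HA_i (HA_adj NA k v (.inr (.inl (j, .inl s)))) (f (.inr (.inl (j, .inl s))))) +
        (∑ m, HA_i (HA_adj NA k v (.inr (.inl (j, .inr m)))) (f (.inr (.inl (j, .inr m))))))) +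
      ((∑ s, HA_i (HA_adj NA k v (.inr (.inr (.inl s)))) (f (.inr (.inr (.inl s))))) +
       ((∑ s, HA_i (HA_adj NA k v (.inr (.inr (.inr (.inl s))))) (f (.inr (.inr (.inr (.inl s)))))) +
        (∑ m, ∑ s, HA_i (HA_adj NA k v (.inr (.inr (.inr (.inr (m, s))))))
          (f (.inr (.inr (.inr (.inr (m, s)))))))))) := by
  unfold HA_S
  rw [Fintype.sum_sum_type, Fintype.sum_sum_type, Fintype.sum_sum_type, Fintype.sum_sum_type,
    Fintype.sum_prod_type, Fintype.sum_prod_type]
  congr 1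
  congr 1
  apply Finset.sum_congr rfl
  intro j _
  rw [Fintype.sum_sum_type]

/-- neighbours of `a, b` in a block -/
lemma HA_S_ab (f : HA_V NA k → ℝ) (j : Fin NA) (s : Bool) :
    HA_S NA k f (.inr (.inl (j, .inl s))) =
      f (.inl j.castSucc) + (f (.inr (.inl (j, .inl (!s)))) + ∑ m, f (.inr (.inl (j, .inr m)))) := by
  rw [HA_S_expand]
  simp only [HA_adj, HA_i_false, Finset.sum_const_zero, add_zero]
  congr 1
  · rw [Finset.sum_eq_single j.castSucc]
    · exact HA_i_pos rfl _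
    · intro b _ hb; exact HA_i_neg hb _
    · simp
  · rw [Finset.sum_eq_single j]
    · congr 1
      · cases s <;> simp [HA_i]
      · apply Finset.sum_congr rfl
        intro m _
        exact HA_i_pos rfl _
    · intro b _ hb
      rw [Finset.sum_eq_zero, Finset.sum_eq_zero, add_zero]
      · intro m _; exact HA_i_neg (Ne.symm hb) _
      · intro m _; exact HA_i_neg (fun h => hb h.1.symm) _
    · simp

lemma HA_S_mid (f : HA_V NA k → ℝ) (j : Fin NA) (m : Fin (2 * k)) :
    HA_S NA k f (.inr (.inl (j, .inr m))) =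
      f (.inl j.succ) + (f (.inr (.inl (j, .inl true))) + f (.inr (.inl (j, .inl false))) +
        ((∑ m', f (.inr (.inl (j, .inr m')))) - f (.inr (.inl (j, .inr m))))) := by
  rw [HA_S_expand]
  simp only [HA_adj, HA_i_false, Finset.sum_const_zero, add_zero]
  congr 1
  · rw [Finset.sum_eq_single j.succ]
    · exact HA_i_pos rfl _
    · intro b _ hb; exact HA_i_neg hb _
    · simp
  · rw [Finset.sum_eq_single j]
    · congr 1
      · simp [HA_i]
      · rw [← Finset.add_sum_erase Finset.univ _ (Finset.mem_univ m)]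
        rw [← Finset.add_sum_erase Finset.univ (fun m' => f (.inr (.inl (j, .inr m')))) (Finset.mem_univ m)]
        rw [HA_i_neg (fun h => h.2 rfl), zero_add, add_sub_cancel_left]
        apply Finset.sum_congr rfl
        intro x hx
        exact HA_i_pos ⟨rfl, Ne.symm (Finset.ne_of_mem_erase hx)⟩ _
    · intro b _ hb
      rw [Finset.sum_eq_zero, Finset.sum_eq_zero, add_zero]
      · intro m _; exact HA_i_neg (fun h => hb h.1.symm) _
      · intro m _; exact HA_i_neg (Ne.symm hb) _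
    · simp

lemma HA_S_pq (f : HA_V NA k → ℝ) (s : Bool) :
    HA_S NA k f (.inr (.inr (.inl s))) =
      f (.inl (Fin.last NA)) + (f (.inr (.inr (.inr (.inl (!s))))) +
        ∑ m, ∑ s', f (.inr (.inr (.inr (.inr (m, s')))))) := by
  rw [HA_S_expand]
  simp only [HA_adj, HA_i_false, HA_i_true, Finset.sum_const_zero, add_zero, zero_add]
  congr 1
  · rw [Finset.sum_eq_single (Fin.last NA)]
    · exact HA_i_pos rfl _
    · intro b _ hb; exact HA_i_neg hb _
    · simp
  · congr 1
    cases s <;> simp [HA_i]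

lemma HA_S_AB (f : HA_V NA k → ℝ) (s : Bool) :
    HA_S NA k f (.inr (.inr (.inr (.inl s)))) =
      f (.inr (.inr (.inl (!s)))) + (f (.inr (.inr (.inr (.inl (!s))))) +
        ∑ m, ∑ s', f (.inr (.inr (.inr (.inr (m, s')))))) := by
  rw [HA_S_expand]
  simp only [HA_adj, HA_i_false, HA_i_true, Finset.sum_const_zero, add_zero, zero_add]
  cases s <;> simp [HA_i]

lemma HA_S_R (f : HA_V NA k → ℝ) (m : Fin k) (s : Bool) :
    HA_S NA k f (.inr (.inr (.inr (.inr (m, s))))) =
      (f (.inr (.inr (.inl true))) + f (.inr (.inr (.inl false)))) +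
      ((f (.inr (.inr (.inr (.inl true)))) + f (.inr (.inr (.inr (.inl false))))) +
        ((∑ m', ∑ s', f (.inr (.inr (.inr (.inr (m', s')))))) -
          ∑ s', f (.inr (.inr (.inr (.inr (m, s'))))))) := by
  rw [HA_S_expand]
  simp only [HA_adj, HA_i_false, HA_i_true, Finset.sum_const_zero, add_zero, zero_add,
    Fintype.sum_bool]
  congr 1
  congr 1
  rw [← Finset.add_sum_erase Finset.univ _ (Finset.mem_univ m)]
  rw [← Finset.add_sum_erase Finset.univ (fun m' => f (.inr (.inr (.inr (.inr (m', true))))) +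
    f (.inr (.inr (.inr (.inr (m', false)))))) (Finset.mem_univ m)]
  rw [HA_i_neg (fun h => h rfl), HA_i_neg (fun h => h rfl), zero_add, zero_add, add_sub_cancel_left]
  apply Finset.sum_congr rfl
  intro x hx
  rw [HA_i_pos (Ne.symm (Finset.ne_of_mem_erase hx)), HA_i_pos (Ne.symm (Finset.ne_of_mem_erase hx))]

/-- right part of the neighbourhood of a cut vertex -/
noncomputable def HA_right (f : HA_V NA k → ℝ) (i : Fin (NA + 1)) : ℝ :=
  if h : i.val < NA then f (.inr (.inl (⟨i, h⟩, .inl true))) + f (.inr (.inl (⟨i, h⟩, .inl false)))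
  else f (.inr (.inr (.inl true))) + f (.inr (.inr (.inl false)))

lemma HA_S_cut (f : HA_V NA k → ℝ) (i : Fin (NA + 1)) :
    HA_S NA k f (.inl i) = HA_right f i +
      ∑ j : Fin NA, HA_i (i = j.succ) (∑ m, f (.inr (.inl (j, .inr m)))) := by
  rw [HA_S_expand]
  simp only [HA_adj, HA_i_false, Finset.sum_const_zero, add_zero, zero_add, Fintype.sum_bool]
  rw [Finset.sum_add_distrib]
  have h1 : (∑ j : Fin NA, ∑ m : Fin (2 * k), HA_i (i = j.succ) (f (.inr (.inl (j, .inr m))))) =
      ∑ j : Fin NA, HA_i (i = j.succ) (∑ m, f (.inr (.inl (j, .inr m)))) := by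
    apply Finset.sum_congr rfl
    intro j _
    unfold HA_i
    split_ifs <;> simp
  rw [h1]
  have h2 : (∑ j : Fin NA, (HA_i (i = j.castSucc) (f (.inr (.inl (j, .inl true)))) +
      HA_i (i = j.castSucc) (f (.inr (.inl (j, .inl false)))))) +
      (HA_i (i = Fin.last NA) (f (.inr (.inr (.inl true)))) +
        HA_i (i = Fin.last NA) (f (.inr (.inr (.inl false))))) = HA_right f i := by
    unfold HA_right
    by_cases h : i.val < NA
    · rw [dif_pos h]
      have hl : i ≠ Fin.last NA := by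
        intro h'
        rw [h'] at h
        simp at h
      rw [HA_i_neg hl, HA_i_neg hl, Finset.sum_eq_single ⟨i, h⟩]
      · have : i = (⟨i.val, h⟩ : Fin NA).castSucc := by
          ext; simp
        rw [HA_i_pos this, HA_i_pos this]
        simp
      · intro b _ hb
        have : i ≠ b.castSucc := by
          intro h'
          apply hb
          ext
          simp [h']
        rw [HA_i_neg this, HA_i_neg this, add_zero]
      · simp
    · rw [dif_neg h]
      have hl : i = Fin.last NA := by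
        ext
        have := i.isLt
        simp only [Fin.val_last]
        omega
      rw [HA_i_pos hl, HA_i_pos hl, Finset.sum_eq_zero]
      · simp
      · intro j _
        have : i ≠ j.castSucc := by
          intro h'
          apply h
          rw [h']
          simp
        rw [HA_i_neg this, HA_i_neg this, add_zero]
  rw [← h2]
  ring

/-! ### degrees -/

lemma HA_sum_succ (i : Fin (NA + 1)) (F : Fin NA → ℝ) :
    (i = 0 → ∑ j : Fin NA, HA_i (i = j.succ) (F j) = 0) ∧
    (∀ j0 : Fin NA, i = j0.succ → ∑ j : Fin NA, HA_i (i = j.succ) (F j) = F j0) := by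
  constructor
  · intro h
    apply Finset.sum_eq_zero
    intro j _
    apply HA_i_neg
    rw [h]
    exact (Fin.succ_ne_zero j).symm
  · intro j0 h
    rw [Finset.sum_eq_single j0]
    · exact HA_i_pos h _
    · intro b _ hb
      apply HA_i_neg
      rw [h]
      intro h'
      exact hb (Fin.succ_injective _ h').symm
    · simp

lemma HA_deg (v : HA_V NA k) :
    HA_S NA k (fun _ => 1) v = if v = .inl 0 then 2 else 2 * (k : ℝ) + 2 := by
  rcases v with (i | ⟨j, s | m⟩ | s | s | ⟨m, s⟩)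
  · rw [HA_S_cut]
    have hr : HA_right (fun _ : HA_V NA k => (1 : ℝ)) i = 2 := by
      unfold HA_right
      split_ifs <;> norm_num
    rw [hr]
    by_cases h0 : i = 0
    · rw [(HA_sum_succ i _).1 h0, h0]
      simp
    · obtain ⟨j0, hj0⟩ := Fin.exists_succ_eq.mpr h0
      rw [(HA_sum_succ i _).2 j0 hj0.symm, if_neg (by simpa using h0)]
      simp
      ring
  · rw [HA_S_ab, if_neg (by simp)]
    simp
    ring
  · rw [HA_S_mid, if_neg (by simp)]
    simp
    ring
  · rw [HA_S_pq, if_neg (by simp)]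
    simp
    ring
  · rw [HA_S_AB, if_neg (by simp)]
    simp
    ring
  · rw [HA_S_R, if_neg (by simp)]
    simp
    ring

/-! ### connectivity -/

lemma HA_conn (hk : 1 ≤ k) : (HA_G NA k).Connected := by
  have hm0 : 0 < 2 * k := by omega
  have key : ∀ i : ℕ, ∀ h : i < NA + 1, (HA_G NA k).Reachable (.inl ⟨i, h⟩) (.inl 0) := by
    intro i
    induction i with
    | zero => intro h; exact SimpleGraph.Reachable.refl _
    | succ i ih =>
      intro h
      have h' : i < NA := by omega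
      have h1 : (HA_G NA k).Adj (.inl ⟨i + 1, h⟩) (.inr (.inl (⟨i, h'⟩, .inr ⟨0, hm0⟩))) := by
        rw [HA_G_adj]
        simp [HA_adj, Fin.ext_iff]
      have h2 : (HA_G NA k).Adj (.inr (.inl (⟨i, h'⟩, .inr ⟨0, hm0⟩))) (.inr (.inl (⟨i, h'⟩, .inl true))) := by
        rw [HA_G_adj]
        simp [HA_adj]
      have h3 : (HA_G NA k).Adj (.inr (.inl (⟨i, h'⟩, .inl true))) (.inl ⟨i, by omega⟩) := by
        rw [HA_G_adj]
        simp [HA_adj, Fin.ext_iff]
      exact h1.reachable.trans (h2.reachable.trans (h3.reachable.trans (ih _)))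
  have key2 : ∀ i : Fin (NA + 1), (HA_G NA k).Reachable (.inl i) (.inl 0) := fun i => key i.1 i.2
  have key3 : ∀ s : Bool, (HA_G NA k).Reachable (.inr (.inr (.inl s))) (.inl 0) := by
    intro s
    have h1 : (HA_G NA k).Adj (.inr (.inr (.inl s))) (.inl (Fin.last NA)) := by
      rw [HA_G_adj]
      simp [HA_adj]
    exact h1.reachable.trans (key2 _)
  have hall : ∀ v : HA_V NA k, (HA_G NA k).Reachable v (.inl 0) := by
    rintro (i | ⟨j, s | m⟩ | s | s | ⟨m, s⟩)
    · exact key2 i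
    · have h1 : (HA_G NA k).Adj (.inr (.inl (j, .inl s))) (.inl j.castSucc) := by
        rw [HA_G_adj]
        simp [HA_adj]
      exact h1.reachable.trans (key2 _)
    · have h1 : (HA_G NA k).Adj (.inr (.inl (j, .inr m))) (.inl j.succ) := by
        rw [HA_G_adj]
        simp [HA_adj]
      exact h1.reachable.trans (key2 _)
    · exact key3 s
    · have h1 : (HA_G NA k).Adj (.inr (.inr (.inr (.inl s)))) (.inr (.inr (.inl (!s)))) := by
        rw [HA_G_adj]
        cases s <;> simp [HA_adj]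
      exact h1.reachable.trans (key3 _)
    · have h1 : (HA_G NA k).Adj (.inr (.inr (.inr (.inr (m, s))))) (.inr (.inr (.inl true))) := by
        rw [HA_G_adj]
        simp [HA_adj]
      exact h1.reachable.trans (key3 _)
  have : Nonempty (HA_V NA k) := ⟨.inl 0⟩
  exact SimpleGraph.Connected.mk (fun u v => (hall u).trans (hall v).symm)

/-! ### the test function -/

/-- value at the mids, given the state at the right end of the block -/
noncomputable def HA_mv (th : ℝ) (v : ℝ × ℝ) : ℝ := (ast 2 th (mst 1 th v)).1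
/-- value at `a, b`, given the state at the right end of the block -/
noncomputable def HA_av (D : ℕ) (th : ℝ) (v : ℝ × ℝ) : ℝ :=
  (ast 1 th (mst ((D : ℝ) - 2) th (ast 2 th (mst 1 th v)))).1
/-- the states -/
noncomputable def HA_st (D : ℕ) (th : ℝ) (m : ℕ) : ℝ × ℝ := (M2 D th)^[m] (endv D th)
/-- the value to the right of the cut vertex with state `m` -/
noncomputable def HA_yr (D : ℕ) (th : ℝ) : ℕ → ℝ
  | 0 => 1
  | m + 1 => HA_av D th (HA_st D th m)

/-- the test function -/
noncomputable def HA_y (NA k D : ℕ) (th : ℝ) : HA_V NA k → ℝ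
  | .inl i => (HA_st D th (NA - i.val)).1
  | .inr (.inl (j, .inl _)) => HA_av D th (HA_st D th (NA - 1 - j.val))
  | .inr (.inl (j, .inr _)) => HA_mv th (HA_st D th (NA - 1 - j.val))
  | .inr (.inr (.inl _)) => 1
  | .inr (.inr (.inr (.inl _))) => eA D (2 * ((D : ℝ) - 2) * th ^ 2)
  | .inr (.inr (.inr (.inr _))) => eR D (2 * ((D : ℝ) - 2) * th ^ 2)

lemma HA_eRA (D : ℕ) (L : ℝ) (hD : 10 ≤ D) (hL0 : 0 ≤ L) (hL : L * ((D : ℝ) + 3) ≤ 1) :
    (4 - L) * eR D L = 2 + 2 * eA D L ∧
    ((D : ℝ) - 1 - L) * eA D L = 1 + ((D : ℝ) - 2) * eR D L := by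
  have hDr : (10 : ℝ) ≤ (D : ℝ) := by exact_mod_cast hD
  have hL1 : L ≤ 1 := by nlinarith
  have h4 : 4 - L ≠ 0 := by linarith
  have hden : 2 * (D : ℝ) - ((D : ℝ) + 3) * L + L ^ 2 ≠ 0 := by
    have : 0 < 2 * (D : ℝ) - ((D : ℝ) + 3) * L + L ^ 2 := by nlinarith
    exact this.ne'
  have h1 : (4 - L) * eR D L = 2 + 2 * eA D L := by
    unfold eR
    field_simp
  refine ⟨h1, ?_⟩
  have h2 : (2 * (D : ℝ) - ((D : ℝ) + 3) * L + L ^ 2) * eA D L = 2 * (D : ℝ) - L := by
    unfold eA
    field_simp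
  have h3 : (4 - L) * (((D : ℝ) - 1 - L) * eA D L) = (4 - L) * (1 + ((D : ℝ) - 2) * eR D L) := by
    have : (4 - L) * (1 + ((D : ℝ) - 2) * eR D L) = (4 - L) + ((D : ℝ) - 2) * ((4 - L) * eR D L) := by
      ring
    rw [this, h1]
    linear_combination h2
  exact mul_left_cancel₀ h4 h3

lemma HA_st_succ (D : ℕ) (th : ℝ) (m : ℕ) : HA_st D th (m + 1) = M2 D th (HA_st D th m) := by
  unfold HA_st
  rw [Function.iterate_succ_apply']

lemma HA_inv (D : ℕ) (th : ℝ) (hD : 10 ≤ D)
    (hL : 2 * ((D : ℝ) - 2) * th ^ 2 * ((D : ℝ) + 3) ≤ 1) (m : ℕ) :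
    (HA_st D th m).1 = HA_yr D th m - ((D : ℝ) - 2) * th * (HA_st D th m).2 := by
  have hDr : (10 : ℝ) ≤ (D : ℝ) := by exact_mod_cast hD
  cases m with
  | zero =>
    have hL0 : 0 ≤ 2 * ((D : ℝ) - 2) * th ^ 2 := by
      have : 0 ≤ (D : ℝ) - 2 := by linarith
      positivity
    obtain ⟨h1, h2⟩ := HA_eRA D (2 * ((D : ℝ) - 2) * th ^ 2) hD hL0 hL
    show (endv D th).1 = 1 - ((D : ℝ) - 2) * th * (endv D th).2
    unfold endv
    simp only
    set A := eA D (2 * ((D : ℝ) - 2) * th ^ 2)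
    set R := eR D (2 * ((D : ℝ) - 2) * th ^ 2)
    linear_combination (-((D : ℝ) - 2) / 2) * h1 - h2
  | succ m =>
    rw [HA_st_succ]
    show (M2 D th (HA_st D th m)).1 = HA_av D th (HA_st D th m) - _
    unfold M2 HA_av
    generalize HA_st D th m = v
    simp only [ast, mst]
    ring

lemma HA_cut_eq (D : ℕ) (th : ℝ) (v : ℝ × ℝ) (r : ℝ) (h : v.1 = r - ((D : ℝ) - 2) * th * v.2) :
    2 * r = ((D : ℝ) - 2 * ((D : ℝ) - 2) * th ^ 2) * v.1 - ((D : ℝ) - 2) * HA_mv th v := by
  unfold HA_mv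
  simp only [ast, mst]
  linear_combination (-2) * h

lemma HA_right_y (D : ℕ) (th : ℝ) (i : Fin (NA + 1)) :
    HA_right (HA_y NA k D th) i = 2 * HA_yr D th (NA - i.val) := by
  unfold HA_right
  by_cases h : i.val < NA
  · rw [dif_pos h]
    simp only [HA_y]
    have : NA - i.val = (NA - 1 - i.val) + 1 := by omega
    rw [this]
    simp only [HA_yr]
    ring
  · rw [dif_neg h]
    have hi := i.isLt
    have : NA - i.val = 0 := by omega
    rw [this]
    simp only [HA_y, HA_yr]
    norm_num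

/-- the equations -/
lemma HA_eqs (D : ℕ) (hDk : D = 2 * k + 2) (th : ℝ) (hD : 10 ≤ D)
    (hL : 2 * ((D : ℝ) - 2) * th ^ 2 * ((D : ℝ) + 3) ≤ 1) (v : HA_V NA k) :
    HA_S NA k (HA_y NA k D th) v =
      ((D : ℝ) - 2 * ((D : ℝ) - 2) * th ^ 2) * HA_y NA k D th v
        - (if v = .inl 0 then ((D : ℝ) - 2) * gA D th NA else 0) := by
  have hDr : (10 : ℝ) ≤ (D : ℝ) := by exact_mod_cast hD
  have hkr : (2 * k : ℝ) = (D : ℝ) - 2 := by
    rw [hDk]; push_cast; ring
  have hL0 : 0 ≤ 2 * ((D : ℝ) - 2) * th ^ 2 := by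
    have : 0 ≤ (D : ℝ) - 2 := by linarith
    positivity
  obtain ⟨h1, h2⟩ := HA_eRA D (2 * ((D : ℝ) - 2) * th ^ 2) hD hL0 hL
  rcases v with (i | ⟨j, s | m⟩ | s | s | ⟨m, s⟩)
  · rw [HA_S_cut, HA_right_y]
    have hinv := HA_inv D th hD hL (NA - i.val)
    have hc := HA_cut_eq D th _ _ hinv
    rw [hc]
    by_cases h0 : i = 0
    · rw [(HA_sum_succ i _).1 h0, h0]
      simp only [if_true]
      unfold gA
      show _ = _ * HA_y NA k D th (.inl 0) - _
      simp only [HA_y]
      unfold HA_mv HA_st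
      simp only [Fin.val_zero, Nat.sub_zero]
      ring
    · obtain ⟨j0, hj0⟩ := Fin.exists_succ_eq.mpr h0
      rw [(HA_sum_succ i _).2 j0 hj0.symm, if_neg (by simpa using h0)]
      simp only [HA_y, Finset.sum_const, Finset.card_univ, Fintype.card_fin, nsmul_eq_mul]
      have hi : NA - i.val = NA - 1 - j0.val := by
        rw [← hj0]
        simp only [Fin.val_succ]
        omega
      rw [hi]
      push_cast
      rw [hkr]
      ring
  · rw [HA_S_ab, if_neg (by simp)]
    simp only [HA_y, Finset.sum_const, Finset.card_univ, Fintype.card_fin, nsmul_eq_mul]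
    push_cast
    rw [hkr]
    have hj := j.isLt
    have hi : NA - (j.castSucc).val = (NA - 1 - j.val) + 1 := by
      simp only [Fin.val_castSucc]
      omega
    rw [hi, HA_st_succ]
    generalize HA_st D th (NA - 1 - j.val) = w
    unfold M2 HA_av HA_mv
    simp only [ast, mst]
    ring
  · rw [HA_S_mid, if_neg (by simp)]
    simp only [HA_y, Finset.sum_const, Finset.card_univ, Fintype.card_fin, nsmul_eq_mul]
    push_cast
    rw [hkr]
    have hj := j.isLt
    have hi : NA - (j.succ).val = NA - 1 - j.val := by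
      simp only [Fin.val_succ]
      omega
    rw [hi]
    generalize HA_st D th (NA - 1 - j.val) = w
    unfold HA_av HA_mv
    simp only [ast, mst]
    ring
  · rw [HA_S_pq, if_neg (by simp)]
    simp only [HA_y, Finset.sum_const, Finset.card_univ, Fintype.card_fin, nsmul_eq_mul,
      Fintype.card_bool]
    have : ((HA_st D th (NA - (Fin.last NA).val)).1) = (endv D th).1 := by
      simp [HA_st]
    rw [this]
    unfold endv
    simp only
    push_cast
    have h3 : (k : ℝ) = ((D : ℝ) - 2) / 2 := by linarith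
    rw [h3]
    ring
  · rw [HA_S_AB, if_neg (by simp)]
    simp only [HA_y, Finset.sum_const, Finset.card_univ, Fintype.card_fin, nsmul_eq_mul,
      Fintype.card_bool]
    push_cast
    have h3 : (k : ℝ) = ((D : ℝ) - 2) / 2 := by linarith
    rw [h3]
    linear_combination -h2
  · rw [HA_S_R, if_neg (by simp)]
    simp only [HA_y, Finset.sum_const, Finset.card_univ, Fintype.card_fin, nsmul_eq_mul,
      Fintype.card_bool]
    push_cast
    have h3 : (k : ℝ) = ((D : ℝ) - 2) / 2 := by linarith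
    rw [h3]
    linear_combination -h1

/-! ### the spectral bound -/

lemma HA_spec {n : ℕ} (H : SimpleGraph (Fin n)) (z : Fin n → ℝ) (hz : ∀ v, 0 ≤ z v)
    (hz0 : ∃ v, 0 < z v) (θ : ℝ) (h : ∀ v, θ * z v ≤ ∑ u, HA_i (H.Adj v u) (z u)) :
    θ ≤ specS H := by
  have hmul : ∀ (x : Fin n → ℝ) (v : Fin n), (H.adjMatrix ℝ *ᵥ x) v = ∑ u, HA_i (H.Adj v u) (x u) := by
    intro x v
    simp only [mulVec, dotProduct, SimpleGraph.adjMatrix_apply, HA_i]
    apply Finset.sum_congr rfl
    intro u _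
    split_ifs <;> simp
  have hc : 0 < z ⬝ᵥ z := by
    obtain ⟨v, hv⟩ := hz0
    simp only [dotProduct]
    exact Finset.sum_pos' (fun v _ => mul_nonneg (hz v) (hz v)) ⟨v, Finset.mem_univ _, mul_pos hv hv⟩
  have hr : θ * (z ⬝ᵥ z) ≤ z ⬝ᵥ (H.adjMatrix ℝ *ᵥ z) := by
    simp only [dotProduct]
    rw [Finset.mul_sum]
    apply Finset.sum_le_sum
    intro v _
    rw [hmul]
    calc θ * (z v * z v) = z v * (θ * z v) := by ring
      _ ≤ _ := mul_le_mul_of_nonneg_left (h v) (hz v)
  have hbdd : BddAbove {r : ℝ | ∃ x : Fin n → ℝ, x ⬝ᵥ x = 1 ∧ r = x ⬝ᵥ (H.adjMatrix ℝ *ᵥ x)} := by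
    refine ⟨∑ _v : Fin n, ∑ _u : Fin n, (1 : ℝ), ?_⟩
    rintro r ⟨x, hx, rfl⟩
    have habs : ∀ v, |x v| ≤ 1 := by
      intro v
      have : x v * x v ≤ 1 := by
        rw [← hx]
        simp only [dotProduct]
        exact Finset.single_le_sum (f := fun v => x v * x v) (fun v _ => mul_self_nonneg _)
          (Finset.mem_univ v)
      rw [abs_le]
      constructor <;> nlinarith
    simp only [dotProduct]
    apply Finset.sum_le_sum
    intro v _
    rw [hmul, Finset.mul_sum]
    apply Finset.sum_le_sum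
    intro u _
    unfold HA_i
    split_ifs
    · calc x v * x u ≤ |x v * x u| := le_abs_self _
        _ = |x v| * |x u| := abs_mul _ _
        _ ≤ 1 * 1 := mul_le_mul (habs v) (habs u) (abs_nonneg _) zero_le_one
        _ = 1 := one_mul 1
    · simp
  have hs : 0 < Real.sqrt (z ⬝ᵥ z) := Real.sqrt_pos.mpr hc
  have hss : Real.sqrt (z ⬝ᵥ z) * Real.sqrt (z ⬝ᵥ z) = z ⬝ᵥ z := Real.mul_self_sqrt hc.le
  have hle : (z ⬝ᵥ z)⁻¹ * (z ⬝ᵥ (H.adjMatrix ℝ *ᵥ z)) ≤ specS H := by
    unfold specS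
    apply le_csSup hbdd
    refine ⟨(Real.sqrt (z ⬝ᵥ z))⁻¹ • z, ?_, ?_⟩
    · rw [smul_dotProduct, dotProduct_smul, smul_eq_mul, smul_eq_mul, ← mul_assoc, ← mul_inv, hss]
      exact inv_mul_cancel₀ hc.ne'
    · rw [smul_dotProduct, mulVec_smul, dotProduct_smul, smul_eq_mul, smul_eq_mul, ← mul_assoc,
        ← mul_inv, hss]
  refine le_trans ?_ hle
  rw [← div_eq_inv_mul, le_div_iff₀ hc]
  exact hr

lemma HA_S_nonneg (f : HA_V NA k → ℝ) (hf : ∀ v, 0 ≤ f v) (v : HA_V NA k) : 0 ≤ HA_S NA k f v := by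
  unfold HA_S
  apply Finset.sum_nonneg
  intro u _
  unfold HA_i
  split_ifs
  · exact hf u
  · exact le_rfl

lemma HA_S_mono (f g : HA_V NA k → ℝ) (hf : ∀ v, f v ≤ g v) (v : HA_V NA k) :
    HA_S NA k f v ≤ HA_S NA k g v := by
  unfold HA_S
  apply Finset.sum_le_sum
  intro u _
  unfold HA_i
  split_ifs
  · exact hf u
  · exact le_rfl

lemma HA_S_comp {n : ℕ} (e : HA_V NA k ≃ Fin n) (H : SimpleGraph (Fin n))
    (hH : ∀ i j, H.Adj i j ↔ HA_adj NA k (e.symm i) (e.symm j)) (f : HA_V NA k → ℝ) (i : Fin n) :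
    ∑ u, HA_i (H.Adj i u) (f (e.symm u)) = HA_S NA k f (e.symm i) := by
  unfold HA_S
  rw [← Equiv.sum_comp e.symm (fun u => HA_i (HA_adj NA k (e.symm i) u) (f u))]
  apply Finset.sum_congr rfl
  intro u _
  rw [show (H.Adj i u) = (HA_adj NA k (e.symm i) (e.symm u)) from propext (hH i u)]

lemma HA_degree {n : ℕ} (H : SimpleGraph (Fin n)) (i : Fin n) :
    (H.degree i : ℝ) = ∑ u, HA_i (H.Adj i u) 1 := by
  rw [← SimpleGraph.card_neighborFinset_eq_degree, Finset.card_eq_sum_ones]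
  push_cast
  unfold HA_i
  rw [← Finset.sum_filter]
  apply Finset.sum_congr _ (fun _ _ => rfl)
  ext u
  simp

theorem pHA : HA := by
  intro D NA n hD hev hn
  obtain ⟨K, hK⟩ := hev
  obtain ⟨k, hDk⟩ : ∃ k, D = 2 * k + 2 := ⟨K - 1, by omega⟩
  have hcard : Fintype.card (HA_V NA k) = n := by
    simp only [HA_V, Fintype.card_sum, Fintype.card_prod, Fintype.card_fin, Fintype.card_bool]
    rw [hn, hDk]
    ring
  have e : HA_V NA k ≃ Fin n := Fintype.equivFinOfCardEq hcard
  have hk1 : 1 ≤ k := by omega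
  have hexH : ∃ H : SimpleGraph (Fin n), H.Connected ∧
      ∀ i j, H.Adj i j ↔ HA_adj NA k (e.symm i) (e.symm j) := by
    refine ⟨(HA_G NA k).comap e.symm, ?_, fun i j => Iff.rfl⟩
    exact (SimpleGraph.Iso.comap e.symm (HA_G NA k)).connected_iff.mpr (HA_conn hk1)
  obtain ⟨H, hHc, hH⟩ := hexH
  have hdegR : ∀ i : Fin n, ((H.degree i : ℕ) : ℝ) =
      if e.symm i = .inl 0 then 2 else 2 * (k : ℝ) + 2 := by
    intro i
    rw [← HA_deg, ← HA_S_comp e H hH]
    exact HA_degree H i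
  have hdeg0 : ∀ i : Fin n, e.symm i = .inl 0 → H.degree i = 2 := by
    intro i hi
    have := hdegR i
    rw [if_pos hi] at this
    exact_mod_cast this
  have hdegD : ∀ i : Fin n, e.symm i ≠ .inl 0 → H.degree i = D := by
    intro i hi
    have := hdegR i
    rw [if_neg hi] at this
    rw [hDk]
    exact_mod_cast this
  refine ⟨H, hHc, ?_, ⟨e (.inl 0), hdeg0 _ (by simp)⟩, ?_⟩
  · apply le_antisymm
    · apply SimpleGraph.maxDegree_le_of_forall_degree_le
      intro i
      by_cases hi : e.symm i = .inl 0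
      · rw [hdeg0 i hi]; omega
      · rw [hdegD i hi]
    · have h1 : H.degree (e (.inr (.inr (.inl true)))) = D :=
        hdegD _ (by simp)
      calc D = H.degree (e (.inr (.inr (.inl true)))) := h1.symm
        _ ≤ _ := SimpleGraph.degree_le_maxDegree _ _
  · intro th hth0 hth1 hg
    have hDr : (10 : ℝ) ^ 14 ≤ (D : ℝ) := by exact_mod_cast hD
    have hD0 : (0 : ℝ) < (D : ℝ) := by linarith [show (0 : ℝ) < 10 ^ 14 by norm_num]
    have hD10 : (10 : ℝ) ≤ (D : ℝ) := by linarith [show (10 : ℝ) ≤ 10 ^ 14 by norm_num]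
    have hth : (D : ℝ) ^ 3 * th ^ 2 ≤ 1 := by
      refine le_trans ?_ hth1
      have : (D : ℝ) ^ 3 ≤ (D : ℝ) ^ 6 := pow_le_pow_right₀ (by linarith) (by norm_num)
      exact mul_le_mul_of_nonneg_right this (by positivity)
    have hL : 2 * ((D : ℝ) - 2) * th ^ 2 * ((D : ℝ) + 3) ≤ 1 := by
      refine le_trans ?_ hth
      have : 2 * ((D : ℝ) - 2) * ((D : ℝ) + 3) ≤ (D : ℝ) ^ 3 := by
        nlinarith [mul_nonneg (sq_nonneg (D : ℝ)) (show (0 : ℝ) ≤ (D : ℝ) - 3 by linarith)]
      calc 2 * ((D : ℝ) - 2) * th ^ 2 * ((D : ℝ) + 3) = 2 * ((D : ℝ) - 2) * ((D : ℝ) + 3) * th ^ 2 := by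
            ring
        _ ≤ _ := mul_le_mul_of_nonneg_right this (by positivity)
    have hDnat : 10 ≤ D := by omega
    have hLam : 2 * ((D : ℝ) - 2) * th ^ 2 ≤ 1 := by
      have h0 : 0 ≤ 2 * ((D : ℝ) - 2) * th ^ 2 := by
        have : 0 ≤ (D : ℝ) - 2 := by linarith
        positivity
      nlinarith
    have heq := HA_eqs (NA := NA) (k := k) D hDk th hDnat hL
    apply HA_spec _ (fun i => max (HA_y NA k D th (e.symm i)) 0) (fun v => le_max_right _ _)
    · refine ⟨e (.inr (.inr (.inl true))), ?_⟩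
      simp [HA_y]
    · intro i
      rw [HA_S_comp e H hH (fun v => max (HA_y NA k D th v) 0) i]
      rcases le_or_gt (HA_y NA k D th (e.symm i)) 0 with hy | hy
      · rw [max_eq_right hy, mul_zero]
        exact HA_S_nonneg _ (fun v => le_max_right _ _) _
      · rw [max_eq_left hy.le]
        refine le_trans ?_ (HA_S_mono (HA_y NA k D th) _ (fun v => le_max_left _ _) _)
        rw [heq]
        split_ifs
        · have : ((D : ℝ) - 2) * gA D th NA ≤ 0 :=
            mul_nonpos_of_nonneg_of_nonpos (by linarith) hg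
          linarith
        · linarith

end Pool.Agent.T2H60.SX
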