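import Pool.Agent.T2H60.SX.StmH
import Pool.Agent.Helper951.Perron

/-!
# SX, package HG: the extremal graph gives an `SG`
-/

set_option autoImplicit false
open Matrix Classical Finset

namespace Pool.Agent.T2H60.SX

/-- indicator -/
noncomputable def HG_i (p : Prop) (x : ℝ) : ℝ := if p then x else 0

lemma HG_i_pos {p : Prop} (h : p) (x : ℝ) : HG_i p x = x := by simp [HG_i, h]
lemma HG_i_neg {p : Prop} (h : ¬ p) (x : ℝ) : HG_i p x = 0 := by simp [HG_i, h]

lemma HG_nbr {n : ℕ} (H : SimpleGraph (Fin n)) (x : Fin n → ℝ) (v : Fin n) :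
    ∑ u ∈ H.neighborFinset v, x u = ∑ u, HG_i (H.Adj v u) (x u) := by
  unfold HG_i
  rw [← Finset.sum_filter]
  apply Finset.sum_congr _ (fun _ _ => rfl)
  ext u
  simp

lemma HG_degree {n : ℕ} (H : SimpleGraph (Fin n)) (i : Fin n) :
    (H.degree i : ℝ) = ∑ u, HG_i (H.Adj i u) 1 := by
  rw [← HG_nbr, ← SimpleGraph.card_neighborFinset_eq_degree, Finset.card_eq_sum_ones]
  push_cast
  rfl

lemma HG_specS {n : ℕ} (H : SimpleGraph (Fin n)) (lam : ℝ) (x : Fin n → ℝ) (hx1 : x ⬝ᵥ x = 1)
    (hev : ∀ v, ∑ u ∈ H.neighborFinset v, x u = lam * x v)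
    (hq : ∀ y : Fin n → ℝ, y ⬝ᵥ (H.adjMatrix ℝ *ᵥ y) ≤ lam * (y ⬝ᵥ y)) : specS H = lam := by
  have hgr : IsGreatest {r : ℝ | ∃ x : Fin n → ℝ, x ⬝ᵥ x = 1 ∧ r = x ⬝ᵥ (H.adjMatrix ℝ *ᵥ x)} lam := by
    constructor
    · refine ⟨x, hx1, ?_⟩
      have : H.adjMatrix ℝ *ᵥ x = lam • x := by
        funext v
        rw [SimpleGraph.adjMatrix_mulVec_apply, Pi.smul_apply, smul_eq_mul, ← hev v]
      rw [this, dotProduct_smul, hx1, smul_eq_mul, mul_one]
    · rintro r ⟨y, hy, rfl⟩
      have := hq y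
      rw [hy, mul_one] at this
      exact this
  exact hgr.csSup_eq

lemma HG_closed {n : ℕ} (H : SimpleGraph (Fin n)) (hc : H.Connected) (P : Fin n → Prop)
    (hstep : ∀ a b, H.Adj a b → P a → P b) (v : Fin n) (hv : P v) (w : Fin n) : P w := by
  obtain ⟨p⟩ := hc.preconnected v w
  induction p with
  | nil => exact hv
  | cons h _ ih => exact ih (hstep _ _ h hv)

/-- the entries -/
noncomputable def HG_e (N : ℕ) (H : SimpleGraph (Fin N)) (σ : Equiv.Perm (Fin N)) (i k : ℕ) : ℕ :=
  if (∃ (hi : i < N) (hk : k < N), H.Adj (σ ⟨i, hi⟩) (σ ⟨k, hk⟩)) ∨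
    (i = N - 1 ∧ (k = N ∨ k = N + 1)) ∨ (k = N - 1 ∧ (i = N ∨ i = N + 1)) then 1 else 0

/-- the vector -/
noncomputable def HG_x (N : ℕ) (x : Fin N → ℝ) (σ : Equiv.Perm (Fin N)) (i : ℕ) : ℝ :=
  if h : i < N then x (σ ⟨i, h⟩) else 0

lemma HG_e_in (N : ℕ) (hN : 0 < N) (H : SimpleGraph (Fin N)) (σ : Equiv.Perm (Fin N)) (i k : ℕ)
    (hi : i < N) (hk : k < N) (F : ℝ) :
    (HG_e N H σ i k : ℝ) * F = HG_i (H.Adj (σ ⟨i, hi⟩) (σ ⟨k, hk⟩)) F := by
  unfold HG_e HG_i
  by_cases h : H.Adj (σ ⟨i, hi⟩) (σ ⟨k, hk⟩)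
  · rw [if_pos (Or.inl ⟨hi, hk, h⟩), if_pos h]
    simp
  · rw [if_neg, if_neg h]
    · simp
    · rintro (⟨_, _, h'⟩ | h' | h')
      · exact h h'
      · omega
      · omega

lemma HG_e_gr (N : ℕ) (hN : 0 < N) (H : SimpleGraph (Fin N)) (σ : Equiv.Perm (Fin N)) (i k : ℕ)
    (hi : i < N) (hk : k = N ∨ k = N + 1) : HG_e N H σ i k = if i = N - 1 then 1 else 0 := by
  unfold HG_e
  by_cases h : i = N - 1
  · rw [if_pos h, if_pos (Or.inr (Or.inl ⟨h, hk⟩))]
  · rw [if_neg h, if_neg]
    rintro (⟨_, h', _⟩ | h' | h')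
    · omega
    · exact h h'.1
    · omega

lemma HG_sum (N : ℕ) (hN : 0 < N) (H : SimpleGraph (Fin N)) (σ : Equiv.Perm (Fin N)) (i : ℕ)
    (hi : i < N) (F : ℕ → ℝ) :
    ∑ k ∈ range (N + 2), (HG_e N H σ i k : ℝ) * F k =
      (∑ u : Fin N, HG_i (H.Adj (σ ⟨i, hi⟩) u) (F (σ.symm u).val)) +
        HG_i (i = N - 1) (F N + F (N + 1)) := by
  rw [Finset.sum_range_succ, Finset.sum_range_succ, HG_e_gr N hN H σ i N hi (Or.inl rfl),
    HG_e_gr N hN H σ i (N + 1) hi (Or.inr rfl), add_assoc]
  congr 1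
  · rw [Finset.sum_range, ← Equiv.sum_comp σ (fun u => HG_i (H.Adj (σ ⟨i, hi⟩) u) (F (σ.symm u).val))]
    apply Finset.sum_congr rfl
    intro k _
    rw [HG_e_in N hN H σ i k.val hi k.isLt]
    simp
  · unfold HG_i
    split_ifs <;> simp

theorem pHG : HG := by
  intro D N hD hev H hc hdeg
  obtain ⟨v0, hv0, hv1⟩ := hdeg
  have hN : 0 < N := lt_of_le_of_lt (Nat.zero_le _) v0.isLt
  have : Nonempty (Fin N) := ⟨v0⟩
  have hD3 : 3 ≤ D := by omega
  have hDr : (10 : ℝ) ^ 14 ≤ (D : ℝ) := by exact_mod_cast hD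
  obtain ⟨lam, x, hx1, hx0, heig, hq⟩ := Pool.Agent.Helper951.Perron.perron H
  have hsp : specS H = lam := HG_specS H lam x hx1 heig hq
  -- positivity
  have hpos : ∀ v, 0 < x v := by
    by_contra hcon
    push Not at hcon
    obtain ⟨v, hv⟩ := hcon
    have hv' : x v = 0 := le_antisymm hv (hx0 v)
    have hall : ∀ w, x w = 0 := by
      apply HG_closed H hc (fun w => x w = 0) _ v hv'
      intro a b hab ha
      have h1 := heig a
      rw [ha, mul_zero] at h1
      exact (Finset.sum_eq_zero_iff_of_nonneg (fun u _ => hx0 u)).mp h1 b (by simpa using hab)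
    have : x = 0 := funext hall
    rw [this] at hx1
    simp at hx1
  have heig' : ∀ v, ∑ u, HG_i (H.Adj v u) (x u) = lam * x v := fun v => by
    rw [← HG_nbr]; exact heig v
  have hdegr : ∀ v, (H.degree v : ℝ) = (D : ℝ) - (if v = v0 then 2 else 0) := by
    intro v
    by_cases h : v = v0
    · rw [if_pos h, h, hv0]
      push_cast [show 2 ≤ D by omega]
      ring
    · rw [if_neg h, hv1 v h]
      ring
  -- lam < D
  have hlt : lam < (D : ℝ) := by
    have h1 : lam * ∑ v, x v = (D : ℝ) * ∑ v, x v - 2 * x v0 := by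
      calc lam * ∑ v, x v = ∑ v, ∑ u, HG_i (H.Adj v u) (x u) := by
            rw [Finset.mul_sum]
            exact Finset.sum_congr rfl (fun v _ => (heig' v).symm)
        _ = ∑ u, ∑ v, HG_i (H.Adj v u) (x u) := Finset.sum_comm
        _ = ∑ u, (H.degree u : ℝ) * x u := by
            apply Finset.sum_congr rfl
            intro u _
            rw [HG_degree, Finset.sum_mul]
            apply Finset.sum_congr rfl
            intro v _
            unfold HG_i
            by_cases h : H.Adj v u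
            · rw [if_pos h, if_pos h.symm, one_mul]
            · rw [if_neg h, if_neg (fun h' => h h'.symm), zero_mul]
        _ = (D : ℝ) * ∑ v, x v - 2 * x v0 := by
            rw [Finset.mul_sum]
            have : ∀ u, (H.degree u : ℝ) * x u = (D : ℝ) * x u - (if u = v0 then 2 * x v0 else 0) := by
              intro u
              rw [hdegr]
              split_ifs with h
              · rw [h]; ring
              · ring
            simp only [this]
            rw [Finset.sum_sub_distrib]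
            simp
    have hS : 0 < ∑ v, x v := Finset.sum_pos (fun v _ => hpos v) ⟨v0, Finset.mem_univ _⟩
    have h2 : lam * ∑ v, x v < (D : ℝ) * ∑ v, x v := by
      rw [h1]
      linarith [hpos v0]
    exact lt_of_mul_lt_mul_right h2 hS.le
  refine ⟨by rw [hsp]; exact hlt, ?_⟩
  intro th hth0 hth1 hth
  rw [hsp] at hth
  -- unique minimum
  have hmin : ∀ v, (∀ u, x v ≤ x u) → v = v0 := by
    intro v hv
    by_contra hne
    have h1 : (D : ℝ) * x v ≤ lam * x v := by
      have h2 := hdegr v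
      rw [if_neg hne, sub_zero] at h2
      rw [← h2, HG_degree, ← heig' v, Finset.sum_mul]
      apply Finset.sum_le_sum
      intro u _
      unfold HG_i
      split_ifs
      · rw [one_mul]; exact hv u
      · simp
    have := le_of_mul_le_mul_right h1 (hpos v)
    linarith
  -- sorting
  let σ : Equiv.Perm (Fin N) := Tuple.sort (fun i => - x i)
  have hσ : ∀ i j : Fin N, i ≤ j → x (σ j) ≤ x (σ i) := by
    intro i j hij
    have := Tuple.monotone_sort (fun i => - x i) hij
    simp only [Function.comp] at this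
    linarith
  have hlast : σ ⟨N - 1, by omega⟩ = v0 := by
    apply hmin
    intro u
    have h1 := hσ (σ.symm u) ⟨N - 1, by omega⟩ (by
      rw [Fin.le_def]
      have := (σ.symm u).isLt
      simp only
      omega)
    rwa [Equiv.apply_symm_apply] at h1
  have hxi : ∀ (i : ℕ) (hi : i < N), HG_x N x σ i = x (σ ⟨i, hi⟩) := by
    intro i hi
    unfold HG_x
    rw [dif_pos hi]
  have hxo : ∀ (i : ℕ), N ≤ i → HG_x N x σ i = 0 := by
    intro i hi
    unfold HG_x
    rw [dif_neg (by omega)]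
  have hlast' : ∀ (i : ℕ) (hi : i < N), σ ⟨i, hi⟩ = v0 ↔ i = N - 1 := by
    intro i hi
    constructor
    · intro h
      rw [← hlast] at h
      have := σ.injective h
      simpa [Fin.ext_iff] using this
    · intro h
      subst h
      exact hlast
  refine ⟨HG_e N H σ, HG_x N x σ, ?_⟩
  have hsymm : ∀ i k, HG_e N H σ i k = HG_e N H σ k i := by
    intro i k
    unfold HG_e
    congr 1
    apply propext
    constructor
    · rintro (⟨hi, hk, h⟩ | h | h)
      · exact Or.inl ⟨hk, hi, h.symm⟩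
      · exact Or.inr (Or.inr h)
      · exact Or.inr (Or.inl h)
    · rintro (⟨hi, hk, h⟩ | h | h)
      · exact Or.inl ⟨hk, hi, h.symm⟩
      · exact Or.inr (Or.inr h)
      · exact Or.inr (Or.inl h)
  have hdegsum : ∀ i < N, (∑ k ∈ range (N + 2), (HG_e N H σ i k : ℝ)) = (D : ℝ) := by
    intro i hi
    have h1 := HG_sum N hN H σ i hi (fun _ => 1)
    simp only [mul_one] at h1
    rw [h1, ← HG_degree, hdegr]
    by_cases h : i = N - 1
    · rw [if_pos ((hlast' i hi).mpr h), HG_i_pos h]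
      ring
    · rw [if_neg (fun h' => h ((hlast' i hi).mp h')), HG_i_neg h]
      ring
  refine ⟨hD, hev, hN, ?_, hsymm, ?_, ?_, ?_, ?_, hxo, ?_, ?_, ?_, hth0, hth1, ?_⟩
  · intro i k
    unfold HG_e
    split_ifs <;> simp
  · intro i
    unfold HG_e
    rw [if_neg]
    rintro (⟨hi, hk, h⟩ | h | h)
    · exact H.loopless.irrefl _ h
    · omega
    · omega
  · intro i hi
    exact_mod_cast hdegsum i hi
  · intro i j hij
    by_cases hj : j < N
    · have hi : i < N := by omega
      rw [hxi i hi, hxi j hj]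
      exact hσ _ _ (by rw [Fin.le_def]; exact hij)
    · rw [hxo j (by omega)]
      by_cases hi : i < N
      · rw [hxi i hi]; exact (hpos _).le
      · rw [hxo i (by omega)]
  · intro i hi
    rw [hxi i hi]
    exact hpos _
  · intro i hi
    exact HG_e_gr N hN H σ i N hi (Or.inl rfl)
  · intro i hi
    exact HG_e_gr N hN H σ i (N + 1) hi (Or.inr rfl)
  · intro A hA hAne
    by_cases hl : N - 1 ∈ A
    · refine ⟨N - 1, hl, N, ?_, ?_⟩
      · rw [Finset.mem_sdiff]
        refine ⟨by simp, fun h => ?_⟩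
        have := hA h
        simp at this
      · rw [HG_e_gr N hN H σ (N - 1) N (by omega) (Or.inl rfl), if_pos rfl]
    · by_contra hcon
      push Not at hcon
      apply hl
      obtain ⟨a, ha⟩ := hAne
      have haN : a < N := by simpa using hA ha
      have hcl := HG_closed H hc (fun v => (σ.symm v).val ∈ A) (by
        intro p q hpq hp
        by_contra hq
        have hqN : (σ.symm q).val ∈ range (N + 2) \ A := by
          rw [Finset.mem_sdiff]
          refine ⟨?_, hq⟩
          have := (σ.symm q).isLt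
          rw [Finset.mem_range]
          omega
        apply hcon _ hp _ hqN
        unfold HG_e
        rw [if_pos]
        refine Or.inl ⟨(σ.symm p).isLt, (σ.symm q).isLt, ?_⟩
        simpa using hpq) (σ ⟨a, haN⟩) (by simpa using ha) v0
      rw [← hlast] at hcl
      simpa using hcl
  · intro i hi
    have h1 := HG_sum N hN H σ i hi (fun k => HG_x N x σ k)
    have h2 : ∑ k ∈ range (N + 2), (HG_e N H σ i k : ℝ) * (HG_x N x σ i - HG_x N x σ k) =
        (∑ k ∈ range (N + 2), (HG_e N H σ i k : ℝ)) * HG_x N x σ i -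
          ∑ k ∈ range (N + 2), (HG_e N H σ i k : ℝ) * HG_x N x σ k := by
      rw [Finset.sum_mul, ← Finset.sum_sub_distrib]
      apply Finset.sum_congr rfl
      intro k _
      ring
    rw [h2, hdegsum i hi, h1]
    have h3 : ∑ u : Fin N, HG_i (H.Adj (σ ⟨i, hi⟩) u) (HG_x N x σ (σ.symm u).val) =
        lam * HG_x N x σ i := by
      rw [hxi i hi, ← heig']
      apply Finset.sum_congr rfl
      intro u _
      rw [hxi _ (σ.symm u).isLt]
      simp
    rw [h3, hxo N le_rfl, hxo (N + 1) (by omega), hth]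
    unfold HG_i
    split_ifs <;> ring

end Pool.Agent.T2H60.SX
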