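import Pool.Agent.T2H60.SX.Stm

/-!
# SX, package NE: numbers for ends and ideal blocks
-/

set_option autoImplicit false
open Finset

namespace Pool.Agent.T2H60.SX

lemma NE_cast {D : ℕ} (hD : 10 ^ 14 ≤ D) : (10 : ℝ) ^ 14 ≤ (D : ℝ) := by exact_mod_cast hD

lemma NE_big {d : ℝ} (hd : (10 : ℝ) ^ 14 ≤ d) : (100000000000000 : ℝ) ≤ d := le_trans (by norm_num) hd

lemma NE_le {a b : ℕ} (h : a + 1 ≤ b) : (a : ℝ) + 1 ≤ b := by
  have h1 := (Nat.cast_le (α := ℝ)).2 h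
  push_cast at h1
  exact h1

/-- `q` in terms of real numbers -/
lemma NE_q (D : ℕ) (τ : Ty) (s : ℝ) : q D τ s = s ^ 3 / 3 + al D τ * s ^ 2 +
    (((D : ℝ) + 1) ^ 2 / 6 - 4 + 6 / ((D : ℝ) + 1)) * s := rfl

lemma NE_six {d : ℝ} (hd : (10 : ℝ) ^ 14 ≤ d) : 0 ≤ 6 / (d + 1) ∧ 6 / (d + 1) ≤ 1 ∧ 6 / (d + 1) * (d + 1) = 6 := by
  have h : 0 < d + 1 := by linarith [show (0 : ℝ) ≤ 10 ^ 14 by norm_num]
  refine ⟨by positivity, ?_, by field_simp⟩
  rw [div_le_one h]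
  have := NE_big hd
  linarith

lemma NE_eta {d j : ℝ} (hd : (10 : ℝ) ^ 14 ≤ d) (hj : 0 ≤ j) (hj' : 1000 * j ≤ d) :
    0 ≤ (14 * j + 150) / d ∧ (14 * j + 150) / d ≤ 1 / 50 ∧
      (14 * j + 150) / d * (d + 1 + j) ≤ 101 / 100 * (14 * j + 150) := by
  have hd' := NE_big hd
  have hd0 : 0 < d := by linarith
  refine ⟨by positivity, ?_, ?_⟩
  · rw [div_le_iff₀ hd0]
    linarith
  · rw [div_mul_eq_mul_div, div_le_iff₀ hd0]
    have h : d + 1 + j ≤ 101 / 100 * d := by linarith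
    have h2 : 0 ≤ 14 * j + 150 := by linarith
    calc (14 * j + 150) * (d + 1 + j) ≤ (14 * j + 150) * (101 / 100 * d) := mul_le_mul_of_nonneg_left h h2
      _ = 101 / 100 * (14 * j + 150) * d := by ring

/-- nearly complete blocks: the constant term -/
lemma NE_nc {d j α e i : ℝ} (hd : (10 : ℝ) ^ 14 ≤ d) (hj : 1 ≤ j) (hi : 0 ≤ i)
    (he : e * (d + 1 + j) ≤ 101 / 100 * (14 * j + 150)) :
    (d + 1) * (d + 1) * j / 7 ≤ (d + 1 + j) ^ 3 / 3 + α * (d + 1 + j) ^ 2 + ((d + 1) ^ 2 / 6 - 4 + i) * (d + 1 + j) -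
      ((d + 1 + j) * (α + (d + 1) / 2 + e) + 5) * (d + 1 + j) := by
  have hd' := NE_big hd
  have e1 : (d + 1 + j) ^ 3 / 3 + α * (d + 1 + j) ^ 2 + ((d + 1) ^ 2 / 6 - 4 + i) * (d + 1 + j) -
      ((d + 1 + j) * (α + (d + 1) / 2 + e) + 5) * (d + 1 + j) =
      (d + 1 + j) * ((2 * (d + 1 + j) - (d + 1)) * j / 6 - e * (d + 1 + j) - 9 + i) := by ring
  rw [e1]
  have h1 : (d + 1) * j / 7 ≤ (2 * (d + 1 + j) - (d + 1)) * j / 6 - e * (d + 1 + j) - 9 + i := by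
    nlinarith
  have h2 : 0 ≤ (d + 1) * j / 7 := by positivity
  calc (d + 1) * (d + 1) * j / 7 = (d + 1) * ((d + 1) * j / 7) := by ring
    _ ≤ (d + 1 + j) * ((d + 1) * j / 7) := mul_le_mul_of_nonneg_right (by linarith) h2
    _ ≤ _ := mul_le_mul_of_nonneg_left h1 (by linarith)

/-- dense blocks, cuts of size two: the constant term -/
lemma NE_de2 {d m b i : ℝ} (hd : (10 : ℝ) ^ 14 ≤ d) (hi : 0 ≤ i) (hm : d + 1 ≤ m) (hb : 1 ≤ b)
    (h2 : d / 1000 ≤ m - (d + 1)) :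
    0 ≤ m ^ 2 / 3 + (-(d + 1) / 2 + b - d / 20000) * m + ((d + 1) ^ 2 / 6 - 4 + i) := by
  have hd' := NE_big hd
  have e1 : m ^ 2 / 3 + (-(d + 1) / 2 + b - d / 20000) * m + ((d + 1) ^ 2 / 6 - 4 + i) =
      (2 * m - (d + 1)) * (m - (d + 1)) / 6 + (b - d / 20000) * m - 4 + i := by ring
  rw [e1]
  have h3 : m * (d / 1000) ≤ (2 * m - (d + 1)) * (m - (d + 1)) := by
    apply mul_le_mul <;> linarith
  nlinarith

lemma NE_pl (D : ℕ) : al D Ty.pl = ((D : ℝ) - 1) / 2 := rfl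
lemma NE_mi (D : ℕ) : al D Ty.mi = ((D : ℝ) - 3) / 2 := rfl
lemma NE_fo (D : ℕ) : al D Ty.fo = ((D : ℝ) + 1) / 4 := rfl
lemma NE_ce (D : ℕ) : al D Ty.ce = 0 := rfl

lemma NE_Rc (D : ℕ) (τ : Ty) : 0 ≤ Rc D τ := by
  cases τ <;> unfold Rc <;> positivity

lemma NE_Rc2 (D : ℕ) (τ : Ty) : Rc D τ ≤ (D : ℝ) + 1 := by
  have h : (0 : ℝ) ≤ D := Nat.cast_nonneg D
  cases τ <;> unfold Rc <;> simp only <;> linarith

lemma NE_tgt (D : ℕ) : tgt D = - ((D : ℝ) + 1) ^ 2 / 3 - 3 / 2 * ((D : ℝ) + 1) := rfl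

/-- `cL τ`, `al τ` for cuts of size two -/
lemma NE_is2 (D : ℕ) {τ : Ty} (h : τ.is2) : al D τ = ((D : ℝ) - 5) / 2 + cL τ ∧ 1 ≤ cL τ ∧ cL τ ≤ 2 ∧
    cutc D τ = (D : ℝ) - 2 := by
  rcases h with rfl | rfl
  · refine ⟨?_, ?_, ?_, rfl⟩ <;> unfold cL <;> norm_num [NE_pl]
    ring
  · refine ⟨?_, ?_, ?_, rfl⟩ <;> unfold cL <;> norm_num [NE_mi]
    ring

lemma NE_n {D m : ℕ} (hm : D + 1 ≤ m) (h : D ≤ 1000 * (m - (D + 1))) : D + 1000 * (D + 1) ≤ 1000 * m := by omega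

/-- the constant term of a dense block -/
lemma NE_de (D : ℕ) (hD : 10 ^ 14 ≤ D) (τ : Ty) (m : ℕ) (hm : D + 1 ≤ m) (hm' : m < 2 * (D + 1))
    (h2 : τ.is2 → D < 1000 * (m - (D + 1))) :
    0 ≤ (m : ℝ) ^ 2 / 3 + (al D τ - (cutc D τ + (D : ℝ) / 20000)) * m +
      (((D : ℝ) + 1) ^ 2 / 6 - 4 + 6 / ((D : ℝ) + 1)) := by
  have hd := NE_cast hD
  obtain ⟨hi0, -, -⟩ := NE_six hd
  set d : ℝ := (D : ℝ) with hdd
  have hd' := NE_big hd
  have hm1 : d + 1 ≤ (m : ℝ) := NE_le hm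
  have key : τ.is2 → d / 1000 ≤ (m : ℝ) - (d + 1) := by
    intro h
    have h3 := h2 h
    have h4 : D ≤ 1000 * (m - (D + 1)) := h3.le
    have h5 : (D : ℝ) ≤ 1000 * ((m : ℝ) - ((D : ℝ) + 1)) := by
      have h6 : D + 1000 * (D + 1) ≤ 1000 * m := NE_n hm h4
      have h7 := (Nat.cast_le (α := ℝ)).2 h6
      push_cast at h7
      linarith
    rw [hdd]
    linarith
  cases τ with
  | pl =>
    have h3 := NE_de2 hd hi0 hm1 (by norm_num : (1 : ℝ) ≤ 2) (key (Or.inl rfl))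
    rw [NE_pl]
    unfold cutc
    simp only
    refine h3.trans (le_of_eq ?_)
    rw [← hdd]
    ring
  | mi =>
    have h3 := NE_de2 hd hi0 hm1 (le_refl (1 : ℝ)) (key (Or.inr rfl))
    rw [NE_mi]
    unfold cutc
    simp only
    refine h3.trans (le_of_eq ?_)
    rw [← hdd]
    ring
  | fo =>
    rw [NE_fo]
    unfold cutc
    simp only
    rw [← hdd]
    nlinarith
  | ce =>
    rw [NE_ce]
    unfold cutc
    simp only
    nlinarith

lemma NE_cutc (D : ℕ) (hD : 10 ^ 14 ≤ D) (τ : Ty) : 0 ≤ cutc D τ ∧ cutc D τ ≤ (D : ℝ) - 2 := by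
  have hd := NE_cast hD
  have hd' := NE_big hd
  cases τ <;> unfold cutc <;> simp only <;> constructor <;> linarith

/-- bounds for the constants of nearly complete blocks -/
lemma NE_G {d j x e : ℝ} (hd : (10 : ℝ) ^ 14 ≤ d) (hj : 0 ≤ j) (hj' : 1000 * j ≤ d) (hx : 0 ≤ x) (hx2 : x ≤ 2)
    (he : 0 ≤ e) (he2 : e ≤ 1 / 50) :
    0 ≤ (d + 1 + j) * (d - 2 + x + e) + 5 ∧ (d + 1 + j) * (d - 2 + x + e) + 5 ≤ 3 * d ^ 2 := by
  have hd' := NE_big hd
  have h1 : 0 ≤ (d + 1 + j) * (d - 2 + x + e) := mul_nonneg (by linarith) (by linarith)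
  have h2 : (d + 1 + j) * (d - 2 + x + e) ≤ (11 / 10 * d) * (11 / 10 * d) := by
    apply mul_le_mul <;> linarith
  constructor
  · linarith
  · nlinarith

theorem pNE : NE := by
  intro D hD
  have hd := NE_cast hD
  obtain ⟨hi0, hi1, hi2⟩ := NE_six hd
  have hd' := NE_big hd
  refine ⟨?_, ?_, ?_, ?_, ?_, ?_⟩
  · intro τ m G G' h
    cases h with
    | k =>
      refine ⟨le_rfl, by omega, ?_, ?_, le_rfl, by positivity, ?_, fun h => by cases h⟩
      · nlinarith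
      · nlinarith
      · rw [NE_q, NE_mi]
        unfold Rc
        simp only
        push_cast
        nlinarith
    | nc _ j h hj hj' h2 =>
      have hjr : (1 : ℝ) ≤ (j : ℝ) := by exact_mod_cast hj
      have hjr' : 1000 * (j : ℝ) ≤ (D : ℝ) := by exact_mod_cast hj'
      obtain ⟨a1, a2, a3, -⟩ := NE_is2 D h
      obtain ⟨e1, e2, e3⟩ := NE_eta hd (by linarith) hjr'
      obtain ⟨g1, g2⟩ := NE_G hd (by linarith) hjr' (by linarith) a3 e1 e2
      have h3 := NE_nc (α := al D τ) hd hjr hi0 e3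
      have h4 : al D τ + ((D : ℝ) + 1) / 2 = (D : ℝ) - 2 + cL τ := by rw [a1]; ring
      rw [h4] at h3
      have h5 : 0 ≤ ((D : ℝ) + 1) * ((D : ℝ) + 1) * (j : ℝ) / 7 := by positivity
      have h6 := NE_Rc D τ
      unfold eta
      refine ⟨by omega, by omega, g1, g2, le_rfl, by positivity, ?_, ?_⟩
      · rw [NE_q]
        push_cast
        linarith
      · intro hτ hmod
        exfalso
        have : j = 2 := by
          have h7 : (D + 1 + j) % (D + 1) = j := by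
            rw [Nat.add_mod_left, Nat.mod_eq_of_lt (by omega)]
          omega
        exact h2 ⟨hτ, this⟩
    | e2 =>
      have h3 : 300 / (D : ℝ) * (D : ℝ) = 300 := by field_simp
      have h4 : 0 ≤ 300 / (D : ℝ) := by positivity
      have h5 : 300 / (D : ℝ) ≤ 1 := by
        rw [div_le_one (by linarith)]
        linarith
      have key : (((D : ℝ) + 3) * ((D : ℝ) - 2) + 2 * ((D : ℝ) + 2) + 300 / (D : ℝ)) * ((D + 3 : ℕ) : ℝ) -
          2 * ((D : ℝ) + 2) ≤ q D Ty.pl ((D + 3 : ℕ) : ℝ) + tgt D := by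
        rw [NE_q, NE_pl, NE_tgt]
        push_cast
        nlinarith
      have h6 : tgt D ≤ 0 := by
        rw [NE_tgt]
        nlinarith
      refine ⟨by omega, by omega, ?_, ?_, by positivity, ?_, ?_, fun _ _ => key⟩
      · nlinarith
      · nlinarith
      · nlinarith
      · have h7 := NE_Rc D Ty.pl
        linarith
    | de _ _ hm hm' h2 =>
      have h3 := NE_de D hD τ m hm hm' h2
      obtain ⟨c1, c2⟩ := NE_cutc D hD τ
      have hm1 : (D : ℝ) + 1 ≤ (m : ℝ) := NE_le hm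
      have hm2 : (m : ℝ) ≤ 2 * (D : ℝ) + 2 := by
        have : m ≤ 2 * D + 2 := by omega
        exact_mod_cast this
      have h4 := NE_Rc D τ
      have hm0 : (0 : ℝ) ≤ (m : ℝ) := by linarith
      refine ⟨hm, hm', ?_, ?_, le_rfl, by positivity, ?_, ?_⟩
      · exact mul_nonneg hm0 (by linarith)
      · have h5 : (m : ℝ) * (cutc D τ + (D : ℝ) / 20000) ≤ (2 * (D : ℝ) + 2) * (11 / 10 * (D : ℝ)) := by
          apply mul_le_mul <;> linarith
        nlinarith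
      · have h5 := mul_nonneg hm0 h3
        rw [NE_q]
        nlinarith
      · intro hτ hmod
        exfalso
        have h5 := h2 (Or.inl hτ)
        have h6 : m % (D + 1) = m - (D + 1) := by
          rw [Nat.mod_eq_sub_mod hm, Nat.mod_eq_of_lt (by omega)]
        omega
  · intro s
    rw [NE_q, NE_q, NE_pl]
    linear_combination hi2
  · intro s
    rw [NE_q, NE_q, NE_mi]
    linear_combination hi2
  · intro s hs
    rw [NE_q, NE_q, NE_mi, NE_pl, NE_tgt]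
    unfold Rc
    simp only
    nlinarith
  · rw [NE_tgt]
    nlinarith
  · rw [NE_q, NE_pl, NE_tgt]
    nlinarith

end Pool.Agent.T2H60.SX
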