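import Pool.Agent.T2H60.SX.PNE

/-!
# SX, package NT: numbers for transitions
-/

set_option autoImplicit false
open Finset

namespace Pool.Agent.T2H60.SX

lemma NT_eq (D : ℕ) (τ' τ : Ty) (s m a c G : ℝ) :
    q D τ (s + m) - q D τ' s - s * (a * (s + m) + c * s) - G * (s + m) =
      (m + al D τ - al D τ' - a - c) * s ^ 2 + (m ^ 2 + 2 * al D τ * m - a * m - G) * s +
      (m ^ 3 / 3 + al D τ * m ^ 2 + (((D : ℝ) + 1) ^ 2 / 6 - 4 + 6 / ((D : ℝ) + 1)) * m - G * m) := by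
  rw [NE_q, NE_q]
  ring

/-- the conclusion from lower bounds of the three coefficients -/
lemma NT_wrap (D : ℕ) (τ' τ : Ty) (m : ℕ) (a c G : ℝ)
    (h1 : D + 1 ≤ m ∧ m < 2 * (D + 1) ∧ 0 ≤ a ∧ a ≤ 2 * (D : ℝ) ∧ 0 ≤ c ∧ c ≤ 3 ∧ 0 ≤ G ∧ G ≤ 3 * (D : ℝ) ^ 2)
    (h2 : 1 / (D : ℝ) ≤ (m : ℝ) + al D τ - al D τ' - a - c)
    (h3 : ∀ s : ℝ, (D : ℝ) + 1 ≤ s →
      0 ≤ ((m : ℝ) + al D τ - al D τ' - a - c) * s ^ 2 + ((m : ℝ) ^ 2 + 2 * al D τ * m - a * m - G) * s +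
        ((m : ℝ) ^ 3 / 3 + al D τ * (m : ℝ) ^ 2 + (((D : ℝ) + 1) ^ 2 / 6 - 4 + 6 / ((D : ℝ) + 1)) * m - G * m) +
        Rc D τ - Rc D τ')
    (h4 : τ = Ty.pl → ∀ s : ℝ, (D : ℝ) + 1 ≤ s →
      0 ≤ ((m : ℝ) + al D τ - al D τ' - a - c) * s ^ 2 + ((m : ℝ) ^ 2 + 2 * al D τ * m - a * m - G) * s +
        ((m : ℝ) ^ 3 / 3 + al D τ * (m : ℝ) ^ 2 + (((D : ℝ) + 1) ^ 2 / 6 - 4 + 6 / ((D : ℝ) + 1)) * m - G * m) +
        tgt D - Rc D τ') :
    (D + 1 ≤ m ∧ m < 2 * (D + 1) ∧ 0 ≤ a ∧ a ≤ 2 * (D : ℝ) ∧ 0 ≤ c ∧ c ≤ 3 ∧ 0 ≤ G ∧ G ≤ 3 * (D : ℝ) ^ 2) ∧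
    1 / (D : ℝ) ≤ (m : ℝ) + al D τ - al D τ' - a - c ∧
    ∀ s : ℝ, (D : ℝ) + 1 ≤ s →
      (q D τ' s + Rc D τ' + s * (a * (s + m) + c * s) + G * (s + m) ≤ q D τ (s + m) + Rc D τ) ∧
      (τ = Ty.pl → q D τ' s + Rc D τ' + s * (a * (s + m) + c * s) + G * (s + m) ≤ q D τ (s + m) + tgt D) := by
  refine ⟨h1, h2, fun s hs => ⟨?_, fun hτ => ?_⟩⟩
  · have h5 := h3 s hs
    rw [← NT_eq] at h5
    linarith
  · have h5 := h4 hτ s hs
    rw [← NT_eq] at h5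
    linarith

/-- combination of the bounds: `l ≥ 24/25`, `l1 ≥ 0`, `l0 ≥ P²/7` -/
lemma NT_c1 {d s l l1 l0 : ℝ} (hd : (10 : ℝ) ^ 14 ≤ d) (hs : d + 1 ≤ s) (h : 24 / 25 ≤ l) (h1 : 0 ≤ l1)
    (h0 : (d + 1) * (d + 1) / 7 ≤ l0) : 2 / 3 * (d + 1) ^ 2 + (d + 1) ^ 2 / 3 ≤ l * s ^ 2 + l1 * s + l0 := by
  have hd' := NE_big hd
  have h2 : (d + 1) ^ 2 ≤ s ^ 2 := pow_le_pow_left₀ (by linarith) hs 2
  have h3 : 24 / 25 * (d + 1) ^ 2 ≤ l * s ^ 2 := mul_le_mul h h2 (by positivity) (by linarith)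
  have h4 : 0 ≤ l1 * s := mul_nonneg h1 (by linarith)
  nlinarith

/-- `l ≥ d/1100`, the other coefficients nonnegative -/
lemma NT_c2 {d s l l1 l0 : ℝ} (hd : (10 : ℝ) ^ 14 ≤ d) (hs : d + 1 ≤ s) (h : d / 1100 ≤ l) (h1 : 0 ≤ l1)
    (h0 : 0 ≤ l0) : (d + 1) ^ 2 / 3 + 5 / 2 * (d + 1) ≤ l * s ^ 2 + l1 * s + l0 := by
  have hd' := NE_big hd
  have h2 : (d + 1) ^ 2 ≤ s ^ 2 := pow_le_pow_left₀ (by linarith) hs 2
  have h3 : d / 1100 * (d + 1) ^ 2 ≤ l * s ^ 2 := mul_le_mul h h2 (by positivity) (by linarith)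
  have h4 : 0 ≤ l1 * s := mul_nonneg h1 (by linarith)
  have h5 : 1000 * (d + 1) ^ 2 ≤ d / 1100 * (d + 1) ^ 2 := mul_le_mul_of_nonneg_right (by linarith) (by positivity)
  nlinarith

lemma NT_inv {d x : ℝ} (hd : (10 : ℝ) ^ 14 ≤ d) (h : d / 1100 ≤ x) : 1 / d ≤ x := by
  have hd' := NE_big hd
  refine le_trans ?_ h
  rw [div_le_iff₀ (by linarith)]
  nlinarith

lemma NT_inv2 {d x : ℝ} (hd : (10 : ℝ) ^ 14 ≤ d) (h : 1 / 2 ≤ x) : 1 / d ≤ x := by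
  have hd' := NE_big hd
  refine le_trans ?_ h
  rw [div_le_iff₀ (by linarith)]
  linarith

lemma NT_al (D : ℕ) {τ : Ty} (h : τ.is2) : al D τ ≤ ((D : ℝ) - 1) / 2 ∧ ((D : ℝ) - 3) / 2 ≤ al D τ := by
  rcases h with rfl | rfl
  · rw [NE_pl]; constructor <;> linarith
  · rw [NE_mi]; constructor <;> linarith

lemma NT_al' (D : ℕ) (hD : 10 ^ 14 ≤ D) (τ : Ty) : al D τ ≤ ((D : ℝ) - 1) / 2 := by
  have hd := NE_big (NE_cast hD)
  cases τ with
  | pl => rw [NE_pl]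
  | mi => rw [NE_mi]; linarith
  | fo => rw [NE_fo]; linarith
  | ce => rw [NE_ce]; linarith

/-- bypass blocks -/
lemma NT_bp {d J e i s l : ℝ} (hd : (10 : ℝ) ^ 14 ≤ d) (hJ : 0 ≤ J) (hJ' : 1000 * J ≤ d) (hi : 0 ≤ i)
    (he : e * (d + 1 + J) ≤ 101 / 100 * (14 * J + 150)) (hs : d + 1 ≤ s) (hl : J + 2 ≤ l) :
    d + 1 ≤ l * s ^ 2 + ((d + 1 + J) ^ 2 + 2 * ((d - 3) / 2) * (d + 1 + J) - (d - 2) * (d + 1 + J) -
        ((d + 1 + J) * (d + e) + 5)) * s +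
      ((d + 1 + J) ^ 3 / 3 + (d - 3) / 2 * (d + 1 + J) ^ 2 + ((d + 1) ^ 2 / 6 - 4 + i) * (d + 1 + J) -
        ((d + 1 + J) * (d + e) + 5) * (d + 1 + J)) := by
  have hd' := NE_big hd
  have e1 : (d + 1 + J) ^ 2 + 2 * ((d - 3) / 2) * (d + 1 + J) - (d - 2) * (d + 1 + J) -
      ((d + 1 + J) * (d + e) + 5) = (d + 1 + J) * J - e * (d + 1 + J) - 5 := by ring
  have e2 : (d + 1 + J) ^ 3 / 3 + (d - 3) / 2 * (d + 1 + J) ^ 2 + ((d + 1) ^ 2 / 6 - 4 + i) * (d + 1 + J) -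
      ((d + 1 + J) * (d + e) + 5) * (d + 1 + J) =
      (d + 1 + J) * ((2 * (d + 1 + J) - (d + 1)) * J / 6 - (d + 1 + J) - e * (d + 1 + J) - 9 + i) := by ring
  rw [e1, e2]
  set P : ℝ := d + 1 with hP
  have h1 : -157 ≤ (P + J) * J - e * (P + J) - 5 := by nlinarith
  have h2 : -(157 * s) ≤ ((P + J) * J - e * (P + J) - 5) * s := by nlinarith
  have h3 : -(P + J) - (15 * J + 161) ≤ (2 * (P + J) - P) * J / 6 - (P + J) - e * (P + J) - 9 + i := by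
    have h4 : 0 ≤ (2 * (P + J) - P) * J / 6 := by
      have : 0 ≤ (2 * (P + J) - P) * J := mul_nonneg (by linarith) hJ
      linarith
    linarith
  have h4 : (P + J) * (-(P + J) - (15 * J + 161)) ≤
      (P + J) * ((2 * (P + J) - P) * J / 6 - (P + J) - e * (P + J) - 9 + i) :=
    mul_le_mul_of_nonneg_left h3 (by linarith)
  have h5 : P * P ≤ s * s := mul_le_mul hs hs (by linarith) (by linarith)
  have h6 : (J + 2) * s ^ 2 ≤ l * s ^ 2 := mul_le_mul_of_nonneg_right hl (sq_nonneg s)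
  have h7 : J * (P * P) ≤ J * (s * s) := mul_le_mul_of_nonneg_left h5 hJ
  have h8 : P * (2 * P - 157) ≤ s * (2 * s - 157) := by nlinarith
  have h9 : J * J ≤ J * (P / 1000) := mul_le_mul_of_nonneg_left (by linarith) hJ
  have h10 : 0 ≤ J * (P * (P - 100)) := mul_nonneg hJ (mul_nonneg (by linarith) (by linarith))
  nlinarith

/-- blocks `m1` -/
lemma NT_m1 {d w s l : ℝ} (hd : (10 : ℝ) ^ 14 ≤ d) (hw : 1 ≤ (d + 1) * w) (hs : d + 1 ≤ s) (hl : 2 * w ≤ l) :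
    2 * (d + 1) ≤ l * s ^ 2 + (2 * ((d + 1) * w)) * s + ((d + 1) * ((d + 1) * w) - 4 * (d + 1) + 6) + (d + 1) := by
  have hd' := NE_big hd
  have hw0 : 0 < w := by
    by_contra h
    push Not at h
    nlinarith
  have h1 : 2 * w * s ^ 2 ≤ l * s ^ 2 := mul_le_mul_of_nonneg_right hl (sq_nonneg s)
  have h2 : (d + 1) * w * s ≤ w * s * s := by
    have := mul_le_mul_of_nonneg_left hs (mul_nonneg hw0.le (show 0 ≤ s by linarith))
    linarith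
  have h3 : s ≤ (d + 1) * w * s := by nlinarith
  have h4 : d + 1 ≤ (d + 1) * ((d + 1) * w) := by nlinarith
  nlinarith

/-- blocks `m3` -/
lemma NT_m3 {d w s l : ℝ} (hd : (10 : ℝ) ^ 14 ≤ d) (hw : 2 ≤ (d + 1) * w) (hs : d + 1 ≤ s) (hl : 2 * w ≤ l) :
    d + 1 ≤ l * s ^ 2 + ((d + 1) * w - 1) * s + (-5 * (d + 1) + 6) + (d + 1) := by
  have hd' := NE_big hd
  have hw0 : 0 < w := by
    by_contra h
    push Not at h
    nlinarith
  have h1 : 2 * w * s ^ 2 ≤ l * s ^ 2 := mul_le_mul_of_nonneg_right hl (sq_nonneg s)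
  have h2 : (d + 1) * w * s ≤ w * s * s := by
    have := mul_le_mul_of_nonneg_left hs (mul_nonneg hw0.le (show 0 ≤ s by linarith))
    linarith
  have h3 : 2 * s ≤ (d + 1) * w * s := by nlinarith
  nlinarith

lemma NT_k1 {d : ℝ} (hd : (10 : ℝ) ^ 14 ≤ d) :
    0 ≤ (d - 2) / (d - 1) + 1 / d ^ 4 ∧ (d - 2) / (d - 1) + 1 / d ^ 4 ≤ 1 ∧
      1 ≤ (d + 1) * (1 - ((d - 2) / (d - 1) + 1 / d ^ 4)) := by
  have hd' := NE_big hd
  have hd1 : 0 < d - 1 := by linarith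
  have e1 : (d - 2) / (d - 1) = 1 - 1 / (d - 1) := by field_simp; ring
  have h1 : 0 < 1 / (d - 1) := by positivity
  have h2 : 1 / (d - 1) ≤ 1 := by rw [div_le_one hd1]; linarith
  have h3 : 0 < 1 / d ^ 4 := by positivity
  have h4 : 1 / d ^ 4 * (d + 1) ≤ 1 / (d - 1) := by
    rw [div_mul_eq_mul_div, div_le_div_iff₀ (by positivity) hd1]
    nlinarith [pow_pos (show 0 < d by linarith) 3, pow_pos (show 0 < d by linarith) 2, sq_nonneg (d ^ 2 - 1)]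
  have h5 : 1 / d ^ 4 ≤ 1 / (d - 1) := by nlinarith
  have h6 : (d + 1) * (1 / (d - 1)) = 1 + 2 * (1 / (d - 1)) := by field_simp; ring
  rw [e1]
  refine ⟨by linarith, by linarith, ?_⟩
  nlinarith

lemma NT_k3 {d : ℝ} (hd : (10 : ℝ) ^ 14 ≤ d) :
    0 ≤ (d - 2) / d + 1 / d ^ 4 ∧ (d - 2) / d + 1 / d ^ 4 ≤ 1 ∧
      2 ≤ (d + 1) * (1 - ((d - 2) / d + 1 / d ^ 4)) := by
  have hd' := NE_big hd
  have hd1 : 0 < d := by linarith
  have e1 : (d - 2) / d = 1 - 2 * (1 / d) := by field_simp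
  have h1 : 0 < 1 / d := by positivity
  have h2 : 1 / d ≤ 1 / 2 := by rw [div_le_div_iff₀ hd1 (by norm_num)]; linarith
  have h3 : 0 < 1 / d ^ 4 := by positivity
  have h4 : 1 / d ^ 4 * (d + 1) ≤ 2 * (1 / d) := by
    rw [div_mul_eq_mul_div, mul_one_div, div_le_div_iff₀ (by positivity) hd1]
    nlinarith [pow_pos (show 0 < d by linarith) 3, pow_pos (show 0 < d by linarith) 2, sq_nonneg (d ^ 2 - 1)]
  have h5 : 1 / d ^ 4 ≤ 2 * (1 / d) := by nlinarith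
  have h6 : (d + 1) * (1 / d) = 1 + 1 / d := by field_simp
  rw [e1]
  refine ⟨by linarith, by linarith, ?_⟩
  nlinarith

lemma NT_not2 {τ : Ty} (h : τ = Ty.fo ∨ τ = Ty.ce) : ¬ τ.is2 := by
  rcases h with rfl | rfl <;> rintro (h | h) <;> cases h

lemma NT_Rc0 (D : ℕ) {τ : Ty} (h : τ = Ty.fo ∨ τ = Ty.ce) : Rc D τ = 0 := by
  rcases h with rfl | rfl <;> rfl

/-- dense transitions: lower bounds for the coefficients -/
lemma NT_de (D : ℕ) (hD : 10 ^ 14 ≤ D) (τ' τ : Ty) (m : ℕ) (hm : D + 1 ≤ m) (hm' : m < 2 * (D + 1))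
    (h2 : τ'.is2 → τ.is2 → D < 1000 * (m - (D + 1))) :
    (D : ℝ) / 1100 ≤ (m : ℝ) + al D τ - al D τ' - (cutc D τ + (D : ℝ) / 20000) - 0 ∧
    ∀ s : ℝ, (D : ℝ) + 1 ≤ s →
      Rc D τ' + ((D : ℝ) + 1) ^ 2 / 3 + 3 / 2 * ((D : ℝ) + 1) ≤
        ((m : ℝ) + al D τ - al D τ' - (cutc D τ + (D : ℝ) / 20000) - 0) * s ^ 2 +
          ((m : ℝ) ^ 2 + 2 * al D τ * m - (cutc D τ + (D : ℝ) / 20000) * m -
            (m : ℝ) * (cutc D τ + (D : ℝ) / 20000)) * s +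
        ((m : ℝ) ^ 3 / 3 + al D τ * (m : ℝ) ^ 2 + (((D : ℝ) + 1) ^ 2 / 6 - 4 + 6 / ((D : ℝ) + 1)) * m -
          (m : ℝ) * (cutc D τ + (D : ℝ) / 20000) * m) := by
  have hd := NE_cast hD
  have hd' := NE_big hd
  obtain ⟨hi0, -, -⟩ := NE_six hd
  have hm1 : (D : ℝ) + 1 ≤ (m : ℝ) := NE_le hm
  have hm2 : (m : ℝ) ≤ 2 * (D : ℝ) + 2 := by
    have h3 : m ≤ 2 * D + 2 := by omega
    have h4 := (Nat.cast_le (α := ℝ)).2 h3
    push_cast at h4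
    exact h4
  have hm0 : (0 : ℝ) ≤ (m : ℝ) := by linarith
  have hR := NE_Rc2 D τ'
  have hA := NT_al' D hD τ'
  -- the easy case
  have easy : (D : ℝ) / 1100 ≤ (m : ℝ) + al D τ - al D τ' - (cutc D τ + (D : ℝ) / 20000) - 0 →
      0 ≤ (m : ℝ) + 2 * (al D τ - (cutc D τ + (D : ℝ) / 20000)) →
      (τ.is2 → D < 1000 * (m - (D + 1))) → ∀ s : ℝ, (D : ℝ) + 1 ≤ s →
      Rc D τ' + ((D : ℝ) + 1) ^ 2 / 3 + 3 / 2 * ((D : ℝ) + 1) ≤
        ((m : ℝ) + al D τ - al D τ' - (cutc D τ + (D : ℝ) / 20000) - 0) * s ^ 2 +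
          ((m : ℝ) ^ 2 + 2 * al D τ * m - (cutc D τ + (D : ℝ) / 20000) * m -
            (m : ℝ) * (cutc D τ + (D : ℝ) / 20000)) * s +
        ((m : ℝ) ^ 3 / 3 + al D τ * (m : ℝ) ^ 2 + (((D : ℝ) + 1) ^ 2 / 6 - 4 + 6 / ((D : ℝ) + 1)) * m -
          (m : ℝ) * (cutc D τ + (D : ℝ) / 20000) * m) := by
    intro k1 k2 k3 s hs
    have k4 := mul_nonneg hm0 (NE_de D hD τ m hm hm' k3)
    have k5 := mul_nonneg hm0 k2
    have k6 := NT_c2 (l1 := (m : ℝ) ^ 2 + 2 * al D τ * m - (cutc D τ + (D : ℝ) / 20000) * m -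
            (m : ℝ) * (cutc D τ + (D : ℝ) / 20000)) (l0 := (m : ℝ) ^ 3 / 3 + al D τ * (m : ℝ) ^ 2 +
            (((D : ℝ) + 1) ^ 2 / 6 - 4 + 6 / ((D : ℝ) + 1)) * m -
            (m : ℝ) * (cutc D τ + (D : ℝ) / 20000) * m) hd hs k1 (by linarith) (by linarith)
    linarith
  by_cases hτ : τ.is2
  · obtain ⟨a1, a2, a3, a4⟩ := NE_is2 D hτ
    by_cases hτ' : τ'.is2
    · have h3 := h2 hτ' hτ
      have h4 : (D : ℝ) / 1000 ≤ (m : ℝ) - ((D : ℝ) + 1) := by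
        have h6 := (Nat.cast_le (α := ℝ)).2 (NE_n hm h3.le)
        push_cast at h6
        linarith
      have k1 : (D : ℝ) / 1100 ≤ (m : ℝ) + al D τ - al D τ' - (cutc D τ + (D : ℝ) / 20000) - 0 := by
        rw [a4, a1]
        linarith
      refine ⟨k1, easy k1 ?_ fun _ => h3⟩
      rw [a4, a1]
      linarith
    · have hτ2 : τ' = Ty.fo ∨ τ' = Ty.ce := by
        cases τ' with
        | pl => exact absurd (Or.inl rfl) hτ'
        | mi => exact absurd (Or.inr rfl) hτ'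
        | fo => exact Or.inl rfl
        | ce => exact Or.inr rfl
      have hR0 := NT_Rc0 D hτ2
      have hA2 : al D τ' ≤ ((D : ℝ) + 1) / 4 := by
        rcases hτ2 with rfl | rfl
        · rw [NE_fo]
        · rw [NE_ce]; linarith
      have k1 : (D : ℝ) / 5 ≤ (m : ℝ) + al D τ - al D τ' - (cutc D τ + (D : ℝ) / 20000) - 0 := by
        rw [a4, a1]
        linarith
      refine ⟨by linarith, fun s hs => ?_⟩
      rw [hR0]
      have hs0 : 0 ≤ s := by linarith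
      have hms : (m : ℝ) ≤ 2 * s := by linarith
      set l : ℝ := (m : ℝ) + al D τ - al D τ' - (cutc D τ + (D : ℝ) / 20000) - 0 with hl
      have k2 : (D : ℝ) / 5 * s ^ 2 ≤ l * s ^ 2 := mul_le_mul_of_nonneg_right k1 (sq_nonneg s)
      have e1 : (m : ℝ) ^ 2 + 2 * al D τ * m - (cutc D τ + (D : ℝ) / 20000) * m -
            (m : ℝ) * (cutc D τ + (D : ℝ) / 20000) =
            m * ((m : ℝ) - ((D : ℝ) + 1) + 2 * cL τ - (D : ℝ) / 10000) := by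
        rw [a4, a1]; ring
      have e2 : (m : ℝ) ^ 3 / 3 + al D τ * (m : ℝ) ^ 2 + (((D : ℝ) + 1) ^ 2 / 6 - 4 + 6 / ((D : ℝ) + 1)) * m -
            (m : ℝ) * (cutc D τ + (D : ℝ) / 20000) * m =
            m * ((2 * (m : ℝ) - ((D : ℝ) + 1)) * ((m : ℝ) - ((D : ℝ) + 1)) / 6 + (cL τ - (D : ℝ) / 20000) * m - 4 +
              6 / ((D : ℝ) + 1)) := by
        rw [a4, a1]; ring
      rw [e1, e2]
      have k3 : (m : ℝ) * (-((D : ℝ) / 10000)) ≤ m * ((m : ℝ) - ((D : ℝ) + 1) + 2 * cL τ - (D : ℝ) / 10000) :=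
        mul_le_mul_of_nonneg_left (by linarith) hm0
      have k4 : -(2 * s * ((D : ℝ) / 10000)) ≤ (m : ℝ) * (-((D : ℝ) / 10000)) := by nlinarith
      have k5 : -(2 * s * ((D : ℝ) / 10000)) * s ≤
          m * ((m : ℝ) - ((D : ℝ) + 1) + 2 * cL τ - (D : ℝ) / 10000) * s :=
        mul_le_mul_of_nonneg_right (k4.trans k3) hs0
      have k6 : -((D : ℝ) / 20000 * (2 * s) + 4) ≤ (2 * (m : ℝ) - ((D : ℝ) + 1)) * ((m : ℝ) - ((D : ℝ) + 1)) / 6 +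
          (cL τ - (D : ℝ) / 20000) * m - 4 + 6 / ((D : ℝ) + 1) := by
        have k7 : 0 ≤ (2 * (m : ℝ) - ((D : ℝ) + 1)) * ((m : ℝ) - ((D : ℝ) + 1)) :=
          mul_nonneg (by linarith) (by linarith)
        have k8 : 0 ≤ cL τ * m := mul_nonneg (by linarith) hm0
        have k9 : (D : ℝ) / 20000 * m ≤ (D : ℝ) / 20000 * (2 * s) := mul_le_mul_of_nonneg_left hms (by positivity)
        linarith
      have k7 : (m : ℝ) * (-((D : ℝ) / 20000 * (2 * s) + 4)) ≤ m * ((2 * (m : ℝ) - ((D : ℝ) + 1)) *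
          ((m : ℝ) - ((D : ℝ) + 1)) / 6 + (cL τ - (D : ℝ) / 20000) * m - 4 + 6 / ((D : ℝ) + 1)) :=
        mul_le_mul_of_nonneg_left k6 hm0
      have k8 : -(2 * s * ((D : ℝ) / 20000 * (2 * s) + 4)) ≤ (m : ℝ) * (-((D : ℝ) / 20000 * (2 * s) + 4)) := by
        have : (m : ℝ) * ((D : ℝ) / 20000 * (2 * s) + 4) ≤ 2 * s * ((D : ℝ) / 20000 * (2 * s) + 4) :=
          mul_le_mul_of_nonneg_right hms (by positivity)
        linarith
      have k9 : ((D : ℝ) + 1) ^ 2 ≤ s ^ 2 := pow_le_pow_left₀ (by linarith) hs 2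
      have k10 : 1000 * s ^ 2 ≤ (D : ℝ) / 10 * s ^ 2 := mul_le_mul_of_nonneg_right (by linarith) (sq_nonneg s)
      nlinarith
  · have k3 : τ.is2 → D < 1000 * (m - (D + 1)) := fun h => absurd h hτ
    have hτ2 : τ = Ty.fo ∨ τ = Ty.ce := by
      cases τ with
      | pl => exact absurd (Or.inl rfl) hτ
      | mi => exact absurd (Or.inr rfl) hτ
      | fo => exact Or.inl rfl
      | ce => exact Or.inr rfl
    have k1 : (D : ℝ) / 1100 ≤ (m : ℝ) + al D τ - al D τ' - (cutc D τ + (D : ℝ) / 20000) - 0 := by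
      rcases hτ2 with rfl | rfl
      · rw [NE_fo]; unfold cutc; simp only; linarith
      · rw [NE_ce]; unfold cutc; simp only; linarith
    refine ⟨k1, easy k1 ?_ k3⟩
    rcases hτ2 with rfl | rfl
    · rw [NE_fo]; unfold cutc; simp only; linarith
    · rw [NE_ce]; unfold cutc; simp only; linarith

theorem pNT : NT := by
  intro D hD τ' τ m a c G h
  have hd := NE_cast hD
  obtain ⟨hi0, hi1, hi2⟩ := NE_six hd
  have hd' := NE_big hd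
  have hR0' := NE_Rc D τ'
  have hR1' := NE_Rc2 D τ'
  cases h with
  | nc _ j cR h' h hj hj' hc =>
    have hjr : (1 : ℝ) ≤ (j : ℝ) := by exact_mod_cast hj
    have hjr' : 1000 * (j : ℝ) ≤ (D : ℝ) := by exact_mod_cast hj'
    obtain ⟨a1, a2, a3, -⟩ := NE_is2 D h
    obtain ⟨b1, b2, b3, -⟩ := NE_is2 D h'
    obtain ⟨e1, e2, e3⟩ := NE_eta hd (by linarith) hjr'
    obtain ⟨g1, g2⟩ := NE_G hd (by linarith) hjr' (by linarith) a3 e1 e2
    have h3 := NE_nc (α := al D τ) hd hjr hi0 e3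
    have h4 : al D τ + ((D : ℝ) + 1) / 2 = (D : ℝ) - 2 + cL τ := by rw [a1]; ring
    rw [h4] at h3
    have hR := NE_Rc D τ
    have hcc : al D τ' + cR ≤ ((D : ℝ) + 1) / 2 ∧ 1 ≤ cR ∧ cR ≤ 2 := by
      rcases hc with hc | ⟨hc, hc'⟩
      · have := (NT_al D h').1
        refine ⟨by linarith, by linarith, by linarith⟩
      · rw [hc', NE_mi, hc]
        refine ⟨by linarith, by norm_num, le_rfl⟩
    obtain ⟨c1, c2, c3⟩ := hcc
    have key : ∀ s : ℝ, (D : ℝ) + 1 ≤ s → 2 / 3 * ((D : ℝ) + 1) ^ 2 + ((D : ℝ) + 1) ^ 2 / 3 ≤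
        (((D + 1 + j : ℕ) : ℝ) + al D τ - al D τ' - ((D : ℝ) - 2 + cL τ + eta D j) - (cR + eta D j)) * s ^ 2 +
        (((D + 1 + j : ℕ) : ℝ) ^ 2 + 2 * al D τ * ((D + 1 + j : ℕ) : ℝ) -
          ((D : ℝ) - 2 + cL τ + eta D j) * ((D + 1 + j : ℕ) : ℝ) -
          (((D : ℝ) + 1 + j) * ((D : ℝ) - 2 + cL τ + eta D j) + 5)) * s +
        (((D + 1 + j : ℕ) : ℝ) ^ 3 / 3 + al D τ * ((D + 1 + j : ℕ) : ℝ) ^ 2 +
          (((D : ℝ) + 1) ^ 2 / 6 - 4 + 6 / ((D : ℝ) + 1)) * ((D + 1 + j : ℕ) : ℝ) -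
          (((D : ℝ) + 1 + j) * ((D : ℝ) - 2 + cL τ + eta D j) + 5) * ((D + 1 + j : ℕ) : ℝ)) := by
      intro s hs
      unfold eta
      push_cast
      refine NT_c1 hd hs ?_ ?_ ?_
      · linarith
      · have h5 : ((D : ℝ) + 1 + j) ^ 2 + 2 * al D τ * ((D : ℝ) + 1 + j) -
          ((D : ℝ) - 2 + cL τ + (14 * (j : ℝ) + 150) / D) * ((D : ℝ) + 1 + j) -
          (((D : ℝ) + 1 + j) * ((D : ℝ) - 2 + cL τ + (14 * (j : ℝ) + 150) / D) + 5) =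
          ((D : ℝ) + 1 + j) * (j - 2 * ((14 * (j : ℝ) + 150) / D)) - 5 := by
          rw [a1]; ring
        rw [h5]
        have h6 : ((D : ℝ) + 1 + j) * (24 / 25) ≤ ((D : ℝ) + 1 + j) * (j - 2 * ((14 * (j : ℝ) + 150) / D)) :=
          mul_le_mul_of_nonneg_left (by linarith) (by linarith)
        linarith
      · refine le_trans ?_ h3
        have h5 : ((D : ℝ) + 1) * ((D : ℝ) + 1) * 1 ≤ ((D : ℝ) + 1) * ((D : ℝ) + 1) * j :=
          mul_le_mul_of_nonneg_left hjr (by positivity)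
        linarith
    have hsq : 1000 * ((D : ℝ) + 1) ≤ ((D : ℝ) + 1) ^ 2 := by nlinarith
    refine NT_wrap D _ _ _ _ _ _ ⟨by omega, by omega, ?_, ?_, ?_, ?_, g1, g2⟩ ?_ ?_ ?_
    · unfold eta; linarith
    · unfold eta; linarith
    · unfold eta; linarith
    · unfold eta; linarith
    · refine NT_inv2 hd ?_
      unfold eta
      push_cast
      linarith
    · intro s hs
      have := key s hs
      linarith
    · intro _ s hs
      have := key s hs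
      rw [NE_tgt]
      linarith
  | bp j h' hj' =>
    have hjr : (0 : ℝ) ≤ (j : ℝ) := Nat.cast_nonneg j
    have hjr' : 1000 * (j : ℝ) ≤ (D : ℝ) := by exact_mod_cast hj'
    obtain ⟨e1, e2, e3⟩ := NE_eta hd hjr hjr'
    have hA := (NT_al D h').1
    have hl : (j : ℝ) + 2 ≤ ((D + 1 + j : ℕ) : ℝ) + al D Ty.mi - al D τ' - ((D : ℝ) - 2) - 0 := by
      rw [NE_mi]
      push_cast
      linarith
    refine NT_wrap D _ _ _ _ _ _ ⟨by omega, by omega, by linarith, by linarith, le_rfl, by norm_num, ?_, ?_⟩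
      ?_ ?_ ?_
    · unfold eta
      have : 0 ≤ ((D : ℝ) + 1 + j) * ((D : ℝ) + (14 * (j : ℝ) + 150) / D) :=
        mul_nonneg (by linarith) (by linarith)
      linarith
    · unfold eta
      have h2 : ((D : ℝ) + 1 + j) * ((D : ℝ) + (14 * (j : ℝ) + 150) / D) ≤ (11 / 10 * (D : ℝ)) * (11 / 10 * (D : ℝ)) := by
        apply mul_le_mul <;> linarith
      nlinarith
    · refine NT_inv2 hd ?_
      linarith
    · intro s hs
      have h5 := NT_bp hd hjr hjr' hi0 e3 hs hl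
      have h6 : Rc D Ty.mi = (D : ℝ) + 1 := rfl
      rw [NE_mi] at h5 ⊢
      rw [h6]
      unfold eta
      push_cast at h5 ⊢
      linarith
    · intro hτ
      cases hτ
  | m1 h' =>
    obtain ⟨k0, k1, k2⟩ := NT_k1 hd
    set k : ℝ := ((D : ℝ) - 2) / ((D : ℝ) - 1) + 1 / (D : ℝ) ^ 4 with hk
    have hw : 1 / (D : ℝ) ≤ 2 * (1 - k) := by
      rw [div_le_iff₀ (by linarith)]
      nlinarith
    have h6 : Rc D Ty.mi = (D : ℝ) + 1 := rfl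
    have hA := (NT_al D h').1
    have hl : 2 * (1 - k) ≤ ((D + 1 : ℕ) : ℝ) + al D Ty.mi - al D τ' - ((D : ℝ) - 2 + k) - k := by
      rw [NE_mi]
      push_cast
      linarith
    refine NT_wrap D _ _ _ _ _ _ ⟨le_rfl, by omega, by linarith, by linarith, k0, by linarith, ?_, ?_⟩
      ?_ ?_ ?_
    · exact mul_nonneg (by linarith) (by linarith)
    · have h2 : ((D : ℝ) + 1) * ((D : ℝ) - 2 + k) ≤ (11 / 10 * (D : ℝ)) * (11 / 10 * (D : ℝ)) := by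
        apply mul_le_mul <;> linarith
      nlinarith
    · exact hw.trans hl
    · intro s hs
      have h5 := NT_m1 hd k2 hs hl
      rw [NE_mi] at h5 ⊢
      rw [h6]
      push_cast at h5 ⊢
      nlinarith
    · intro hτ
      cases hτ
  | m3 h' =>
    obtain ⟨k0, k1, k2⟩ := NT_k3 hd
    set k : ℝ := ((D : ℝ) - 2) / (D : ℝ) + 1 / (D : ℝ) ^ 4 with hk
    have hw : 1 / (D : ℝ) ≤ 2 * (1 - k) := by
      rw [div_le_iff₀ (by linarith)]
      nlinarith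
    have h6 : Rc D Ty.mi = (D : ℝ) + 1 := rfl
    have hA := (NT_al D h').1
    have hl : 2 * (1 - k) ≤ ((D + 1 : ℕ) : ℝ) + al D Ty.mi - al D τ' - ((D : ℝ) - 2 + k) - k := by
      rw [NE_mi]
      push_cast
      linarith
    refine NT_wrap D _ _ _ _ _ _ ⟨le_rfl, by omega, by linarith, by linarith, k0, by linarith, ?_, ?_⟩
      ?_ ?_ ?_
    · nlinarith
    · nlinarith
    · exact hw.trans hl
    · intro s hs
      have h5 := NT_m3 hd k2 hs hl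
      rw [NE_mi] at h5 ⊢
      rw [h6]
      push_cast at h5 ⊢
      nlinarith
    · intro hτ
      cases hτ
  | de _ _ hm hm' h2 =>
    obtain ⟨k1, k2⟩ := NT_de D hD τ' τ m hm hm' h2
    obtain ⟨c1, c2⟩ := NE_cutc D hD τ
    have hm1 : (D : ℝ) + 1 ≤ (m : ℝ) := NE_le hm
    have hm2 : (m : ℝ) ≤ 2 * (D : ℝ) + 2 := by
      have h3 : m ≤ 2 * D + 2 := by omega
      have h4 := (Nat.cast_le (α := ℝ)).2 h3
      push_cast at h4
      exact h4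
    have hm0 : (0 : ℝ) ≤ (m : ℝ) := by linarith
    have hR := NE_Rc D τ
    refine NT_wrap D _ _ _ _ _ _ ⟨hm, hm', by linarith, by linarith, le_rfl, by norm_num, ?_, ?_⟩ ?_ ?_ ?_
    · exact mul_nonneg hm0 (by linarith)
    · have h5 : (m : ℝ) * (cutc D τ + (D : ℝ) / 20000) ≤ (2 * (D : ℝ) + 2) * (11 / 10 * (D : ℝ)) := by
        apply mul_le_mul <;> linarith
      nlinarith
    · exact NT_inv hd k1
    · intro s hs
      have := k2 s hs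
      have h7 : 0 ≤ ((D : ℝ) + 1) ^ 2 / 3 + 3 / 2 * ((D : ℝ) + 1) := by positivity
      linarith
    · intro _ s hs
      have := k2 s hs
      rw [NE_tgt]
      linarith

end Pool.Agent.T2H60.SX
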