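import Pool.Agent.T2H60.SX.Stm

/-! # Package TI : ideal blocks at T-level -/

set_option autoImplicit false

namespace Pool.Agent.T2H60.SX

/-- a resistance -/
theorem TI_res (B C : ℝ) (hB : 1 ≤ B) (hC : 0 ≤ C) : ∃ C' : ℝ, 0 ≤ C' ∧ ∃ t0 : ℝ, 0 < t0 ∧ ∀ t : ℝ,
    0 < t → t ≤ t0 → ∀ s Q a u Y : ℝ, 1 ≤ s → s ≤ B → |Q| ≤ B → 0 ≤ a → a ≤ B → 0 ≤ u → 0 ≤ Y →
    Y ≤ u * (s + t * Q + C * t ^ 2) →
    0 ≤ u - t * a * Y ∧ Y ≤ (u - t * a * Y) * (s + t * (Q + a * s ^ 2) + C' * t ^ 2) := by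
  -- constants
  set E : ℝ := B * (2 * B + B ^ 3 + 2) + (B + 1) * (B + B ^ 3 + 1) with hE
  have hE0 : 0 ≤ E := by positivity
  set C' : ℝ := C + B * E with hC'
  have hC'0 : 0 ≤ C' := by positivity
  have hden : 1 ≤ 4 * (B + B ^ 3 + 1 + C + C') * B := by
    have h1 : 1 * 1 ≤ (4 * (B + B ^ 3 + 1 + C + C')) * B := by
      refine mul_le_mul ?_ hB zero_le_one (by positivity)
      have : 0 ≤ B ^ 3 := by positivity
      linarith
    linarith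
  refine ⟨C', hC'0, 1 / (4 * (B + B ^ 3 + 1 + C + C') * B), by positivity, ?_⟩
  intro t ht ht1 s Q a u Y hs hsB hQ ha haB hu hY h1
  obtain ⟨hQ1, hQ2⟩ := abs_le.1 hQ
  set V : ℝ := B + B ^ 3 + 1 + C + C' with hV
  have hV0 : 1 ≤ V := by
    have : 0 ≤ B ^ 3 := by positivity
    rw [hV]; linarith
  have hB3 : 0 ≤ B ^ 3 := by positivity
  have htV : t * (4 * V * B) ≤ 1 := by
    rwa [le_div_iff₀ (by positivity)] at ht1
  have htV1 : t * V ≤ 1 / 4 := by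
    have h2 : t * (4 * V) * 1 ≤ t * (4 * V) * B := mul_le_mul_of_nonneg_left hB (by positivity)
    have e : t * (4 * V) * B = t * (4 * V * B) := by ring
    rw [e] at h2
    linarith
  have htl : t ≤ 1 := by
    have : t * 1 ≤ t * V := mul_le_mul_of_nonneg_left hV0 ht.le
    linarith
  have htC : C * t ≤ 1 := by
    have h2 : t * C ≤ t * V := mul_le_mul_of_nonneg_left (by rw [hV]; linarith) ht.le
    linarith
  have htC' : C' * t ≤ 1 := by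
    have h2 : t * C' ≤ t * V := mul_le_mul_of_nonneg_left (by rw [hV]; linarith) ht.le
    linarith
  set κ : ℝ := Q + C * t with hκ
  set κ' : ℝ := Q + a * s ^ 2 + C' * t with hκ'
  have hCt0 : 0 ≤ C * t := by positivity
  have hC't0 : 0 ≤ C' * t := by positivity
  have has0 : 0 ≤ a * s ^ 2 := by positivity
  have has : a * s ^ 2 ≤ B ^ 3 := by
    calc a * s ^ 2 ≤ B * B ^ 2 :=
          mul_le_mul haB (pow_le_pow_left₀ (by linarith) hsB 2) (by positivity) (by linarith)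
      _ = _ := by ring
  have bκ : |κ| ≤ B + 1 := by
    rw [abs_le, hκ]; constructor <;> linarith
  have bκ' : |κ'| ≤ B + B ^ 3 + 1 := by
    rw [abs_le, hκ']; constructor <;> linarith
  obtain ⟨k1, k2⟩ := abs_le.1 bκ
  obtain ⟨k1', k2'⟩ := abs_le.1 bκ'
  set K : ℝ := s + t * Q + C * t ^ 2 with hK
  set K' : ℝ := s + t * (Q + a * s ^ 2) + C' * t ^ 2 with hK'
  have eK : K = s + t * κ := by rw [hK, hκ]; ring
  have eK' : K' = s + t * κ' := by rw [hK', hκ']; ring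
  have htκ : |t * κ| ≤ 1 / 4 := by
    rw [abs_mul, abs_of_pos ht]
    calc t * |κ| ≤ t * V := mul_le_mul_of_nonneg_left (by rw [hV]; linarith) ht.le
      _ ≤ _ := htV1
  have htκ' : |t * κ'| ≤ 1 / 4 := by
    rw [abs_mul, abs_of_pos ht]
    calc t * |κ'| ≤ t * V := mul_le_mul_of_nonneg_left (by rw [hV]; linarith) ht.le
      _ ≤ _ := htV1
  obtain ⟨m1, m2⟩ := abs_le.1 htκ
  obtain ⟨m1', m2'⟩ := abs_le.1 htκ'
  have hK0 : 0 ≤ K := by rw [eK]; linarith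
  have hK'0 : 0 ≤ K' := by rw [eK']; linarith
  have hK2 : K ≤ B + 1 := by rw [eK]; linarith
  have htaK : t * a * K ≤ 1 := by
    have h2 : a * K ≤ B * (B + 1) := mul_le_mul haB hK2 hK0 (by linarith)
    have h3 : t * (a * K) ≤ t * (B * (B + 1)) := mul_le_mul_of_nonneg_left h2 ht.le
    have h4 : t * (B * (B + 1)) ≤ t * (4 * V * B) := by
      refine mul_le_mul_of_nonneg_left ?_ ht.le
      have : (B + 1) * B ≤ (4 * V) * B := mul_le_mul_of_nonneg_right (by rw [hV]; linarith) (by linarith)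
      linarith
    have e : t * a * K = t * (a * K) := by ring
    rw [e]
    linarith
  have hta : 0 ≤ t * a := by positivity
  have h3 : t * a * Y ≤ t * a * (u * K) := mul_le_mul_of_nonneg_left h1 hta
  have h4 : u * (1 - t * a * K) ≤ u - t * a * Y := by
    have e : u * (1 - t * a * K) = u - t * a * (u * K) := by ring
    rw [e]
    linarith
  have h5 : 0 ≤ u * (1 - t * a * K) := mul_nonneg hu (by linarith)
  refine ⟨by linarith, ?_⟩
  -- the main inequality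
  have hKK : K * K' - s ^ 2 ≤ t * E := by
    have e : K * K' - s ^ 2 = t * (s * (κ + κ') + (t * κ) * κ') := by rw [eK, eK']; ring
    rw [e]
    refine mul_le_mul_of_nonneg_left ?_ ht.le
    have b1 : s * (κ + κ') ≤ B * (2 * B + B ^ 3 + 2) := by
      calc s * (κ + κ') ≤ s * (2 * B + B ^ 3 + 2) := mul_le_mul_of_nonneg_left (by linarith) (by linarith)
        _ ≤ _ := mul_le_mul_of_nonneg_right hsB (by positivity)
    have b2 : (t * κ) * κ' ≤ (B + 1) * (B + B ^ 3 + 1) := by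
      refine (le_abs_self _).trans ?_
      rw [abs_mul, abs_mul, abs_of_pos ht]
      refine mul_le_mul ?_ bκ' (abs_nonneg _) (by linarith)
      calc t * |κ| ≤ 1 * |κ| := mul_le_mul_of_nonneg_right htl (abs_nonneg _)
        _ ≤ _ := by rw [one_mul]; exact bκ
    rw [hE]
    linarith
  have h6 : K ≤ (1 - t * a * K) * K' := by
    have e : (1 - t * a * K) * K' - K = t ^ 2 * (C' - C) - t * a * (K * K' - s ^ 2) := by
      have e1 : K' - K = t * a * s ^ 2 + t ^ 2 * (C' - C) := by rw [hK, hK']; ring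
      linear_combination e1
    have h7 : t * a * (K * K' - s ^ 2) ≤ t * a * (t * E) := mul_le_mul_of_nonneg_left hKK hta
    have h8 : t * a * (t * E) ≤ t ^ 2 * (B * E) := by
      have e2 : t * a * (t * E) = t ^ 2 * (a * E) := by ring
      rw [e2]
      exact mul_le_mul_of_nonneg_left (mul_le_mul_of_nonneg_right haB hE0) (sq_nonneg _)
    have h9 : t ^ 2 * (C' - C) = t ^ 2 * (B * E) := by rw [hC']; ring
    linarith
  calc Y ≤ u * K := h1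
    _ ≤ u * ((1 - t * a * K) * K') := mul_le_mul_of_nonneg_left h6 hu
    _ = (u * (1 - t * a * K)) * K' := by ring
    _ ≤ (u - t * a * Y) * K' := mul_le_mul_of_nonneg_right h4 hK'0

/-- six steps -/
theorem TI_six (B m1 a1 m2 a2 m3 a3 : ℝ) (hB : 1 ≤ B) (hm1 : 0 ≤ m1) (ha1 : 0 ≤ a1) (hm2 : 0 ≤ m2)
    (ha2 : 0 ≤ a2) (hm3 : 0 ≤ m3) (ha3 : 0 ≤ a3) : ∃ C : ℝ, 0 < C ∧ ∃ t0 : ℝ, 0 < t0 ∧ ∀ t : ℝ,
    0 < t → t ≤ t0 → ∀ s Q u Y : ℝ, 1 ≤ s → s ≤ B → |Q| ≤ B → 0 ≤ u → 0 ≤ Y →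
    Y ≤ u * (s + t * Q + B * t ^ 2) →
    ∀ Y1 u1 Y2 u2 Y3 u3 : ℝ, Y1 = Y + m1 * u → u1 = u - t * a1 * Y1 → Y2 = Y1 + m2 * u1 →
      u2 = u1 - t * a2 * Y2 → Y3 = Y2 + m3 * u2 → u3 = u2 - t * a3 * Y3 →
      0 ≤ u3 ∧ Y3 ≤ u3 * ((s + m1 + m2 + m3) + t * (Q + a1 * (s + m1) ^ 2 + a2 * (s + m1 + m2) ^ 2 +
        a3 * (s + m1 + m2 + m3) ^ 2) + C * t ^ 2) := by
  set S : ℝ := B + m1 + m2 + m3 with hS
  have hS0 : 0 ≤ S := by linarith
  set B' : ℝ := S + a1 + a2 + a3 + a1 * S ^ 2 + a2 * S ^ 2 + a3 * S ^ 2 with hB'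
  have p1 : 0 ≤ a1 * S ^ 2 := by positivity
  have p2 : 0 ≤ a2 * S ^ 2 := by positivity
  have p3 : 0 ≤ a3 * S ^ 2 := by positivity
  have hB'1 : 1 ≤ B' := by linarith
  obtain ⟨C1, hC1, t1, ht1, H1⟩ := TI_res B' B hB'1 (by linarith)
  obtain ⟨C2, hC2, t2, ht2, H2⟩ := TI_res B' C1 hB'1 hC1
  obtain ⟨C3, hC3, t3, ht3, H3⟩ := TI_res B' C2 hB'1 hC2
  refine ⟨C3 + 1, by linarith, min t1 (min t2 t3), lt_min ht1 (lt_min ht2 ht3), ?_⟩
  intro t ht htt s Q u Y hs hsB hQ hu hY h0 Y1 u1 Y2 u2 Y3 u3 e1 e2 e3 e4 e5 e6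
  have l1 : t ≤ t1 := htt.trans (min_le_left _ _)
  have l2 : t ≤ t2 := htt.trans ((min_le_right _ _).trans (min_le_left _ _))
  have l3 : t ≤ t3 := htt.trans ((min_le_right _ _).trans (min_le_right _ _))
  obtain ⟨hQ1, hQ2⟩ := abs_le.1 hQ
  have hs0 : 0 ≤ s := by linarith
  -- step 1
  have q1 : a1 * (s + m1) ^ 2 ≤ a1 * S ^ 2 :=
    mul_le_mul_of_nonneg_left (pow_le_pow_left₀ (by linarith) (by linarith) 2) ha1
  have q2 : a2 * (s + m1 + m2) ^ 2 ≤ a2 * S ^ 2 :=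
    mul_le_mul_of_nonneg_left (pow_le_pow_left₀ (by linarith) (by linarith) 2) ha2
  have q1' : 0 ≤ a1 * (s + m1) ^ 2 := by positivity
  have q2' : 0 ≤ a2 * (s + m1 + m2) ^ 2 := by positivity
  have hY1 : 0 ≤ Y1 := by rw [e1]; positivity
  have i1 : Y1 ≤ u * ((s + m1) + t * Q + B * t ^ 2) := by
    have e : u * ((s + m1) + t * Q + B * t ^ 2) = u * (s + t * Q + B * t ^ 2) + m1 * u := by ring
    rw [e1, e]
    linarith
  obtain ⟨v1, w1⟩ := H1 t ht l1 (s + m1) Q a1 u Y1 (by linarith) (by linarith)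
    (by rw [abs_le]; constructor <;> linarith) ha1 (by linarith) hu hY1 i1
  rw [← e2] at v1 w1
  -- step 2
  have hY2 : 0 ≤ Y2 := by rw [e3]; positivity
  have i2 : Y2 ≤ u1 * ((s + m1 + m2) + t * (Q + a1 * (s + m1) ^ 2) + C1 * t ^ 2) := by
    have e : u1 * ((s + m1 + m2) + t * (Q + a1 * (s + m1) ^ 2) + C1 * t ^ 2) =
      u1 * ((s + m1) + t * (Q + a1 * (s + m1) ^ 2) + C1 * t ^ 2) + m2 * u1 := by ring
    rw [e3, e]
    linarith
  obtain ⟨v2, w2⟩ := H2 t ht l2 (s + m1 + m2) (Q + a1 * (s + m1) ^ 2) a2 u1 Y2 (by linarith) (by linarith)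
    (by rw [abs_le]; constructor <;> linarith) ha2 (by linarith) v1 hY2 i2
  rw [← e4] at v2 w2
  -- step 3
  have hY3 : 0 ≤ Y3 := by rw [e5]; positivity
  have i3 : Y3 ≤ u2 * ((s + m1 + m2 + m3) + t * (Q + a1 * (s + m1) ^ 2 + a2 * (s + m1 + m2) ^ 2) +
      C2 * t ^ 2) := by
    have e : u2 * ((s + m1 + m2 + m3) + t * (Q + a1 * (s + m1) ^ 2 + a2 * (s + m1 + m2) ^ 2) +
        C2 * t ^ 2) = u2 * ((s + m1 + m2) + t * (Q + a1 * (s + m1) ^ 2 + a2 * (s + m1 + m2) ^ 2) +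
        C2 * t ^ 2) + m3 * u2 := by ring
    rw [e5, e]
    linarith
  obtain ⟨v3, w3⟩ := H3 t ht l3 (s + m1 + m2 + m3) (Q + a1 * (s + m1) ^ 2 + a2 * (s + m1 + m2) ^ 2) a3
    u2 Y3 (by linarith) (by linarith) (by rw [abs_le]; constructor <;> linarith) ha3 (by linarith)
    v2 hY3 i3
  rw [← e6] at v3 w3
  refine ⟨v3, w3.trans (mul_le_mul_of_nonneg_left ?_ v3)⟩
  have : C3 * t ^ 2 ≤ (C3 + 1) * t ^ 2 := mul_le_mul_of_nonneg_right (by linarith) (sq_nonneg _)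
  linarith

theorem pTI : TI := by
  intro D hD B hB
  have hD2 : (2 : ℝ) ≤ (D : ℝ) := by
    have : (2 : ℕ) ≤ D := le_trans (by norm_num) hD
    exact_mod_cast this
  have hd : (0 : ℝ) ≤ (D : ℝ) - 2 := by linarith
  have hB1 : 1 ≤ B + 1 := by linarith
  obtain ⟨C1, hC1, t1, ht1, H1⟩ := TI_six (B + 1) 2 1 ((D : ℝ) - 2) 2 1 ((D : ℝ) - 2) hB1
    (by norm_num) (by norm_num) hd (by norm_num) (by norm_num) hd
  obtain ⟨C2, hC2, t2, ht2, H2⟩ := TI_six (B + 1) 1 2 ((D : ℝ) - 2) 1 2 ((D : ℝ) - 2) hB1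
    (by norm_num) (by norm_num) hd (by norm_num) (by norm_num) hd
  refine ⟨max C1 C2, lt_max_of_lt_left hC1, min 1 (min t1 t2), lt_min one_pos (lt_min ht1 ht2), ?_⟩
  intro th hth hthh s Q u' Y' u Y hs hsB hQ hu' hY' h0
  have hth1 : th ≤ 1 := hthh.trans (min_le_left _ _)
  have hsq : th ^ 2 ≤ th := by nlinarith
  have l1 : th ^ 2 ≤ t1 := hsq.trans (hthh.trans ((min_le_right _ _).trans (min_le_left _ _)))
  have l2 : th ^ 2 ≤ t2 := hsq.trans (hthh.trans ((min_le_right _ _).trans (min_le_right _ _)))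
  have htp : 0 < th ^ 2 := by positivity
  have h0' : Y' ≤ u' * (s + th ^ 2 * Q + (B + 1) * (th ^ 2) ^ 2) := by
    refine h0.trans (mul_le_mul_of_nonneg_left ?_ hu')
    have e : th ^ 4 = (th ^ 2) ^ 2 := by ring
    rw [e]
    have : B * (th ^ 2) ^ 2 ≤ (B + 1) * (th ^ 2) ^ 2 :=
      mul_le_mul_of_nonneg_right (by linarith) (sq_nonneg _)
    linarith
  have hthne : th ≠ 0 := hth.ne'
  constructor
  · intro hM
    have hM1 := congrArg Prod.fst hM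
    have hM2 := congrArg Prod.snd hM
    simp only [M1, mst, ast] at hM1 hM2
    set Y1 : ℝ := Y' + 2 * u' with e1
    set u1 : ℝ := u' - th ^ 2 * 1 * Y1 with e2
    set Y2 : ℝ := Y1 + ((D : ℝ) - 2) * u1 with e3
    set u2 : ℝ := u1 - th ^ 2 * 2 * Y2 with e4
    set Y3 : ℝ := Y2 + 1 * u2 with e5
    set u3 : ℝ := u2 - th ^ 2 * ((D : ℝ) - 2) * Y3 with e6
    have hYY : Y = Y3 := by
      apply mul_left_cancel₀ hthne
      rw [hM2, e5, e4, e3, e2, e1]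
      ring
    have huu : u = u3 := by
      rw [hM1, e6, e5, e4, e3, e2, e1]
      ring
    obtain ⟨hu3, h⟩ := H1 (th ^ 2) htp l1 s Q u' Y' hs (by linarith) (by linarith) hu' hY' h0' Y1 u1 Y2 u2 Y3 u3
      e1 e2 e3 e4 e5 e6
    rw [hYY, huu]
    refine h.trans (mul_le_mul_of_nonneg_left ?_ hu3)
    have e : th ^ 4 = (th ^ 2) ^ 2 := by ring
    rw [e]
    have h7 : C1 * (th ^ 2) ^ 2 ≤ max C1 C2 * (th ^ 2) ^ 2 :=
      mul_le_mul_of_nonneg_right (le_max_left _ _) (sq_nonneg _)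
    have e7 : (s + 2 + ((D : ℝ) - 2) + 1) = s + ((D : ℝ) + 1) := by ring
    have e8 : (s + 2 + ((D : ℝ) - 2)) = s + (D : ℝ) := by ring
    rw [e7, e8]
    have e9 : th ^ 2 * (Q + 1 * (s + 2) ^ 2 + 2 * (s + (D : ℝ)) ^ 2 + ((D : ℝ) - 2) * (s + ((D : ℝ) + 1)) ^ 2)
      = th ^ 2 * (Q + (((D : ℝ) - 2) * (s + ((D : ℝ) + 1)) ^ 2 + (s + 2) ^ 2 + 2 * (s + (D : ℝ)) ^ 2)) := by
      ring
    rw [e9]
    linarith
  · intro hM
    have hM1 := congrArg Prod.fst hM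
    have hM2 := congrArg Prod.snd hM
    simp only [M2, mst, ast] at hM1 hM2
    set Y1 : ℝ := Y' + 1 * u' with e1
    set u1 : ℝ := u' - th ^ 2 * 2 * Y1 with e2
    set Y2 : ℝ := Y1 + ((D : ℝ) - 2) * u1 with e3
    set u2 : ℝ := u1 - th ^ 2 * 1 * Y2 with e4
    set Y3 : ℝ := Y2 + 2 * u2 with e5
    set u3 : ℝ := u2 - th ^ 2 * ((D : ℝ) - 2) * Y3 with e6
    have hYY : Y = Y3 := by
      apply mul_left_cancel₀ hthne
      rw [hM2, e5, e4, e3, e2, e1]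
      ring
    have huu : u = u3 := by
      rw [hM1, e6, e5, e4, e3, e2, e1]
      ring
    obtain ⟨hu3, h⟩ := H2 (th ^ 2) htp l2 s Q u' Y' hs (by linarith) (by linarith) hu' hY' h0' Y1 u1 Y2
      u2 Y3 u3 e1 e2 e3 e4 e5 e6
    rw [hYY, huu]
    refine h.trans (mul_le_mul_of_nonneg_left ?_ hu3)
    have e : th ^ 4 = (th ^ 2) ^ 2 := by ring
    rw [e]
    have h7 : C2 * (th ^ 2) ^ 2 ≤ max C1 C2 * (th ^ 2) ^ 2 :=
      mul_le_mul_of_nonneg_right (le_max_right _ _) (sq_nonneg _)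
    have e7 : (s + 1 + ((D : ℝ) - 2) + 2) = s + ((D : ℝ) + 1) := by ring
    have e8 : (s + 1 + ((D : ℝ) - 2)) = s + (D : ℝ) - 1 := by ring
    rw [e7, e8]
    have e9 : th ^ 2 * (Q + 2 * (s + 1) ^ 2 + 1 * (s + (D : ℝ) - 1) ^ 2 +
        ((D : ℝ) - 2) * (s + ((D : ℝ) + 1)) ^ 2)
      = th ^ 2 * (Q + (((D : ℝ) - 2) * (s + ((D : ℝ) + 1)) ^ 2 + 2 * (s + 1) ^ 2 +
        (s + (D : ℝ) - 1) ^ 2)) := by
      ring
    rw [e9]
    linarith

end Pool.Agent.T2H60.SX
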