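import Pool.Agent.T2H60.SX.Stm

/-! # Package TS : TS and TE -/

set_option autoImplicit false

namespace Pool.Agent.T2H60.SX

theorem TS_small {B th : ℝ} (hB : 0 < B) (h0 : 0 < th) (h1 : th ≤ 1 / (20 * (B + 1) ^ 3)) :
    th ^ 2 ≤ 1 ∧ 20 * (B + 1) ^ 3 * th ^ 2 ≤ 1 := by
  have hb : 1 ≤ (B + 1) ^ 3 := one_le_pow₀ (by linarith)
  have h2 : th * (20 * (B + 1) ^ 3) ≤ 1 := by
    rw [le_div_iff₀ (by positivity)] at h1
    exact h1
  have h3 : th ≤ 1 := by
    have : th * 1 ≤ th * (20 * (B + 1) ^ 3) := mul_le_mul_of_nonneg_left (by linarith) h0.le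
    linarith
  have h4 : th ^ 2 ≤ th := by nlinarith
  refine ⟨by linarith, ?_⟩
  calc 20 * (B + 1) ^ 3 * th ^ 2 ≤ 20 * (B + 1) ^ 3 * th := mul_le_mul_of_nonneg_left h4 (by positivity)
    _ = th * (20 * (B + 1) ^ 3) := by ring
    _ ≤ 1 := h2

theorem pTS : TS := by
  intro B hB
  refine ⟨200 * (B + 1) ^ 6, by positivity, 1 / (20 * (B + 1) ^ 3), by positivity, ?_⟩
  intro th hth hth1 s m Q a c G u' Y' u Y hs hsB hm hmB hQ ha haB hc hcB hG hGB hu' hY' hu hY h1 h2 h3
  obtain ⟨ht1, ht2⟩ := TS_small hB hth hth1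
  have e4 : th ^ 4 = (th ^ 2) ^ 2 := by ring
  rw [e4] at h1 ⊢
  set t : ℝ := th ^ 2 with ht
  have ht0 : 0 < t := by positivity
  have hB1 : 1 ≤ B := hs.trans hsB
  obtain ⟨hQ1, hQ2⟩ := abs_le.1 hQ
  -- powers of `B`
  have hB2 : B ≤ B ^ 2 := by nlinarith
  have hB3 : B ^ 2 ≤ B ^ 3 := pow_le_pow_right₀ hB1 (by norm_num)
  have hB4 : B ^ 3 ≤ B ^ 4 := pow_le_pow_right₀ hB1 (by norm_num)
  have hB5 : B ^ 4 ≤ B ^ 5 := pow_le_pow_right₀ hB1 (by norm_num)
  have hB6 : B ^ 5 ≤ B ^ 6 := pow_le_pow_right₀ hB1 (by norm_num)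
  have hBB3 : B ^ 3 ≤ (B + 1) ^ 3 := pow_le_pow_left₀ hB.le (by linarith) 3
  have hBB6 : B ^ 6 ≤ (B + 1) ^ 6 := pow_le_pow_left₀ hB.le (by linarith) 6
  have ht3 : 20 * B ^ 3 * t ≤ 1 := by
    refine le_trans ?_ ht2
    exact mul_le_mul_of_nonneg_right (by linarith) ht0.le
  have hBp : 0 < B ^ 3 := by positivity
  have htB : t * B ≤ 1 / 20 := by
    have : t * B ≤ t * B ^ 3 := mul_le_mul_of_nonneg_left (by linarith) ht0.le
    linarith
  have htB2 : t * B ^ 2 ≤ 1 / 20 := by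
    have : t * B ^ 2 ≤ t * B ^ 3 := mul_le_mul_of_nonneg_left (by linarith) ht0.le
    linarith
  have htB3 : t * B ^ 3 ≤ 1 / 20 := by linarith
  -- `K`
  set k1 : ℝ := Q + B * t with hk1
  have hk1a : |k1| ≤ 2 * B := by
    rw [abs_le]
    constructor
    · have : 0 ≤ B * t := by positivity
      linarith
    · have : B * t ≤ B * 1 := mul_le_mul_of_nonneg_left ht1 hB.le
      linarith
  obtain ⟨hk1l, hk1u⟩ := abs_le.1 hk1a
  set K : ℝ := s + t * Q + B * t ^ 2 with hK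
  have hKk : K = s + t * k1 := by rw [hK, hk1]; ring
  have hK0 : 0 ≤ K := by
    rw [hKk]
    have : t * (-(2 * B)) ≤ t * k1 := mul_le_mul_of_nonneg_left hk1l ht0.le
    linarith
  have hK3 : K ≤ 3 * B := by
    rw [hKk]
    have h4 : t * k1 ≤ t * (2 * B) := mul_le_mul_of_nonneg_left hk1u ht0.le
    have h5 : t * (2 * B) ≤ 1 * (2 * B) := mul_le_mul_of_nonneg_right ht1 (by positivity)
    linarith
  have hcK : c * K ≤ 3 * B ^ 2 := by
    calc c * K ≤ B * (3 * B) := mul_le_mul hcB hK3 hK0 hB.le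
      _ = _ := by ring
  have hctK : c * t * K ≤ 3 / 20 := by
    have e : c * t * K = t * (c * K) := by ring
    rw [e]
    have := mul_le_mul_of_nonneg_left hcK ht0.le
    linarith
  have hctK0 : 0 ≤ c * t * K := by positivity
  -- the inequality for `Y`
  have g1 : Y' * (1 - c * t * K) ≤ u * K + a * t * K * Y := by
    have h4 : Y' ≤ u' * K := h1
    have h5 := mul_le_mul_of_nonneg_right h2 hK0
    have e1 : (u + t * (a * Y + c * Y')) * K = u * K + a * t * K * Y + c * t * K * Y' := by ring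
    rw [e1] at h5
    linarith
  have g2 : Y * ((1 - G * t) * (1 - c * t * K) - a * t * K) ≤
      u * (K + m * (1 - c * t * K)) := by
    have h4 : Y * (1 - G * t) ≤ Y' + m * u := by linarith
    have h5 := mul_le_mul_of_nonneg_right h4 (by linarith : 0 ≤ 1 - c * t * K)
    have e1 : (Y' + m * u) * (1 - c * t * K) = Y' * (1 - c * t * K) + u * (m * (1 - c * t * K)) := by
      ring
    rw [e1] at h5
    have e2 : Y * ((1 - G * t) * (1 - c * t * K) - a * t * K) =
        Y * (1 - G * t) * (1 - c * t * K) - a * t * K * Y := by ring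
    rw [e2]
    have e3 : u * (K + m * (1 - c * t * K)) = u * K + u * (m * (1 - c * t * K)) := by ring
    rw [e3]
    linarith
  -- expansions
  set g : ℝ := G + (c + a) * s with hg
  set e1 : ℝ := G * c * K - (c + a) * k1 with he1
  have hDen : (1 - G * t) * (1 - c * t * K) - a * t * K = 1 - t * g + t ^ 2 * e1 := by
    rw [he1, hg, hKk]; ring
  have hNum : K + m * (1 - c * t * K) = (s + m) + t * (Q - m * c * s) + t ^ 2 * (B - m * c * k1) := by
    rw [hKk, hk1]; ring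
  set R : ℝ := Q + s * (a * (s + m) + c * s) + G * (s + m) with hR
  -- bounds
  have bca : c + a ≤ 2 * B := by linarith
  have bca0 : 0 ≤ c + a := by linarith
  have bs0 : 0 ≤ s := by linarith
  have bg0 : 0 ≤ g := by positivity
  have bg : g ≤ 3 * B ^ 2 := by
    have h4 : (c + a) * s ≤ 2 * B * B := mul_le_mul bca hsB bs0 (by positivity)
    have h5 : (2 : ℝ) * B * B = 2 * B ^ 2 := by ring
    rw [hg]
    linarith
  have bcak : |(c + a) * k1| ≤ 4 * B ^ 2 := by
    rw [abs_mul, abs_of_nonneg bca0]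
    calc (c + a) * |k1| ≤ 2 * B * (2 * B) := mul_le_mul bca hk1a (abs_nonneg _) (by positivity)
      _ = _ := by ring
  have bGcK : G * c * K ≤ 3 * B ^ 3 := by
    calc G * c * K = G * (c * K) := by ring
      _ ≤ B * (3 * B ^ 2) := mul_le_mul hGB hcK (by positivity) hB.le
      _ = _ := by ring
  have bGcK0 : 0 ≤ G * c * K := by positivity
  have be1 : |e1| ≤ 7 * B ^ 3 := by
    rw [he1]
    refine (abs_sub _ _).trans ?_
    rw [abs_of_nonneg bGcK0]
    linarith
  obtain ⟨be1l, be1u⟩ := abs_le.1 be1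
  have bsm0 : 0 ≤ s + m := by linarith
  have bsm : s + m ≤ 2 * B := by linarith
  have bR0 : |R| ≤ 6 * B ^ 3 := by
    have h4 : a * (s + m) ≤ 2 * B ^ 2 := by
      calc a * (s + m) ≤ B * (2 * B) := mul_le_mul haB bsm bsm0 hB.le
        _ = _ := by ring
    have h5 : c * s ≤ B ^ 2 := by
      calc c * s ≤ B * B := mul_le_mul hcB hsB bs0 hB.le
        _ = _ := by ring
    have h6 : s * (a * (s + m) + c * s) ≤ 3 * B ^ 3 := by
      calc s * (a * (s + m) + c * s) ≤ B * (3 * B ^ 2) :=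
            mul_le_mul hsB (by linarith) (by positivity) hB.le
        _ = _ := by ring
    have h7 : G * (s + m) ≤ 2 * B ^ 2 := by
      calc G * (s + m) ≤ B * (2 * B) := mul_le_mul hGB bsm bsm0 hB.le
        _ = _ := by ring
    have h8 : 0 ≤ s * (a * (s + m) + c * s) := by positivity
    have h9 : 0 ≤ G * (s + m) := by positivity
    rw [abs_le, hR]
    constructor <;> linarith
  have b1 : |(s + m) * e1| ≤ 14 * B ^ 4 := by
    rw [abs_mul, abs_of_nonneg bsm0]
    calc (s + m) * |e1| ≤ 2 * B * (7 * B ^ 3) := mul_le_mul bsm be1 (abs_nonneg _) (by positivity)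
      _ = _ := by ring
  have b2 : |R * g| ≤ 18 * B ^ 5 := by
    rw [abs_mul, abs_of_nonneg bg0]
    calc |R| * g ≤ 6 * B ^ 3 * (3 * B ^ 2) := mul_le_mul bR0 bg bg0 (by positivity)
      _ = _ := by ring
  have b3 : |t * (R * e1)| ≤ 42 * B ^ 6 := by
    rw [abs_mul, abs_of_pos ht0, abs_mul]
    calc t * (|R| * |e1|) ≤ 1 * (6 * B ^ 3 * (7 * B ^ 3)) :=
          mul_le_mul ht1 (mul_le_mul bR0 be1 (abs_nonneg _) (by positivity)) (by positivity) zero_le_one
      _ = _ := by ring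
  have b4 : |m * c * k1| ≤ 2 * B ^ 3 := by
    rw [abs_mul, abs_of_nonneg (by positivity : 0 ≤ m * c)]
    calc m * c * |k1| ≤ B * B * (2 * B) := by
          refine mul_le_mul (mul_le_mul hmB hcB hc hB.le) hk1a (abs_nonneg _) (by positivity)
      _ = _ := by ring
  obtain ⟨b1l, b1u⟩ := abs_le.1 b1
  obtain ⟨b2l, b2u⟩ := abs_le.1 b2
  obtain ⟨b3l, b3u⟩ := abs_le.1 b3
  obtain ⟨b4l, b4u⟩ := abs_le.1 b4
  -- the denominator
  set Den : ℝ := 1 - t * g + t ^ 2 * e1 with hDd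
  have hDen2 : 1 / 2 ≤ Den := by
    have h4 : t * g ≤ t * (3 * B ^ 2) := mul_le_mul_of_nonneg_left bg ht0.le
    have h5 : t ^ 2 * (-(7 * B ^ 3)) ≤ t ^ 2 * e1 := mul_le_mul_of_nonneg_left be1l (by positivity)
    have h6 : t ^ 2 * (7 * B ^ 3) ≤ 1 * (t * (7 * B ^ 3)) := by
      have : t ^ 2 * (7 * B ^ 3) = t * (t * (7 * B ^ 3)) := by ring
      rw [this]
      exact mul_le_mul_of_nonneg_right ht1 (by positivity)
    rw [hDd]
    linarith
  rw [hDen, hNum] at g2
  have key : (s + m) + t * (Q - m * c * s) + t ^ 2 * (B - m * c * k1) ≤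
      Den * ((s + m) + t * R + 200 * (B + 1) ^ 6 * t ^ 2) := by
    have e5 : Den * ((s + m) + t * R + 200 * (B + 1) ^ 6 * t ^ 2) -
        ((s + m) + t * (Q - m * c * s) + t ^ 2 * (B - m * c * k1)) =
        t ^ 2 * ((s + m) * e1 - R * g + t * (R * e1) + 200 * (B + 1) ^ 6 * Den - B + m * c * k1) := by
      rw [hDd, hR, hg]; ring
    have h4 : 100 * (B + 1) ^ 6 ≤ 200 * (B + 1) ^ 6 * Den := by
      have : 200 * (B + 1) ^ 6 * (1 / 2) ≤ 200 * (B + 1) ^ 6 * Den :=
        mul_le_mul_of_nonneg_left hDen2 (by positivity)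
      linarith
    have h5 : 0 ≤ (s + m) * e1 - R * g + t * (R * e1) + 200 * (B + 1) ^ 6 * Den - B + m * c * k1 := by
      linarith
    have h6 := mul_nonneg (sq_nonneg t) h5
    linarith
  have hDpos : 0 < Den := by linarith
  have h7 : Y * Den ≤ (u * ((s + m) + t * R + 200 * (B + 1) ^ 6 * t ^ 2)) * Den := by
    calc Y * Den ≤ u * ((s + m) + t * (Q - m * c * s) + t ^ 2 * (B - m * c * k1)) := g2
      _ ≤ u * (Den * ((s + m) + t * R + 200 * (B + 1) ^ 6 * t ^ 2)) :=
          mul_le_mul_of_nonneg_left key hu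
      _ = _ := by ring
  exact le_of_mul_le_mul_right h7 hDpos

theorem pTE : TE := by
  intro B hB
  refine ⟨200 * (B + 1) ^ 6, by positivity, 1 / (20 * (B + 1) ^ 3), by positivity, ?_⟩
  intro th hth hth1 m G G' u Y hm hmB hG hGB hG' hGB' hu hY h1
  obtain ⟨ht1, ht2⟩ := TS_small hB hth hth1
  have e4 : th ^ 4 = (th ^ 2) ^ 2 := by ring
  rw [e4]
  set t : ℝ := th ^ 2 with ht
  have ht0 : 0 < t := by positivity
  have hb1 : 1 ≤ B + 1 := by linarith
  have hb3 : B + 1 ≤ (B + 1) ^ 3 := by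
    have := pow_le_pow_right₀ hb1 (by norm_num : 1 ≤ 3)
    rwa [pow_one] at this
  have hb6 : (B + 1) ^ 3 ≤ (B + 1) ^ 6 := pow_le_pow_right₀ hb1 (by norm_num)
  have hBB3 : B ^ 3 ≤ (B + 1) ^ 3 := pow_le_pow_left₀ hB.le (by linarith) 3
  have htG : t * G ≤ 1 / 20 := by
    have h4 : t * G ≤ t * (B + 1) ^ 3 := mul_le_mul_of_nonneg_left (by linarith) ht0.le
    linarith
  have h5 : G * (G * m - G') ≤ B ^ 3 := by
    have h6 : G * m ≤ B * B := mul_le_mul hGB hmB hm hB.le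
    calc G * (G * m - G') ≤ G * (B * B) := mul_le_mul_of_nonneg_left (by linarith) hG
      _ ≤ B * (B * B) := mul_le_mul_of_nonneg_right hGB (by positivity)
      _ = _ := by ring
  have hDpos : 0 < 1 - t * G := by linarith
  have h6 : Y * (1 - t * G) ≤ (u * (m + t * (G * m - G') + 200 * (B + 1) ^ 6 * t ^ 2)) * (1 - t * G) := by
    have e5 : (m + t * (G * m - G') + 200 * (B + 1) ^ 6 * t ^ 2) * (1 - t * G) - (m - t * G') =
        t ^ 2 * (200 * (B + 1) ^ 6 * (1 - t * G) - G * (G * m - G')) := by ring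
    have h7 : 0 ≤ 200 * (B + 1) ^ 6 * (1 - t * G) - G * (G * m - G') := by
      have h8 : 200 * (B + 1) ^ 6 * (1 / 2) ≤ 200 * (B + 1) ^ 6 * (1 - t * G) :=
        mul_le_mul_of_nonneg_left (by linarith) (by positivity)
      have h9 : 0 ≤ (B + 1) ^ 3 := by positivity
      linarith
    have h8 := mul_nonneg (sq_nonneg t) h7
    have h9 : m - t * G' ≤ (m + t * (G * m - G') + 200 * (B + 1) ^ 6 * t ^ 2) * (1 - t * G) := by
      linarith
    have h10 := mul_le_mul_of_nonneg_left h9 hu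
    have h11 : Y * (1 - t * G) ≤ u * (m - t * G') := by
      have : u * (m - t * G') = m * u - t * G' * u := by ring
      rw [this]
      linarith
    calc _ ≤ _ := h11
      _ ≤ _ := h10
      _ = _ := by ring
  exact le_of_mul_le_mul_right h6 hDpos

end Pool.Agent.T2H60.SX
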