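import Pool.Agent.T2H60.SX.Stm

/-! Package VA: the angle of the virtual vector. -/

set_option autoImplicit false
open Finset

namespace Pool.Agent.T2H60.SX

lemma va_arctan_le {y : ℝ} (hy : 0 < y) : Real.arctan y ≤ y := by
  have h1 : 0 < Real.arctan y := Real.arctan_pos.2 hy
  have h2 := Real.lt_tan h1 (Real.arctan_lt_pi_div_two y)
  rw [Real.tan_arctan] at h2
  exact h2.le

lemma va_arctan_ge {y : ℝ} (hy : 0 < y) : y - y ^ 3 / 2 ≤ Real.arctan y := by
  have h1 : 0 < Real.arctan y := Real.arctan_pos.2 hy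
  have h2 := Real.sin_lt h1
  rw [Real.sin_arctan] at h2
  refine le_trans ?_ h2.le
  have h3 : 0 < Real.sqrt (1 + y ^ 2) := Real.sqrt_pos.2 (by positivity)
  rw [le_div_iff₀ h3]
  have h4 : Real.sqrt (1 + y ^ 2) ≤ 1 + y ^ 2 / 2 := by
    rw [Real.sqrt_le_left (by positivity)]
    nlinarith [sq_nonneg (y ^ 2)]
  by_cases h5 : y - y ^ 3 / 2 ≤ 0
  · exact (mul_nonpos_of_nonpos_of_nonneg h5 h3.le).trans hy.le
  · push Not at h5
    calc (y - y ^ 3 / 2) * Real.sqrt (1 + y ^ 2) ≤ (y - y ^ 3 / 2) * (1 + y ^ 2 / 2) :=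
          mul_le_mul_of_nonneg_left h4 h5.le
      _ = y - y ^ 5 / 4 := by ring
      _ ≤ y := by
          have : 0 < y ^ 5 := by positivity
          linarith

theorem pVA (hFX : FX) : VA := by
  intro D hD C hC
  obtain ⟨C₁, hC₁, th₁, hth₁, hfx⟩ := hFX D hD
  have hD1 : (1 : ℝ) ≤ D := by
    have : 1 ≤ D := le_trans (by norm_num) hD
    exact_mod_cast this
  -- constants
  set A : ℝ := 2 + al D Ty.pl with hA
  have hAv : A = ((D : ℝ) + 3) / 2 := by
    rw [hA]
    unfold al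
    ring
  have hA0 : 0 < A := by rw [hAv]; positivity
  set M : ℝ := C₁ * (1 + A + C + C₁) + C₁ + C with hM
  have hM0 : 0 < M := by positivity
  refine ⟨2 * C₁ + 2 * M + ((D : ℝ) + 3) ^ 3 / 2, by positivity,
    min th₁ (min 1 (1 / (2 * (C₁ + 2 * M + 1)))), ?_, ?_⟩
  · refine lt_min hth₁ (lt_min one_pos (by positivity))
  intro th hth hth0 Kt hK2 hKC
  have h1 : th ≤ th₁ := hth0.trans (min_le_left _ _)
  have h2 : th ≤ 1 := hth0.trans ((min_le_right _ _).trans (min_le_left _ _))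
  have h3 : th ≤ 1 / (2 * (C₁ + 2 * M + 1)) :=
    hth0.trans ((min_le_right _ _).trans (min_le_right _ _))
  have h3' : (C₁ + 2 * M + 1) * th ≤ 1 / 2 := by
    rw [le_div_iff₀ (by positivity)] at h3
    linarith
  obtain ⟨hχ, hχ0, hχ1, hτ⟩ := hfx th hth h1
  obtain ⟨hb, he, hsb, heb⟩ := hτ Ty.pl (Or.inl rfl)
  set χ := chi D th with hχdef
  set b := bq D th Ty.pl with hbdef
  set e := ed D th Ty.pl with hedef
  have hs : 0 < Real.sin χ := Real.sin_pos_of_pos_of_lt_pi hχ0 (by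
    have := Real.pi_gt_three
    linarith)
  set ρ : ℝ := Real.sin χ / b with hρ
  set E : ℝ := e / b with hE
  have hth2 : 0 < th ^ 2 := by positivity
  have hth3 : 0 < th ^ 3 := by positivity
  have hth21 : th ^ 2 ≤ th := by
    have e1 : th ^ 2 = th * th := by ring
    have e2 : th * th ≤ 1 * th := mul_le_mul_of_nonneg_right h2 hth.le
    linarith
  have hρ0 : 0 < ρ := by positivity
  have hρ1 : ρ ≤ 1 + C₁ * th ^ 2 := by
    have := (abs_le.1 hsb).2
    linarith
  have hρ2 : 1 - C₁ * th ^ 2 ≤ ρ := by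
    have := (abs_le.1 hsb).1
    linarith
  have hE1 : E ≤ th * al D Ty.pl + C₁ * th ^ 3 := by
    have := (abs_le.1 heb).2
    linarith
  have hE2 : th * al D Ty.pl - C₁ * th ^ 3 ≤ E := by
    have := (abs_le.1 heb).1
    linarith
  have hE0 : 0 ≤ E := by positivity
  set z : ℝ := th * Kt + E with hz
  have hz0 : 0 < z := by positivity
  have hz1 : z ≤ th * A + (C + C₁) * th ^ 3 := by
    have : th * Kt ≤ th * (2 + C * th ^ 2) := mul_le_mul_of_nonneg_left hKC hth.le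
    have e1 : th * (2 + C * th ^ 2) = 2 * th + C * th ^ 3 := by ring
    have e2 : th * A + (C + C₁) * th ^ 3 = 2 * th + th * al D Ty.pl + C * th ^ 3 + C₁ * th ^ 3 := by
      rw [hA]; ring
    rw [hz, e2]
    linarith
  have hz2 : th * A - C₁ * th ^ 3 ≤ z := by
    have : th * 2 ≤ th * Kt := mul_le_mul_of_nonneg_left hK2 hth.le
    have e2 : th * A = th * 2 + th * al D Ty.pl := by rw [hA]; ring
    rw [hz, e2]
    linarith
  -- `z ≤ th (A + C + C₁)`
  have hth31 : th ^ 3 ≤ th := by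
    have e1 : th ^ 3 = th ^ 2 * th := by ring
    have e2 : th ^ 2 * th ≤ 1 * th := mul_le_mul_of_nonneg_right (hth21.trans h2) hth.le
    linarith
  have hz3 : z ≤ th * (A + C + C₁) := by
    have : (C + C₁) * th ^ 3 ≤ (C + C₁) * th := mul_le_mul_of_nonneg_left hth31 (by positivity)
    linarith
  set y : ℝ := z / ρ with hy
  have hy0 : 0 < y := by positivity
  have hC₁th : C₁ * th ^ 2 ≤ 1 / 2 := by
    have h4 : C₁ * th ≤ 1 / 2 := by
      have e1 : (C₁ + 2 * M + 1) * th = C₁ * th + 2 * M * th + th := by ring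
      have e2 : 0 ≤ 2 * M * th := by positivity
      linarith
    have h5 : C₁ * th ^ 2 ≤ C₁ * th := mul_le_mul_of_nonneg_left hth21 hC₁.le
    linarith
  have hy1 : y ≤ z * (1 + 2 * (C₁ * th ^ 2)) := by
    rw [hy, div_le_iff₀ hρ0]
    have h4 : 1 ≤ (1 + 2 * (C₁ * th ^ 2)) * ρ := by
      have h5 : (1 + 2 * (C₁ * th ^ 2)) * (1 - C₁ * th ^ 2) ≤ (1 + 2 * (C₁ * th ^ 2)) * ρ :=
        mul_le_mul_of_nonneg_left hρ2 (by positivity)
      have h6 : 0 ≤ C₁ * th ^ 2 := by positivity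
      have h7 : 0 ≤ (C₁ * th ^ 2) * (1 - 2 * (C₁ * th ^ 2)) := mul_nonneg h6 (by linarith)
      have h8 : (1 + 2 * (C₁ * th ^ 2)) * (1 - C₁ * th ^ 2) = 1 + (C₁ * th ^ 2) * (1 - 2 * (C₁ * th ^ 2)) := by ring
      linarith
    have h9 := mul_le_mul_of_nonneg_left h4 hz0.le
    rw [mul_one] at h9
    refine h9.trans (le_of_eq (by ring))
  have hy2 : z * (1 - C₁ * th ^ 2) ≤ y := by
    rw [hy, le_div_iff₀ hρ0]
    have h4 : (1 - C₁ * th ^ 2) * ρ ≤ 1 := by
      have h5 : (1 - C₁ * th ^ 2) * ρ ≤ (1 - C₁ * th ^ 2) * (1 + C₁ * th ^ 2) :=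
        mul_le_mul_of_nonneg_left hρ1 (by linarith)
      have h6 : (1 - C₁ * th ^ 2) * (1 + C₁ * th ^ 2) = 1 - (C₁ * th ^ 2) ^ 2 := by ring
      have h7 := sq_nonneg (C₁ * th ^ 2)
      linarith
    have h9 := mul_le_mul_of_nonneg_left h4 hz0.le
    rw [mul_one] at h9
    refine le_trans (le_of_eq (by ring)) h9
  have hy3 : y ≤ th * A + 2 * M * th ^ 3 := by
    have h4 : z * (2 * (C₁ * th ^ 2)) ≤ th * (A + C + C₁) * (2 * (C₁ * th ^ 2)) :=
      mul_le_mul_of_nonneg_right hz3 (by positivity)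
    have h5 : th * (A + C + C₁) * (2 * (C₁ * th ^ 2)) = 2 * (C₁ * (A + C + C₁)) * th ^ 3 := by ring
    have h6 : 2 * M * th ^ 3 = 2 * (C₁ * (A + C + C₁)) * th ^ 3 + (4 * C₁ + 2 * C) * th ^ 3 := by
      rw [hM]; ring
    have h7 : (C + C₁) * th ^ 3 ≤ (4 * C₁ + 2 * C) * th ^ 3 :=
      mul_le_mul_of_nonneg_right (by linarith) hth3.le
    have h8 : z * (1 + 2 * (C₁ * th ^ 2)) = z + z * (2 * (C₁ * th ^ 2)) := by ring
    rw [h8] at hy1
    linarith
  have hy4 : th * A - M * th ^ 3 ≤ y := by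
    have h4 : z * (C₁ * th ^ 2) ≤ th * (A + C + C₁) * (C₁ * th ^ 2) :=
      mul_le_mul_of_nonneg_right hz3 (by positivity)
    have h5 : th * (A + C + C₁) * (C₁ * th ^ 2) = (C₁ * (A + C + C₁)) * th ^ 3 := by ring
    have h6 : M * th ^ 3 = (C₁ * (A + C + C₁)) * th ^ 3 + (2 * C₁ + C) * th ^ 3 := by
      rw [hM]; ring
    have h7 : C₁ * th ^ 3 ≤ (2 * C₁ + C) * th ^ 3 :=
      mul_le_mul_of_nonneg_right (by linarith) hth3.le
    have h8 : z * (1 - C₁ * th ^ 2) = z - z * (C₁ * th ^ 2) := by ring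
    rw [h8] at hy2
    linarith
  have hy5 : y ≤ th * ((D : ℝ) + 3) := by
    have h4 : 2 * M * th ^ 3 ≤ th * (1 / 2) := by
      have h5 : 2 * M * th ^ 2 ≤ 2 * M * th := mul_le_mul_of_nonneg_left hth21 (by positivity)
      have h6 : 2 * M * th ≤ 1 / 2 := by
        have e1 : (C₁ + 2 * M + 1) * th = C₁ * th + 2 * M * th + th := by ring
        have e2 : 0 ≤ C₁ * th := by positivity
        linarith
      calc 2 * M * th ^ 3 = th * (2 * M * th ^ 2) := by ring
        _ ≤ th * (1 / 2) := mul_le_mul_of_nonneg_left (h5.trans h6) hth.le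
    have h7 : th * A + th * (1 / 2) ≤ th * ((D : ℝ) + 3) := by
      rw [hAv, ← mul_add]
      exact mul_le_mul_of_nonneg_left (by linarith) hth.le
    linarith
  -- the angle
  have hph0 : 0 < Real.arctan y := Real.arctan_pos.2 hy0
  have hcos : 0 < Real.cos (Real.arctan y) := Real.cos_arctan_pos y
  refine ⟨1 / Real.cos (Real.arctan y), by positivity, Real.arctan y, ?_, hph0,
    (va_arctan_le hy0).trans hy5, ?_⟩
  · have h4 := va_arctan_ge hy0
    have h5 : y ^ 3 ≤ (th * ((D : ℝ) + 3)) ^ 3 := pow_le_pow_left₀ hy0.le hy5 3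
    have h6 : χ / ((D : ℝ) + 1) ≤ th + C₁ * th ^ 3 := by
      have := (abs_le.1 hχ).2
      linarith
    have h7 : (th * ((D : ℝ) + 3)) ^ 3 = ((D : ℝ) + 3) ^ 3 * th ^ 3 := by ring
    have h8 : th * A = 2 * th + th * al D Ty.pl := by rw [hA]; ring
    have h9 : 0 ≤ M * th ^ 3 := by positivity
    have h10 : (2 * C₁ + 2 * M + ((D : ℝ) + 3) ^ 3 / 2) * th ^ 3 =
        2 * C₁ * th ^ 3 + 2 * (M * th ^ 3) + ((D : ℝ) + 3) ^ 3 * th ^ 3 / 2 := by ring
    rw [h10]
    linarith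
  · have h4 : Real.sin (Real.arctan y) = y * Real.cos (Real.arctan y) := by
      have h5 := Real.tan_arctan y
      rw [Real.tan_eq_sin_div_cos, div_eq_iff hcos.ne'] at h5
      exact h5
    have h6 : Real.sin χ * y = b * (th * Kt) + e := by
      rw [hy, hρ, hz, hE]
      field_simp
    refine Prod.ext ?_ ?_
    · show (1 : ℝ) = 1 / Real.cos (Real.arctan y) * Real.cos (Real.arctan y)
      field_simp
    · show th * Kt = 1 / Real.cos (Real.arctan y) *
        ((Real.sin (chi D th) * Real.sin (Real.arctan y) -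
          ed D th Ty.pl * Real.cos (Real.arctan y)) / bq D th Ty.pl)
      rw [← hχdef, ← hbdef, ← hedef, h4]
      have h7 : Real.sin χ * (y * Real.cos (Real.arctan y)) - e * Real.cos (Real.arctan y) =
          (b * (th * Kt)) * Real.cos (Real.arctan y) := by
        have h8 : Real.sin χ * (y * Real.cos (Real.arctan y)) =
            (Real.sin χ * y) * Real.cos (Real.arctan y) := by ring
        rw [h8, h6]
        ring
      rw [h7]
      field_simp

end Pool.Agent.T2H60.SX
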