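import Pool.Agent.T2H60.SX.Stm

/-! # Package VV : the virtual vector -/

set_option autoImplicit false

noncomputable section

open Filter Topology

namespace Pool.Agent.T2H60.SX

/-- the trace of the block maps -/
def VV_T (δ t : ℝ) : ℝ :=
  2 - (δ ^ 2 + 6 * δ + 9) * t + (4 * δ ^ 2 + 12 * δ) * t ^ 2 - 4 * δ ^ 2 * t ^ 3

def VV_A (δ t : ℝ) : ℝ := 1 - (δ + 2) * (δ + 3) * t + (4 * δ ^ 2 + 10 * δ) * t ^ 2 - 4 * δ ^ 2 * t ^ 3

def VV_B (δ t : ℝ) : ℝ := (δ + 3) - (δ ^ 2 + 5 * δ) * t + 2 * δ ^ 2 * t ^ 2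

lemma VV_M1_fst (D : ℕ) (h x y : ℝ) :
    (M1 D h (x, y)).1 = VV_A ((D : ℝ) - 2) (h ^ 2) * x - h * VV_B ((D : ℝ) - 2) (h ^ 2) * y := by
  unfold M1 VV_A VV_B mst ast
  ring

lemma VV_M1_CH (D : ℕ) (h : ℝ) (v : ℝ × ℝ) :
    (M1 D h (M1 D h v)).1 = VV_T ((D : ℝ) - 2) (h ^ 2) * (M1 D h v).1 - v.1 := by
  unfold M1 VV_T mst ast
  ring

lemma VV_M2_CH (D : ℕ) (h : ℝ) (v : ℝ × ℝ) :
    (ast 2 h (mst 1 h (M2 D h (M2 D h v)))).1 =
      VV_T ((D : ℝ) - 2) (h ^ 2) * (ast 2 h (mst 1 h (M2 D h v))).1 - (ast 2 h (mst 1 h v)).1 := by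
  unfold M2 VV_T mst ast
  ring

lemma VV_M2_one (D : ℕ) (h x y : ℝ) :
    (ast 2 h (mst 1 h (M2 D h (x, h * y)))).1 =
      VV_T ((D : ℝ) - 2) (h ^ 2) * (x - 2 * h ^ 2 * (x + y)) -
        (x - 2 * h ^ 2 * x + h ^ 2 * y * (1 + ((D : ℝ) - 2) * (1 - 2 * h ^ 2))) := by
  unfold M2 VV_T mst ast
  ring

lemma VV_iter (D : ℕ) (h : ℝ) (v w : ℝ × ℝ) (c : ℝ)
    (h0 : (ast 2 h (mst 1 h v)).1 = c * (M1 D h w).1)
    (h1 : (ast 2 h (mst 1 h (M2 D h v))).1 = c * (M1 D h (M1 D h w)).1) (n : ℕ) :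
    (ast 2 h (mst 1 h ((M2 D h)^[n] v))).1 = c * ((M1 D h)^[n + 1] w).1 ∧
    (ast 2 h (mst 1 h ((M2 D h)^[n + 1] v))).1 = c * ((M1 D h)^[n + 2] w).1 := by
  induction n with
  | zero => exact ⟨h0, h1⟩
  | succ n ih =>
    refine ⟨ih.2, ?_⟩
    rw [show (M2 D h)^[n + 1 + 1] v = M2 D h (M2 D h ((M2 D h)^[n] v)) by
        rw [Function.iterate_succ_apply', Function.iterate_succ_apply'],
      show (M1 D h)^[n + 1 + 2] w = M1 D h (M1 D h ((M1 D h)^[n + 1] w)) by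
        rw [Function.iterate_succ_apply', Function.iterate_succ_apply'], VV_M2_CH, VV_M1_CH]
    rw [show M2 D h ((M2 D h)^[n] v) = (M2 D h)^[n + 1] v by rw [Function.iterate_succ_apply'],
      show M1 D h ((M1 D h)^[n + 1] w) = (M1 D h)^[n + 2] w by
        rw [Function.iterate_succ_apply' _ (n + 1)], ih.1, ih.2]
    ring

/-! ### the end vector as a function of `t = th ^ 2` -/

def VV_u (D : ℕ) (t : ℝ) : ℝ :=
  ((D : ℝ) - 2 * ((D : ℝ) - 2) * t) - eA D (2 * ((D : ℝ) - 2) * t)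
      - ((D : ℝ) - 2) * eR D (2 * ((D : ℝ) - 2) * t)

def VV_Y (D : ℕ) (t : ℝ) : ℝ :=
  2 + 2 * eA D (2 * ((D : ℝ) - 2) * t) + ((D : ℝ) - 2) * eR D (2 * ((D : ℝ) - 2) * t)

lemma VV_endv (D : ℕ) (h : ℝ) : endv D h = (VV_u D (h ^ 2), h * VV_Y D (h ^ 2)) := rfl

lemma VV_eA_der (D : ℕ) (hD : 4 ≤ D) :
    HasDerivAt (fun t : ℝ => eA D (2 * ((D : ℝ) - 2) * t)) (((D : ℝ) - 2) * ((D : ℝ) + 2) / D) 0 := by
  have hD0 : (D : ℝ) ≠ 0 := by positivity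
  have hL : HasDerivAt (fun t : ℝ => 2 * ((D : ℝ) - 2) * t) (2 * ((D : ℝ) - 2)) 0 := by
    simpa using (hasDerivAt_id (0 : ℝ)).const_mul (2 * ((D : ℝ) - 2))
  have h1 := hL.const_sub (2 * (D : ℝ))
  have h2 := ((hL.const_mul ((D : ℝ) + 3)).const_sub (2 * (D : ℝ))).add (hL.pow 2)
  have h3 := h1.div h2 (by simp [hD0])
  unfold eA
  refine h3.congr_deriv ?_
  simp
  field_simp
  ring

lemma VV_eA_zero (D : ℕ) (hD : 4 ≤ D) : eA D (2 * ((D : ℝ) - 2) * 0) = 1 := by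
  have hD0 : (D : ℝ) ≠ 0 := by positivity
  unfold eA
  simp [hD0]

lemma VV_eR_der (D : ℕ) (hD : 4 ≤ D) :
    HasDerivAt (fun t : ℝ => eR D (2 * ((D : ℝ) - 2) * t)) (((D : ℝ) - 2) * ((D : ℝ) + 1) / D) 0 := by
  have hD0 : (D : ℝ) ≠ 0 := by positivity
  have hL : HasDerivAt (fun t : ℝ => 2 * ((D : ℝ) - 2) * t) (2 * ((D : ℝ) - 2)) 0 := by
    simpa using (hasDerivAt_id (0 : ℝ)).const_mul (2 * ((D : ℝ) - 2))
  have h1 := ((VV_eA_der D hD).const_mul 2).const_add 2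
  have h2 := hL.const_sub 4
  have h3 := h1.div h2 (by simp)
  unfold eR
  refine h3.congr_deriv ?_
  rw [VV_eA_zero D hD]
  simp
  field_simp
  ring

lemma VV_eR_zero (D : ℕ) (hD : 4 ≤ D) : eR D (2 * ((D : ℝ) - 2) * 0) = 1 := by
  unfold eR
  rw [VV_eA_zero D hD]
  norm_num

lemma VV_u_zero (D : ℕ) (hD : 4 ≤ D) : VV_u D 0 = 1 := by
  unfold VV_u
  rw [VV_eA_zero D hD, VV_eR_zero D hD]
  ring

lemma VV_Y_zero (D : ℕ) (hD : 4 ≤ D) : VV_Y D 0 = D + 2 := by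
  unfold VV_Y
  rw [VV_eA_zero D hD, VV_eR_zero D hD]
  ring

lemma VV_u_der (D : ℕ) (hD : 4 ≤ D) :
    HasDerivAt (VV_u D) (-(((D : ℝ) - 2) * ((D : ℝ) + 2))) 0 := by
  have hD0 : (D : ℝ) ≠ 0 := by positivity
  have hL : HasDerivAt (fun t : ℝ => 2 * ((D : ℝ) - 2) * t) (2 * ((D : ℝ) - 2)) 0 := by
    simpa using (hasDerivAt_id (0 : ℝ)).const_mul (2 * ((D : ℝ) - 2))
  have h1 := ((hL.const_sub (D : ℝ)).sub (VV_eA_der D hD)).sub
    ((VV_eR_der D hD).const_mul ((D : ℝ) - 2))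
  unfold VV_u
  refine h1.congr_deriv ?_
  field_simp
  ring

lemma VV_Y_der (D : ℕ) (hD : 4 ≤ D) :
    HasDerivAt (VV_Y D) (((D : ℝ) - 2) * ((D : ℝ) ^ 2 + D + 2) / D) 0 := by
  have hD0 : (D : ℝ) ≠ 0 := by positivity
  have h1 := (((VV_eA_der D hD).const_mul 2).const_add 2).add
    ((VV_eR_der D hD).const_mul ((D : ℝ) - 2))
  unfold VV_Y
  refine h1.congr_deriv ?_
  field_simp
  ring

def VV_K (D : ℕ) (t : ℝ) : ℝ := VV_Y D t / VV_u D t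

lemma VV_K_zero (D : ℕ) (hD : 4 ≤ D) : VV_K D 0 = D + 2 := by
  unfold VV_K
  rw [VV_u_zero D hD, VV_Y_zero D hD]
  ring

lemma VV_K_der (D : ℕ) (hD : 4 ≤ D) :
    HasDerivAt (VV_K D) (((D : ℝ) - 2) * (((D : ℝ) ^ 2 + D + 2) / D + ((D : ℝ) + 2) ^ 2)) 0 := by
  have hD0 : (D : ℝ) ≠ 0 := by positivity
  have h1 := (VV_Y_der D hD).div (VV_u_der D hD) (by rw [VV_u_zero D hD]; norm_num)
  unfold VV_K
  refine h1.congr_deriv ?_
  rw [VV_u_zero D hD, VV_Y_zero D hD]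
  field_simp
  ring

def VV_g1 (D : ℕ) (t : ℝ) : ℝ :=
  1 + t * (-2 + VV_K D t * (1 + ((D : ℝ) - 2) * (1 - 2 * t)))

/-- the number `Kt` as a function of `t` -/
def VV_R (D : ℕ) (t : ℝ) : ℝ :=
  ((-(D * (D + 1)) + (4 * ((D : ℝ) - 2) ^ 2 + 10 * ((D : ℝ) - 2)) * t - 4 * ((D : ℝ) - 2) ^ 2 * t ^ 2)
      * VV_g1 D t
    + (-2 + VV_K D t * (1 + ((D : ℝ) - 2) * (1 - 2 * t))) + 2 * (1 + VV_K D t)) /
  (VV_g1 D t * VV_B ((D : ℝ) - 2) t)

lemma VV_g1_zero (D : ℕ) : VV_g1 D 0 = 1 := by unfold VV_g1; ring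

lemma VV_B_zero (δ : ℝ) : VV_B δ 0 = δ + 3 := by unfold VV_B; ring

lemma VV_R_zero (D : ℕ) (hD : 4 ≤ D) : VV_R D 0 = 2 := by
  unfold VV_R
  rw [VV_g1_zero, VV_B_zero, VV_K_zero D hD]
  have h : (D : ℝ) + 1 ≠ 0 := by positivity
  rw [div_eq_iff (by rw [one_mul]; convert h using 1; ring)]
  ring

lemma VV_lin_der (D : ℕ) (hD : 4 ≤ D) :
    HasDerivAt (fun t => -2 + VV_K D t * (1 + ((D : ℝ) - 2) * (1 - 2 * t)))
      (((D : ℝ) - 2) * (((D : ℝ) ^ 2 + D + 2) / D + ((D : ℝ) + 2) ^ 2) * (D - 1)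
        - 2 * ((D : ℝ) - 2) * (D + 2)) 0 := by
  have hid : HasDerivAt (fun t : ℝ => 1 + ((D : ℝ) - 2) * (1 - 2 * t)) (-2 * ((D : ℝ) - 2)) 0 := by
    have := ((((hasDerivAt_id (0 : ℝ)).const_mul 2).const_sub 1).const_mul ((D : ℝ) - 2)).const_add 1
    refine this.congr_deriv ?_
    ring
  have h1 := ((VV_K_der D hD).mul hid).const_add (-2)
  refine h1.congr_deriv ?_
  rw [VV_K_zero D hD]
  ring

lemma VV_g1_der (D : ℕ) (hD : 4 ≤ D) :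
    HasDerivAt (VV_g1 D) (-2 + ((D : ℝ) + 2) * (D - 1)) 0 := by
  have h1 := ((hasDerivAt_id (0 : ℝ)).mul (VV_lin_der D hD)).const_add 1
  unfold VV_g1
  refine h1.congr_deriv ?_
  rw [VV_K_zero D hD]
  simp only [id_eq]
  ring

lemma VV_B_der (δ : ℝ) : HasDerivAt (VV_B δ) (-(δ ^ 2 + 5 * δ)) 0 := by
  have h1 := (((hasDerivAt_id (0 : ℝ)).const_mul (δ ^ 2 + 5 * δ)).const_sub (δ + 3)).add
    (((hasDerivAt_id (0 : ℝ)).pow 2).const_mul (2 * δ ^ 2))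
  unfold VV_B
  refine h1.congr_deriv ?_
  simp

lemma VV_R_der (D : ℕ) (hD : 4 ≤ D) : HasDerivAt (VV_R D) ((D : ℝ) - 8 - 4 / D) 0 := by
  have hD0 : (D : ℝ) ≠ 0 := by positivity
  have hD1 : (D : ℝ) + 1 ≠ 0 := by positivity
  have hp : HasDerivAt (fun t : ℝ => -((D : ℝ) * (D + 1)) +
      (4 * ((D : ℝ) - 2) ^ 2 + 10 * ((D : ℝ) - 2)) * t - 4 * ((D : ℝ) - 2) ^ 2 * t ^ 2)
      (4 * ((D : ℝ) - 2) ^ 2 + 10 * ((D : ℝ) - 2)) 0 := by
    have := (((hasDerivAt_id (0 : ℝ)).const_mul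
      (4 * ((D : ℝ) - 2) ^ 2 + 10 * ((D : ℝ) - 2))).const_add (-((D : ℝ) * (D + 1)))).sub
      (((hasDerivAt_id (0 : ℝ)).pow 2).const_mul (4 * ((D : ℝ) - 2) ^ 2))
    refine this.congr_deriv ?_
    simp
  have h1 := ((hp.mul (VV_g1_der D hD)).add (VV_lin_der D hD)).add
    (((VV_K_der D hD).const_add 1).const_mul 2)
  have h2 := (VV_g1_der D hD).mul (VV_B_der ((D : ℝ) - 2))
  have h3 := h1.div h2 (by
    show VV_g1 D 0 * VV_B ((D : ℝ) - 2) 0 ≠ 0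
    rw [VV_g1_zero, VV_B_zero, one_mul]
    convert hD1 using 1
    ring)
  unfold VV_R
  refine h3.congr_deriv ?_
  simp only [Pi.mul_apply, Pi.add_apply, VV_g1_zero, VV_B_zero, VV_K_zero D hD]
  have e : (D : ℝ) - 2 + 3 = D + 1 := by ring
  rw [e]
  field_simp
  ring

theorem pVV : VV := by
  intro D hD
  have hD4 : 4 ≤ D := le_trans (by norm_num) hD
  have hDr : (10 : ℝ) ^ 14 ≤ D := by exact_mod_cast hD
  have hDp : (0 : ℝ) < D := lt_of_lt_of_le (by norm_num) hDr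
  have e1 : ∀ᶠ t in 𝓝 (0 : ℝ), 0 < VV_u D t := by
    have := (VV_u_der D hD4).continuousAt
    refine this.eventually (lt_mem_nhds ?_)
    rw [VV_u_zero D hD4]; norm_num
  have e2 : ∀ᶠ t in 𝓝 (0 : ℝ), 0 < VV_g1 D t := by
    have := (VV_g1_der D hD4).continuousAt
    refine this.eventually (lt_mem_nhds ?_)
    rw [VV_g1_zero]; norm_num
  have e3 : ∀ᶠ t in 𝓝 (0 : ℝ), 0 < VV_B ((D : ℝ) - 2) t := by
    have := (VV_B_der ((D : ℝ) - 2)).continuousAt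
    refine this.eventually (lt_mem_nhds ?_)
    rw [VV_B_zero]; linarith
  have e4 := (hasDerivAt_iff_isLittleO.1 (VV_R_der D hD4)).def (zero_lt_one)
  obtain ⟨ε, hε, hall⟩ := Metric.eventually_nhds_iff.1 ((e1.and e2).and (e3.and e4))
  refine ⟨(D : ℝ), hDp, min 1 (ε / 2), by positivity, fun th hth hth1 => ?_⟩
  have ht1 : th ≤ 1 := hth1.trans (min_le_left _ _)
  have ht2 : th ≤ ε / 2 := hth1.trans (min_le_right _ _)
  have htp : 0 < th ^ 2 := by positivity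
  have htε : th ^ 2 < ε := by nlinarith
  obtain ⟨⟨f1, f2⟩, f3, f4⟩ := hall (y := th ^ 2) (by
    rw [Real.dist_eq, sub_zero, abs_of_pos htp]; exact htε)
  set t := th ^ 2 with ht
  rw [VV_R_zero D hD4, sub_zero, smul_eq_mul, one_mul, Real.norm_eq_abs, Real.norm_eq_abs,
    abs_of_pos htp, abs_le] at f4
  have h4D : 0 ≤ 4 / (D : ℝ) := by positivity
  have h4D' : 4 / (D : ℝ) ≤ 1 := by
    rw [div_le_one hDp]; linarith
  have hu0 : VV_u D t ≠ 0 := f1.ne'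
  have hYK : VV_Y D t = VV_u D t * VV_K D t := by
    unfold VV_K
    field_simp
  refine ⟨VV_u D t * VV_g1 D t, mul_pos f1 f2, VV_R D t, ?_, ?_, ?_⟩
  · nlinarith [f4.1]
  · nlinarith [f4.2]
  · have hR : VV_A ((D : ℝ) - 2) t * VV_g1 D t - t * VV_B ((D : ℝ) - 2) t * VV_g1 D t * VV_R D t =
        1 - 2 * t * (1 + VV_K D t) := by
      have hne : VV_g1 D t * VV_B ((D : ℝ) - 2) t ≠ 0 := (mul_pos f2 f3).ne'
      have hRe : VV_g1 D t * VV_B ((D : ℝ) - 2) t * VV_R D t =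
        ((-((D : ℝ) * (D + 1)) + (4 * ((D : ℝ) - 2) ^ 2 + 10 * ((D : ℝ) - 2)) * t -
          4 * ((D : ℝ) - 2) ^ 2 * t ^ 2) * VV_g1 D t
        + (-2 + VV_K D t * (1 + ((D : ℝ) - 2) * (1 - 2 * t))) + 2 * (1 + VV_K D t)) := by
        unfold VV_R
        exact mul_div_cancel₀ _ hne
      have : t * VV_B ((D : ℝ) - 2) t * VV_g1 D t * VV_R D t =
          t * (VV_g1 D t * VV_B ((D : ℝ) - 2) t * VV_R D t) := by ring
      rw [this, hRe]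
      unfold VV_A
      have hg : VV_g1 D t = 1 + t * (-2 + VV_K D t * (1 + ((D : ℝ) - 2) * (1 - 2 * t))) := rfl
      rw [hg]
      ring
    have hg1 : VV_u D t * VV_g1 D t = VV_u D t - 2 * t * VV_u D t +
        t * VV_Y D t * (1 + ((D : ℝ) - 2) * (1 - 2 * t)) := by
      rw [hYK]
      unfold VV_g1
      ring
    have b0 : (ast 2 th (mst 1 th (endv D th))).1 =
        VV_u D t * VV_g1 D t * (M1 D th (1, th * VV_R D t)).1 := by
      rw [VV_endv, VV_M1_fst]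
      have l : (ast 2 th (mst 1 th (VV_u D (th ^ 2), th * VV_Y D (th ^ 2)))).1 =
          VV_u D t - 2 * t * (VV_u D t + VV_Y D t) := by
        unfold ast mst
        rw [ht]
        ring
      rw [l, hYK]
      have : VV_u D t * VV_g1 D t * (VV_A ((D : ℝ) - 2) (th ^ 2) * 1 -
          th * VV_B ((D : ℝ) - 2) (th ^ 2) * (th * VV_R D t)) =
          VV_u D t * (VV_A ((D : ℝ) - 2) t * VV_g1 D t -
            t * VV_B ((D : ℝ) - 2) t * VV_g1 D t * VV_R D t) := by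
        rw [← ht, ht]
        ring
      rw [this, hR]
      ring
    have b1 : (ast 2 th (mst 1 th (M2 D th (endv D th)))).1 =
        VV_u D t * VV_g1 D t * (M1 D th (M1 D th (1, th * VV_R D t))).1 := by
      rw [VV_M1_CH, VV_endv, VV_M2_one,
        show VV_u D t * VV_g1 D t * (VV_T ((D : ℝ) - 2) (th ^ 2) * (M1 D th (1, th * VV_R D t)).1 -
            ((1 : ℝ), th * VV_R D t).1) =
          VV_T ((D : ℝ) - 2) (th ^ 2) * (VV_u D t * VV_g1 D t * (M1 D th (1, th * VV_R D t)).1) -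
            VV_u D t * VV_g1 D t by
          show VV_u D t * VV_g1 D t * (VV_T ((D : ℝ) - 2) (th ^ 2) * (M1 D th (1, th * VV_R D t)).1 -
            1) = _
          ring, ← b0, VV_endv, ← ht]
      have l : (ast 2 th (mst 1 th (VV_u D t, th * VV_Y D t))).1 =
          VV_u D t - 2 * t * (VV_u D t + VV_Y D t) := by
        unfold ast mst
        rw [ht]
        ring
      rw [l, hg1]
    intro NA
    exact (VV_iter D th (endv D th) (1, th * VV_R D t) _ b0 b1 NA).1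

end Pool.Agent.T2H60.SX
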