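import Mathlib

/-!
# MP_048773_co, S06952: the conjecture fails for all large even `D`, `n = 2 mod (D+1)`

Definitions for the project SX (helper60). `D` is the maximum degree (even, `≥ 10^14`), `P = D + 1`.
`SG D N e x th`: a graph `H` with degree sequence `(D, …, D, D-2)` on `N` vertices with its Perron vector
`x`, the vertices being numbered by DECREASING `x` (positions `0, …, N-1`), together with two more
positions `N, N+1` (the ground) with `x = 0`, both joined to the vertex `N-1` of degree `D-2` and to nothing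
else. So all positions `i < N` have exactly `D` neighbours. `D - 2 (D-2) th^2` is the spectral radius.
-/

set_option autoImplicit false
open Finset

namespace Pool.Agent.T2H60.SX

/-- the size of the cut between the positions `< t` and the positions `≥ t` -/
def cut (N : ℕ) (e : ℕ → ℕ → ℕ) (t : ℕ) : ℕ := ∑ i ∈ range t, ∑ k ∈ Ico t (N + 2), e i k

/-- number of edges from `i` to the positions `≥ t` -/
def dn (N : ℕ) (e : ℕ → ℕ → ℕ) (t i : ℕ) : ℕ := ∑ k ∈ Ico t (N + 2), e i k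

/-- number of edges from the positions `< t` to `k` -/
def up (e : ℕ → ℕ → ℕ) (t k : ℕ) : ℕ := ∑ i ∈ range t, e i k

/-- the sum of the first `t` values -/
noncomputable def Ys (x : ℕ → ℝ) (t : ℕ) : ℝ := ∑ i ∈ range t, x i

/-- half the sum of the values at the LOW ends (positions `≥ t`) of the edges of the cut `t` -/
noncomputable def Uh (N : ℕ) (e : ℕ → ℕ → ℕ) (x : ℕ → ℝ) (t : ℕ) : ℝ :=
  (∑ i ∈ range t, ∑ k ∈ Ico t (N + 2), (e i k : ℝ) * x k) / 2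

/-- half the sum of the values at the HIGH ends (positions `< t`) of the edges of the cut `t` -/
noncomputable def Wh (N : ℕ) (e : ℕ → ℕ → ℕ) (x : ℕ → ℝ) (t : ℕ) : ℝ :=
  (∑ i ∈ range t, ∑ k ∈ Ico t (N + 2), (e i k : ℝ) * x i) / 2

structure SG (D N : ℕ) (e : ℕ → ℕ → ℕ) (x : ℕ → ℝ) (th : ℝ) : Prop where
  hD : 10 ^ 14 ≤ D
  ev : Even D
  hN : 0 < N
  le1 : ∀ i k, e i k ≤ 1
  symm : ∀ i k, e i k = e k i
  irr : ∀ i, e i i = 0
  deg : ∀ i < N, ∑ k ∈ range (N + 2), e i k = D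
  anti : Antitone x
  pos : ∀ i < N, 0 < x i
  zero : ∀ i, N ≤ i → x i = 0
  grN : ∀ i < N, e i N = if i = N - 1 then 1 else 0
  grN1 : ∀ i < N, e i (N + 1) = if i = N - 1 then 1 else 0
  conn : ∀ A ⊆ range N, A.Nonempty → ∃ i ∈ A, ∃ k ∈ range (N + 2) \ A, e i k = 1
  th0 : 0 < th
  th1 : (D : ℝ) ^ 6 * th ^ 2 ≤ 1
  eig : ∀ i < N, ∑ k ∈ range (N + 2), (e i k : ℝ) * (x i - x k) = 2 * ((D : ℝ) - 2) * th ^ 2 * x i

/-- types of states -/
inductive Ty | pl | mi | fo | ce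
  deriving DecidableEq

/-- cuts of size two -/
def Ty.is2 (τ : Ty) : Prop := τ = Ty.pl ∨ τ = Ty.mi

/-- `St D N e x t τ u`: the cut `t` is a state of type `τ` with value `u`.
`pl`: two edges with a common HIGH end; `mi`: two edges with different high ends; `fo`: a small cut
(`< D/2`) with at least four edges; `ce`: no small cut among the last `D + 1` cuts. -/
def St (D N : ℕ) (e : ℕ → ℕ → ℕ) (x : ℕ → ℝ) (t : ℕ) (τ : Ty) (u : ℝ) : Prop :=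
  D + 1 ≤ t ∧ t ≤ N ∧
  match τ with
  | Ty.pl => cut N e t = 2 ∧ (∃ i ∈ range t, dn N e t i = 2) ∧ u = Uh N e x t
  | Ty.mi => cut N e t = 2 ∧ (¬ ∃ i ∈ range t, dn N e t i = 2) ∧ u = Uh N e x t
  | Ty.fo => 4 ≤ cut N e t ∧ 2 * cut N e t < D ∧ u = x t
  | Ty.ce => (∀ i ∈ Ioc (t - (D + 1)) t, D ≤ 2 * cut N e i) ∧ u = x t

/-- cost of the left cut -/
noncomputable def cutc (D : ℕ) : Ty → ℝ
  | Ty.pl => (D : ℝ) - 2
  | Ty.mi => (D : ℝ) - 2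
  | Ty.fo => ((D : ℝ) - 2) / 2
  | Ty.ce => 4

/-- cost of the left side of a nearly complete block -/
noncomputable def cL : Ty → ℝ
  | Ty.pl => 2
  | Ty.mi => 1
  | Ty.fo => 0
  | Ty.ce => 0

noncomputable def eta (D j : ℕ) : ℝ := (14 * (j : ℝ) + 150) / (D : ℝ)

/-- Transitions `Tr D τ' τ m a c G` from a state of type `τ'` to a state of type `τ`, `m` positions
further, with constants `a`, `c`, `G` (see `MS`). -/
inductive Tr (D : ℕ) : Ty → Ty → ℕ → ℝ → ℝ → ℝ → Prop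
  | nc (τ' τ : Ty) (j : ℕ) (cR : ℝ) (h' : τ'.is2) (h : τ.is2) (hj : 1 ≤ j) (hj' : 1000 * j ≤ D)
      (hc : cR = 1 ∨ (cR = 2 ∧ τ' = Ty.mi)) :
      Tr D τ' τ (D + 1 + j) ((D : ℝ) - 2 + cL τ + eta D j) (cR + eta D j)
        (((D : ℝ) + 1 + j) * ((D : ℝ) - 2 + cL τ + eta D j) + 5)
  | bp (τ' : Ty) (j : ℕ) (h' : τ'.is2) (hj' : 1000 * j ≤ D) :
      Tr D τ' Ty.mi (D + 1 + j) ((D : ℝ) - 2) 0 (((D : ℝ) + 1 + j) * ((D : ℝ) + eta D j) + 5)
  | m1 (τ' : Ty) (h' : τ'.is2) :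
      Tr D τ' Ty.mi (D + 1) ((D : ℝ) - 2 + (((D : ℝ) - 2) / ((D : ℝ) - 1) + 1 / (D : ℝ) ^ 4))
        (((D : ℝ) - 2) / ((D : ℝ) - 1) + 1 / (D : ℝ) ^ 4)
        (((D : ℝ) + 1) * ((D : ℝ) - 2 + (((D : ℝ) - 2) / ((D : ℝ) - 1) + 1 / (D : ℝ) ^ 4)))
  | m3 (τ' : Ty) (h' : τ'.is2) :
      Tr D τ' Ty.mi (D + 1) ((D : ℝ) - 2 + (((D : ℝ) - 2) / (D : ℝ) + 1 / (D : ℝ) ^ 4))
        (((D : ℝ) - 2) / (D : ℝ) + 1 / (D : ℝ) ^ 4)
        (((D : ℝ) + 1) * ((D : ℝ) - 2) + (D : ℝ) + 2)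
  | de (τ' τ : Ty) (m : ℕ) (hm : D + 1 ≤ m) (hm' : m < 2 * (D + 1))
      (h2 : τ'.is2 → τ.is2 → D < 1000 * (m - (D + 1))) :
      Tr D τ' τ m (cutc D τ + (D : ℝ) / 20000) 0 ((m : ℝ) * (cutc D τ + (D : ℝ) / 20000))

/-- the inequalities of a transition -/
def MS (th : ℝ) (m : ℕ) (a c G u' Y' u Y : ℝ) : Prop :=
  u' ≤ u + th ^ 2 * (a * Y + c * Y') ∧ Y ≤ Y' + (m : ℝ) * u + th ^ 2 * G * Y

/-- End pieces: `Y ≤ m u + th^2 (G Y - G' u)`. -/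
inductive EndP (D : ℕ) : Ty → ℕ → ℝ → ℝ → Prop
  | k : EndP D Ty.mi (D + 1) (((D : ℝ) - 2) * ((D : ℝ) + 2)) 0
  | nc (τ : Ty) (j : ℕ) (h : τ.is2) (hj : 1 ≤ j) (hj' : 1000 * j ≤ D) (h2 : ¬ (τ = Ty.pl ∧ j = 2)) :
      EndP D τ (D + 1 + j) (((D : ℝ) + 1 + j) * ((D : ℝ) - 2 + cL τ + eta D j) + 5) 0
  | e2 : EndP D Ty.pl (D + 3)
      (((D : ℝ) + 3) * ((D : ℝ) - 2) + 2 * ((D : ℝ) + 2) + 300 / (D : ℝ)) (2 * ((D : ℝ) + 2))
  | de (τ : Ty) (m : ℕ) (hm : D + 1 ≤ m) (hm' : m < 2 * (D + 1))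
      (h2 : τ.is2 → D < 1000 * (m - (D + 1))) :
      EndP D τ m ((m : ℝ) * (cutc D τ + (D : ℝ) / 20000)) 0

/-- add mass `m` -/
def mst (m th : ℝ) (v : ℝ × ℝ) : ℝ × ℝ := (v.1, v.2 + th * m * v.1)
/-- add resistance `a` -/
def ast (a th : ℝ) (v : ℝ × ℝ) : ℝ × ℝ := (v.1 - th * a * v.2, v.2)

/-- the map of an ideal block of the first orientation, on pairs `(u, th * Y)` -/
noncomputable def M1 (D : ℕ) (th : ℝ) (v : ℝ × ℝ) : ℝ × ℝ :=
  ast ((D : ℝ) - 2) th (mst 1 th (ast 2 th (mst ((D : ℝ) - 2) th (ast 1 th (mst 2 th v)))))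

/-- the map of an ideal block of the second orientation -/
noncomputable def M2 (D : ℕ) (th : ℝ) (v : ℝ × ℝ) : ℝ × ℝ :=
  ast ((D : ℝ) - 2) th (mst 2 th (ast 1 th (mst ((D : ℝ) - 2) th (ast 2 th (mst 1 th v)))))

/-- the value of the twins `a, b` in the end block of the comparison graph, `L = 2 (D-2) th^2` -/
noncomputable def eA (D : ℕ) (L : ℝ) : ℝ := (2 * (D : ℝ) - L) / (2 * (D : ℝ) - ((D : ℝ) + 3) * L + L ^ 2)
/-- the value of the other vertices of the end block -/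
noncomputable def eR (D : ℕ) (L : ℝ) : ℝ := (2 + 2 * eA D L) / (4 - L)

/-- the vector `(u, th * Y)` of the end block of the comparison graph -/
noncomputable def endv (D : ℕ) (th : ℝ) : ℝ × ℝ :=
  (((D : ℝ) - 2 * ((D : ℝ) - 2) * th ^ 2) - eA D (2 * ((D : ℝ) - 2) * th ^ 2)
      - ((D : ℝ) - 2) * eR D (2 * ((D : ℝ) - 2) * th ^ 2),
    th * (2 + 2 * eA D (2 * ((D : ℝ) - 2) * th ^ 2) + ((D : ℝ) - 2) * eR D (2 * ((D : ℝ) - 2) * th ^ 2)))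

/-- the value at the ground beyond `v0` in the comparison graph with `NA` blocks -/
noncomputable def gA (D : ℕ) (th : ℝ) (NA : ℕ) : ℝ :=
  (ast 2 th (mst 1 th ((M2 D th)^[NA] (endv D th)))).1

/-- the constants of the types -/
noncomputable def al (D : ℕ) : Ty → ℝ
  | Ty.pl => ((D : ℝ) - 1) / 2
  | Ty.mi => ((D : ℝ) - 3) / 2
  | Ty.fo => ((D : ℝ) + 1) / 4
  | Ty.ce => 0

noncomputable def Rc (D : ℕ) : Ty → ℝ
  | Ty.pl => 0
  | Ty.mi => (D : ℝ) + 1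
  | Ty.fo => 0
  | Ty.ce => 0

/-- the cubic polynomials -/
noncomputable def q (D : ℕ) (τ : Ty) (s : ℝ) : ℝ :=
  s ^ 3 / 3 + al D τ * s ^ 2 + (((D : ℝ) + 1) ^ 2 / 6 - 4 + 6 / ((D : ℝ) + 1)) * s

/-- the target constant -/
noncomputable def tgt (D : ℕ) : ℝ := - ((D : ℝ) + 1) ^ 2 / 3 - 3 / 2 * ((D : ℝ) + 1)

end Pool.Agent.T2H60.SX
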