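import Pool.Agent.T2H60.SX.Stm

/-!
# SX, package AM: assembly of the comparison
-/

set_option autoImplicit false
open Finset

namespace Pool.Agent.T2H60.SX

/-- maximal run of `pl` states -/
lemma AM_run {D N : ℕ} {th : ℝ} {S : ℕ → Ty → ℝ → Prop} {Y : ℕ → ℝ} (h : Ch D N th S Y) :
    ∀ t u, S t Ty.pl u → ∃ k tk uk, t = tk + k * (D + 1) ∧ S tk Ty.pl uk ∧
      (¬ ∃ u', S (tk - (D + 1)) Ty.pl u') ∧ (u, th * Y t) = (M1 D th)^[k] (uk, th * Y tk) := by
  intro t
  induction t using Nat.strong_induction_on with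
  | _ t ih =>
    intro u hu
    by_cases hc : ∃ u', S (t - (D + 1)) Ty.pl u'
    · obtain ⟨u', hu'⟩ := hc
      have h1 := (h.rng t Ty.pl u hu).1
      obtain ⟨k, tk, uk, hk1, hk2, hk3, hk4⟩ := ih (t - (D + 1)) (by omega) u' hu'
      refine ⟨k + 1, tk, uk, ?_, hk2, hk3, ?_⟩
      · have : (k + 1) * (D + 1) = k * (D + 1) + (D + 1) := by ring
        omega
      · rw [h.idl t u u' hu hu', hk4, Function.iterate_succ_apply']
    · exact ⟨0, t, u, by simp, hu, hc, by simp⟩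

/-- the determinant is preserved by the iterates -/
lemma AM_det {D : ℕ} {th : ℝ}
    (hd : ∀ v w : ℝ × ℝ, (M1 D th v).1 * (M1 D th w).2 - (M1 D th v).2 * (M1 D th w).1
      = v.1 * w.2 - v.2 * w.1) (k : ℕ) (v w : ℝ × ℝ) :
    ((M1 D th)^[k] v).1 * ((M1 D th)^[k] w).2 - ((M1 D th)^[k] v).2 * ((M1 D th)^[k] w).1
      = v.1 * w.2 - v.2 * w.1 := by
  induction k generalizing v w with
  | zero => simp
  | succ k ih => rw [Function.iterate_succ_apply, Function.iterate_succ_apply, ih, hd]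

/-- the rotation iterated -/
lemma AM_rot {D : ℕ} {th : ℝ}
    (hr : ∀ r ψ : ℝ, M1 D th (r * Real.cos ψ, r * hZ D th Ty.pl ψ)
      = (r * Real.cos (ψ + chi D th), r * hZ D th Ty.pl (ψ + chi D th))) (k : ℕ) (r ψ : ℝ) :
    (M1 D th)^[k] (r * Real.cos ψ, r * hZ D th Ty.pl ψ)
      = (r * Real.cos (ψ + k * chi D th), r * hZ D th Ty.pl (ψ + k * chi D th)) := by
  induction k with
  | zero => simp
  | succ k ih =>
    rw [Function.iterate_succ_apply', ih, hr]
    have : ψ + (k : ℝ) * chi D th + chi D th = ψ + ((k + 1 : ℕ) : ℝ) * chi D th := by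
      push_cast; ring
    rw [this]

/-- lower-bound predicate -/
def AMlb (th s Q B : ℝ) (v : ℝ × ℝ) : Prop :=
  0 < v.1 ∧ th * (s + th ^ 2 * Q) * v.1 ≤ v.2 ∧ v.2 ≤ th * B * v.1

lemma AMlb_mst {th s Q B m : ℝ} {v : ℝ × ℝ} (h : AMlb th s Q B v) :
    AMlb th (s + m) Q (B + m) (mst m th v) := by
  obtain ⟨h1, h2, h3⟩ := h
  refine ⟨h1, ?_, ?_⟩
  · simp only [mst]
    nlinarith
  · simp only [mst]
    nlinarith

lemma AMlb_ast {th s Q B a : ℝ} {v : ℝ × ℝ} (hth : 0 < th) (hs : 0 ≤ s) (hQ : 0 ≤ Q) (hB : 0 ≤ B) (ha : 0 ≤ a)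
    (hsm : th ^ 2 * a * B ≤ 1 / 2) (h : AMlb th s Q B v) :
    AMlb th s (Q + a * s ^ 2) (2 * B) (ast a th v) := by
  obtain ⟨h1, h2, h3⟩ := h
  have h4 : v.1 / 2 ≤ v.1 - th * a * v.2 := by
    have : th * a * v.2 ≤ th * a * (th * B * v.1) := mul_le_mul_of_nonneg_left h3 (by positivity)
    have h5 : th * a * (th * B * v.1) = (th ^ 2 * a * B) * v.1 := by ring
    have h6 : (th ^ 2 * a * B) * v.1 ≤ 1 / 2 * v.1 := mul_le_mul_of_nonneg_right hsm h1.le
    linarith
  have hU : 0 < v.1 - th * a * v.2 := by linarith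
  refine ⟨hU, ?_, ?_⟩
  · simp only [ast]
    set K := s + th ^ 2 * Q with hK
    set K2 := s + th ^ 2 * (Q + a * s ^ 2) with hK2
    have hKs : s ≤ K := by rw [hK]; nlinarith [mul_nonneg (sq_nonneg th) hQ]
    have hKs2 : s ≤ K2 := by
      rw [hK2]
      nlinarith [mul_nonneg (sq_nonneg th) (add_nonneg hQ (mul_nonneg ha (sq_nonneg s)))]
    have hKK : s ^ 2 ≤ K * K2 := by nlinarith [mul_le_mul hKs hKs2 hs (hs.trans hKs)]
    have hK2e : K2 = K + th ^ 2 * a * s ^ 2 := by rw [hK2, hK]; ring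
    have hZ : 0 ≤ v.2 := le_trans (by have := hs.trans hKs; positivity) h2
    -- th K2 (U - th a Z) <= Z
    have e1 : K2 ≤ K * (1 + th ^ 2 * a * K2) := by
      rw [hK2e]
      have : th ^ 2 * a * s ^ 2 ≤ th ^ 2 * a * (K * K2) := mul_le_mul_of_nonneg_left hKK (by positivity)
      rw [hK2e] at this
      nlinarith
    have e2 : th * K2 * v.1 ≤ v.2 * (1 + th ^ 2 * a * K2) := by
      have e3 : th * K2 * v.1 ≤ th * (K * (1 + th ^ 2 * a * K2)) * v.1 := by
        apply mul_le_mul_of_nonneg_right _ h1.le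
        exact mul_le_mul_of_nonneg_left e1 hth.le
      have e4 : th * (K * (1 + th ^ 2 * a * K2)) * v.1 = (th * K * v.1) * (1 + th ^ 2 * a * K2) := by ring
      have e5 : (0 : ℝ) ≤ 1 + th ^ 2 * a * K2 := by
        have := hs.trans hKs2
        positivity
      have e6 := mul_le_mul_of_nonneg_right h2 e5
      linarith
    nlinarith
  · simp only [ast]
    have : v.2 ≤ th * B * (2 * (v.1 - th * a * v.2)) := by
      refine h3.trans ?_
      apply mul_le_mul_of_nonneg_left _ (by positivity)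
      linarith
    linarith

lemma AMlb_M1 {D : ℕ} {th s Q B : ℝ} {v : ℝ × ℝ} (hD : 10 ^ 14 ≤ D) (hth : 0 < th) (hs : 0 ≤ s) (hQ : 0 ≤ Q)
    (hB : (D : ℝ) ≤ B) (hsm : th ^ 2 * (D : ℝ) * (16 * B) ≤ 1 / 2) (h : AMlb th s Q B v) :
    AMlb th (s + ((D : ℝ) + 1)) (Q + (((D : ℝ) - 2) * (s + ((D : ℝ) + 1)) ^ 2 + (s + 2) ^ 2
        + 2 * (s + (D : ℝ)) ^ 2)) (16 * B) (M1 D th v) := by
  have hDr : (10 : ℝ) ^ 14 ≤ (D : ℝ) := by exact_mod_cast hD
  have hD2 : (2 : ℝ) ≤ (D : ℝ) := le_trans (by norm_num) hDr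
  have hb : ∀ a B' : ℝ, 0 ≤ a → a ≤ D → 0 ≤ B' → B' ≤ 16 * B → th ^ 2 * a * B' ≤ 1 / 2 := by
    intro a B' ha haD hB' hB''
    calc th ^ 2 * a * B' ≤ th ^ 2 * (D : ℝ) * (16 * B) := by
          apply mul_le_mul _ hB'' hB' (by positivity)
          exact mul_le_mul_of_nonneg_left haD (by positivity)
      _ ≤ 1 / 2 := hsm
  have h1 := AMlb_mst (m := 2) h
  have h2 := AMlb_ast (a := 1) hth (by linarith) hQ (by linarith) (by norm_num)
    (hb 1 _ (by norm_num) (by linarith) (by linarith) (by linarith)) h1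
  have h3 := AMlb_mst (m := (D : ℝ) - 2) h2
  have h4 := AMlb_ast (a := 2) hth (by linarith) (by positivity) (by linarith) (by norm_num)
    (hb 2 _ (by norm_num) (by linarith) (by linarith) (by linarith)) h3
  have h5 := AMlb_mst (m := 1) h4
  have h6 := AMlb_ast (a := (D : ℝ) - 2) hth (by linarith) (by positivity) (by linarith) (by linarith)
    (hb ((D : ℝ) - 2) _ (by linarith) (by linarith) (by linarith) (by linarith)) h5
  obtain ⟨g1, g2, g3⟩ := h6
  refine ⟨g1, ?_, ?_⟩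
  · refine le_trans (le_of_eq ?_) g2
    have : (M1 D th v).1 = (ast ((D : ℝ) - 2) th (mst 1 th (ast 2 th (mst ((D : ℝ) - 2) th (ast 1 th (mst 2 th v)))))).1 := rfl
    rw [this]
    ring
  · refine le_trans g3 ?_
    have hx : 0 ≤ (M1 D th v).1 := g1.le
    apply mul_le_mul_of_nonneg_right _ hx
    apply mul_le_mul_of_nonneg_left _ hth.le
    linarith

lemma AMlb_iter {D : ℕ} {th Kt : ℝ} (hNE : NE) (hD : 10 ^ 14 ≤ D) (hth : 0 < th) (hK1 : 2 + 3 / 4 * (D : ℝ) * th ^ 2 ≤ Kt)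
    (hK2 : Kt ≤ 3) (n : ℕ) (hsm : th ^ 2 * (D : ℝ) * ((D : ℝ) * 16 ^ n) ≤ 1 / 2) :
    ∀ i ≤ n, AMlb th (2 + i * ((D : ℝ) + 1)) (q D Ty.pl (2 + i * ((D : ℝ) + 1)) - q D Ty.pl 2 + 3 / 4 * (D : ℝ))
      ((D : ℝ) * 16 ^ i) ((M1 D th)^[i] (1, th * Kt)) ∧
      0 ≤ q D Ty.pl (2 + i * ((D : ℝ) + 1)) - q D Ty.pl 2 + 3 / 4 * (D : ℝ) := by
  have hDr : (10 : ℝ) ^ 14 ≤ (D : ℝ) := by exact_mod_cast hD
  have hD2 : (3 : ℝ) ≤ (D : ℝ) := le_trans (by norm_num) hDr
  intro i
  induction i with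
  | zero =>
    intro _
    refine ⟨⟨?_, ?_, ?_⟩, ?_⟩
    · simp
    · simp only [Nat.cast_zero, zero_mul, add_zero, Function.iterate_zero, id_eq, sub_self, zero_add, mul_one]
      apply mul_le_mul_of_nonneg_left _ hth.le
      linarith
    · simp only [pow_zero, mul_one, Function.iterate_zero, id_eq]
      apply mul_le_mul_of_nonneg_left _ hth.le
      linarith
    · simp only [Nat.cast_zero, zero_mul, add_zero, sub_self, zero_add]
      positivity
  | succ i ih =>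
    intro hi
    obtain ⟨h1, h2⟩ := ih (by omega)
    have hid := (hNE D hD).2.1 (2 + i * ((D : ℝ) + 1))
    have hpos : (0 : ℝ) ≤ 2 + i * ((D : ℝ) + 1) := by positivity
    have h3 := AMlb_M1 hD hth hpos h2
      (by
        have : (1 : ℝ) ≤ 16 ^ i := one_le_pow₀ (by norm_num)
        nlinarith)
      (by
        refine le_trans ?_ hsm
        apply mul_le_mul_of_nonneg_left _ (by positivity)
        have : (16 : ℝ) ^ (i + 1) ≤ 16 ^ n := pow_le_pow_right₀ (by norm_num) hi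
        have h5 : 16 * ((D : ℝ) * 16 ^ i) = (D : ℝ) * 16 ^ (i + 1) := by ring
        rw [h5]
        exact mul_le_mul_of_nonneg_left this (by linarith)) h1
    have e1 : (2 : ℝ) + i * ((D : ℝ) + 1) + ((D : ℝ) + 1) = 2 + ((i + 1 : ℕ) : ℝ) * ((D : ℝ) + 1) := by
      push_cast; ring
    rw [e1] at h3 hid
    have e2 : 16 * ((D : ℝ) * 16 ^ i) = (D : ℝ) * 16 ^ (i + 1) := by ring
    rw [e2, ← Function.iterate_succ_apply' (M1 D th)] at h3
    have hge : 0 ≤ ((D : ℝ) - 2) * (2 + ((i + 1 : ℕ) : ℝ) * ((D : ℝ) + 1)) ^ 2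
        + (2 + i * ((D : ℝ) + 1) + 2) ^ 2 + 2 * (2 + i * ((D : ℝ) + 1) + (D : ℝ)) ^ 2 := by
      have : (0 : ℝ) ≤ (D : ℝ) - 2 := by linarith
      positivity
    refine ⟨?_, by rw [hid]; linarith⟩
    have e3 : q D Ty.pl (2 + ((i + 1 : ℕ) : ℝ) * ((D : ℝ) + 1)) - q D Ty.pl 2 + 3 / 4 * (D : ℝ)
      = q D Ty.pl (2 + i * ((D : ℝ) + 1)) - q D Ty.pl 2 + 3 / 4 * (D : ℝ)
        + (((D : ℝ) - 2) * (2 + ((i + 1 : ℕ) : ℝ) * ((D : ℝ) + 1)) ^ 2
        + (2 + i * ((D : ℝ) + 1) + 2) ^ 2 + 2 * (2 + i * ((D : ℝ) + 1) + (D : ℝ)) ^ 2) := by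
      rw [hid]; ring
    rw [e3]
    exact h3

theorem pAM (hTLF : TLF) (hBLF : BLF) (hVV : VV) (hVA : VA) (hFX : FX) (hFR : FR) (hNE : NE) : AM := by
  intro D hD
  have hDr : (10 : ℝ) ^ 14 ≤ (D : ℝ) := by exact_mod_cast hD
  have hD3 : (3 : ℝ) ≤ (D : ℝ) := le_trans (by norm_num) hDr
  obtain ⟨C, hC, t1, ht1, hvv⟩ := hVV D hD
  obtain ⟨C4, hC4, t2, ht2, hva⟩ := hVA D hD C hC
  obtain ⟨K1, N1, hblf⟩ := hBLF D hD C4 hC4
  obtain ⟨CT, hCT, t3, ht3, htlf⟩ := hTLF D hD K1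
  obtain ⟨CX, hCX, t4, ht4, hfx⟩ := hFX D hD
  obtain ⟨t5, ht5, hfr⟩ := hFR D hD
  -- a common threshold for th
  obtain ⟨t0, ht0, hs1, hs2, hs3, hs4, hs5, hs6⟩ : ∃ t0 : ℝ, 0 < t0 ∧ t0 ≤ t1 ∧ t0 ≤ t2 ∧ t0 ≤ t3 ∧ t0 ≤ t4 ∧ t0 ≤ t5 ∧
      (∀ th : ℝ, 0 < th → th ≤ t0 → C * th ^ 2 ≤ 1 ∧ CT * th ^ 2 ≤ 1 ∧ th ^ 2 * (D : ℝ) * ((D : ℝ) * 16 ^ K1) ≤ 1 / 2 ∧
        CX * th ^ 2 ≤ 1 / 100 ∧ th * ((D : ℝ) + 3) ≤ 1 / 100 ∧ C4 * th ^ 2 ≤ 1) := by
    set A : ℝ := C + CT + 100 * CX + 100 * ((D : ℝ) + 3) + C4 + 2 * (D : ℝ) * ((D : ℝ) * 16 ^ K1) + 1 with hA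
    have hA1 : 1 ≤ A := by rw [hA]; have : 0 ≤ 2 * (D : ℝ) * ((D : ℝ) * 16 ^ K1) := by positivity
                           linarith
    refine ⟨min (1 / A) (min t1 (min t2 (min t3 (min t4 t5)))), ?_, ?_, ?_, ?_, ?_, ?_, ?_⟩
    · have : 0 < 1 / A := by positivity
      simp only [lt_min_iff]
      exact ⟨this, ht1, ht2, ht3, ht4, ht5⟩
    · exact (min_le_right _ _).trans (min_le_left _ _)
    · exact (min_le_right _ _).trans ((min_le_right _ _).trans (min_le_left _ _))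
    · exact (min_le_right _ _).trans ((min_le_right _ _).trans ((min_le_right _ _).trans (min_le_left _ _)))
    · exact (min_le_right _ _).trans ((min_le_right _ _).trans ((min_le_right _ _).trans
        ((min_le_right _ _).trans (min_le_left _ _))))
    · exact (min_le_right _ _).trans ((min_le_right _ _).trans ((min_le_right _ _).trans
        ((min_le_right _ _).trans (min_le_right _ _))))
    · intro th hth0 hth
      have h1 : th ≤ 1 / A := hth.trans (min_le_left _ _)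
      have h2 : A * th ≤ 1 := by
        rw [le_div_iff₀ (by linarith)] at h1
        linarith
      have h3 : th ≤ 1 := by nlinarith
      have h4 : th ^ 2 ≤ th := by nlinarith
      have hp : 0 ≤ (D : ℝ) * ((D : ℝ) * 16 ^ K1) := by positivity
      have key : ∀ X : ℝ, 0 ≤ X → X ≤ A → X * th ^ 2 ≤ 1 := by
        intro X hX hXA
        calc X * th ^ 2 ≤ X * th := mul_le_mul_of_nonneg_left h4 hX
          _ ≤ A * th := mul_le_mul_of_nonneg_right hXA hth0.le
          _ ≤ 1 := h2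
      refine ⟨key C hC.le (by rw [hA]; linarith), key CT hCT.le (by rw [hA]; linarith), ?_, ?_, ?_,
        key C4 hC4.le (by rw [hA]; linarith)⟩
      · have := key (2 * (D : ℝ) * ((D : ℝ) * 16 ^ K1)) (by linarith) (by rw [hA]; linarith)
        linarith
      · have := key (100 * CX) (by linarith) (by rw [hA]; linarith)
        linarith
      · have : 100 * ((D : ℝ) + 3) * th ≤ A * th := mul_le_mul_of_nonneg_right (by rw [hA]; linarith) hth0.le
        linarith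
  obtain ⟨N2, hN2⟩ := exists_nat_gt (14 / 5 / t0)
  refine ⟨N1 + N2 + 2 * (D + 1) + 1, ?_⟩
  intro N hN hmod th S Y hch hthN
  have hth0 := hch.th0
  have hNpos : (0 : ℝ) < (N : ℝ) := by exact_mod_cast (by omega : 0 < N)
  have htht : th ≤ t0 := by
    by_contra hc
    push Not at hc
    have h1 : t0 * (N : ℝ) ≤ 14 / 5 := le_trans (mul_le_mul_of_nonneg_right hc.le hNpos.le) hthN
    have h2 : (N2 : ℝ) ≤ (N : ℝ) := by exact_mod_cast (by omega : N2 ≤ N)
    rw [div_lt_iff₀ ht0] at hN2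
    nlinarith
  obtain ⟨a1, a2, a3, a4, a5, a6⟩ := hs6 th hth0 htht
  obtain ⟨kp, hkp, Kt, hKt1, hKt2, hgA⟩ := hvv th hth0 (htht.trans hs1)
  have hKt2' : (2 : ℝ) ≤ Kt := le_trans (by nlinarith [mul_nonneg (show (0 : ℝ) ≤ 3 / 4 * (D : ℝ) by linarith) (sq_nonneg th)]) hKt1
  obtain ⟨r, hr, ph, hph1, hph0, hph2, hvec⟩ := hva th hth0 (htht.trans hs2) Kt hKt2' hKt2
  obtain ⟨hx1, hx2, hx3, hx4⟩ := hfx th hth0 (htht.trans hs4)
  obtain ⟨hb0, he0, -, -⟩ := hx4 Ty.pl (Or.inl rfl)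
  obtain ⟨hrot, hdet⟩ := hfr th hth0 (htht.trans hs5)
  have hMx : Mx D th Ty.pl = M1 D th := by simp [Mx]
  have hdet' := hdet Ty.pl
  rw [hMx] at hdet'
  have hrot' := hrot Ty.pl (Or.inl rfl)
  rw [hMx] at hrot'
  -- the run
  obtain ⟨k, tk, uk, hk1, hk2, hk3, hk4⟩ := AM_run hch N 0 hch.lst
  have htk := (hch.rng tk Ty.pl uk hk2).1
  have huk := hch.unn tk Ty.pl uk hk2
  have hYN : 0 < Y N := hch.Yp N (by omega)
  have hYtk : 0 < Y tk := hch.Yp tk (by omega)
  have htkmod : tk % (D + 1) = 2 := by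
    rw [hk1, Nat.add_mul_mod_self_right] at hmod
    exact hmod
  obtain ⟨qq, hqq⟩ : ∃ qq, tk = 2 + qq * (D + 1) := ⟨tk / (D + 1), by
    have := Nat.div_add_mod tk (D + 1)
    rw [htkmod] at this
    have h2 : (D + 1) * (tk / (D + 1)) = tk / (D + 1) * (D + 1) := Nat.mul_comm _ _
    omega⟩
  have hqpos : 1 ≤ qq := by
    by_contra hc
    have : qq = 0 := by omega
    rw [this] at hqq
    omega
  have hNA : (N - 2) / (D + 1) - 1 + 1 = k + qq := by
    have h1 : N - 2 = (k + qq) * (D + 1) := by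
      have : (k + qq) * (D + 1) = k * (D + 1) + qq * (D + 1) := by ring
      omega
    rw [h1, Nat.mul_div_cancel _ (by omega)]
    omega
  rw [hgA, hNA, Function.iterate_add_apply]
  set W := (M1 D th)^[qq] (1, th * Kt) with hW
  have hD1 := AM_det hdet' k (uk, th * Y tk) W
  rw [← hk4] at hD1
  simp only [zero_mul, zero_sub] at hD1
  -- it suffices: det >= 0
  suffices hs : 0 ≤ uk * W.2 - th * Y tk * W.1 by
    have h1 : th * Y N * ((M1 D th)^[k] W).1 ≤ 0 := by linarith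
    have h2 : 0 < th * Y N := by positivity
    have h3 : ((M1 D th)^[k] W).1 ≤ 0 := by
      by_contra hc
      push Not at hc
      nlinarith [mul_pos h2 hc]
    exact mul_nonpos_of_nonneg_of_nonpos hkp.le h3
  have hDne : (0 : ℝ) < (D : ℝ) + 1 := by linarith
  by_cases hcase : tk ≤ K1
  · -- T-level
    have h1 := htlf N th S Y hch (htht.trans hs3) tk uk hcase hk2 htkmod hk3
    have hqK : qq ≤ K1 := by nlinarith
    obtain ⟨⟨g1, g2, g3⟩, g4⟩ := AMlb_iter hNE hD hth0 hKt1 (by linarith) K1 a3 qq hqK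
    rw [← hW] at g1 g2 g3
    have hcast : (2 : ℝ) + qq * ((D : ℝ) + 1) = (tk : ℝ) := by rw [hqq]; push_cast; ring
    rw [hcast] at g2
    have hn := (hNE D hD).2.2.2.2.2
    have h2 : th * Y tk * W.1 ≤ uk * (th * ((tk : ℝ) + th ^ 2 * (q D Ty.pl tk - q D Ty.pl 2 + 3 / 4 * (D : ℝ))) * W.1) := by
      have h3 : Y tk ≤ uk * ((tk : ℝ) + th ^ 2 * (q D Ty.pl tk - q D Ty.pl 2 + 3 / 4 * (D : ℝ))) := by
        refine h1.trans ?_
        apply mul_le_mul_of_nonneg_left _ huk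
        have h5 : CT * th ^ 4 = th ^ 2 * (CT * th ^ 2) := by ring
        rw [h5, add_assoc, ← mul_add]
        have h6 : q D Ty.pl tk + tgt D + CT * th ^ 2 ≤ q D Ty.pl tk - q D Ty.pl 2 + 3 / 4 * (D : ℝ) := by
          linarith
        have := mul_le_mul_of_nonneg_left h6 (sq_nonneg th)
        linarith
      have h4 := mul_le_mul_of_nonneg_right h3 (mul_nonneg hth0.le g1.le)
      nlinarith
    have h3 := mul_le_mul_of_nonneg_left g2 huk
    linarith
  · -- bulk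
    push Not at hcase
    have h1 := hblf N th S Y (by omega) hch hthN tk uk hcase.le hk2 hk3
    unfold Cl at h1
    set ψ := psi D th Ty.pl tk (-C4) with hψ
    have hWv : W = (r * Real.cos (ph + qq * chi D th), r * hZ D th Ty.pl (ph + qq * chi D th)) := by
      rw [hW, hvec, AM_rot hrot']
    set ψ' := ph + qq * chi D th with hψ'
    have hal : al D Ty.pl = ((D : ℝ) - 1) / 2 := rfl
    have hqc : (qq : ℝ) * chi D th = chi D th / ((D : ℝ) + 1) * ((tk : ℝ) - 2) := by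
      rw [hqq]; push_cast; field_simp; ring
    have hle : ψ ≤ ψ' := by
      rw [hψ, hψ', hqc]
      unfold psi
      linarith
    have hψ0 : 0 < ψ := by
      rw [hψ]
      unfold psi
      rw [hal]
      have e1 : 0 ≤ chi D th / ((D : ℝ) + 1) * (tk : ℝ) := by positivity
      have e2 : C4 * th ^ 3 ≤ th := by
        have : C4 * th ^ 3 = th * (C4 * th ^ 2) := by ring
        rw [this]
        nlinarith
      have e3 : th * (2 : ℝ) < th * (((D : ℝ) - 1) / 2) := by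
        apply mul_lt_mul_of_pos_left _ hth0
        linarith [show (10 : ℝ) < 10 ^ 14 by norm_num]
      linarith
    have hψ3 : ψ' < 3 := by
      rw [hψ', hqc]
      have e1 : chi D th / ((D : ℝ) + 1) ≤ th + CX * th ^ 3 := by
        have := (abs_le.mp hx1).2
        linarith
      have e2 : CX * th ^ 3 ≤ th / 100 := by
        have : CX * th ^ 3 = th * (CX * th ^ 2) := by ring
        rw [this]
        nlinarith
      have e3 : (tk : ℝ) - 2 ≤ N := by
        have : tk ≤ N := by omega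
        have : (tk : ℝ) ≤ N := by exact_mod_cast this
        linarith
      have e4 : (0 : ℝ) ≤ (tk : ℝ) - 2 := by
        have : 2 ≤ tk := by omega
        have : (2 : ℝ) ≤ tk := by exact_mod_cast this
        linarith
      have e5 : chi D th / ((D : ℝ) + 1) * ((tk : ℝ) - 2) ≤ (th + th / 100) * N := by
        apply mul_le_mul _ e3 e4 (by positivity)
        linarith
      nlinarith
    have hpi : (3 : ℝ) < Real.pi := Real.pi_gt_three
    have hsψ : 0 < Real.sin ψ := Real.sin_pos_of_pos_of_lt_pi hψ0 (by linarith)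
    have hsψ' : 0 < Real.sin ψ' := Real.sin_pos_of_pos_of_lt_pi (by linarith) (by linarith)
    have hsd : 0 ≤ Real.sin (ψ' - ψ) := Real.sin_nonneg_of_nonneg_of_le_pi (by linarith) (by linarith)
    rw [hWv]
    simp only
    have hg : ∀ y : ℝ, hZ D th Ty.pl y = (Real.sin (chi D th) * Real.sin y - ed D th Ty.pl * Real.cos y) / bq D th Ty.pl :=
      fun y => rfl
    rw [hg] at h1 ⊢
    have hb := hb0
    set b := bq D th Ty.pl
    set ee := ed D th Ty.pl
    set sx := Real.sin (chi D th)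
    -- g(y) * b = A0 sin y - B0 cos y
    have h2 : 0 ≤ uk * sx * Real.sin ψ - (uk * ee + th * Y tk * b) * Real.cos ψ := by
      have h3 := mul_le_mul_of_nonneg_right h1 hb.le
      have h4 : uk * ((sx * Real.sin ψ - ee * Real.cos ψ) / b) * b = uk * (sx * Real.sin ψ - ee * Real.cos ψ) := by
        field_simp
      rw [h4] at h3
      linarith
    have hB0 : 0 ≤ uk * ee + th * Y tk * b := by positivity
    have h3 : Real.sin ψ * (uk * sx * Real.sin ψ' - (uk * ee + th * Y tk * b) * Real.cos ψ')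
        = Real.sin ψ' * (uk * sx * Real.sin ψ - (uk * ee + th * Y tk * b) * Real.cos ψ)
          + (uk * ee + th * Y tk * b) * Real.sin (ψ' - ψ) := by
      rw [Real.sin_sub]; ring
    have h4 : 0 ≤ uk * sx * Real.sin ψ' - (uk * ee + th * Y tk * b) * Real.cos ψ' := by
      have h5 : 0 ≤ Real.sin ψ * (uk * sx * Real.sin ψ' - (uk * ee + th * Y tk * b) * Real.cos ψ') := by
        rw [h3]; positivity
      exact nonneg_of_mul_nonneg_right h5 hsψ
    have h5 : uk * (r * ((sx * Real.sin ψ' - ee * Real.cos ψ') / b)) - th * Y tk * (r * Real.cos ψ')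
        = r / b * (uk * sx * Real.sin ψ' - (uk * ee + th * Y tk * b) * Real.cos ψ') := by
      field_simp
      ring
    rw [h5]
    positivity

end Pool.Agent.T2H60.SX
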