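import Pool.Agent.T2H60.SX.PFR

/-!
# SX: package FS (the step inequality)
-/

set_option autoImplicit false
open Finset

namespace Pool.Agent.T2H60.SX

lemma fs_al_nonneg {D : ℕ} (hD : 10 ^ 14 ≤ D) (τ : Ty) : 0 ≤ al D τ ∧ al D τ ≤ ((D : ℝ) + 1) / 2 := by
  have hD' : (10 : ℝ) ^ 14 ≤ D := by exact_mod_cast hD
  cases τ <;> simp only [al] <;> constructor <;> linarith

lemma fs_hZ {D : ℕ} {th : ℝ} (hD : 10 ^ 14 ≤ D) (h : Fsm D th) (τ : Ty) (ψ : ℝ)
    (hS : 0 ≤ Real.sin ψ) (hC : 0 ≤ Real.cos ψ) :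
    |hZ D th τ ψ - (Real.sin ψ - th * al D τ * Real.cos ψ)|
      ≤ (2 * ((D : ℝ) + 1) ^ 2) * (th ^ 2 * Real.sin ψ + th ^ 3) := by
  have ht := h.1
  have hR : 0 ≤ (2 * ((D : ℝ) + 1) ^ 2) * (th ^ 2 * Real.sin ψ + th ^ 3) := by positivity
  have h2 : ∀ τ : Ty, τ.is2 → |hZ D th τ ψ - (Real.sin ψ - th * al D τ * Real.cos ψ)|
      ≤ (2 * ((D : ℝ) + 1) ^ 2) * (th ^ 2 * Real.sin ψ + th ^ 3) := by
    intro τ hτ
    obtain ⟨hb, he, h3, h4⟩ := (fx_main hD h).2.2.2 τ hτ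
    rw [fr_hZ τ hτ]
    have e : (Real.sin (chi D th) * Real.sin ψ - ed D th τ * Real.cos ψ) / bq D th τ
        - (Real.sin ψ - th * al D τ * Real.cos ψ)
        = (Real.sin (chi D th) / bq D th τ - 1) * Real.sin ψ
          - (ed D th τ / bq D th τ - th * al D τ) * Real.cos ψ := by
      field_simp
      ring
    rw [e]
    have hc1 := Real.cos_le_one ψ
    calc |(Real.sin (chi D th) / bq D th τ - 1) * Real.sin ψ
          - (ed D th τ / bq D th τ - th * al D τ) * Real.cos ψ|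
        ≤ |(Real.sin (chi D th) / bq D th τ - 1) * Real.sin ψ|
          + |(ed D th τ / bq D th τ - th * al D τ) * Real.cos ψ| := abs_sub _ _
      _ = |Real.sin (chi D th) / bq D th τ - 1| * Real.sin ψ
          + |ed D th τ / bq D th τ - th * al D τ| * Real.cos ψ := by
          rw [abs_mul, abs_mul, abs_of_nonneg hS, abs_of_nonneg hC]
      _ ≤ (2 * ((D : ℝ) + 1) ^ 2) * th ^ 2 * Real.sin ψ
          + (2 * ((D : ℝ) + 1) ^ 2) * th ^ 3 * Real.cos ψ :=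
          add_le_add (mul_le_mul_of_nonneg_right h3 hS) (mul_le_mul_of_nonneg_right h4 hC)
      _ ≤ (2 * ((D : ℝ) + 1) ^ 2) * th ^ 2 * Real.sin ψ
          + (2 * ((D : ℝ) + 1) ^ 2) * th ^ 3 * 1 :=
          add_le_add le_rfl (mul_le_mul_of_nonneg_left hc1 (by positivity))
      _ = _ := by ring
  cases τ with
  | pl => exact h2 Ty.pl (Or.inl rfl)
  | mi => exact h2 Ty.mi (Or.inr rfl)
  | fo =>
    have e : hZ D th Ty.fo ψ - (Real.sin ψ - th * al D Ty.fo * Real.cos ψ) = 0 := by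
      simp only [hZ]
      ring
    rw [e, abs_zero]
    exact hR
  | ce =>
    have e : hZ D th Ty.ce ψ - (Real.sin ψ - th * al D Ty.ce * Real.cos ψ) = 0 := by
      simp only [hZ, al]
      ring
    rw [e, abs_zero]
    exact hR

/-- the algebra of the main inequality -/
lemma fs_core (P t S C S' C' Z Z' α α' m a c G sg sD : ℝ)
    (hP : (10 : ℝ) ^ 14 + 1 ≤ P) (hsg : 0 ≤ sg) (ht : 0 < t) (htP : 100 * (P ^ 2 * (1 + sg)) * t ≤ 1)
    (hS'0 : 0 ≤ S') (hSS' : S' ≤ S) (hS1 : S ≤ 1) (hC0 : 0 ≤ C) (hCC' : C ≤ C') (hC'1 : C' ≤ 1)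
    (hα : 0 ≤ α) (hα' : 0 ≤ α')
    (hm : 0 ≤ m) (ha : 0 ≤ a) (ha2 : a ≤ 2 * P) (hc : 0 ≤ c) (hc3 : c ≤ 3) (hG : 0 ≤ G) (hG2 : G ≤ 3 * P ^ 2)
    (hM : 1 / P ≤ m + α - α' - a - c)
    (hs : t * (100 * (P ^ 3 * (1 + sg))) / 2 ≤ S')
    (hZ : |Z - (S - t * α * C)| ≤ 2 * P ^ 2 * (t ^ 2 * S + t ^ 3))
    (hZ' : |Z' - (S' - t * α' * C')| ≤ 2 * P ^ 2 * (t ^ 2 * S' + t ^ 3))
    (hZ0 : 0 ≤ Z) (hZ'0 : 0 ≤ Z') (hD' : 0 ≤ C' - t * c * Z')
    (hsD : t * (m + α - α') - (15 * P ^ 3 + sg) * t ^ 3 ≤ sD) (hsD2 : sD = S * C' - C * S')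
    (hcos : C * C' + S * S' ≤ 1) :
    C * (Z' + t * m * (C' - t * c * Z')) ≤ Z * ((1 - t ^ 2 * G) * (C' - t * c * Z') - t * a * Z') := by
  have hP0 : 0 < P := by linarith
  have hP1 : 1 ≤ P := by linarith
  have hS0 : 0 ≤ S := le_trans hS'0 hSS'
  have hC'0 : 0 ≤ C' := le_trans hC0 hCC'
  have hS'1 : S' ≤ 1 := le_trans hSS' hS1
  have hC1 : C ≤ 1 := le_trans hCC' hC'1
  -- t P^2 ≤ 1/100
  have htP2 : t * P ^ 2 ≤ 1 / 100 := by
    have h1 : P ^ 2 * 1 ≤ P ^ 2 * (1 + sg) := mul_le_mul_of_nonneg_left (by linarith) (by positivity)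
    have h2 := mul_le_mul_of_nonneg_right h1 ht.le
    linarith
  have htP1 : t * P ≤ 1 / 100 := by
    have : t * P ≤ t * P ^ 2 := mul_le_mul_of_nonneg_left (by nlinarith) ht.le
    linarith
  have ht1 : t ≤ 1 / 100 := by
    have : t * 1 ≤ t * P := mul_le_mul_of_nonneg_left hP1 ht.le
    linarith
  set R := 2 * P ^ 2 * (t ^ 2 * S + t ^ 3) with hR
  have hR0 : 0 ≤ R := by positivity
  have hR1 : R ≤ 1 := by
    have e : R = 2 * (t * P ^ 2) * (t * S + t ^ 2) := by rw [hR]; ring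
    have h1 : t * S + t ^ 2 ≤ 1 := by nlinarith
    have h2 : 0 ≤ t * S + t ^ 2 := by positivity
    have h3 : 0 ≤ t * P ^ 2 := by positivity
    rw [e]
    nlinarith
  have hR' : 2 * P ^ 2 * (t ^ 2 * S' + t ^ 3) ≤ R := by
    rw [hR]
    apply mul_le_mul_of_nonneg_left _ (by positivity)
    have := mul_le_mul_of_nonneg_left hSS' (by positivity : 0 ≤ t ^ 2)
    linarith
  have hZ'' := le_trans hZ' hR'
  rw [abs_le] at hZ hZ''
  obtain ⟨z1, z2⟩ := hZ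
  obtain ⟨z1', z2'⟩ := hZ''
  have hαC : 0 ≤ t * α * C := by positivity
  have hαC' : 0 ≤ t * α' * C' := by positivity
  have hZup : Z ≤ S + R := by linarith
  have hZ'up : Z' ≤ S' + R := by linarith
  -- Z C' - C Z'
  have p1 : sD - t * (α - α') * (C * C') - 2 * R ≤ Z * C' - C * Z' := by
    have q1 : (S - t * α * C - R) * C' ≤ Z * C' := mul_le_mul_of_nonneg_right (by linarith) hC'0
    have q2 : C * Z' ≤ C * (S' - t * α' * C' + R) := mul_le_mul_of_nonneg_left (by linarith) hC0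
    have q3 : R * C' ≤ R * 1 := mul_le_mul_of_nonneg_left hC'1 hR0
    have q4 : C * R ≤ 1 * R := mul_le_mul_of_nonneg_right hC1 hR0
    rw [hsD2]
    linarith
  -- Z Z'
  have p2 : Z * Z' ≤ S * S' + 3 * R := by
    have q1 : Z * Z' ≤ (S + R) * (S' + R) := mul_le_mul hZup hZ'up hZ'0 (by linarith)
    nlinarith
  have hac : 0 ≤ a + c := by linarith
  have hac2 : t * (a + c) * 3 ≤ 1 := by
    have : a + c ≤ 3 * P := by linarith
    have := mul_le_mul_of_nonneg_left this ht.le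
    nlinarith
  have p3 : t * (a + c) * (Z * Z') ≤ t * (a + c) * (S * S') + R := by
    have q1 : t * (a + c) * (Z * Z') ≤ t * (a + c) * (S * S' + 3 * R) :=
      mul_le_mul_of_nonneg_left p2 (by positivity)
    have q2 : t * (a + c) * 3 * R ≤ 1 * R := mul_le_mul_of_nonneg_right hac2 hR0
    linarith
  -- G term
  have htcZ : 0 ≤ t * c * Z' := by positivity
  have p4 : t ^ 2 * G * (Z * (C' - t * c * Z')) ≤ 3 * P ^ 2 * t ^ 2 * S + R := by
    have q1 : Z * (C' - t * c * Z') ≤ (S + R) * 1 :=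
      mul_le_mul hZup (by linarith) hD' (by linarith)
    have q2 : t ^ 2 * G ≤ 3 * P ^ 2 * t ^ 2 := by
      have := mul_le_mul_of_nonneg_left hG2 (by positivity : 0 ≤ t ^ 2)
      linarith
    have q3 : t ^ 2 * G * (Z * (C' - t * c * Z')) ≤ (3 * P ^ 2 * t ^ 2) * ((S + R) * 1) :=
      mul_le_mul q2 q1 (by positivity) (by positivity)
    have q4 : 3 * P ^ 2 * t ^ 2 ≤ 1 := by
      have e : 3 * P ^ 2 * t ^ 2 = 3 * (t * P ^ 2) * t := by ring
      rw [e]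
      have : 0 ≤ t * P ^ 2 := by positivity
      nlinarith
    have q5 : 3 * P ^ 2 * t ^ 2 * R ≤ 1 * R := mul_le_mul_of_nonneg_right q4 hR0
    linarith
  have p5 : 0 ≤ t ^ 2 * m * c * (C * Z') := by positivity
  -- assemble
  have hMn : 0 ≤ m + α - α' := by
    have : 0 < 1 / P := by positivity
    linarith
  have p6 : t * (m + α - α') * (S * S') ≤ t * (m + α - α') * (1 - C * C') :=
    mul_le_mul_of_nonneg_left (by linarith) (by positivity)
  have p7 : t * (1 / P) * (S * S') ≤ t * (m + α - α' - a - c) * (S * S') := by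
    apply mul_le_mul_of_nonneg_right
    · exact mul_le_mul_of_nonneg_left hM ht.le
    · positivity
  -- the gain
  have g1 : t * (50 * P ^ 3) ≤ S' := by
    have : 50 * P ^ 3 ≤ 50 * (P ^ 3 * (1 + sg)) := by nlinarith [pow_pos hP0 3, mul_nonneg (pow_pos hP0 3).le hsg]
    have := mul_le_mul_of_nonneg_left this ht.le
    linarith
  have g2 : t * 50 * P ^ 3 * (1 + sg) ≤ S' := by linarith
  have hSS0 : 0 ≤ S * S' := mul_nonneg hS0 hS'0
  have g3 : 25 * P ^ 2 * t ^ 2 * S ≤ t * (1 / P) * (S * S') / 2 := by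
    have q : t * (1 / P) * S / 2 * (t * (50 * P ^ 3)) ≤ t * (1 / P) * S / 2 * S' :=
      mul_le_mul_of_nonneg_left g1 (by positivity)
    have e : t * (1 / P) * S / 2 * (t * (50 * P ^ 3)) = 25 * P ^ 2 * t ^ 2 * S := by
      field_simp
      ring
    rw [e] at q
    linarith
  have g4 : (40 * P ^ 3 + 40 * sg) * t ^ 3 ≤ t * (1 / P) * (S * S') / 2 := by
    have q1 : (t * 50 * P ^ 3 * (1 + sg)) * (t * (50 * P ^ 3)) ≤ S * S' :=
      mul_le_mul (le_trans g2 hSS') g1 (by positivity) hS0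
    have q2 : t * (1 / P) / 2 * ((t * 50 * P ^ 3 * (1 + sg)) * (t * (50 * P ^ 3)))
        ≤ t * (1 / P) / 2 * (S * S') := mul_le_mul_of_nonneg_left q1 (by positivity)
    have e : t * (1 / P) / 2 * ((t * 50 * P ^ 3 * (1 + sg)) * (t * (50 * P ^ 3)))
        = 1250 * P ^ 5 * (1 + sg) * t ^ 3 := by
      field_simp
      ring
    rw [e] at q2
    have q3 : 40 * P ^ 3 + 40 * sg ≤ 1250 * P ^ 5 * (1 + sg) := by
      have a1 : P ^ 3 ≤ P ^ 5 := pow_le_pow_right₀ hP1 (by norm_num)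
      have a2 : 1 ≤ P ^ 5 := one_le_pow₀ hP1
      have a3 : sg * 1 ≤ sg * P ^ 5 := mul_le_mul_of_nonneg_left a2 hsg
      nlinarith [mul_nonneg hsg (pow_pos hP0 5).le]
    have q4 := mul_le_mul_of_nonneg_right q3 (by positivity : 0 ≤ t ^ 3)
    linarith
  have g5 : 4 * R + 3 * P ^ 2 * t ^ 2 * S + (15 * P ^ 3 + sg) * t ^ 3 ≤ t * (1 / P) * (S * S') := by
    have e : 4 * R = 8 * P ^ 2 * t ^ 2 * S + 8 * P ^ 2 * t ^ 3 := by rw [hR]; ring
    have q1 : 8 * P ^ 2 * t ^ 3 ≤ 8 * P ^ 3 * t ^ 3 := by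
      have : P ^ 2 ≤ P ^ 3 := pow_le_pow_right₀ hP1 (by norm_num)
      nlinarith [pow_pos ht 3]
    have q2 : 0 ≤ P ^ 2 * t ^ 2 * S := by positivity
    have q3 : 0 ≤ P ^ 3 * t ^ 3 := by positivity
    have q4 : 0 ≤ sg * t ^ 3 := by positivity
    linarith
  have fin : Z * ((1 - t ^ 2 * G) * (C' - t * c * Z') - t * a * Z')
      - C * (Z' + t * m * (C' - t * c * Z'))
      = (Z * C' - C * Z') - t * (a + c) * (Z * Z') - t * m * (C * C')
        + t ^ 2 * m * c * (C * Z') - t ^ 2 * G * (Z * (C' - t * c * Z')) := by ring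
  have fin2 : 0 ≤ Z * ((1 - t ^ 2 * G) * (C' - t * c * Z') - t * a * Z')
      - C * (Z' + t * m * (C' - t * c * Z')) := by
    rw [fin]
    linarith
  linarith

end Pool.Agent.T2H60.SX
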