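import Pool.Agent.T2H60.SX.Stm

/-!
# SX: exact formulas for the frame constants (used by FX, FR, FS)
-/

set_option autoImplicit false
open Finset

namespace Pool.Agent.T2H60.SX

/-- half of `2 sin (chi/2)`: `sin (chi / 2)` -/
noncomputable def fxs (D : ℕ) (th : ℝ) : ℝ := th * ((D : ℝ) + 1 - 2 * ((D : ℝ) - 2) * th ^ 2) / 2

lemma fx_M1_10 (D : ℕ) (th : ℝ) : M1 D th (1, 0) =
    (1 - (D : ℝ) * ((D : ℝ) + 1) * th ^ 2 + (4 * ((D : ℝ) - 2) ^ 2 + 10 * ((D : ℝ) - 2)) * th ^ 4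
      - 4 * ((D : ℝ) - 2) ^ 2 * th ^ 6,
     (M1 D th (1, 0)).2) := by
  refine Prod.ext ?_ rfl
  simp only [M1, mst, ast]
  ring

lemma fx_A1 (D : ℕ) (th : ℝ) : (M1 D th (1, 0)).1 =
    1 - (D : ℝ) * ((D : ℝ) + 1) * th ^ 2 + (4 * ((D : ℝ) - 2) ^ 2 + 10 * ((D : ℝ) - 2)) * th ^ 4
      - 4 * ((D : ℝ) - 2) ^ 2 * th ^ 6 := by
  simp only [M1, mst, ast]
  ring

lemma fx_E1 (D : ℕ) (th : ℝ) : (M1 D th (0, 1)).2 =
    1 - ((D : ℝ) + 1) * th ^ 2 + 2 * ((D : ℝ) - 2) * th ^ 4 := by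
  simp only [M1, mst, ast]
  ring

lemma fx_b1 (D : ℕ) (th : ℝ) : - (M1 D th (0, 1)).1 = 2 * fxs D th * (1 - ((D : ℝ) - 2) * th ^ 2) := by
  simp only [M1, mst, ast, fxs]
  ring

lemma fx_A2 (D : ℕ) (th : ℝ) : (M2 D th (1, 0)).1 =
    1 - ((D : ℝ) - 1) * ((D : ℝ) + 1) * th ^ 2 + (4 * ((D : ℝ) - 2) ^ 2 + 8 * ((D : ℝ) - 2)) * th ^ 4
      - 4 * ((D : ℝ) - 2) ^ 2 * th ^ 6 := by
  simp only [M2, mst, ast]
  ring

lemma fx_E2 (D : ℕ) (th : ℝ) : (M2 D th (0, 1)).2 =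
    1 - (2 * ((D : ℝ) + 1)) * th ^ 2 + 4 * ((D : ℝ) - 2) * th ^ 4 := by
  simp only [M2, mst, ast]
  ring

lemma fx_b2 (D : ℕ) (th : ℝ) : - (M2 D th (0, 1)).1 = 2 * fxs D th * (1 - 2 * ((D : ℝ) - 2) * th ^ 2) := by
  simp only [M2, mst, ast, fxs]
  ring

lemma fx_bq_pl (D : ℕ) (th : ℝ) : bq D th Ty.pl = 2 * fxs D th * (1 - ((D : ℝ) - 2) * th ^ 2) := by
  simp only [bq, Mx, if_pos]
  exact fx_b1 D th

lemma fx_bq_mi (D : ℕ) (th : ℝ) : bq D th Ty.mi = 2 * fxs D th * (1 - 2 * ((D : ℝ) - 2) * th ^ 2) := by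
  have h : ¬ (Ty.mi = Ty.pl) := by decide
  simp only [bq, Mx, if_neg h]
  exact fx_b2 D th

lemma fx_ed_pl (D : ℕ) (th : ℝ) : ed D th Ty.pl =
    th * fxs D th * ((D : ℝ) - 1 - 2 * ((D : ℝ) - 2) * th ^ 2) := by
  simp only [ed, Mx, if_pos]
  rw [fx_A1, fx_E1, fxs]
  ring

lemma fx_ed_mi (D : ℕ) (th : ℝ) : ed D th Ty.mi =
    th * fxs D th * ((D : ℝ) - 3 - 2 * ((D : ℝ) - 2) * th ^ 2) := by
  have h : ¬ (Ty.mi = Ty.pl) := by decide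
  simp only [ed, Mx, if_neg h]
  rw [fx_A2, fx_E2, fxs]
  ring

lemma fx_tr1 (D : ℕ) (th : ℝ) : ((M1 D th (0, 1)).2 + (M1 D th (1, 0)).1) / 2 = 1 - 2 * fxs D th ^ 2 := by
  rw [fx_A1, fx_E1, fxs]
  ring

lemma fx_tr2 (D : ℕ) (th : ℝ) : ((M2 D th (0, 1)).2 + (M2 D th (1, 0)).1) / 2 = 1 - 2 * fxs D th ^ 2 := by
  rw [fx_A2, fx_E2, fxs]
  ring

/-- `th` is small -/
def Fsm (D : ℕ) (th : ℝ) : Prop := 0 < th ∧ 100 * (((D : ℝ) + 1) ^ 2 * th) ≤ 1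

lemma fsm_tP {D : ℕ} {th : ℝ} (hD : 10 ^ 14 ≤ D) (h : Fsm D th) : 100 * (((D : ℝ) + 1) * th) ≤ 1 := by
  have hD' : (10 : ℝ) ^ 14 ≤ D := by exact_mod_cast hD
  have h1 : ((D : ℝ) + 1) ≤ ((D : ℝ) + 1) ^ 2 := by nlinarith
  have h2 := mul_le_mul_of_nonneg_right h1 h.1.le
  have := h.2
  linarith

lemma fsm_dt {D : ℕ} {th : ℝ} (hD : 10 ^ 14 ≤ D) (h : Fsm D th) : 100 * (((D : ℝ) + 1) * th ^ 2) ≤ 1 := by
  have hD' : (10 : ℝ) ^ 14 ≤ D := by exact_mod_cast hD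
  have h1 := fsm_tP hD h
  have h2 : th ≤ 1 := by
    have : th ≤ 100 * (((D : ℝ) + 1) * th) := by nlinarith [h.1]
    linarith
  have h3 : 100 * (((D : ℝ) + 1) * th ^ 2) = (100 * (((D : ℝ) + 1) * th)) * th := by ring
  rw [h3]
  have h4 : 0 ≤ 100 * (((D : ℝ) + 1) * th) := by
    have := h.1
    positivity
  nlinarith [h.1]

lemma fsm_s {D : ℕ} {th : ℝ} (hD : 10 ^ 14 ≤ D) (h : Fsm D th) :
    0 < fxs D th ∧ fxs D th ≤ th * ((D : ℝ) + 1) / 2 ∧ fxs D th ≤ 1 / 200 ∧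
      th * ((D : ℝ) + 1) / 4 ≤ fxs D th := by
  have hD' : (10 : ℝ) ^ 14 ≤ D := by exact_mod_cast hD
  have h1 := fsm_tP hD h
  have h2 := fsm_dt hD h
  have ht := h.1
  have h3 : 0 ≤ 2 * ((D : ℝ) - 2) * th ^ 2 := by
    have : 0 ≤ (D : ℝ) - 2 := by linarith
    positivity
  have h4 : 2 * ((D : ℝ) - 2) * th ^ 2 ≤ 1 / 50 := by nlinarith [sq_nonneg th]
  have h5 : th * (2 * ((D : ℝ) - 2) * th ^ 2) ≤ th * ((D + 1) / 2) :=
    mul_le_mul_of_nonneg_left (by linarith) ht.le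
  have h6 : 0 ≤ th * (2 * ((D : ℝ) - 2) * th ^ 2) := by positivity
  have h7 : 0 < th * ((D : ℝ) + 1) := by positivity
  unfold fxs
  refine ⟨?_, ?_, ?_, ?_⟩ <;> nlinarith

lemma fx_cos {D : ℕ} {th : ℝ} (hD : 10 ^ 14 ≤ D) (h : Fsm D th) :
    Real.cos (chi D th) = 1 - 2 * fxs D th ^ 2 := by
  obtain ⟨h1, h2, h3, h4⟩ := fsm_s hD h
  unfold chi
  rw [fx_tr1, Real.cos_arccos]
  · nlinarith
  · nlinarith

lemma fx_chi_eq {D : ℕ} {th : ℝ} (hD : 10 ^ 14 ≤ D) (h : Fsm D th) :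
    chi D th = 2 * Real.arcsin (fxs D th) := by
  obtain ⟨h1, h2, h3, h4⟩ := fsm_s hD h
  unfold chi
  rw [fx_tr1]
  have e1 : 1 - 2 * fxs D th ^ 2 = Real.cos (2 * Real.arcsin (fxs D th)) := by
    rw [Real.cos_two_mul, Real.cos_sq', Real.sin_arcsin (by linarith) (by linarith)]
    ring
  rw [e1, Real.arccos_cos]
  · have := Real.arcsin_nonneg.mpr h1.le
    linarith
  · have := Real.arcsin_le_pi_div_two (fxs D th)
    linarith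

lemma fx_sin_half {D : ℕ} {th : ℝ} (hD : 10 ^ 14 ≤ D) (h : Fsm D th) :
    Real.sin (chi D th / 2) = fxs D th := by
  obtain ⟨h1, h2, h3, h4⟩ := fsm_s hD h
  rw [fx_chi_eq hD h]
  rw [show 2 * Real.arcsin (fxs D th) / 2 = Real.arcsin (fxs D th) by ring]
  exact Real.sin_arcsin (by linarith) (by linarith)

lemma fx_sin {D : ℕ} {th : ℝ} (hD : 10 ^ 14 ≤ D) (h : Fsm D th) :
    Real.sin (chi D th) = 2 * fxs D th * Real.sqrt (1 - fxs D th ^ 2) := by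
  obtain ⟨h1, h2, h3, h4⟩ := fsm_s hD h
  rw [fx_chi_eq hD h, Real.sin_two_mul, Real.sin_arcsin (by linarith) (by linarith), Real.cos_arcsin]

/-- the bounds of `chi` -/
lemma fx_chi_bd {D : ℕ} {th : ℝ} (hD : 10 ^ 14 ≤ D) (h : Fsm D th) :
    2 * fxs D th < chi D th ∧ chi D th ≤ 2 * fxs D th + 4 * fxs D th ^ 3 ∧ chi D th < 1 / 10 := by
  obtain ⟨h1, h2, h3, h4⟩ := fsm_s hD h
  have hy0 : 0 < Real.arcsin (fxs D th) := Real.arcsin_pos.mpr h1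
  set y := Real.arcsin (fxs D th) with hy
  have hs : Real.sin y = fxs D th := Real.sin_arcsin (by linarith) (by linarith)
  have hlt : fxs D th < y := by
    have := Real.sin_lt hy0
    linarith
  have hpi : y ≤ Real.pi / 2 := Real.arcsin_le_pi_div_two _
  have hj : 2 / Real.pi * y ≤ Real.sin y := Real.mul_le_sin hy0.le hpi
  have hp := Real.pi_lt_d2
  have hp0 := Real.pi_pos
  have hy2 : y ≤ 2 * fxs D th := by
    have e : y = Real.pi / 2 * (2 / Real.pi * y) := by field_simp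
    rw [e]
    calc Real.pi / 2 * (2 / Real.pi * y) ≤ Real.pi / 2 * fxs D th :=
          mul_le_mul_of_nonneg_left (by linarith) (by positivity)
      _ ≤ 2 * fxs D th := mul_le_mul_of_nonneg_right (by linarith) h1.le
  have hy1 : y ≤ 1 / 100 := by linarith
  have hc := Real.sin_gt_sub_cube hy0
  have hy3 : y ^ 3 ≤ 8 * fxs D th ^ 3 := by
    have := pow_le_pow_left₀ hy0.le hy2 3
    nlinarith
  have hs3 : 0 < fxs D th ^ 3 := by positivity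
  rw [fx_chi_eq hD h, ← hy]
  refine ⟨by linarith, by linarith, by linarith⟩

end Pool.Agent.T2H60.SX
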