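import Pool.Agent.T2H60.SX.Stm

/-!
# Package GE2 : the end block of `D + 3` vertices
-/

set_option autoImplicit false
open Finset

namespace Pool.Agent.T2H60.SX

/-- the real arithmetic at the end -/
lemma ge2_arith (D th L u Y xv M μ : ℝ) (hD : 10 ^ 14 ≤ D) (hL : L = 2 * (D - 2) * th ^ 2)
    (hL1 : L ≤ 1) (hu : 0 ≤ u) (hY : (D + 3) * u ≤ Y) (hxv : xv = u + (D - 2) * th ^ 2 * Y)
    (hM : 0 ≤ M) (hμ : μ ≤ 0) (h1 : (D + 1 - L) * M ≤ L * Y + 4 * M - 2 * μ)
    (h2 : μ = 0 ∨ L * Y + 4 * μ - 2 * M ≤ (D + 1 - L) * μ)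
    (h3 : Y ≤ (D + 5 - L) * xv - 2 * u + 4 * M) :
    Y ≤ (D + 3) * u + th ^ 2 * (((D + 3) * (D - 2) + 2 * (D + 2) + 300 / D) * Y
        - 2 * (D + 2) * u) := by
  have hL0 : 0 ≤ L := by
    rw [hL]
    have : 0 ≤ D - 2 := by linarith
    positivity
  have hY0 : 0 ≤ Y := by nlinarith
  have hLY : 0 ≤ L * Y := mul_nonneg hL0 hY0
  -- `μ = 0`
  have hμ0 : μ = 0 := by
    by_contra hne
    have h2 := h2.resolve_left hne
    have hlt : μ < 0 := lt_of_le_of_ne hμ hne
    -- `(D - 3 - L) μ ≥ L Y - 2 M`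
    have a1 : L * Y - 2 * M ≤ (D - 3 - L) * μ := by linarith
    have a2 : (D - 4) * (-μ) ≤ 2 * M := by nlinarith
    have a3 : (D - 3 - L) * M ≤ L * Y - 2 * μ := by linarith
    have a4 : (D - 4) * M ≤ (D - 3 - L) * M := by nlinarith
    have a5 : -2 * μ ≤ M := by nlinarith
    have a6 : (D - 5) * M ≤ L * Y := by linarith
    have a7 : 2 * M ≤ L * Y := by nlinarith
    have a8 : 0 ≤ (D - 3 - L) * μ := by linarith
    have a9 : (D - 3 - L) * μ < 0 := mul_neg_of_pos_of_neg (by linarith) hlt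
    linarith
  subst hμ0
  have hM2 : (D - 4) * M ≤ L * Y := by nlinarith
  have hD4 : 0 < D - 4 := by linarith
  have hM3 : M ≤ L * Y / (D - 4) := by
    rw [le_div_iff₀ hD4]
    linarith
  have hF : L * Y = 2 * ((D - 2) * th ^ 2 * Y) := by rw [hL]; ring
  have hLx : L * u ≤ L * xv := by
    refine mul_le_mul_of_nonneg_left ?_ hL0
    rw [hxv]
    have : 0 ≤ (D - 2) * th ^ 2 * Y := by linarith
    linarith
  have h4 : Y ≤ (D + 3) * u + (D + 3) * ((D - 2) * th ^ 2 * Y) - L * u + L * Y + 4 * (L * Y / (D - 4)) := by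
    have : (D + 5 - L) * xv - 2 * u = (D + 3) * xv - L * xv + 2 * (xv - u) := by ring
    rw [this] at h3
    have e : 2 * (xv - u) = L * Y := by rw [hxv, hF]; ring
    rw [e] at h3
    have e2 : (D + 3) * xv = (D + 3) * u + (D + 3) * ((D - 2) * th ^ 2 * Y) := by rw [hxv]; ring
    linarith
  refine h4.trans ?_
  have e3 : (D + 3) * u + (D + 3) * ((D - 2) * th ^ 2 * Y) - L * u + L * Y + 4 * (L * Y / (D - 4)) =
      (D + 3) * u + th ^ 2 * ((D + 3) * (D - 2) * Y - 2 * (D - 2) * u + 2 * (D - 2) * Y +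
        8 * (D - 2) / (D - 4) * Y) := by
    rw [hL]
    field_simp
    ring
  rw [e3]
  have h5 : (D + 3) * (D - 2) * Y - 2 * (D - 2) * u + 2 * (D - 2) * Y + 8 * (D - 2) / (D - 4) * Y ≤
      ((D + 3) * (D - 2) + 2 * (D + 2) + 300 / D) * Y - 2 * (D + 2) * u := by
    have e4 : 8 * (D - 2) / (D - 4) = 8 + 16 / (D - 4) := by
      field_simp
      ring
    rw [e4]
    have h6 : 16 / (D - 4) ≤ 32 / D := by
      rw [div_le_div_iff₀ hD4 (by linarith)]
      linarith
    have h7 : 8 * u ≤ 8 / D * Y := by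
      have : D * u ≤ Y := by nlinarith
      rw [div_mul_eq_mul_div, le_div_iff₀ (by linarith)]
      nlinarith
    have h8 : 16 / (D - 4) * Y ≤ 32 / D * Y := mul_le_mul_of_nonneg_right h6 hY0
    have h9 : (300 / D) * Y = 32 / D * Y + 8 / D * Y + 260 / D * Y := by ring
    have h10 : 0 ≤ 260 / D * Y := by positivity
    nlinarith
  have := mul_le_mul_of_nonneg_left h5 (sq_nonneg th)
  linarith

theorem pGE2 (h3 : G03) (h6 : G06) : GE2 := by
  intro D N e x th h u hst
  obtain ⟨-, htN, hcut, ⟨v, hv, hdv⟩, hu⟩ := hst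
  have hD := h.hD
  have hvt : v < D + 3 := mem_range.1 hv
  have hG3 := h3 D N e x th h (D + 3) htN
  obtain ⟨hU0, hUx, hxW⟩ := h6 D N e x th h (D + 3) (by omega) htN hcut
  set t : ℕ := D + 3 with ht
  -- rows other than `v` do not leave the block
  have hrow : ∀ i ∈ range t, i ≠ v → ∀ k ∈ Ico t (N + 2), e i k = 0 := by
    intro i hi hiv k hk
    have h1 : ∑ i ∈ range t, dn N e t i = 2 := hcut
    have h2 : dn N e t v + dn N e t i ≤ 2 := by
      rw [← h1]
      have : ∑ j ∈ ({v, i} : Finset ℕ), dn N e t j ≤ ∑ j ∈ range t, dn N e t j := by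
        refine sum_le_sum_of_subset ?_
        intro j hj
        rw [mem_insert, mem_singleton] at hj
        rcases hj with rfl | rfl
        · exact hv
        · exact hi
      rwa [sum_pair (Ne.symm hiv)] at this
    have h4 : dn N e t i = 0 := by omega
    exact (sum_eq_zero_iff.1 h4) k hk
  have hUv : Uh N e x t = (∑ k ∈ Ico t (N + 2), (e v k : ℝ) * x k) / 2 := by
    unfold Uh
    rw [sum_eq_single v]
    · intro i hi hiv
      refine sum_eq_zero fun k hk => ?_
      rw [hrow i hi hiv k hk]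
      simp
    · intro hh
      exact absurd hv hh
  have hWv : Wh N e x t = x v := by
    unfold Wh
    rw [sum_eq_single v]
    · rw [← sum_mul]
      have : ∑ k ∈ Ico t (N + 2), (e v k : ℝ) = 2 := by
        have : ((dn N e t v : ℕ) : ℝ) = 2 := by rw [hdv]; norm_num
        rw [← this, dn]
        push_cast
        rfl
      rw [this]
      ring
    · intro i hi hiv
      refine sum_eq_zero fun k hk => ?_
      rw [hrow i hi hiv k hk]
      simp
    · intro hh
      exact absurd hv hh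
  set L : ℝ := 2 * ((D : ℝ) - 2) * th ^ 2 with hL
  set Y : ℝ := Ys x t with hY
  have hDr : (10 : ℝ) ^ 14 ≤ D := by exact_mod_cast hD
  -- the rows inside the block
  have hsplit : ∀ f : ℕ → ℝ, ∑ k ∈ range t, f k + ∑ k ∈ Ico t (N + 2), f k = ∑ k ∈ range (N + 2), f k :=
    fun f => sum_range_add_sum_Ico f (by omega)
  have hdeg : ∀ i < N, ∑ k ∈ range (N + 2), (e i k : ℝ) = D := by
    intro i hi
    have := h.deg i hi
    exact_mod_cast this
  have heig : ∀ i < N, ∑ k ∈ range (N + 2), (e i k : ℝ) * x k = (D - L) * x i := by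
    intro i hi
    have h1 := h.eig i hi
    have e1 : ∑ k ∈ range (N + 2), (e i k : ℝ) * (x i - x k) =
        (∑ k ∈ range (N + 2), (e i k : ℝ)) * x i - ∑ k ∈ range (N + 2), (e i k : ℝ) * x k := by
      rw [sum_mul, ← sum_sub_distrib]
      exact sum_congr rfl fun k _ => by ring
    rw [e1, hdeg i hi, ← hL] at h1
    linarith
  have hinv : ∑ k ∈ Ico t (N + 2), (e v k : ℝ) = 2 := by
    have : ((dn N e t v : ℕ) : ℝ) = 2 := by rw [hdv]; norm_num
    rw [← this, dn]
    push_cast
    rfl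
  have hvN : v < N := by omega
  have hBv1 : ∑ k ∈ range t, (e v k : ℝ) = D - 2 := by
    have := hsplit (fun k => (e v k : ℝ))
    rw [hdeg v hvN, hinv] at this
    linarith
  have hBv2 : ∑ k ∈ range t, (e v k : ℝ) * x k = (D - L) * x v - 2 * u := by
    have := hsplit (fun k => (e v k : ℝ) * x k)
    rw [heig v hvN] at this
    have h2 : ∑ k ∈ Ico t (N + 2), (e v k : ℝ) * x k = 2 * u := by
      rw [hu, hUv]
      ring
    linarith
  have hBi1 : ∀ i ∈ range t, i ≠ v → ∑ k ∈ range t, (e i k : ℝ) = D := by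
    intro i hi hiv
    have := hsplit (fun k => (e i k : ℝ))
    rw [hdeg i (by have := mem_range.1 hi; omega)] at this
    have h2 : ∑ k ∈ Ico t (N + 2), (e i k : ℝ) = 0 :=
      sum_eq_zero fun k hk => by rw [hrow i hi hiv k hk]; simp
    linarith
  have hBi2 : ∀ i ∈ range t, i ≠ v → ∑ k ∈ range t, (e i k : ℝ) * x k = (D - L) * x i := by
    intro i hi hiv
    have := hsplit (fun k => (e i k : ℝ) * x k)
    rw [heig i (by have := mem_range.1 hi; omega)] at this
    have h2 : ∑ k ∈ Ico t (N + 2), (e i k : ℝ) * x k = 0 :=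
      sum_eq_zero fun k hk => by rw [hrow i hi hiv k hk]; simp
    linarith
  -- non-neighbours
  set c : ℕ → ℕ → ℝ := fun i k => if k = i then 0 else 1 - (e i k : ℝ) with hc
  have hc0 : ∀ i k, 0 ≤ c i k := by
    intro i k
    simp only [hc]
    split_ifs
    · exact le_rfl
    · have : (e i k : ℝ) ≤ 1 := by exact_mod_cast h.le1 i k
      linarith
  have hcsum : ∀ (i : ℕ) (f : ℕ → ℝ), i ∈ range t → ∑ k ∈ range t, c i k * f k =
      ∑ k ∈ range t, f k - f i - ∑ k ∈ range t, (e i k : ℝ) * f k := by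
    intro i f hi
    have h1 : ∀ k ∈ range t, c i k * f k = f k - (if k = i then f k else 0) - (e i k : ℝ) * f k := by
      intro k _
      simp only [hc]
      split_ifs with hk
      · subst hk
        rw [h.irr]
        simp
      · ring
    rw [sum_congr rfl h1, sum_sub_distrib, sum_sub_distrib, sum_ite_eq' (range t) i f, if_pos hi]
  have hcard : ∑ k ∈ range t, (1 : ℝ) = D + 3 := by
    rw [sum_const, card_range, nsmul_eq_mul, ht]
    push_cast
    ring
  have hcv : ∑ k ∈ range t, c v k = 4 := by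
    have := hcsum v (fun _ => 1) hv
    simp only [mul_one] at this
    rw [this, hcard, hBv1]
    ring
  have hci : ∀ i ∈ range t, i ≠ v → ∑ k ∈ range t, c i k = 2 := by
    intro i hi hiv
    have := hcsum i (fun _ => 1) hi
    simp only [mul_one] at this
    rw [this, hcard, hBi1 i hi hiv]
    ring
  have hYd : ∑ k ∈ range t, x k = Y := rfl
  have hSv : ∑ k ∈ range t, c v k * x k = Y - x v - ((D - L) * x v - 2 * u) := by
    rw [hcsum v x hv, hYd, hBv2]
  have hSi : ∀ i ∈ range t, i ≠ v → ∑ k ∈ range t, c i k * x k = Y - x i - (D - L) * x i := by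
    intro i hi hiv
    rw [hcsum i x hi, hYd, hBi2 i hi hiv]
  -- extreme values
  have hanti := h.anti
  set M : ℝ := x 0 - x v with hM
  set μ : ℝ := x (t - 1) - x v with hμ
  have hup : ∀ k ∈ range t, x k ≤ x v + M := by
    intro k _
    have := hanti (Nat.zero_le k)
    linarith
  have hlo : ∀ k ∈ range t, x v + μ ≤ x k := by
    intro k hk
    have := hanti (show k ≤ t - 1 by have := mem_range.1 hk; omega)
    linarith
  have hM0 : 0 ≤ M := by
    have := hanti (Nat.zero_le v)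
    linarith
  have hμ0 : μ ≤ 0 := by
    rw [hWv] at hxW
    linarith
  -- bounds of weighted sums
  have wup : ∀ i, ∑ k ∈ range t, c i k * x k ≤ (∑ k ∈ range t, c i k) * (x v + M) := by
    intro i
    rw [sum_mul]
    exact sum_le_sum fun k hk => mul_le_mul_of_nonneg_left (hup k hk) (hc0 i k)
  have wlo : ∀ i, (∑ k ∈ range t, c i k) * (x v + μ) ≤ ∑ k ∈ range t, c i k * x k := by
    intro i
    rw [sum_mul]
    exact sum_le_sum fun k hk => mul_le_mul_of_nonneg_left (hlo k hk) (hc0 i k)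
  have hxv : x v = u + ((D : ℝ) - 2) * th ^ 2 * Y := by
    rw [hWv, ← hu] at hG3
    exact hG3
  have hF : L * Y = 2 * (x v - u) := by rw [hxv, hL]; ring
  have hvup := wup v
  have hvlo := wlo v
  rw [hcv] at hvup hvlo
  have hL0 : 0 ≤ L := by
    rw [hL]
    have : (0 : ℝ) ≤ (D : ℝ) - 2 := by linarith
    positivity
  have hL1 : L ≤ 1 := by
    have h1 := h.th1
    have hD6 : 2 * ((D : ℝ) - 2) ≤ (D : ℝ) ^ 6 := by
      have h2 : (1 : ℝ) ≤ D := by linarith
      have h3 : (D : ℝ) ^ 2 ≤ (D : ℝ) ^ 6 := pow_le_pow_right₀ h2 (by norm_num)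
      nlinarith
    have := mul_le_mul_of_nonneg_right hD6 (sq_nonneg th)
    rw [hL]
    linarith
  have hY0 : 0 ≤ Y := by
    rw [← hYd]
    refine sum_nonneg fun k hk => (h.pos k ?_).le
    have := mem_range.1 hk
    omega
  have hLY : 0 ≤ L * Y := mul_nonneg hL0 hY0
  have h1 : (D + 1 - L) * M ≤ L * Y + 4 * M - 2 * μ := by
    by_cases h0 : (0 : ℕ) = v
    · have : M = 0 := by rw [hM, h0]; ring
      rw [this]
      linarith
    · have a1 := hSi 0 (mem_range.2 (by omega)) h0
      have a2 := wlo 0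
      rw [hci 0 (mem_range.2 (by omega)) h0] at a2
      have e1 : (D + 1 - L) * M = (D + 1 - L) * x 0 - (D + 1 - L) * x v := by rw [hM]; ring
      rw [e1]
      linarith
  have h2 : μ = 0 ∨ L * Y + 4 * μ - 2 * M ≤ (D + 1 - L) * μ := by
    by_cases h0 : t - 1 = v
    · left
      rw [hμ, h0]
      ring
    · right
      have a1 := hSi (t - 1) (mem_range.2 (by omega)) h0
      have a2 := wup (t - 1)
      rw [hci (t - 1) (mem_range.2 (by omega)) h0] at a2
      have e1 : (D + 1 - L) * μ = (D + 1 - L) * x (t - 1) - (D + 1 - L) * x v := by rw [hμ]; ring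
      rw [e1]
      linarith
  have h3' : Y ≤ (D + 5 - L) * x v - 2 * u + 4 * M := by linarith
  have huY : ((D : ℝ) + 3) * u ≤ Y := by
    rw [← hYd, ← hcard, sum_mul]
    refine sum_le_sum fun k hk => ?_
    rw [one_mul, hu]
    exact hUx.trans (hanti (mem_range.1 hk).le)
  exact ge2_arith D th L u Y (x v) M μ hDr hL hL1 (hu ▸ hU0) huY hxv hM0 hμ0 h1 h2 h3'

end Pool.Agent.T2H60.SX
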