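import Pool.Agent.T2H60.SX.Defs

/-!
# SX: all the packages as `Prop`s (proofs in words: table `sx_tasks`, column `proof`)
-/

set_option autoImplicit false
open Finset

namespace Pool.Agent.T2H60.SX

/-! ## Graph side -/

/-- parity and connectivity of cuts -/
def G01 : Prop := ∀ (D N : ℕ) (e : ℕ → ℕ → ℕ) (x : ℕ → ℝ) (th : ℝ), SG D N e x th →
  ∀ t, 1 ≤ t → t ≤ N → Even (cut N e t) ∧ 2 ≤ cut N e t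

/-- flow identity -/
def G02 : Prop := ∀ (D N : ℕ) (e : ℕ → ℕ → ℕ) (x : ℕ → ℝ) (th : ℝ), SG D N e x th →
  ∀ A ⊆ range N, ∑ i ∈ A, ∑ k ∈ range (N + 2) \ A, (e i k : ℝ) * (x i - x k)
    = 2 * ((D : ℝ) - 2) * th ^ 2 * ∑ i ∈ A, x i

/-- `w = u + (D-2) th^2 Y` -/
def G03 : Prop := ∀ (D N : ℕ) (e : ℕ → ℕ → ℕ) (x : ℕ → ℝ) (th : ℝ), SG D N e x th →
  ∀ t, t ≤ N → Wh N e x t = Uh N e x t + ((D : ℝ) - 2) * th ^ 2 * Ys x t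

/-- potential drop over a cut -/
def G04 : Prop := ∀ (D N : ℕ) (e : ℕ → ℕ → ℕ) (x : ℕ → ℝ) (th : ℝ), SG D N e x th →
  ∀ t, 1 ≤ t → t ≤ N → (x (t - 1) - x t) * (cut N e t : ℝ) ≤ 2 * ((D : ℝ) - 2) * th ^ 2 * Ys x t

/-- two cuts at a small distance `d` -/
def G05 : Prop := ∀ (D N : ℕ) (e : ℕ → ℕ → ℕ) (x : ℕ → ℝ) (th : ℝ), SG D N e x th →
  ∀ i d, d ≤ D + 1 → i + d ≤ N → d * (D + 1 - d) ≤ cut N e i + cut N e (i + d)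

/-- cuts of size two -/
def G06 : Prop := ∀ (D N : ℕ) (e : ℕ → ℕ → ℕ) (x : ℕ → ℝ) (th : ℝ), SG D N e x th →
  ∀ t, 1 ≤ t → t ≤ N → cut N e t = 2 → 0 ≤ Uh N e x t ∧ Uh N e x t ≤ x t ∧ x (t - 1) ≤ Wh N e x t

/-- dense window: the sum of the reciprocals of the cuts -/
def GD : Prop := ∀ (D N : ℕ) (e : ℕ → ℕ → ℕ) (x : ℕ → ℝ) (th : ℝ), SG D N e x th →
  ∀ t' t, t ≤ N → t < t' + 2 * (D + 1) → (∀ i, t' < i → i < t → D ≤ 2 * cut N e i) →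
    2 * ((D : ℝ) - 2) * ∑ i ∈ Ioo t' t, 1 / (cut N e i : ℝ) ≤ (D : ℝ) / 20000

/-- a state: its value is between the values on both sides -/
def GS : Prop := ∀ (D N : ℕ) (e : ℕ → ℕ → ℕ) (x : ℕ → ℝ) (th : ℝ), SG D N e x th →
  ∀ t τ u, St D N e x t τ u →
    0 ≤ u ∧ u ≤ x t ∧ x (t - 1) ≤ u + cutc D τ * th ^ 2 * Ys x t

/-- dense transitions and dense ends -/
def GDT : Prop := ∀ (D N : ℕ) (e : ℕ → ℕ → ℕ) (x : ℕ → ℝ) (th : ℝ), SG D N e x th →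
  ∀ t τ u, St D N e x t τ u →
    (∀ t' τ' u', St D N e x t' τ' u' → t' < t → t < t' + 2 * (D + 1) →
      (∀ i, t' < i → i < t → D ≤ 2 * cut N e i) →
      MS th (t - t') (cutc D τ + (D : ℝ) / 20000) 0 (((t - t' : ℕ) : ℝ) * (cutc D τ + (D : ℝ) / 20000))
        u' (Ys x t') u (Ys x t)) ∧
    (t < 2 * (D + 1) → (∀ i, 0 < i → i < t → D ≤ 2 * cut N e i) →
      Ys x t ≤ (t : ℝ) * u + th ^ 2 * (((t : ℝ) * (cutc D τ + (D : ℝ) / 20000)) * Ys x t))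

/-- near-complete block `B = [t', t)` of `D + 1 + j` vertices: values in the block.
`p_l` and `d_h` are the flows into `l` from above and out of `h` to below. -/
def GN : Prop := ∀ (D N : ℕ) (e : ℕ → ℕ → ℕ) (x : ℕ → ℝ) (th : ℝ), SG D N e x th →
  ∀ t' j : ℕ, 1000 * j ≤ D → t' + (D + 1 + j) ≤ N → (t' = 0 ∨ (D + 1 ≤ t' ∧ cut N e t' = 2)) →
    cut N e (t' + (D + 1 + j)) = 2 →
    (D + 1 ≤ t' → ∀ l h, t' ≤ l → l < t' + (D + 1 + j) → t' ≤ h → h < t' + (D + 1 + j) →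
      x l - x h ≤ ((∑ z ∈ range t', (e z l : ℝ) * (x z - x l))
          + ∑ k ∈ Ico (t' + (D + 1 + j)) (N + 2), (e h k : ℝ) * (x h - x k)) / ((D : ℝ) - 4)
        + th ^ 2 * Ys x (t' + (D + 1 + j)) * ((7 * (j : ℝ) + 60) / (D : ℝ))) ∧
    (∀ h, t' ≤ h → h < t' + (D + 1 + j) →
      ∑ i ∈ Ico t' (t' + (D + 1 + j)), x i ≤ ((D : ℝ) + 1 + j) * (x h
        + (∑ k ∈ Ico (t' + (D + 1 + j)) (N + 2), (e h k : ℝ) * (x h - x k)) / ((D : ℝ) - 4)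
        + th ^ 2 * Ys x (t' + (D + 1 + j)) * ((7 * (j : ℝ) + 60) / (D : ℝ))))

/-- number of bypass edges of the block `[t', t)` -/
def byp (N : ℕ) (e : ℕ → ℕ → ℕ) (t' t : ℕ) : ℕ := ∑ i ∈ range t', ∑ k ∈ Ico t (N + 2), e i k

/-- near-complete transitions -/
def GNT : Prop := ∀ (D N : ℕ) (e : ℕ → ℕ → ℕ) (x : ℕ → ℝ) (th : ℝ), SG D N e x th →
  ∀ t' j : ℕ, ∀ τ' τ u' u, 1000 * j ≤ D → St D N e x t' τ' u' → St D N e x (t' + (D + 1 + j)) τ u →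
    τ'.is2 → τ.is2 →
    (byp N e t' (t' + (D + 1 + j)) = 0 ∧
      ∃ cR : ℝ, (cR = 1 ∨ (cR = 2 ∧ τ' = Ty.mi)) ∧
        MS th (D + 1 + j) ((D : ℝ) - 2 + cL τ + eta D j) (cR + eta D j)
          (((D : ℝ) + 1 + j) * ((D : ℝ) - 2 + cL τ + eta D j) + 5)
          u' (Ys x t') u (Ys x (t' + (D + 1 + j)))) ∨
    (byp N e t' (t' + (D + 1 + j)) = 1 ∧ τ = Ty.mi ∧
        MS th (D + 1 + j) ((D : ℝ) - 2) 0 (((D : ℝ) + 1 + j) * ((D : ℝ) + eta D j) + 5)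
          u' (Ys x t') u (Ys x (t' + (D + 1 + j))))

/-- near-complete end -/
def GNE : Prop := ∀ (D N : ℕ) (e : ℕ → ℕ → ℕ) (x : ℕ → ℝ) (th : ℝ), SG D N e x th →
  ∀ j : ℕ, ∀ τ u, 1000 * j ≤ D → St D N e x (D + 1 + j) τ u → τ.is2 →
    Ys x (D + 1 + j) ≤ ((D : ℝ) + 1 + j) * u
      + th ^ 2 * ((((D : ℝ) + 1 + j) * ((D : ℝ) - 2 + cL τ + eta D j) + 5) * Ys x (D + 1 + j))

/-- a block of exactly `D + 1` vertices without bypass edges: the five structures.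
`up e t' v` and `dn N e t v` are the numbers of edges from `v` to above and to below the block. -/
def Cls (D N : ℕ) (e : ℕ → ℕ → ℕ) (t' : ℕ) : Prop :=
  -- I
  (∃ v ∈ Ico t' (t' + (D + 1)), ∃ a ∈ Ico t' (t' + (D + 1)), ∃ b ∈ Ico t' (t' + (D + 1)),
    v ≠ a ∧ v ≠ b ∧ a ≠ b ∧ dn N e (t' + (D + 1)) v = 2 ∧ up e t' a = 1 ∧ up e t' b = 1 ∧
    (∀ y ∈ Ico t' (t' + (D + 1)), y ≠ v → dn N e (t' + (D + 1)) y = 0) ∧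
    (∀ y ∈ Ico t' (t' + (D + 1)), y ≠ a → y ≠ b → up e t' y = 0) ∧
    (∀ y ∈ Ico t' (t' + (D + 1)), ∀ z ∈ Ico t' (t' + (D + 1)), y ≠ z →
      (e y z = 0 ↔ (y = v ∧ (z = a ∨ z = b)) ∨ (z = v ∧ (y = a ∨ y = b))))) ∨
  -- II
  (∃ c ∈ Ico t' (t' + (D + 1)), ∃ w ∈ Ico t' (t' + (D + 1)), ∃ w' ∈ Ico t' (t' + (D + 1)),
    c ≠ w ∧ c ≠ w' ∧ w ≠ w' ∧ up e t' c = 2 ∧ dn N e (t' + (D + 1)) w = 1 ∧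
    dn N e (t' + (D + 1)) w' = 1 ∧
    (∀ y ∈ Ico t' (t' + (D + 1)), y ≠ c → up e t' y = 0) ∧
    (∀ y ∈ Ico t' (t' + (D + 1)), y ≠ w → y ≠ w' → dn N e (t' + (D + 1)) y = 0) ∧
    (∀ y ∈ Ico t' (t' + (D + 1)), ∀ z ∈ Ico t' (t' + (D + 1)), y ≠ z →
      (e y z = 0 ↔ (y = c ∧ (z = w ∨ z = w')) ∨ (z = c ∧ (y = w ∨ y = w'))))) ∨
  -- III and IV
  (∃ a ∈ Ico t' (t' + (D + 1)), ∃ b ∈ Ico t' (t' + (D + 1)), ∃ w ∈ Ico t' (t' + (D + 1)),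
    ∃ w' ∈ Ico t' (t' + (D + 1)), a ≠ b ∧ w ≠ w' ∧ a ≠ w ∧ a ≠ w' ∧ b ≠ w ∧ b ≠ w' ∧
    up e t' a = 1 ∧ up e t' b = 1 ∧
    dn N e (t' + (D + 1)) w = 1 ∧ dn N e (t' + (D + 1)) w' = 1 ∧
    (∀ y ∈ Ico t' (t' + (D + 1)), y ≠ a → y ≠ b → up e t' y = 0) ∧
    (∀ y ∈ Ico t' (t' + (D + 1)), y ≠ w → y ≠ w' → dn N e (t' + (D + 1)) y = 0) ∧
    ((∀ y ∈ Ico t' (t' + (D + 1)), ∀ z ∈ Ico t' (t' + (D + 1)), y ≠ z →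
      (e y z = 0 ↔ (y = a ∧ z = b) ∨ (y = b ∧ z = a) ∨ (y = w ∧ z = w') ∨ (y = w' ∧ z = w))) ∨
     (∀ y ∈ Ico t' (t' + (D + 1)), ∀ z ∈ Ico t' (t' + (D + 1)), y ≠ z →
      (e y z = 0 ↔ (y = a ∧ z = w) ∨ (y = w ∧ z = a) ∨ (y = b ∧ z = w') ∨ (y = w' ∧ z = b))))) ∨
  -- V
  (∃ c ∈ Ico t' (t' + (D + 1)), ∃ b ∈ Ico t' (t' + (D + 1)), ∃ w ∈ Ico t' (t' + (D + 1)),
    c ≠ b ∧ c ≠ w ∧ b ≠ w ∧ up e t' c = 1 ∧ up e t' b = 1 ∧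
    dn N e (t' + (D + 1)) c = 1 ∧ dn N e (t' + (D + 1)) w = 1 ∧
    (∀ y ∈ Ico t' (t' + (D + 1)), y ≠ c → y ≠ b → up e t' y = 0) ∧
    (∀ y ∈ Ico t' (t' + (D + 1)), y ≠ c → y ≠ w → dn N e (t' + (D + 1)) y = 0) ∧
    (∀ y ∈ Ico t' (t' + (D + 1)), ∀ z ∈ Ico t' (t' + (D + 1)), y ≠ z →
      (e y z = 0 ↔ (y = c ∧ (z = b ∨ z = w)) ∨ (z = c ∧ (y = b ∨ y = w)))))

/-- the classification -/
def GC : Prop := ∀ (D N : ℕ) (e : ℕ → ℕ → ℕ) (x : ℕ → ℝ) (th : ℝ), SG D N e x th →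
  ∀ t' : ℕ, 1 ≤ t' → t' + (D + 1) ≤ N → cut N e t' = 2 → cut N e (t' + (D + 1)) = 2 →
    byp N e t' (t' + (D + 1)) = 0 → Cls D N e t'

/-- blocks of exactly `D + 1` vertices without bypass edges -/
def GP0 : Prop := ∀ (D N : ℕ) (e : ℕ → ℕ → ℕ) (x : ℕ → ℝ) (th : ℝ), SG D N e x th →
  ∀ t' : ℕ, ∀ τ' τ u' u, St D N e x t' τ' u' → St D N e x (t' + (D + 1)) τ u →
    τ'.is2 → τ.is2 → byp N e t' (t' + (D + 1)) = 0 →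
    (τ = Ty.pl ∧ (u, th * Ys x (t' + (D + 1))) = M1 D th (u', th * Ys x t')) ∨
    (τ = Ty.mi ∧ τ' = Ty.mi ∧ (u, th * Ys x (t' + (D + 1))) = M2 D th (u', th * Ys x t')) ∨
    (τ = Ty.mi ∧
      (MS th (D + 1) ((D : ℝ) - 2 + (((D : ℝ) - 2) / ((D : ℝ) - 1) + 1 / (D : ℝ) ^ 4))
        (((D : ℝ) - 2) / ((D : ℝ) - 1) + 1 / (D : ℝ) ^ 4)
        (((D : ℝ) + 1) * ((D : ℝ) - 2 + (((D : ℝ) - 2) / ((D : ℝ) - 1) + 1 / (D : ℝ) ^ 4)))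
        u' (Ys x t') u (Ys x (t' + (D + 1))) ∨
       MS th (D + 1) ((D : ℝ) - 2 + (((D : ℝ) - 2) / (D : ℝ) + 1 / (D : ℝ) ^ 4))
        (((D : ℝ) - 2) / (D : ℝ) + 1 / (D : ℝ) ^ 4)
        (((D : ℝ) + 1) * ((D : ℝ) - 2) + (D : ℝ) + 2)
        u' (Ys x t') u (Ys x (t' + (D + 1)))))

/-- the end block of exactly `D + 1` vertices -/
def GK : Prop := ∀ (D N : ℕ) (e : ℕ → ℕ → ℕ) (x : ℕ → ℝ) (th : ℝ), SG D N e x th →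
  ∀ τ u, St D N e x (D + 1) τ u → τ.is2 →
    τ = Ty.mi ∧ Ys x (D + 1) ≤ ((D : ℝ) + 1) * u
      + th ^ 2 * ((((D : ℝ) - 2) * ((D : ℝ) + 2)) * Ys x (D + 1))

/-- the end block of `D + 3` vertices -/
def GE2 : Prop := ∀ (D N : ℕ) (e : ℕ → ℕ → ℕ) (x : ℕ → ℝ) (th : ℝ), SG D N e x th →
  ∀ u, St D N e x (D + 3) Ty.pl u →
    Ys x (D + 3) ≤ ((D : ℝ) + 3) * u
      + th ^ 2 * ((((D : ℝ) + 3) * ((D : ℝ) - 2) + 2 * ((D : ℝ) + 2) + 300 / (D : ℝ)) * Ys x (D + 3)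
        - 2 * ((D : ℝ) + 2) * u)

/-! ## The abstract chain of states -/

def Stp (D : ℕ) (th : ℝ) (S : ℕ → Ty → ℝ → Prop) (Y : ℕ → ℝ) (t : ℕ) (τ : Ty) (u : ℝ) : Prop :=
  (∃ G G', EndP D τ t G G' ∧ Y t ≤ (t : ℝ) * u + th ^ 2 * (G * Y t - G' * u)) ∨
  ∃ t' τ' u', t' < t ∧ S t' τ' u' ∧
    ((τ = Ty.pl ∧ τ'.is2 ∧ t = t' + (D + 1) ∧ (u, th * Y t) = M1 D th (u', th * Y t')) ∨
     (τ = Ty.mi ∧ τ' = Ty.mi ∧ t = t' + (D + 1) ∧ (u, th * Y t) = M2 D th (u', th * Y t')) ∨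
     (∃ a c G, Tr D τ' τ (t - t') a c G ∧ MS th (t - t') a c G u' (Y t') u (Y t)))

structure Ch (D N : ℕ) (th : ℝ) (S : ℕ → Ty → ℝ → Prop) (Y : ℕ → ℝ) : Prop where
  th0 : 0 < th
  th1 : (D : ℝ) ^ 6 * th ^ 2 ≤ 1
  rng : ∀ t τ u, S t τ u → D + 1 ≤ t ∧ t ≤ N
  unn : ∀ t τ u, S t τ u → 0 ≤ u
  Yp : ∀ t, 1 ≤ t → 0 < Y t
  stp : ∀ t τ u, S t τ u → Stp D th S Y t τ u
  idl : ∀ t u u', S t Ty.pl u → S (t - (D + 1)) Ty.pl u' →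
    (u, th * Y t) = M1 D th (u', th * Y (t - (D + 1)))
  lst : S N Ty.pl 0

/-- the graph side gives a chain -/
def GCh : Prop := ∀ (D N : ℕ) (e : ℕ → ℕ → ℕ) (x : ℕ → ℝ) (th : ℝ), SG D N e x th → D + 1 ≤ N →
  Ch D N th (St D N e x) (Ys x)

/-! ## Analysis side: T-level -/

/-- a transition at T-level -/
def TS : Prop := ∀ B : ℝ, 0 < B → ∃ C > 0, ∃ th0 > 0, ∀ th : ℝ, 0 < th → th ≤ th0 →
  ∀ s m Q a c G u' Y' u Y : ℝ, 1 ≤ s → s ≤ B → 0 ≤ m → m ≤ B → |Q| ≤ B → 0 ≤ a → a ≤ B → 0 ≤ c → c ≤ B →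
    0 ≤ G → G ≤ B → 0 ≤ u' → 0 ≤ Y' → 0 ≤ u → 0 ≤ Y →
    Y' ≤ u' * (s + th ^ 2 * Q + B * th ^ 4) →
    u' ≤ u + th ^ 2 * (a * Y + c * Y') → Y ≤ Y' + m * u + th ^ 2 * G * Y →
    Y ≤ u * ((s + m) + th ^ 2 * (Q + s * (a * (s + m) + c * s) + G * (s + m)) + C * th ^ 4)

/-- an end at T-level -/
def TE : Prop := ∀ B : ℝ, 0 < B → ∃ C > 0, ∃ th0 > 0, ∀ th : ℝ, 0 < th → th ≤ th0 →
  ∀ m G G' u Y : ℝ, 0 ≤ m → m ≤ B → 0 ≤ G → G ≤ B → 0 ≤ G' → G' ≤ B → 0 ≤ u → 0 ≤ Y →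
    Y ≤ m * u + th ^ 2 * (G * Y - G' * u) →
    Y ≤ u * (m + th ^ 2 * (G * m - G') + C * th ^ 4)

/-- ideal blocks at T-level -/
def TI : Prop := ∀ D : ℕ, 10 ^ 14 ≤ D → ∀ B : ℝ, 0 < B → ∃ C > 0, ∃ th0 > 0, ∀ th : ℝ, 0 < th → th ≤ th0 →
  ∀ s Q u' Y' u Y : ℝ, 1 ≤ s → s ≤ B → |Q| ≤ B → 0 ≤ u' → 0 ≤ Y' →
    Y' ≤ u' * (s + th ^ 2 * Q + B * th ^ 4) →
    ((u, th * Y) = M1 D th (u', th * Y') →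
      Y ≤ u * ((s + ((D : ℝ) + 1)) + th ^ 2 * (Q + (((D : ℝ) - 2) * (s + ((D : ℝ) + 1)) ^ 2 + (s + 2) ^ 2
        + 2 * (s + (D : ℝ)) ^ 2)) + C * th ^ 4)) ∧
    ((u, th * Y) = M2 D th (u', th * Y') →
      Y ≤ u * ((s + ((D : ℝ) + 1)) + th ^ 2 * (Q + (((D : ℝ) - 2) * (s + ((D : ℝ) + 1)) ^ 2 + 2 * (s + 1) ^ 2
        + (s + (D : ℝ) - 1) ^ 2)) + C * th ^ 4))

/-- numbers: transitions -/
def NT : Prop := ∀ D : ℕ, 10 ^ 14 ≤ D → ∀ τ' τ m a c G, Tr D τ' τ m a c G →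
  (D + 1 ≤ m ∧ m < 2 * (D + 1) ∧ 0 ≤ a ∧ a ≤ 2 * (D : ℝ) ∧ 0 ≤ c ∧ c ≤ 3 ∧ 0 ≤ G ∧ G ≤ 3 * (D : ℝ) ^ 2) ∧
  1 / (D : ℝ) ≤ (m : ℝ) + al D τ - al D τ' - a - c ∧
  ∀ s : ℝ, (D : ℝ) + 1 ≤ s →
    (q D τ' s + Rc D τ' + s * (a * (s + m) + c * s) + G * (s + m) ≤ q D τ (s + m) + Rc D τ) ∧
    (τ = Ty.pl → q D τ' s + Rc D τ' + s * (a * (s + m) + c * s) + G * (s + m) ≤ q D τ (s + m) + tgt D)

/-- numbers: ends and ideal blocks -/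
def NE : Prop := ∀ D : ℕ, 10 ^ 14 ≤ D →
  (∀ τ m G G', EndP D τ m G G' → D + 1 ≤ m ∧ m < 2 * (D + 1) ∧ 0 ≤ G ∧ G ≤ 3 * (D : ℝ) ^ 2 ∧ 0 ≤ G' ∧
    G' ≤ 3 * (D : ℝ) ∧ G * m - G' ≤ q D τ m + Rc D τ ∧
    (τ = Ty.pl → m % (D + 1) = 2 → G * m - G' ≤ q D τ m + tgt D)) ∧
  (∀ s : ℝ, q D Ty.pl (s + ((D : ℝ) + 1)) = q D Ty.pl s + (((D : ℝ) - 2) * (s + ((D : ℝ) + 1)) ^ 2
    + (s + 2) ^ 2 + 2 * (s + (D : ℝ)) ^ 2)) ∧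
  (∀ s : ℝ, q D Ty.mi (s + ((D : ℝ) + 1)) = q D Ty.mi s + (((D : ℝ) - 2) * (s + ((D : ℝ) + 1)) ^ 2
    + 2 * (s + 1) ^ 2 + (s + (D : ℝ) - 1) ^ 2)) ∧
  (∀ s : ℝ, (D : ℝ) + 1 ≤ s → q D Ty.mi s + Rc D Ty.mi + (((D : ℝ) - 2) * (s + ((D : ℝ) + 1)) ^ 2
    + (s + 2) ^ 2 + 2 * (s + (D : ℝ)) ^ 2) ≤ q D Ty.pl (s + ((D : ℝ) + 1)) + tgt D) ∧
  tgt D ≤ 0 ∧ tgt D + q D Ty.pl 2 ≤ 5 / 8 * (D : ℝ)

/-- T-level: all the states -/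
def TL : Prop := ∀ D : ℕ, 10 ^ 14 ≤ D → ∀ K : ℕ, ∃ C > 0, ∃ th0 > 0,
  ∀ N th S Y, Ch D N th S Y → th ≤ th0 → ∀ t τ u, t ≤ K → S t τ u →
    Y t ≤ u * ((t : ℝ) + th ^ 2 * (q D τ t + Rc D τ) + C * th ^ 4)

/-- T-level: `pl` states that do not come from a `pl` state by an ideal block -/
def TLF : Prop := ∀ D : ℕ, 10 ^ 14 ≤ D → ∀ K : ℕ, ∃ C > 0, ∃ th0 > 0,
  ∀ N th S Y, Ch D N th S Y → th ≤ th0 → ∀ t u, t ≤ K → S t Ty.pl u → t % (D + 1) = 2 →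
    (¬ ∃ u', S (t - (D + 1)) Ty.pl u') →
    Y t ≤ u * ((t : ℝ) + th ^ 2 * (q D Ty.pl t + tgt D) + C * th ^ 4)

/-! ## Analysis side: frames -/

noncomputable def Mx (D : ℕ) (th : ℝ) (τ : Ty) : ℝ × ℝ → ℝ × ℝ := if τ = Ty.pl then M1 D th else M2 D th
noncomputable def bq (D : ℕ) (th : ℝ) (τ : Ty) : ℝ := - (Mx D th τ (0, 1)).1
noncomputable def ed (D : ℕ) (th : ℝ) (τ : Ty) : ℝ := ((Mx D th τ (0, 1)).2 - (Mx D th τ (1, 0)).1) / 2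
noncomputable def chi (D : ℕ) (th : ℝ) : ℝ :=
  Real.arccos (((M1 D th (0, 1)).2 + (M1 D th (1, 0)).1) / 2)

/-- second coordinate of the frame vector of type `τ` at angle `ψ` (the first one is `cos ψ`) -/
noncomputable def hZ (D : ℕ) (th : ℝ) (τ : Ty) (ψ : ℝ) : ℝ :=
  match τ with
  | Ty.pl => (Real.sin (chi D th) * Real.sin ψ - ed D th Ty.pl * Real.cos ψ) / bq D th Ty.pl
  | Ty.mi => (Real.sin (chi D th) * Real.sin ψ - ed D th Ty.mi * Real.cos ψ) / bq D th Ty.mi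
  | Ty.fo => Real.sin ψ - th * al D Ty.fo * Real.cos ψ
  | Ty.ce => Real.sin ψ

noncomputable def psi (D : ℕ) (th : ℝ) (τ : Ty) (t C : ℝ) : ℝ :=
  chi D th / ((D : ℝ) + 1) * t + th * al D τ + C * th ^ 3

/-- size of the frame constants -/
def FX : Prop := ∀ D : ℕ, 10 ^ 14 ≤ D → ∃ C > 0, ∃ th0 > 0, ∀ th : ℝ, 0 < th → th ≤ th0 →
  |chi D th / ((D : ℝ) + 1) - th| ≤ C * th ^ 3 ∧ 0 < chi D th ∧ chi D th < 1 / 10 ∧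
  ∀ τ : Ty, τ.is2 → 0 < bq D th τ ∧ 0 ≤ ed D th τ ∧ |Real.sin (chi D th) / bq D th τ - 1| ≤ C * th ^ 2 ∧
    |ed D th τ / bq D th τ - th * al D τ| ≤ C * th ^ 3

/-- the ideal blocks rotate the frames by `chi`, and preserve the determinant -/
def FR : Prop := ∀ D : ℕ, 10 ^ 14 ≤ D → ∃ th0 > 0, ∀ th : ℝ, 0 < th → th ≤ th0 →
  (∀ τ : Ty, τ.is2 → ∀ r ψ : ℝ, Mx D th τ (r * Real.cos ψ, r * hZ D th τ ψ)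
    = (r * Real.cos (ψ + chi D th), r * hZ D th τ (ψ + chi D th))) ∧
  (∀ τ : Ty, ∀ v w : ℝ × ℝ, (Mx D th τ v).1 * (Mx D th τ w).2 - (Mx D th τ v).2 * (Mx D th τ w).1
    = v.1 * w.2 - v.2 * w.1)

/-- the step inequality -/
def FS : Prop := ∀ D : ℕ, 10 ^ 14 ≤ D → ∀ sg : ℝ, 0 ≤ sg → ∃ s1 > 0, ∃ th0 > 0,
  ∀ th : ℝ, 0 < th → th ≤ th0 → ∀ (τ' τ : Ty) (m a c G : ℝ), 0 ≤ m → m ≤ 2 * ((D : ℝ) + 1) →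
    0 ≤ a → a ≤ 2 * (D : ℝ) → 0 ≤ c → c ≤ 3 → 0 ≤ G → G ≤ 3 * (D : ℝ) ^ 2 →
    1 / (D : ℝ) ≤ m + al D τ - al D τ' - a - c →
    ∀ ψ' ψ sg' : ℝ, 0 ≤ sg' → sg' ≤ sg → th * s1 ≤ ψ' → ψ < Real.pi / 2 →
    ψ = ψ' + chi D th / ((D : ℝ) + 1) * m + th * (al D τ - al D τ') - sg' * th ^ 3 →
    0 < hZ D th τ' ψ' ∧ 0 < hZ D th τ ψ ∧ 0 < Real.cos ψ' - th * c * hZ D th τ' ψ' ∧ 0 < Real.cos ψ' ∧
    Real.cos ψ * (hZ D th τ' ψ' + th * m * (Real.cos ψ' - th * c * hZ D th τ' ψ')) ≤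
      hZ D th τ ψ * ((1 - th ^ 2 * G) * (Real.cos ψ' - th * c * hZ D th τ' ψ') - th * a * hZ D th τ' ψ')

/-- algebra of a step -/
def FA : Prop := ∀ th m a c G u' Y' u Y U Z U' Z' : ℝ, 0 < th → 0 ≤ m → 0 ≤ a → 0 ≤ c → 0 ≤ G →
  0 ≤ u' → 0 < Y' → 0 ≤ u → 0 < Y → 0 < U → 0 < Z → 0 < U' → 0 < Z' → 0 < U' - th * c * Z' →
  U * (Z' + th * m * (U' - th * c * Z')) ≤ Z * ((1 - th ^ 2 * G) * (U' - th * c * Z') - th * a * Z') →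
  u' ≤ u + th ^ 2 * (a * Y + c * Y') → Y ≤ Y' + m * u + th ^ 2 * G * Y →
  th * Y' * U' ≤ u' * Z' → th * Y * U ≤ u * Z

/-- the bulk claim for a state -/
def Cl (D : ℕ) (th : ℝ) (τ : Ty) (t C u Y : ℝ) : Prop :=
  th * Y * Real.cos (psi D th τ t C) ≤ u * hZ D th τ (psi D th τ t C)

/-- from the T-level to the bulk -/
def FB : Prop := ∀ D : ℕ, 10 ^ 14 ≤ D → ∀ K : ℕ, ∃ Cs > 0, ∀ C : ℝ, 0 < C → ∃ th0 > 0,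
  ∀ th : ℝ, 0 < th → th ≤ th0 → ∀ (τ : Ty) (t : ℕ) (u Y : ℝ), t ≤ K → 0 ≤ u → 0 ≤ Y →
    Y ≤ u * ((t : ℝ) + th ^ 2 * (q D τ t + Rc D τ) + C * th ^ 4) → Cl D th τ t Cs u Y

/-- the bulk claim for all states -/
def BL : Prop := ∀ D : ℕ, 10 ^ 14 ≤ D → ∃ (s0 : ℕ) (Cs : ℝ), 0 < Cs ∧ ∃ N0 : ℕ,
  ∀ N th S Y, N0 ≤ N → Ch D N th S Y → th * N ≤ 14 / 5 → ∀ t τ u, s0 ≤ t → S t τ u →
    Cl D th τ t Cs u (Y t)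

/-- the bulk claim with a gain for `pl` states that do not come from a `pl` state -/
def BLF : Prop := ∀ D : ℕ, 10 ^ 14 ≤ D → ∀ C4 : ℝ, 0 < C4 → ∃ K1 N0 : ℕ,
  ∀ N th S Y, N0 ≤ N → Ch D N th S Y → th * N ≤ 14 / 5 → ∀ t u, K1 ≤ t → S t Ty.pl u →
    (¬ ∃ u', S (t - (D + 1)) Ty.pl u') → Cl D th Ty.pl t (-C4) u (Y t)

/-! ## The comparison graph, analysis -/

/-- the virtual vector -/
def VV : Prop := ∀ D : ℕ, 10 ^ 14 ≤ D → ∃ C > 0, ∃ th0 > 0, ∀ th : ℝ, 0 < th → th ≤ th0 →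
  ∃ kp > 0, ∃ Kt : ℝ, 2 + 3 / 4 * (D : ℝ) * th ^ 2 ≤ Kt ∧ Kt ≤ 2 + C * th ^ 2 ∧
    ∀ NA : ℕ, gA D th NA = kp * ((M1 D th)^[NA + 1] (1, th * Kt)).1

/-- the angle of the virtual vector -/
def VA : Prop := ∀ D : ℕ, 10 ^ 14 ≤ D → ∀ C : ℝ, 0 < C → ∃ C4 > 0, ∃ th0 > 0,
  ∀ th : ℝ, 0 < th → th ≤ th0 → ∀ Kt : ℝ, 2 ≤ Kt → Kt ≤ 2 + C * th ^ 2 →
    ∃ r > 0, ∃ ph : ℝ, 2 * (chi D th / ((D : ℝ) + 1)) + th * al D Ty.pl - C4 * th ^ 3 ≤ ph ∧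
      0 < ph ∧ ph ≤ th * ((D : ℝ) + 3) ∧ ((1 : ℝ), th * Kt) = (r * Real.cos ph, r * hZ D th Ty.pl ph)

/-- the comparison graph at `th = 14/5/N` -/
def AH : Prop := ∀ D : ℕ, 10 ^ 14 ≤ D → ∃ N0 : ℕ, ∀ N : ℕ, N0 ≤ N → N % (D + 1) = 2 →
  gA D (14 / 5 / (N : ℝ)) ((N - 2) / (D + 1) - 1) ≤ 0

/-- the main comparison -/
def AM : Prop := ∀ D : ℕ, 10 ^ 14 ≤ D → ∃ N0 : ℕ, ∀ N : ℕ, N0 ≤ N → N % (D + 1) = 2 →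
  ∀ th S Y, Ch D N th S Y → th * N ≤ 14 / 5 → gA D th ((N - 2) / (D + 1) - 1) ≤ 0

end Pool.Agent.T2H60.SX
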