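import Pool.Agent.T2H60.SX.Stm

/-!
# SX: the packages about simple graphs (H-part)
-/

set_option autoImplicit false
open Matrix Classical Finset

namespace Pool.Agent.T2H60.SX

/-- spectral radius, as in the frozen statement -/
noncomputable def specS {n : ℕ} (H : SimpleGraph (Fin n)) : ℝ :=
  sSup {r : ℝ | ∃ x : Fin n → ℝ, x ⬝ᵥ x = 1 ∧ r = x ⬝ᵥ (H.adjMatrix ℝ *ᵥ x)}

/-- the comparison graph -/
def HA : Prop := ∀ D NA n : ℕ, 10 ^ 14 ≤ D → Even D → n = (NA + 1) * (D + 1) + 2 →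
  ∃ G : SimpleGraph (Fin n), G.Connected ∧ G.maxDegree = D ∧ (∃ v, G.degree v = 2) ∧
    ∀ th : ℝ, 0 < th → (D : ℝ) ^ 6 * th ^ 2 ≤ 1 → gA D th NA ≤ 0 →
      (D : ℝ) - 2 * ((D : ℝ) - 2) * th ^ 2 ≤ specS G

/-- the extremal graph gives an `SG` -/
def HG : Prop := ∀ D N : ℕ, 10 ^ 14 ≤ D → Even D → ∀ H : SimpleGraph (Fin N), H.Connected →
  (∃ v, H.degree v = D - 2 ∧ ∀ u, u ≠ v → H.degree u = D) →
  specS H < (D : ℝ) ∧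
  ∀ th : ℝ, 0 < th → (D : ℝ) ^ 6 * th ^ 2 ≤ 1 → specS H = (D : ℝ) - 2 * ((D : ℝ) - 2) * th ^ 2 →
    ∃ (e : ℕ → ℕ → ℕ) (x : ℕ → ℝ), SG D N e x th

end Pool.Agent.T2H60.SX
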